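import Pool.Agent.BSL.Targets

/-!
# BSL: composition of the targets
-/

set_option autoImplicit false

open Polynomial Metric Set Filter Topology

noncomputable section

namespace Pool.Agent.BSL

open Pool.Agent.MAT

theorem bounded_UU {P : ℂ[X]} {z₀ : ℂ} {R : ℝ} (hB : BF P z₀) (hO : OmF P R) :
    Bornology.IsBounded (UU P z₀) := by
  refine (isBounded_ball (x := (0 : ℂ)) (r := R)).subset ?_
  intro z hz
  rw [mem_ball_zero_iff]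
  by_contra hlt
  have hz' : z ∈ Om P := (hO.iff z).2 ⟨0, not_lt.1 hlt⟩
  have h1 : Tendsto (fun m : ℕ => (pm P)^[m] z) atTop (𝓝 z₀) := hB.sub hz
  exact not_tendsto_nhds_of_tendsto_atTop hz' _ h1.norm

/-- the main theorem, from the targets -/
theorem main (hBAS : T_BAS) (hESC : T_ESC) (hPRI : T_PRI) (hRMP : T_RMP) (hBLK : T_BLK)
    (hBOD : T_BOD) (hEXA : T_EXA) (hEXB : T_EXB) (hOBX : T_OBX) (hXXF : T_XXF) (hKKF : T_KKF)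
    (hSHC : T_SHC) (hDNS : T_DNS) (hSHU : T_SHU) (hNBX : T_NBX) (hEXS : T_EXS) (hEXO : T_EXO)
    (hPSE : T_PSE) (hPHE : T_PHE) (hPIN : T_PIN) (hSIN : T_SIN) (hCNV : T_CNV) (hFIN : T_FIN)
    (n : ℕ) (hn : 2 ≤ n) :
    HypPoly n ⊆ {q | ∃ (B : ℂ → ℂ) (b : ℂ), Marked n B b ∧
      Mates n (fun z => z ^ n) 1 B b q} := by
  rintro q ⟨x, rfl, hx, z₀, hz0, hfix, hatt, hcrit⟩
  obtain ⟨v, hv, hden, hP⟩ := hCNV n x z₀ hn hx hfix hatt hcrit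
  set P : ℂ[X] := C v⁻¹ * x.num with hPdef
  have hB := hBAS n P z₀ hP
  obtain ⟨R, hO⟩ := hESC P (by rw [hP.deg]; exact hn)
  have hPr := hPRI n P z₀ R hP hB hO
  obtain ⟨ψ, h, hR⟩ := hRMP (UU P z₀) z₀ hB.opn hB.con hB.mem (bounded_UU hB hO) hPr
  obtain ⟨B, hBP⟩ := hBLK n P z₀ ψ h R hP hB hO hR
  have hXF := hXXF n P z₀ R hP hB hO hBP.inv
  have hKF := hKKF n P z₀ hP hB
  have hC : Ctx n P z₀ R := ⟨hP, hB, hO, hBP.inv, hXF, hKF⟩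
  obtain ⟨L, F₀, hF₀⟩ := hBOD n P hn hP.deg
  have hnc : ∀ c : ℂ, (derivative P).eval c = 0 → c ∉ Om P := fun c hc hc' =>
    (disjoint_left.1 hXF.disj) (hP.crit c hc) hc'
  obtain ⟨F, hF1, hF2, hF3⟩ := hEXA n P L R F₀ hn hP.deg hO hnc hF₀
  have hBT := hEXB n P L R F₀ F hn hP.deg hO hnc hF₀ hF1 hF2 hF3
  obtain ⟨φ, hOB⟩ := hOBX n P F hn hBT
  have hS := hSHC n P z₀ R hC
  obtain ⟨hD1, hD2⟩ := hDNS n P z₀ R hC hS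
  have hSU := hSHU n P z₀ R hC hS
  obtain ⟨δ, C₁, lam, hNB⟩ := hNBX n P z₀ R hC hSU
  obtain ⟨ρ, C₂, α, h1, h2, h3, h4⟩ := hEXS n P z₀ R ψ h B δ C₁ lam hC hR hBP hNB
  obtain ⟨ψ', hPS⟩ := hPSE n P z₀ R ψ h B ρ C₂ α hC hR hBP h1 h2 h3 h4 hD1
  obtain ⟨ρ', C₂', α', h1', h2', h3', h4'⟩ := hEXO n P z₀ R φ δ C₁ lam hC hOB hNB
  obtain ⟨φ', hPH⟩ := hPHE n P z₀ R φ ρ' C₂' α' hC hOB h1' h2' h3' h4' hD2
  have hi1 := hPIN n P z₀ R φ' hC hPH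
  have hi2 := hSIN n P z₀ R B ψ' φ' hC hBP.blas hPS hPH hi1
  obtain ⟨b, hb1, hb2⟩ := hFIN n x v z₀ R B ψ' φ' hv hden hC hz0 hBP.blas hPS hi2 hPH hi1
  exact ⟨B, b, hb1, hb2⟩

end Pool.Agent.BSL
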