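import Pool.Agent.BSL.Targets

/-!
# BSL, target T_BCC: critical points of Blaschke products in the disk (helper12)
-/

set_option autoImplicit false

open Polynomial Metric Set Filter Topology

noncomputable section

namespace Pool.Agent.BSL

open Pool.Agent.MAT

namespace BCC_

/-! ### polynomials that are symmetric with respect to the circle -/

/-- `f` has degree at most `n` and is its own reflection -/
def Sym (n : ℕ) (f : ℂ[X]) : Prop :=
  f.natDegree ≤ n ∧ reflect n (f.map (starRingEnd ℂ)) = f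

theorem Sym.mul {n m : ℕ} {f g : ℂ[X]} (hf : Sym n f) (hg : Sym m g) : Sym (n + m) (f * g) := by
  refine ⟨natDegree_mul_le.trans (add_le_add hf.1 hg.1), ?_⟩
  rw [Polynomial.map_mul, reflect_mul _ _ (natDegree_map_le.trans hf.1)
    (natDegree_map_le.trans hg.1), hf.2, hg.2]

theorem Sym.add {n : ℕ} {f g : ℂ[X]} (hf : Sym n f) (hg : Sym n g) : Sym n (f + g) := by
  refine ⟨natDegree_add_le_of_degree_le hf.1 hg.1, ?_⟩
  rw [Polynomial.map_add, reflect_add, hf.2, hg.2]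

theorem Sym.zero (n : ℕ) : Sym n 0 := by
  refine ⟨by simp, ?_⟩
  rw [Polynomial.map_zero, reflect_zero]

theorem Sym.one : Sym 0 1 := by
  refine ⟨by simp, ?_⟩
  rw [Polynomial.map_one, reflect_one, pow_zero]

theorem Sym.rmul {n : ℕ} {f : ℂ[X]} (hf : Sym n f) (a : ℝ) : Sym n (C (a : ℂ) * f) := by
  refine ⟨natDegree_C_mul_le _ _ |>.trans hf.1, ?_⟩
  rw [Polynomial.map_mul, map_C, reflect_C_mul, hf.2, Complex.conj_ofReal]

theorem Sym.sum {ι : Type} {n : ℕ} (s : Finset ι) (f : ι → ℂ[X]) (h : ∀ i ∈ s, Sym n (f i)) :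
    Sym n (∑ i ∈ s, f i) :=
  Finset.sum_induction f (Sym n) (fun _ _ => Sym.add) (Sym.zero n) h

/-- the quadratic polynomial of a point -/
def sq (a : ℂ) : ℂ[X] := (X - C a) * (1 - C (starRingEnd ℂ a) * X)

theorem natDegree_a (a : ℂ) : (X - C a : ℂ[X]).natDegree ≤ 1 := (natDegree_X_sub_C a).le

theorem natDegree_b (a : ℂ) : (1 - C a * X : ℂ[X]).natDegree ≤ 1 := by
  refine (natDegree_sub_le _ _).trans ?_
  rw [natDegree_one]
  exact max_le (by norm_num) ((natDegree_C_mul_le _ _).trans natDegree_X_le)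

theorem reflect_a (a : ℂ) : reflect 1 (X - C a : ℂ[X]) = 1 - C a * X := by
  rw [reflect_sub, reflect_one_X, reflect_C, pow_one]

theorem reflect_b (a : ℂ) : reflect 1 (1 - C a * X : ℂ[X]) = X - C a := by
  rw [reflect_sub, reflect_one, pow_one, reflect_C_mul, reflect_one_X, mul_one]

theorem sym_sq (a : ℂ) : Sym 2 (sq a) := by
  refine ⟨natDegree_mul_le.trans (add_le_add (natDegree_a a) (natDegree_b _)), ?_⟩
  have h : (sq a).map (starRingEnd ℂ) = (X - C (starRingEnd ℂ a)) * (1 - C a * X) := by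
    unfold sq
    simp
  rw [h, show (2 : ℕ) = 1 + 1 from rfl, reflect_mul _ _ (natDegree_a _) (natDegree_b _),
    reflect_a, reflect_b]
  unfold sq
  ring

theorem sym_prod {ι : Type} [DecidableEq ι] (s : Finset ι) (α : ι → ℂ) :
    Sym (2 * s.card) (∏ i ∈ s, sq (α i)) := by
  induction s using Finset.induction_on with
  | empty => simpa using Sym.one
  | insert i s hi ih =>
    rw [Finset.prod_insert hi, Finset.card_insert_of_notMem hi, mul_add, mul_one, add_comm]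
    exact (sym_sq _).mul ih

/-- the numerator of the derivative -/
def Nm {d : ℕ} (α : Fin d → ℂ) : ℂ[X] :=
  ∑ i, C ((1 - ‖α i‖ ^ 2 : ℝ) : ℂ) * ∏ j ∈ Finset.univ.erase i, sq (α j)

theorem sym_Nm {d : ℕ} (α : Fin d → ℂ) : Sym (2 * (d - 1)) (Nm α) := by
  refine Sym.sum _ _ fun i _ => Sym.rmul ?_ _
  have h := sym_prod (Finset.univ.erase i) α
  rwa [Finset.card_erase_of_mem (Finset.mem_univ i), Finset.card_univ, Fintype.card_fin] at h

theorem eval_sq (a z : ℂ) : (sq a).eval z = (z - a) * (1 - starRingEnd ℂ a * z) := by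
  simp [sq]

theorem Nm_ne {d : ℕ} {α : Fin d → ℂ} (hα : ∀ i, ‖α i‖ < 1) (i₀ : Fin d) : Nm α ≠ 0 := by
  intro h
  have h1 : (Nm α).eval 1 = 0 := by rw [h, eval_zero]
  have hs : ∀ j, (sq (α j)).eval 1 = ((‖1 - α j‖ ^ 2 : ℝ) : ℂ) := by
    intro j
    rw [eval_sq, mul_one, Complex.ofReal_pow, ← Complex.mul_conj']
    simp
  have h2 : (Nm α).eval 1 =
      ((∑ i, (1 - ‖α i‖ ^ 2) * ∏ j ∈ Finset.univ.erase i, ‖1 - α j‖ ^ 2 : ℝ) : ℂ) := by
    unfold Nm
    rw [eval_finsetSum, Complex.ofReal_sum]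
    refine Finset.sum_congr rfl fun i _ => ?_
    rw [eval_mul, eval_C, eval_prod, Complex.ofReal_mul, Complex.ofReal_prod]
    congr 1
    exact Finset.prod_congr rfl fun j _ => hs j
  rw [h2, Complex.ofReal_eq_zero] at h1
  have hpos : ∀ j, 0 < ‖1 - α j‖ ^ 2 := by
    intro j
    have : (1 : ℂ) - α j ≠ 0 := by
      intro h0
      have h3 : α j = 1 := (sub_eq_zero.mp h0).symm
      have h4 := hα j
      rw [h3, norm_one] at h4
      exact lt_irrefl _ h4
    positivity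
  have hpos' : 0 < ∑ i, (1 - ‖α i‖ ^ 2) * ∏ j ∈ Finset.univ.erase i, ‖1 - α j‖ ^ 2 := by
    refine Finset.sum_pos (fun i _ => ?_) ⟨i₀, Finset.mem_univ _⟩
    refine mul_pos ?_ (Finset.prod_pos fun j _ => hpos j)
    have := hα i
    have h5 := norm_nonneg (α i)
    nlinarith
  exact absurd h1 hpos'.ne'

/-! ### divisibility -/

theorem dvd_of_ball : ∀ (n : ℕ) (Q N : ℂ[X]), Q.natDegree = n → Q ≠ 0 →
    (∀ z : ℂ, Q.eval z = 0 → ‖z‖ < 1) → ∀ k : ℂ → ℂ, ContinuousOn k (ball 0 1) →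
    (∀ w ∈ ball (0 : ℂ) 1, N.eval w = Q.eval w * k w) → Q ∣ N := by
  intro n
  induction n with
  | zero =>
    intro Q N hn hQ _ k _ _
    rw [eq_C_of_natDegree_eq_zero hn] at hQ ⊢
    have hc : Q.coeff 0 ≠ 0 := fun h => hQ (by rw [h, C_0])
    exact (isUnit_C.2 (isUnit_iff_ne_zero.2 hc)).dvd
  | succ n ih =>
    intro Q N hn hQ hroot k hk hN
    have hdeg : Q.degree ≠ 0 := by
      rw [degree_eq_natDegree hQ, hn]
      exact_mod_cast Nat.succ_ne_zero n
    obtain ⟨γ, hγ⟩ := IsAlgClosed.exists_root Q hdeg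
    have hγ1 : ‖γ‖ < 1 := hroot γ hγ
    have hγb : γ ∈ ball (0 : ℂ) 1 := by rwa [mem_ball_zero_iff]
    obtain ⟨Q₁, hQ₁⟩ := dvd_iff_isRoot.2 hγ
    have hNγ : N.IsRoot γ := by
      show N.eval γ = 0
      rw [hN γ hγb, hγ.eq_zero, zero_mul]
    obtain ⟨N₁, hN₁⟩ := dvd_iff_isRoot.2 hNγ
    have hQ₁0 : Q₁ ≠ 0 := by
      rintro rfl
      exact hQ (by rw [hQ₁, mul_zero])
    have hQ₁n : Q₁.natDegree = n := by
      have h1 : Q.natDegree = (X - C γ).natDegree + Q₁.natDegree := by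
        conv_lhs => rw [hQ₁]
        exact natDegree_mul (X_sub_C_ne_zero γ) hQ₁0
      rw [natDegree_X_sub_C] at h1
      omega
    have hoff : ∀ w ∈ ball (0 : ℂ) 1, w ≠ γ → N₁.eval w = Q₁.eval w * k w := by
      intro w hw hwγ
      have h1 := hN w hw
      rw [hN₁, hQ₁, eval_mul, eval_mul, eval_sub, eval_X, eval_C, mul_assoc] at h1
      exact mul_left_cancel₀ (sub_ne_zero.2 hwγ) h1
    have hall : ∀ w ∈ ball (0 : ℂ) 1, N₁.eval w = Q₁.eval w * k w := by
      intro w hw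
      by_cases hwγ : w = γ
      · rw [hwγ]
        have hk' : ContinuousAt k γ := hk.continuousAt (isOpen_ball.mem_nhds hγb)
        have h1 : Tendsto (fun w => N₁.eval w) (𝓝[≠] γ) (𝓝 (N₁.eval γ)) :=
          (N₁.continuous.tendsto γ).mono_left nhdsWithin_le_nhds
        have h2 : Tendsto (fun w => Q₁.eval w * k w) (𝓝[≠] γ) (𝓝 (Q₁.eval γ * k γ)) :=
          ((Q₁.continuous.continuousAt.mul hk').tendsto).mono_left nhdsWithin_le_nhds
        have h3 : (fun w => N₁.eval w) =ᶠ[𝓝[≠] γ] fun w => Q₁.eval w * k w := by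
          have hb : ball (0 : ℂ) 1 ∈ 𝓝[≠] γ :=
            mem_nhdsWithin_of_mem_nhds (isOpen_ball.mem_nhds hγb)
          filter_upwards [hb, self_mem_nhdsWithin] with w hw hw'
          exact hoff w hw hw'
        exact tendsto_nhds_unique (h1.congr' h3) h2
      · exact hoff w hw hwγ
    have hroot₁ : ∀ z : ℂ, Q₁.eval z = 0 → ‖z‖ < 1 := by
      intro z hz
      apply hroot z
      rw [hQ₁, eval_mul, hz, mul_zero]
    obtain ⟨M, hM⟩ := ih Q₁ N₁ hQ₁n hQ₁0 hroot₁ k hk hall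
    exact ⟨M, by rw [hN₁, hQ₁, hM, mul_assoc]⟩

/-! ### the count -/

theorem count {D : ℕ} {N Q : ℂ[X]} (hN : Sym D N) (hN0 : N ≠ 0) (hQ0 : Q ≠ 0)
    (hroot : ∀ z : ℂ, Q.eval z = 0 → ‖z‖ < 1) (hQN : Q ∣ N) : 2 * Q.natDegree ≤ D := by
  obtain ⟨Q₁, hQ₁, hX⟩ := exists_eq_pow_rootMultiplicity_mul_and_not_dvd Q hQ0 0
  set m := Q.rootMultiplicity 0 with hm
  rw [C_0, sub_zero] at hQ₁ hX
  have hQ₁0 : Q₁ ≠ 0 := by
    rintro rfl
    exact hX (dvd_zero _)
  have hc0 : Q₁.coeff 0 ≠ 0 := by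
    intro h
    exact hX (X_dvd_iff.2 h)
  have hdegQ : Q.natDegree = m + Q₁.natDegree := by
    conv_lhs => rw [hQ₁]
    rw [natDegree_mul (pow_ne_zero _ X_ne_zero) hQ₁0, natDegree_X_pow]
  obtain ⟨M, hM⟩ := hQN
  -- low coefficients vanish, so high coefficients vanish
  have hXN : X ^ m ∣ N := by
    rw [hM, hQ₁]
    exact ⟨Q₁ * M, by ring⟩
  have hlow : ∀ j < m, N.coeff j = 0 := X_pow_dvd_iff.1 hXN
  have hdegN : N.natDegree + m ≤ D := by
    have h1 : N.coeff N.natDegree ≠ 0 := by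
      rw [coeff_natDegree]
      exact leadingCoeff_ne_zero.2 hN0
    have h2 : N.coeff N.natDegree = starRingEnd ℂ (N.coeff (D - N.natDegree)) := by
      have h := congrArg (fun f : ℂ[X] => f.coeff N.natDegree) hN.2
      simp only [coeff_reflect, revAt_le hN.1, coeff_map] at h
      exact h.symm
    have h0 := hN.1
    by_contra hcon
    have h3 : D - N.natDegree < m := by omega
    rw [h2, hlow _ h3, map_zero] at h1
    exact h1 rfl
  -- the reflected factor
  set e := Q₁.natDegree with he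
  let Qs : ℂ[X] := reflect e (Q₁.map (starRingEnd ℂ))
  have hQse : Qs.coeff e ≠ 0 := by
    show (reflect e (Q₁.map (starRingEnd ℂ))).coeff e ≠ 0
    rw [coeff_reflect, revAt_le le_rfl, Nat.sub_self, coeff_map]
    simpa using hc0
  have hQs0 : Qs.coeff 0 ≠ 0 := by
    show (reflect e (Q₁.map (starRingEnd ℂ))).coeff 0 ≠ 0
    rw [coeff_reflect, revAt_le (Nat.zero_le _), Nat.sub_zero, coeff_map]
    have : Q₁.coeff e ≠ 0 := by
      rw [he, coeff_natDegree]
      exact leadingCoeff_ne_zero.2 hQ₁0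
    simpa using this
  have hQsne : Qs ≠ 0 := by
    intro h
    rw [h, coeff_zero] at hQse
    exact hQse rfl
  have hdegQs : e ≤ Qs.natDegree := le_natDegree_of_ne_zero hQse
  have hdvd : Qs ∣ N := by
    have hM' : N = Q₁ * (X ^ m * M) := by
      rw [hM, hQ₁]
      ring
    have hM0 : X ^ m * M ≠ 0 := by
      intro h
      rw [h, mul_zero] at hM'
      exact hN0 hM'
    have hd : N.natDegree = e + (X ^ m * M).natDegree := by
      conv_lhs => rw [hM']
      exact natDegree_mul hQ₁0 hM0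
    have hle := hN.1
    have h1 : reflect D (N.map (starRingEnd ℂ)) =
        Qs * reflect (D - e) ((X ^ m * M).map (starRingEnd ℂ)) := by
      conv_lhs => rw [hM', show D = e + (D - e) by omega]
      rw [Polynomial.map_mul, reflect_mul _ _ natDegree_map_le
        (natDegree_map_le.trans (by omega))]
    rw [hN.2] at h1
    exact ⟨_, h1⟩
  have hcop : IsCoprime Q Qs := by
    rw [Polynomial.isCoprime_iff_aeval_ne_zero_of_isAlgClosed ℂ ℂ]
    intro a
    by_contra hcon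
    push Not at hcon
    obtain ⟨h1, h2⟩ := hcon
    rw [coe_aeval_eq_eval] at h1 h2
    have ha : ‖a‖ < 1 := hroot a h1
    have ha0 : a ≠ 0 := by
      rintro rfl
      rw [← coeff_zero_eq_eval_zero] at h2
      exact hQs0 h2
    let _ : Invertible (a⁻¹) := invertibleOfNonzero (inv_ne_zero ha0)
    have h3 := (eval₂_reflect_eq_zero_iff (RingHom.id ℂ) (a⁻¹) e
      (Q₁.map (starRingEnd ℂ)) natDegree_map_le).1 (by
        rw [invOf_eq_inv, inv_inv]
        exact h2)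
    have h4 : (Q₁.map (starRingEnd ℂ)).eval (a⁻¹) = 0 := h3
    have h5 : Q₁.eval (starRingEnd ℂ a⁻¹) = 0 := by
      have h6 : (Q₁.map (starRingEnd ℂ)).eval (starRingEnd ℂ (starRingEnd ℂ a⁻¹)) =
          starRingEnd ℂ (Q₁.eval (starRingEnd ℂ a⁻¹)) := by
        rw [eval_map_apply]
      rw [Complex.conj_conj, h4] at h6
      simpa using h6.symm
    have h7 : ‖starRingEnd ℂ a⁻¹‖ < 1 := by
      apply hroot
      rw [hQ₁, eval_mul, h5, mul_zero]
    rw [RCLike.norm_conj, norm_inv] at h7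
    have h8 : 0 < ‖a‖ := norm_pos_iff.2 ha0
    have h9 := (inv_lt_one₀ h8).1 h7
    exact absurd ha (not_lt.2 h9.le)
  have hfin : Q * Qs ∣ N := hcop.mul_dvd ⟨M, hM⟩ hdvd
  have h10 := natDegree_le_of_dvd hfin hN0
  rw [natDegree_mul hQ0 hQsne] at h10
  omega

/-! ### the derivative -/

theorem den_ne {a w : ℂ} (ha : ‖a‖ < 1) (hw : ‖w‖ < 1) : 1 - starRingEnd ℂ a * w ≠ 0 := by
  intro h
  have h1 : starRingEnd ℂ a * w = 1 := (sub_eq_zero.mp h).symm
  have h2 : ‖starRingEnd ℂ a * w‖ = 1 := by rw [h1, norm_one]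
  rw [norm_mul, RCLike.norm_conj] at h2
  have h3 := norm_nonneg a
  have h4 := norm_nonneg w
  nlinarith

theorem deriv_factor {a w : ℂ} (ha : ‖a‖ < 1) (hw : ‖w‖ < 1) :
    HasDerivAt (fun z : ℂ => (z - a) / (1 - starRingEnd ℂ a * z))
      (((1 - ‖a‖ ^ 2 : ℝ) : ℂ) / (1 - starRingEnd ℂ a * w) ^ 2) w := by
  have h1 : HasDerivAt (fun z : ℂ => z - a) 1 w := (hasDerivAt_id w).sub_const a
  have h2 : HasDerivAt (fun z : ℂ => 1 - starRingEnd ℂ a * z) (-(starRingEnd ℂ a)) w := by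
    simpa using ((hasDerivAt_id w).const_mul (starRingEnd ℂ a)).const_sub 1
  have h3 := h1.div h2 (den_ne ha hw)
  refine HasDerivAt.congr_deriv h3 ?_
  rw [Complex.ofReal_sub, Complex.ofReal_one, Complex.ofReal_pow, ← Complex.conj_mul']
  ring

theorem deriv_B {d : ℕ} {B : ℂ → ℂ} {c : ℂ} {α : Fin d → ℂ} (hα : ∀ i, ‖α i‖ < 1)
    (hB : ∀ z ∈ closedBall (0 : ℂ) 1, B z = c * ∏ i, (z - α i) / (1 - starRingEnd ℂ (α i) * z))
    {w : ℂ} (hw : w ∈ ball (0 : ℂ) 1) :
    deriv B w * ∏ j, (1 - starRingEnd ℂ (α j) * w) ^ 2 = c * (Nm α).eval w := by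
  have hw1 : ‖w‖ < 1 := mem_ball_zero_iff.1 hw
  have hev : B =ᶠ[𝓝 w] fun z => c * ∏ i, (z - α i) / (1 - starRingEnd ℂ (α i) * z) := by
    filter_upwards [isOpen_ball.mem_nhds hw] with z hz
    exact hB z (ball_subset_closedBall hz)
  have hd := (HasDerivAt.fun_finsetProd (u := Finset.univ)
    (f := fun (i : Fin d) (z : ℂ) => (z - α i) / (1 - starRingEnd ℂ (α i) * z))
    (fun i _ => deriv_factor (hα i) hw1)).const_mul c
  rw [hev.deriv_eq, hd.deriv, mul_assoc, Finset.sum_mul]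
  congr 1
  unfold Nm
  rw [eval_finsetSum]
  refine Finset.sum_congr rfl fun i _ => ?_
  rw [eval_mul, eval_C, eval_prod, ← Finset.mul_prod_erase Finset.univ
    (fun j => (1 - starRingEnd ℂ (α j) * w) ^ 2) (Finset.mem_univ i), smul_eq_mul]
  have hi := den_ne (hα i) hw1
  have hprod : (∏ j ∈ Finset.univ.erase i, (w - α j) / (1 - starRingEnd ℂ (α j) * w)) *
      ∏ j ∈ Finset.univ.erase i, (1 - starRingEnd ℂ (α j) * w) ^ 2 =
      ∏ j ∈ Finset.univ.erase i, (sq (α j)).eval w := by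
    rw [← Finset.prod_mul_distrib]
    refine Finset.prod_congr rfl fun j _ => ?_
    have hj := den_ne (hα j) hw1
    rw [eval_sq]
    field_simp
  rw [← hprod]
  generalize (∏ j ∈ Finset.univ.erase i, (w - α j) / (1 - starRingEnd ℂ (α j) * w)) = P
  generalize ∏ j ∈ Finset.univ.erase i, (1 - starRingEnd ℂ (α j) * w) ^ 2 = E
  have hi2 : (1 - starRingEnd ℂ (α i) * w) ^ 2 ≠ 0 := pow_ne_zero 2 hi
  calc P * (((1 - ‖α i‖ ^ 2 : ℝ) : ℂ) / (1 - starRingEnd ℂ (α i) * w) ^ 2) *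
        ((1 - starRingEnd ℂ (α i) * w) ^ 2 * E) =
        P * E * (((1 - ‖α i‖ ^ 2 : ℝ) : ℂ) / (1 - starRingEnd ℂ (α i) * w) ^ 2 *
          (1 - starRingEnd ℂ (α i) * w) ^ 2) := by ring
    _ = ((1 - ‖α i‖ ^ 2 : ℝ) : ℂ) * (P * E) := by
      rw [div_mul_cancel₀ _ hi2]
      ring

end BCC_

theorem p_BCC : T_BCC := by
  intro d B Q k hB hQ0 hroot hk hder
  obtain ⟨c, α, hc, hα, ⟨i₀, -⟩, hBf⟩ := hB
  have hc0 : c ≠ 0 := by
    rintro rfl
    rw [norm_zero] at hc
    exact zero_ne_one hc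
  have hd : 1 ≤ d := by
    have := i₀.2
    omega
  have hdvd : Q ∣ BCC_.Nm α := by
    refine BCC_.dvd_of_ball _ Q _ rfl hQ0 hroot
      (fun w => c⁻¹ * (k w * ∏ j, (1 - starRingEnd ℂ (α j) * w) ^ 2)) ?_ ?_
    · refine continuousOn_const.mul (hk.continuousOn.mul ?_)
      fun_prop
    · intro w hw
      have h1 := BCC_.deriv_B hα hBf hw
      rw [hder w hw] at h1
      have h2 : (BCC_.Nm α).eval w = c⁻¹ * (c * (BCC_.Nm α).eval w) := by
        rw [inv_mul_cancel_left₀ hc0]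
      rw [h2, ← h1]
      ring
  have h := BCC_.count (BCC_.sym_Nm α) (BCC_.Nm_ne hα i₀) hQ0 hroot hdvd
  omega

end Pool.Agent.BSL
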