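import Pool.Agent.BSL.Targets

/-!
# BSL, BCI: the expanding lift of a Blaschke product to the line
-/

set_option autoImplicit false

open Polynomial Metric Set Filter Topology

noncomputable section

namespace Pool.Agent.BSL

open Pool.Agent.MAT

namespace BCI_

/-- the point `α w̄` for `w = exp (2 π i x)` -/
def tt (α : ℂ) (x : ℝ) : ℂ := α * Complex.exp (-(2 * Real.pi * x * Complex.I))

/-- the lift of one Blaschke factor -/
def fb (α : ℂ) (x : ℝ) : ℝ := x + (Complex.log (1 - tt α x)).im / Real.pi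

/-- its derivative -/
def fd (α : ℂ) (x : ℝ) : ℝ := 1 + 2 * (tt α x / (1 - tt α x)).re

lemma norm_tt (α : ℂ) (x : ℝ) : ‖tt α x‖ = ‖α‖ := by
  have h : -(2 * (Real.pi : ℂ) * x * Complex.I) = ((-(2 * Real.pi * x) : ℝ) : ℂ) * Complex.I := by
    push_cast; ring
  rw [tt, norm_mul, h, Complex.norm_exp_ofReal_mul_I, mul_one]

lemma re_pos {α : ℂ} (hα : ‖α‖ < 1) (x : ℝ) : 0 < (1 - tt α x).re := by
  have h1 := Complex.re_le_norm (tt α x)
  rw [norm_tt] at h1
  simp only [Complex.sub_re, Complex.one_re]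
  linarith

lemma ne_zero {α : ℂ} (hα : ‖α‖ < 1) (x : ℝ) : (1 - tt α x) ≠ 0 := by
  intro h
  have := re_pos hα x
  rw [h] at this
  simp at this

lemma tt_deriv (α : ℂ) (x : ℝ) :
    HasDerivAt (fun y : ℝ => 1 - tt α y) (2 * Real.pi * Complex.I * tt α x) x := by
  unfold tt
  have h1 : HasDerivAt (fun y : ℝ => -(2 * (Real.pi : ℂ) * (y : ℂ) * Complex.I))
      (-(2 * (Real.pi : ℂ) * 1 * Complex.I)) x :=
    (((Complex.ofRealCLM.hasDerivAt (x := x)).const_mul (2 * (Real.pi : ℂ))).mul_const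
      Complex.I).neg
  have h2 := (h1.cexp.const_mul α).const_sub 1
  refine h2.congr_deriv ?_
  ring

lemma fb_deriv {α : ℂ} (hα : ‖α‖ < 1) (x : ℝ) : HasDerivAt (fb α) (fd α x) x := by
  have h1 := (tt_deriv α x).clog_real (Or.inl (re_pos hα x))
  have h2 : HasDerivAt (fun y : ℝ => (Complex.log (1 - tt α y)).im)
      (2 * Real.pi * Complex.I * tt α x / (1 - tt α x)).im x :=
    Complex.imCLM.hasFDerivAt.comp_hasDerivAt x h1
  have h3 := (hasDerivAt_id x).add (h2.div_const Real.pi)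
  refine h3.congr_deriv ?_
  have h4 : 2 * Real.pi * Complex.I * tt α x / (1 - tt α x) =
      ((2 * Real.pi : ℝ) : ℂ) * (Complex.I * (tt α x / (1 - tt α x))) := by
    push_cast; ring
  rw [fd, h4, Complex.im_ofReal_mul, Complex.I_mul_im]
  have := Real.pi_pos
  field_simp

lemma fd_lower {α : ℂ} (hα : ‖α‖ < 1) (x : ℝ) : (1 - ‖α‖) / (1 + ‖α‖) ≤ fd α x := by
  have hn := ne_zero hα x
  have ht := norm_tt α x
  set t := tt α x with htdef
  have h0 : 0 < Complex.normSq (1 - t) := Complex.normSq_pos.2 hn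
  have h1 : fd α x = (1 - ‖α‖ ^ 2) / Complex.normSq (1 - t) := by
    rw [fd, ← htdef, Complex.div_re, ← ht, ← Complex.normSq_eq_norm_sq]
    field_simp
    simp only [Complex.normSq_apply, Complex.sub_re, Complex.sub_im, Complex.one_re,
      Complex.one_im]
    ring
  have h2 : Complex.normSq (1 - t) ≤ (1 + ‖α‖) ^ 2 := by
    rw [Complex.normSq_eq_norm_sq, ← ht]
    have h3 : ‖1 - t‖ ≤ 1 + ‖t‖ := by
      calc ‖1 - t‖ ≤ ‖(1 : ℂ)‖ + ‖t‖ := norm_sub_le _ _
        _ = 1 + ‖t‖ := by rw [norm_one]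
    exact pow_le_pow_left₀ (norm_nonneg _) h3 2
  have hα0 := norm_nonneg α
  rw [h1, div_le_div_iff₀ (by linarith) h0]
  have h5 : (1 - ‖α‖) * Complex.normSq (1 - t) ≤ (1 - ‖α‖) * (1 + ‖α‖) ^ 2 :=
    mul_le_mul_of_nonneg_left h2 (by linarith)
  nlinarith [h5]

lemma fb_exp {α : ℂ} (hα : ‖α‖ < 1) (x : ℝ) :
    (Complex.exp (2 * Real.pi * x * Complex.I) - α) /
      (1 - (starRingEnd ℂ) α * Complex.exp (2 * Real.pi * x * Complex.I)) =
    Complex.exp (2 * Real.pi * (fb α x : ℂ) * Complex.I) := by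
  set w := Complex.exp (2 * Real.pi * x * Complex.I) with hw
  have hn := ne_zero hα x
  have hw0 : w ≠ 0 := Complex.exp_ne_zero _
  have hcw : (starRingEnd ℂ) (Complex.exp (-(2 * Real.pi * x * Complex.I))) = w := by
    rw [hw, ← Complex.exp_conj]
    congr 1
    simp only [map_neg, map_mul, Complex.conj_ofReal, Complex.conj_I, map_ofNat]
    ring
  have hc : (starRingEnd ℂ) (1 - tt α x) = 1 - (starRingEnd ℂ) α * w := by
    rw [map_sub, map_one, tt, map_mul, hcw]
  have hnum : w - α = w * (1 - tt α x) := by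
    rw [tt, mul_sub, mul_one, hw, mul_left_comm, ← Complex.exp_add, add_neg_cancel,
      Complex.exp_zero, mul_one]
  rw [← hc, hnum]
  have hu : (1 - tt α x) = Complex.exp (Complex.log (1 - tt α x)) := (Complex.exp_log hn).symm
  set L := Complex.log (1 - tt α x) with hL
  have hcu : (starRingEnd ℂ) (1 - tt α x) = Complex.exp ((starRingEnd ℂ) L) := by
    rw [Complex.exp_conj, ← hu]
  rw [hcu, hu, hw, div_eq_mul_inv, ← Complex.exp_neg, ← Complex.exp_add, ← Complex.exp_add]
  congr 1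
  rw [fb, ← hL]
  have h6 : L - (starRingEnd ℂ) L = 2 * (L.im : ℂ) * Complex.I := by
    rw [Complex.sub_conj]
    push_cast
    ring
  have h7 : (Real.pi : ℂ) ≠ 0 := Complex.ofReal_ne_zero.2 Real.pi_ne_zero
  push_cast
  have h8 : 2 * (Real.pi : ℂ) * (↑x + ↑L.im / ↑Real.pi) * Complex.I =
      2 * Real.pi * x * Complex.I + 2 * (L.im : ℂ) * Complex.I := by
    field_simp
  rw [h8, ← h6]
  ring

end BCI_

open BCI_ in
/-- **The expanding lift of a Blaschke product.** -/
theorem p_BCI : T_BCI := by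
  rintro n B hn ⟨c, α, hc, hα, ⟨i₀, hi₀⟩, hB⟩
  have hd : ∀ x : ℝ, HasDerivAt (fun y : ℝ => Complex.arg c / (2 * Real.pi) +
      ∑ i, fb (α i) y) (∑ i, fd (α i) x) x := by
    intro x
    have h1 : HasDerivAt (fun y : ℝ => ∑ i, fb (α i) y) (∑ i, fd (α i) x) x :=
      HasDerivAt.fun_sum fun i _ => fb_deriv (hα i) x
    exact h1.const_add _
  have hk : ∀ i, 0 < (1 - ‖α i‖) / (1 + ‖α i‖) := fun i => by
    have := hα i
    have := norm_nonneg (α i)
    apply div_pos <;> linarith
  refine ⟨fun y : ℝ => Complex.arg c / (2 * Real.pi) + ∑ i, fb (α i) y,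
    ∑ i, (1 - ‖α i‖) / (1 + ‖α i‖), ?_, ?_, ?_, ?_⟩
  · exact continuous_iff_continuousAt.2 fun x => (hd x).continuousAt
  · rw [← Finset.add_sum_erase Finset.univ _ (Finset.mem_univ i₀), hi₀]
    have h2 : 0 < ∑ i ∈ Finset.univ.erase i₀, (1 - ‖α i‖) / (1 + ‖α i‖) := by
      apply Finset.sum_pos (fun i _ => hk i)
      rw [← Finset.card_pos, Finset.card_erase_of_mem (Finset.mem_univ _)]
      simp
      omega
    simp only [norm_zero]
    linarith
  · intro x y hxy
    set κ : ℝ := ∑ i, (1 - ‖α i‖) / (1 + ‖α i‖) with hκ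
    have hmono : Monotone (fun y : ℝ => (Complex.arg c / (2 * Real.pi) +
        ∑ i, fb (α i) y) - κ * y) := by
      have hd' : ∀ x : ℝ, HasDerivAt (fun y : ℝ => (Complex.arg c / (2 * Real.pi) +
          ∑ i, fb (α i) y) - κ * y) ((∑ i, fd (α i) x) - κ) x := by
        intro x
        have h3 := (hd x).sub ((hasDerivAt_id x).const_mul κ)
        refine h3.congr_deriv ?_
        rw [mul_one]
      apply monotone_of_deriv_nonneg (fun x => (hd' x).differentiableAt)
      intro x
      rw [(hd' x).deriv, sub_nonneg, hκ]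
      exact Finset.sum_le_sum fun i _ => fd_lower (hα i) x
    have := hmono hxy
    simp only at this
    linarith
  · intro x
    have hw : Complex.exp (2 * Real.pi * x * Complex.I) ∈ closedBall (0 : ℂ) 1 := by
      have h : 2 * (Real.pi : ℂ) * x * Complex.I = ((2 * Real.pi * x : ℝ) : ℂ) * Complex.I := by
        push_cast; ring
      rw [mem_closedBall_zero_iff, h, Complex.norm_exp_ofReal_mul_I]
    rw [hB _ hw]
    have h1 : ∏ i, (Complex.exp (2 * Real.pi * x * Complex.I) - α i) /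
        (1 - (starRingEnd ℂ) (α i) * Complex.exp (2 * Real.pi * x * Complex.I)) =
        Complex.exp (∑ i, 2 * Real.pi * (fb (α i) x : ℂ) * Complex.I) := by
      rw [Complex.exp_sum]
      exact Finset.prod_congr rfl fun i _ => fb_exp (hα i) x
    rw [h1]
    have h2 : c = Complex.exp (Complex.arg c * Complex.I) := by
      have := Complex.norm_mul_exp_arg_mul_I c
      rw [hc] at this
      simpa using this.symm
    have h3 : c * Complex.exp (∑ i, 2 * Real.pi * (fb (α i) x : ℂ) * Complex.I) =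
        Complex.exp (Complex.arg c * Complex.I +
          ∑ i, 2 * Real.pi * (fb (α i) x : ℂ) * Complex.I) := by
      rw [Complex.exp_add, ← h2]
    rw [h3]
    congr 1
    have h7 : (Real.pi : ℂ) ≠ 0 := Complex.ofReal_ne_zero.2 Real.pi_ne_zero
    push_cast
    rw [mul_add, add_mul, ← Finset.sum_mul, ← Finset.mul_sum]
    congr 1
    field_simp

end Pool.Agent.BSL
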