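import Pool.Agent.BSL.Targets
import Pool.Agent.MAT.P_BLA

/-!
# BSL, BDF: a proper map of the disk with `d` zeros is a Blaschke product
-/

set_option autoImplicit false

open Polynomial Metric Set Filter Topology

noncomputable section

namespace Pool.Agent.BSL

open Pool.Agent.MAT Pool.Agent.MAT.BLA_

namespace BDF_

/-- the product of the factors is near `1` near the circle -/
lemma prod_near {d : ℕ} (a : Fin d → ℂ) (ha : ∀ i, ‖a i‖ < 1) (ε : ℝ) (hε : 0 < ε) :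
    ∃ ρ : ℝ, ρ < 1 ∧ ∀ w : ℂ, ρ < ‖w‖ → ‖w‖ < 1 → 1 - ε < ∏ i, ‖bf (a i) w‖ := by
  have hc : ContinuousOn (fun w : ℂ => ∏ i, ‖bf (a i) w‖) (closedBall 0 1) := by
    intro z hz
    apply ContinuousAt.continuousWithinAt
    rw [mem_closedBall_zero_iff] at hz
    exact tendsto_finsetProd _ fun i _ => (bf_diff (ha i) hz).continuousAt.norm
  have hK : IsCompact (closedBall (0 : ℂ) 1 ∩
      (fun w : ℂ => ∏ i, ‖bf (a i) w‖) ⁻¹' Iic (1 - ε)) :=
    (isCompact_closedBall 0 1).of_isClosed_subset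
      (hc.preimage_isClosed_of_isClosed isClosed_closedBall isClosed_Iic) inter_subset_left
  by_cases hne : (closedBall (0 : ℂ) 1 ∩
      (fun w : ℂ => ∏ i, ‖bf (a i) w‖) ⁻¹' Iic (1 - ε)).Nonempty
  · obtain ⟨w₀, hw₀, hmax⟩ := hK.exists_isMaxOn hne continuous_norm.continuousOn
    refine ⟨‖w₀‖, ?_, fun w h1 h2 => ?_⟩
    · rcases lt_or_eq_of_le (mem_closedBall_zero_iff.1 hw₀.1) with h | h
      · exact h
      · exfalso
        have h3 : ∏ i, ‖bf (a i) w₀‖ ≤ 1 - ε := hw₀.2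
        rw [Finset.prod_congr rfl (fun i _ => bf_eq (ha i) h), Finset.prod_const_one] at h3
        linarith
    · by_contra h3
      have h5 := hmax (show w ∈ closedBall (0 : ℂ) 1 ∩
        (fun w : ℂ => ∏ i, ‖bf (a i) w‖) ⁻¹' Iic (1 - ε) from
          ⟨mem_closedBall_zero_iff.2 h2.le, not_lt.1 h3⟩)
      exact absurd h5 (not_le.2 h1)
  · refine ⟨0, one_pos, fun w h1 h2 => ?_⟩
    by_contra h3
    exact hne ⟨w, mem_closedBall_zero_iff.2 h2.le, not_lt.1 h3⟩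

/-- maximum principle -/
lemma norm_bound (G : ℂ → ℂ) (hG : DifferentiableOn ℂ G (ball 0 1))
    (h : ∀ ε : ℝ, 0 < ε → ∃ ρ : ℝ, ρ < 1 ∧ ∀ w : ℂ, ρ < ‖w‖ → ‖w‖ < 1 → ‖G w‖ ≤ 1 + ε) :
    ∀ w ∈ ball (0 : ℂ) 1, ‖G w‖ ≤ 1 := by
  intro w hw
  refine le_of_forall_pos_le_add fun ε hε => ?_
  obtain ⟨ρ, h1, h2⟩ := h ε hε
  rw [mem_ball_zero_iff] at hw
  obtain ⟨r, hr1, hr2⟩ := exists_between (max_lt h1 hw)
  have hrρ : ρ < r := (le_max_left _ _).trans_lt hr1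
  have hrw : ‖w‖ < r := (le_max_right _ _).trans_lt hr1
  have hr0 : r ≠ 0 := ((norm_nonneg w).trans_lt hrw).ne'
  refine Complex.norm_le_of_forall_mem_frontier_norm_le (U := ball (0 : ℂ) r) isBounded_ball
    ?_ ?_ ?_
  · apply DifferentiableOn.diffContOnCl
    rw [closure_ball _ hr0]
    exact hG.mono (closedBall_subset_ball hr2)
  · intro z hz
    rw [frontier_ball _ hr0, mem_sphere_zero_iff_norm] at hz
    exact h2 z (by rw [hz]; exact hrρ) (by rw [hz]; exact hr2)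
  · exact subset_closure (mem_ball_zero_iff.2 hrw)

end BDF_

open BDF_

theorem p_BDF : T_BDF := by
  intro d B k a hk hk0 ha hB hB0 hlt hprop
  set G : ℂ → ℂ := fun w => k w * ∏ i, (1 - (starRingEnd ℂ) (a i) * w) with hGdef
  have hden : ∀ w ∈ ball (0 : ℂ) 1, ∏ i, (1 - (starRingEnd ℂ) (a i) * w) ≠ 0 := by
    intro w hw
    rw [mem_ball_zero_iff] at hw
    exact Finset.prod_ne_zero_iff.2 fun i _ => den_ne (ha i) hw.le
  have hG0 : ∀ w ∈ ball (0 : ℂ) 1, G w ≠ 0 := fun w hw => mul_ne_zero (hk0 w hw) (hden w hw)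
  have hGd : DifferentiableOn ℂ G (ball 0 1) := by
    refine hk.mul ?_
    refine DifferentiableOn.fun_finsetProd fun i _ => ?_
    fun_prop
  have hBG : ∀ w ∈ ball (0 : ℂ) 1, B w = G w * ∏ i, bf (a i) w := by
    intro w hw
    have h1 : ∏ i, (w - a i) = (∏ i, (1 - (starRingEnd ℂ) (a i) * w)) * ∏ i, bf (a i) w := by
      rw [← Finset.prod_mul_distrib]
      refine Finset.prod_congr rfl fun i _ => ?_
      rw [mem_ball_zero_iff] at hw
      rw [bf, mul_div_cancel₀ _ (den_ne (ha i) hw.le)]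
    rw [hB w hw, h1, hGdef]
    ring
  have hBn : ∀ w ∈ ball (0 : ℂ) 1, ‖B w‖ = ‖G w‖ * ∏ i, ‖bf (a i) w‖ := by
    intro w hw
    rw [hBG w hw, norm_mul, norm_prod]
  have hp1 : ∀ w ∈ ball (0 : ℂ) 1, ∏ i, ‖bf (a i) w‖ ≤ 1 := by
    intro w hw
    rw [mem_ball_zero_iff] at hw
    exact Finset.prod_le_one (fun i _ => norm_nonneg _) fun i _ => (bf_lt (ha i) hw).le
  have hG1 : ∀ w ∈ ball (0 : ℂ) 1, ‖G w‖ ≤ 1 := by
    refine norm_bound G hGd fun ε hε => ?_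
    have he : 0 < ε / (1 + ε) := div_pos hε (by linarith)
    obtain ⟨ρ, h1, h2⟩ := prod_near a ha (ε / (1 + ε)) he
    refine ⟨ρ, h1, fun w h3 h4 => ?_⟩
    have h5 := h2 w h3 h4
    have hw : w ∈ ball (0 : ℂ) 1 := mem_ball_zero_iff.2 h4
    have h6 := hBn w hw
    have h7 := hlt w hw
    have h8 : 1 - ε / (1 + ε) = 1 / (1 + ε) := by
      have : 1 + ε ≠ 0 := by positivity
      field_simp
      ring
    rw [h8] at h5
    have h9 : 1 < (1 + ε) * ∏ i, ‖bf (a i) w‖ := by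
      rw [div_lt_iff₀ (by positivity)] at h5
      linarith
    by_contra h10
    rw [not_le] at h10
    have h11 : 0 < ∏ i, ‖bf (a i) w‖ := lt_of_lt_of_le (by positivity) h5.le
    have h12 : (1 + ε) * ∏ i, ‖bf (a i) w‖ ≤ ‖G w‖ * ∏ i, ‖bf (a i) w‖ :=
      mul_le_mul_of_nonneg_right h10.le h11.le
    linarith
  have hG2 : ∀ w ∈ ball (0 : ℂ) 1, ‖(G w)⁻¹‖ ≤ 1 := by
    refine norm_bound (fun w => (G w)⁻¹) (hGd.inv hG0) fun ε hε => ?_
    have he : 0 < ε / (1 + ε) := div_pos hε (by linarith)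
    obtain ⟨ρ, h1, h2⟩ := hprop (ε / (1 + ε)) he
    refine ⟨ρ, h1, fun w h3 h4 => ?_⟩
    have h5 := h2 w h3 h4
    have hw : w ∈ ball (0 : ℂ) 1 := mem_ball_zero_iff.2 h4
    have h6 := hBn w hw
    have h8 : 1 - ε / (1 + ε) = 1 / (1 + ε) := by
      have : 1 + ε ≠ 0 := by positivity
      field_simp
      ring
    rw [h8] at h5
    have h9 : ‖B w‖ ≤ ‖G w‖ := by
      rw [h6]
      exact mul_le_of_le_one_right (norm_nonneg _) (hp1 w hw)
    rw [norm_inv]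
    rw [div_lt_iff₀ (by positivity)] at h5
    have h10 : 0 < ‖G w‖ := norm_pos_iff.2 (hG0 w hw)
    rw [inv_le_iff_one_le_mul₀ h10]
    nlinarith
  have hGn : ∀ w ∈ ball (0 : ℂ) 1, ‖G w‖ = 1 := by
    intro w hw
    refine le_antisymm (hG1 w hw) ?_
    have h1 := hG2 w hw
    rw [norm_inv] at h1
    have h10 : 0 < ‖G w‖ := norm_pos_iff.2 (hG0 w hw)
    rw [inv_le_one₀ h10] at h1
    exact h1
  have h0 : (0 : ℂ) ∈ ball (0 : ℂ) 1 := mem_ball_self one_pos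
  have hconst : EqOn G (Function.const ℂ (G 0)) (ball 0 1) := by
    refine Complex.eqOn_of_isPreconnected_of_isMaxOn_norm (convex_ball 0 1).isPreconnected
      isOpen_ball hGd h0 ?_
    intro w hw
    show ‖G w‖ ≤ ‖G 0‖
    rw [hGn w hw, hGn 0 h0]
  refine ⟨fun w => G 0 * ∏ i, (w - a i) / (1 - (starRingEnd ℂ) (a i) * w),
    ⟨G 0, a, hGn 0 h0, ha, ?_, fun z _ => rfl⟩, fun w hw => ?_⟩
  · have h1 := hB 0 h0
    rw [hB0] at h1
    have h2 : ∏ i, (0 - a i) = 0 := by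
      rcases mul_eq_zero.1 h1.symm with h | h
      · exact absurd h (hk0 0 h0)
      · exact h
    obtain ⟨i, -, hi⟩ := Finset.prod_eq_zero_iff.1 h2
    exact ⟨i, by linear_combination -hi⟩
  · rw [hBG w hw, hconst hw]
    rfl

end Pool.Agent.BSL
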