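import Pool.Agent.BSL.Targets

/-!
# BSL: BOA (the logarithmic coordinate near infinity)
-/

set_option autoImplicit false

open Polynomial Metric Set Filter Topology

noncomputable section

namespace Pool.Agent.BSL

/-- `P` in terms of the reversed polynomial -/
theorem BOA_rev (P : ℂ[X]) (u : ℂ) :
    P.eval (Complex.exp u) = Complex.exp (P.natDegree * u) * P.reverse.eval (Complex.exp (-u)) := by
  have h0 : Complex.exp u ≠ 0 := Complex.exp_ne_zero u
  let _ : Invertible (Complex.exp u) := invertibleOfNonzero h0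
  have h := Polynomial.eval₂_reverse_mul_pow (RingHom.id ℂ) (Complex.exp u) P
  rw [invOf_eq_inv, ← Complex.exp_neg, ← Complex.exp_nat_mul] at h
  rw [mul_comm]
  exact h.symm

theorem p_BOA : T_BOA := by
  intro n P hn hP
  have hP0 : P ≠ 0 := by
    rintro rfl
    simp at hP
    omega
  obtain ⟨a, ha, ha0⟩ : ∃ a, a = P.leadingCoeff ∧ a ≠ 0 :=
    ⟨_, rfl, Polynomial.leadingCoeff_ne_zero.2 hP0⟩
  -- a neighbourhood of `0`
  have hcont : ContinuousAt (fun w : ℂ => P.reverse.eval w / a) 0 :=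
    (P.reverse.continuous.continuousAt).div_const a
  have h0 : P.reverse.eval 0 / a = 1 := by
    rw [← Polynomial.coeff_zero_eq_eval_zero, Polynomial.coeff_zero_reverse, ← ha,
      div_self ha0]
  obtain ⟨δ, hδ, hδ'⟩ := Metric.continuousAt_iff.1 hcont (1 / 2) (by norm_num)
  rw [h0] at hδ'
  obtain ⟨ℓ, hℓ⟩ : ∃ ℓ : ℂ, Complex.exp ℓ = a := ⟨_, Complex.exp_log ha0⟩
  obtain ⟨L, hL, hL1, hL2⟩ : ∃ L : ℝ, 0 < L ∧ Real.exp (-L) ≤ δ ∧ 2 - ℓ.re ≤ L := by
    refine ⟨max (max 1 (-Real.log δ)) (2 - ℓ.re), ?_, ?_, le_max_right _ _⟩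
    · exact lt_of_lt_of_le one_pos ((le_max_left _ _).trans (le_max_left _ _))
    · rw [← Real.le_log_iff_exp_le hδ]
      have : -Real.log δ ≤ max (max 1 (-Real.log δ)) (2 - ℓ.re) :=
        (le_max_right _ _).trans (le_max_left _ _)
      linarith
  obtain ⟨W, hW⟩ : ∃ W : ℂ → ℂ, W = fun u => P.reverse.eval (Complex.exp (-u)) / a :=
    ⟨_, rfl⟩
  have hWn : ∀ u : ℂ, L < u.re → ‖W u - 1‖ ≤ 1 / 2 := by
    intro u hu
    have h1 : dist (Complex.exp (-u)) 0 < δ := by
      rw [dist_zero_right, Complex.norm_exp, Complex.neg_re]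
      exact lt_of_lt_of_le (Real.exp_lt_exp.2 (by linarith)) hL1
    have h2 := hδ' h1
    rw [dist_eq_norm] at h2
    rw [hW]
    exact h2.le
  have hlog : ∀ u : ℂ, L < u.re → ‖Complex.log (W u)‖ ≤ 1 := by
    intro u hu
    have h1 := hWn u hu
    have h2 := Complex.norm_log_one_add_half_le_self h1
    rw [add_sub_cancel] at h2
    linarith
  have hslit : ∀ u : ℂ, L < u.re → W u ∈ Complex.slitPlane := by
    intro u hu
    left
    have h1 := hWn u hu
    have h2 := (abs_le.1 ((Complex.abs_re_le_norm (W u - 1)).trans h1)).1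
    rw [Complex.sub_re, Complex.one_re] at h2
    linarith
  have hWd : Differentiable ℂ W := by
    rw [hW]
    exact (P.reverse.differentiable.comp
      (Complex.differentiable_exp.comp differentiable_neg)).div_const a
  refine ⟨L, ℓ, fun u => Complex.log (W u), hL, ?_, hlog, ?_, ?_, ?_⟩
  · intro u hu
    exact (hWd.differentiableAt.clog (hslit u hu)).differentiableWithinAt
  · intro u _
    rw [hW]
    dsimp only
    rw [neg_add, Complex.exp_add]
    have h1 : Complex.exp (-(2 * Real.pi * Complex.I)) = 1 := by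
      rw [Complex.exp_neg, Complex.exp_two_pi_mul_I, inv_one]
    rw [h1, mul_one]
  · intro u hu
    have hW0 : W u ≠ 0 := Complex.slitPlane_ne_zero (hslit u hu)
    rw [Complex.exp_add, Complex.exp_add, Complex.exp_log hW0, hℓ, hW]
    change _ = P.eval (Complex.exp u)
    rw [BOA_rev, hP]
    field_simp
  · intro u hu
    have h1 := (abs_le.1 ((Complex.abs_re_le_norm (Complex.log (W u))).trans (hlog u hu))).1
    have h2 : ((n : ℂ) * u + ℓ + Complex.log (W u)).re =
        n * u.re + ℓ.re + (Complex.log (W u)).re := by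
      simp
    rw [h2]
    have h3 : (2 : ℝ) ≤ n := by exact_mod_cast hn
    have h4 : 2 * u.re ≤ n * u.re := mul_le_mul_of_nonneg_right h3 (by linarith)
    linarith

end Pool.Agent.BSL
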