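import Pool.Agent.BSL.Targets

/-!
# BSL: BOB (linearisation series)
-/

set_option autoImplicit false

open Polynomial Metric Set Filter Topology

noncomputable section

namespace Pool.Agent.BSL

/-- periodicity -/
theorem BOB_per {n : ℕ} {P : ℂ[X]} {L : ℝ} {ℓ : ℂ} {e : ℂ → ℂ} (h : LogF n P L ℓ e) (m : ℕ)
    (u : ℂ) (hu : L < u.re) : e (u + m * (2 * Real.pi * Complex.I)) = e u := by
  induction m with
  | zero => simp
  | succ m ih =>
    have h1 : u + ((m + 1 : ℕ) : ℂ) * (2 * Real.pi * Complex.I) =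
        (u + m * (2 * Real.pi * Complex.I)) + 2 * Real.pi * Complex.I := by
      push_cast
      ring
    rw [h1, h.per, ih]
    simpa using hu

theorem p_BOB : T_BOB := by
  intro n P L ℓ e hn hF
  obtain ⟨T, hT⟩ : ∃ T : ℂ → ℂ, T = fun u => n * u + ℓ + e u := ⟨_, rfl⟩
  have hTa : ∀ u, T u = n * u + ℓ + e u := fun u => by rw [hT]
  have hTre : ∀ u : ℂ, L < u.re → L < (T u).re := by
    intro u hu
    have := hF.map u hu
    rw [hTa]
    linarith
  have hTk : ∀ (k : ℕ) (u : ℂ), L < u.re → L < (T^[k] u).re := by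
    intro k
    induction k with
    | zero => exact fun u hu => hu
    | succ k ih => exact fun u hu => ih _ (hTre u hu)
  have hTkd : ∀ k : ℕ, DifferentiableOn ℂ (T^[k]) {u | L < u.re} := by
    intro k
    induction k with
    | zero => exact differentiableOn_id
    | succ k ih =>
      have h1 : DifferentiableOn ℂ T {u | L < u.re} := by
        rw [hT]
        exact ((differentiableOn_id.const_mul (n : ℂ)).add_const ℓ).add hF.hol
      exact ih.comp h1 (fun u hu => hTre u hu)
  have hopen : IsOpen {u : ℂ | L < u.re} := isOpen_lt continuous_const Complex.continuous_re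
  have hn1 : (1 : ℝ) < n := by exact_mod_cast hn
  have hnC : (n : ℂ) ≠ 0 := by exact_mod_cast (by omega : n ≠ 0)
  have hnC1 : (n : ℂ) - 1 ≠ 0 := by
    rw [sub_ne_zero]
    exact_mod_cast (by omega : n ≠ 1)
  obtain ⟨b, hb⟩ : ∃ b : ℕ → ℝ, b = fun k => ((n : ℝ)⁻¹) ^ (k + 1) := ⟨_, rfl⟩
  have hbs : Summable b := by
    rw [hb]
    exact (summable_nat_add_iff 1).2
      (summable_geometric_of_lt_one (by positivity) (inv_lt_one_of_one_lt₀ hn1))
  obtain ⟨f, hf⟩ : ∃ f : ℕ → ℂ → ℂ, f = fun k u => ((n : ℂ)⁻¹) ^ (k + 1) * e (T^[k] u) :=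
    ⟨_, rfl⟩
  have hfb : ∀ k, ∀ u ∈ {u : ℂ | L < u.re}, ‖f k u‖ ≤ b k := by
    intro k u hu
    rw [hf, hb]
    dsimp only
    rw [norm_mul, norm_pow, norm_inv, Complex.norm_natCast]
    exact mul_le_of_le_one_right (by positivity) (hF.bdd _ (hTk k u hu))
  have hfs : ∀ u : ℂ, L < u.re → Summable fun k => f k u := fun u hu =>
    Summable.of_norm_bounded hbs (fun k => hfb k u hu)
  have hfd : ∀ k, DifferentiableOn ℂ (f k) {u | L < u.re} := by
    intro k
    rw [hf]
    exact (hF.hol.comp (hTkd k) (fun u hu => hTk k u hu)).const_mul _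
  have hsum : DifferentiableOn ℂ (fun u => ∑' k, f k u) {u | L < u.re} :=
    Complex.differentiableOn_tsum_of_summable_norm hbs hfd hopen hfb
  refine ⟨‖ℓ / (n - 1)‖ + ∑' k, b k, fun u => u + ℓ / (n - 1) + ∑' k, f k u, ?_, ?_, ?_, ?_,
    ?_⟩
  · refine add_nonneg (norm_nonneg _) (tsum_nonneg fun k => ?_)
    rw [hb]
    positivity
  · exact (differentiableOn_id.add_const _).add hsum
  · intro u hu
    have h1 : u + ℓ / (n - 1) + ∑' k, f k u - u = ℓ / (n - 1) + ∑' k, f k u := by ring
    rw [h1]
    refine (norm_add_le _ _).trans (add_le_add le_rfl ?_)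
    exact tsum_of_norm_bounded hbs.hasSum (fun k => hfb k u hu)
  · intro u hu
    have h1 : ∀ k : ℕ, T^[k] (u + 2 * Real.pi * Complex.I) =
        T^[k] u + ((n ^ k : ℕ) : ℂ) * (2 * Real.pi * Complex.I) := by
      intro k
      induction k with
      | zero => simp
      | succ k ih =>
        rw [Function.iterate_succ_apply', Function.iterate_succ_apply', ih, hTa, hTa,
          BOB_per hF _ _ (hTk k u hu)]
        push_cast
        ring
    have h2 : ∀ k, f k (u + 2 * Real.pi * Complex.I) = f k u := by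
      intro k
      rw [hf]
      dsimp only
      rw [h1 k, BOB_per hF _ _ (hTk k u hu)]
    simp only [h2]
    ring
  · intro u hu
    rw [← hTa u]
    have h1 : ∀ k, f k (T u) = n * f (k + 1) u := by
      intro k
      rw [hf]
      dsimp only
      rw [← Function.iterate_succ_apply T k u, pow_succ _ (k + 1)]
      field_simp
    have h2 : ∑' k, f k u = f 0 u + ∑' k, f (k + 1) u := (hfs u hu).tsum_eq_zero_add
    have h3 : ∑' k, f k (T u) = n * ∑' k, f (k + 1) u := by
      simp only [h1]
      rw [tsum_mul_left]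
    have h4 : n * f 0 u = e u := by
      rw [hf]
      dsimp only
      rw [Function.iterate_zero_apply, zero_add, pow_one, ← mul_assoc, mul_inv_cancel₀ hnC,
        one_mul]
    rw [h3, h2, mul_add, mul_add, mul_add, h4, hTa]
    field_simp
    ring

end Pool.Agent.BSL
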