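import Pool.Agent.BSL.Targets

/-!
# BSL: proof of BOC
-/

set_option autoImplicit false

open Polynomial Metric Set Filter Topology

noncomputable section

namespace Pool.Agent.BSL

namespace BOC_

lemma re_sub_le (u z : ℂ) {r : ℝ} (h : ‖z - u‖ ≤ r) : u.re - r ≤ z.re := by
  have h1 := Complex.abs_re_le_norm (z - u)
  rw [Complex.sub_re] at h1
  have h2 := (abs_le.1 (h1.trans h)).1
  linarith

lemma open_half (a : ℝ) : IsOpen {u : ℂ | a < u.re} :=
  isOpen_lt continuous_const Complex.continuous_re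

lemma der_bound (L C : ℝ) (Φ : ℂ → ℂ) (hC : 0 ≤ C) (hΦ : DifferentiableOn ℂ Φ {u | L < u.re})
    (hn : ∀ u : ℂ, L < u.re → ‖Φ u - u‖ ≤ C) (u : ℂ) (hu : L + 4 * C + 1 < u.re) :
    DifferentiableAt ℂ (fun z => Φ z - z) u ∧ ‖deriv (fun z => Φ z - z) u‖ ≤ 1 / 4 := by
  have hd : DifferentiableOn ℂ (fun z => Φ z - z) {u | L < u.re} :=
    hΦ.sub differentiableOn_id
  have hsub : closedBall u (4 * C + 1) ⊆ {u : ℂ | L < u.re} := by
    intro z hz
    have h1 := re_sub_le u z (mem_closedBall_iff_norm.1 hz)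
    show L < z.re
    linarith
  have hR : 0 < 4 * C + 1 := by linarith
  refine ⟨hd.differentiableAt ((open_half L).mem_nhds (by show L < u.re; linarith)), ?_⟩
  have h1 : DiffContOnCl ℂ (fun z => Φ z - z) (ball u (4 * C + 1)) := by
    refine DifferentiableOn.diffContOnCl (hd.mono ?_)
    exact (closure_ball_subset_closedBall).trans hsub
  have h2 := Complex.norm_deriv_le_of_forall_mem_sphere_norm_le hR h1
    (fun z hz => hn z (hsub (sphere_subset_closedBall hz)))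
  refine h2.trans ?_
  rw [div_le_iff₀ hR]
  linarith

lemma lip (L C : ℝ) (Φ : ℂ → ℂ) (hC : 0 ≤ C) (hΦ : DifferentiableOn ℂ Φ {u | L < u.re})
    (hn : ∀ u : ℂ, L < u.re → ‖Φ u - u‖ ≤ C) (x y : ℂ) (hx : L + 4 * C + 1 < x.re)
    (hy : L + 4 * C + 1 < y.re) : ‖(Φ y - y) - (Φ x - x)‖ ≤ 1 / 4 * ‖y - x‖ := by
  have hc : Convex ℝ {u : ℂ | L + 4 * C + 1 < u.re} := convex_halfSpace_re_gt _
  exact hc.norm_image_sub_le_of_norm_deriv_le (f := fun z => Φ z - z)
    (fun z hz => (der_bound L C Φ hC hΦ hn z hz).1)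
    (fun z hz => (der_bound L C Φ hC hΦ hn z hz).2) hx hy

lemma low (L C : ℝ) (Φ : ℂ → ℂ) (hC : 0 ≤ C) (hΦ : DifferentiableOn ℂ Φ {u | L < u.re})
    (hn : ∀ u : ℂ, L < u.re → ‖Φ u - u‖ ≤ C) (x y : ℂ) (hx : L + 4 * C + 1 < x.re)
    (hy : L + 4 * C + 1 < y.re) : ‖y - x‖ ≤ 4 / 3 * ‖Φ y - Φ x‖ := by
  have h1 := lip L C Φ hC hΦ hn x y hx hy
  have h2 : ‖y - x‖ ≤ ‖Φ y - Φ x‖ + ‖(Φ y - y) - (Φ x - x)‖ := by
    have : y - x = (Φ y - Φ x) - ((Φ y - y) - (Φ x - x)) := by ring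
    calc ‖y - x‖ = ‖(Φ y - Φ x) - ((Φ y - y) - (Φ x - x))‖ := by rw [← this]
      _ ≤ _ := norm_sub_le _ _
  linarith

lemma ex_fix (L C : ℝ) (Φ : ℂ → ℂ) (hC : 0 ≤ C) (hΦ : DifferentiableOn ℂ Φ {u | L < u.re})
    (hn : ∀ u : ℂ, L < u.re → ‖Φ u - u‖ ≤ C) (v : ℂ) (hv : L + 5 * C + 1 < v.re) :
    ∃ u : ℂ, ‖u - v‖ ≤ C ∧ L + 4 * C + 1 < u.re ∧ Φ u = v := by
  have hsub : ∀ u ∈ closedBall v C, L + 4 * C + 1 < u.re := by
    intro u hu
    have h1 := re_sub_le v u (mem_closedBall_iff_norm.1 hu)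
    linarith
  have hL : ∀ u ∈ closedBall v C, L < u.re := fun u hu => by
    have := hsub u hu
    linarith
  let T : ℂ → ℂ := fun u => v - (Φ u - u)
  have hT : MapsTo T (closedBall v C) (closedBall v C) := by
    intro u hu
    rw [mem_closedBall_iff_norm]
    have : T u - v = -(Φ u - u) := by
      simp only [T]
      ring
    rw [this, norm_neg]
    exact hn u (hL u hu)
  have hcon : ContractingWith (1 / 4 : NNReal) (hT.restrict T (closedBall v C)
      (closedBall v C)) := by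
    refine ⟨by
      rw [← NNReal.coe_lt_coe]
      push_cast
      norm_num, LipschitzWith.of_dist_le_mul ?_⟩
    rintro ⟨x, hx⟩ ⟨y, hy⟩
    rw [Subtype.dist_eq, Subtype.dist_eq]
    show dist (T x) (T y) ≤ _ * dist x y
    rw [dist_eq_norm, dist_eq_norm]
    have h1 := lip L C Φ hC hΦ hn y x (hsub y hy) (hsub x hx)
    have h2 : T x - T y = -((Φ x - x) - (Φ y - y)) := by
      simp only [T]
      ring
    rw [h2, norm_neg]
    push_cast
    exact h1
  obtain ⟨u, hu, hfix, -⟩ := hcon.exists_fixedPoint' isClosed_closedBall.isComplete hT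
    (mem_closedBall_self hC) (edist_ne_top _ _)
  refine ⟨u, mem_closedBall_iff_norm.1 hu, hsub u hu, ?_⟩
  have h1 : v - (Φ u - u) = u := hfix
  have h2 : Φ u = v - (v - (Φ u - u)) + u := by ring
  rw [h2, h1]
  ring

end BOC_

open BOC_ in
theorem p_BOC : T_BOC := by
  intro L C Φ hC hΦ hn
  refine ⟨?_, ?_⟩
  · intro x hx y hy hxy
    have h1 := low L C Φ hC hΦ hn x y hx hy
    rw [hxy, sub_self, norm_zero, mul_zero] at h1
    exact (sub_eq_zero.1 (norm_le_zero_iff.1 h1)).symm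
  · choose! Ψ h1 h2 h3 using ex_fix L C Φ hC hΦ hn
    refine ⟨Ψ, ?_, fun v hv => ⟨h1 v hv, h2 v hv, h3 v hv⟩⟩
    intro v hv
    have hop := open_half (L + 5 * C + 1)
    have hev : ∀ᶠ w in 𝓝 v, L + 5 * C + 1 < w.re := hop.mem_nhds hv
    have hcont : ContinuousAt Ψ v := by
      rw [Metric.continuousAt_iff]
      intro ε hε
      obtain ⟨δ, hδ, hb⟩ := Metric.eventually_nhds_iff.1 hev
      refine ⟨min δ (3 / 4 * ε), lt_min hδ (by positivity), fun {w} hw => ?_⟩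
      have hw1 := hb (lt_of_lt_of_le hw (min_le_left _ _))
      have hw2 := lt_of_lt_of_le hw (min_le_right _ _)
      have h4 := low L C Φ hC hΦ hn (Ψ v) (Ψ w) (h2 v hv) (h2 w hw1)
      rw [h3 v hv, h3 w hw1] at h4
      rw [dist_eq_norm] at hw2 ⊢
      linarith
    obtain ⟨h5, h6⟩ := der_bound L C Φ hC hΦ hn (Ψ v) (h2 v hv)
    have h7 : HasDerivAt Φ (deriv (fun z => Φ z - z) (Ψ v) + 1) (Ψ v) := by
      have := h5.hasDerivAt.add (hasDerivAt_id (Ψ v))
      refine this.congr_of_eventuallyEq (Filter.Eventually.of_forall fun z => ?_)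
      simp
    have h8 : deriv (fun z => Φ z - z) (Ψ v) + 1 ≠ 0 := by
      intro h
      have h9 : deriv (fun z => Φ z - z) (Ψ v) = -1 := eq_neg_of_add_eq_zero_left h
      rw [h9, norm_neg, norm_one] at h6
      norm_num at h6
    have h10 := HasDerivAt.of_local_left_inverse hcont h7 h8 (hev.mono fun w hw => h3 w hw)
    exact h10.differentiableAt.differentiableWithinAt

end Pool.Agent.BSL
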