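import Pool.Agent.BSL.Targets

/-!
# BSL: BOD (the local inverse coordinate)
-/

set_option autoImplicit false

open Polynomial Metric Set Filter Topology

noncomputable section

namespace Pool.Agent.BSL

/-- integer periods -/
theorem BOD_per {n : ℕ} {L : ℝ} {ℓ : ℂ} {e : ℂ → ℂ} {C : ℝ} {Φ : ℂ → ℂ}
    (h : LogG n L ℓ e C Φ) (k : ℤ) (u : ℂ) (hu : L < u.re) :
    Φ (u + k * (2 * Real.pi * Complex.I)) = Φ u + k * (2 * Real.pi * Complex.I) := by
  have hnat : ∀ (m : ℕ) (u : ℂ), L < u.re →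
      Φ (u + m * (2 * Real.pi * Complex.I)) = Φ u + m * (2 * Real.pi * Complex.I) := by
    intro m u hu
    induction m with
    | zero => simp
    | succ m ih =>
      have h1 : u + ((m + 1 : ℕ) : ℂ) * (2 * Real.pi * Complex.I) =
          (u + m * (2 * Real.pi * Complex.I)) + 2 * Real.pi * Complex.I := by
        push_cast
        ring
      rw [h1, h.per, ih]
      · push_cast
        ring
      · simpa using hu
  obtain ⟨m, rfl | rfl⟩ := Int.eq_nat_or_neg k
  · exact_mod_cast hnat m u hu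
  · have h1 := hnat m (u + ((-(m : ℤ) : ℤ) : ℂ) * (2 * Real.pi * Complex.I)) (by
      simpa using hu)
    have h2 : u + ((-(m : ℤ) : ℤ) : ℂ) * (2 * Real.pi * Complex.I) +
        m * (2 * Real.pi * Complex.I) = u := by
      push_cast
      ring
    rw [h2] at h1
    rw [h1]
    push_cast
    ring

theorem p_BOD (hA : T_BOA) (hB : T_BOB) (hC : T_BOC) : T_BOD := by
  intro n P hn hP
  obtain ⟨L, ℓ, e, hF⟩ := hA n P hn hP
  obtain ⟨C, Φ, hG⟩ := hB n P L ℓ e hn hF
  obtain ⟨hinj, Ψ, hΨd, hΨ⟩ := hC L C Φ hG.hC hG.hol hG.near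
  have hL := hF.hL
  have hC0 := hG.hC
  have hn1 : (2 : ℝ) ≤ n := by exact_mod_cast hn
  -- facts about `Ψ (-s)`
  have hy : ∀ s : ℂ, s.re < -(L + 5 * C + 1) → L + 5 * C + 1 < (-s).re := by
    intro s hs
    rw [Complex.neg_re]
    linarith
  have hH : ∀ s : ℂ, s.re < -(L + 5 * C + 1) → L < (Ψ (-s)).re := by
    intro s hs
    have := (hΨ _ (hy s hs)).2.1
    linarith
  refine ⟨L + 5 * C + 1, fun s => Complex.exp (Ψ (-s)), by linarith, ?_, ?_, ?_, ?_, ?_, ?_⟩
  · exact (hΨd.comp differentiable_neg.differentiableOn (fun s hs => hy s hs)).cexp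
  · intro s hs
    have h1 : (s + 2 * Real.pi * Complex.I).re < -(L + 5 * C + 1) := by simpa using hs
    obtain ⟨a1, a2, a3⟩ := hΨ _ (hy s hs)
    obtain ⟨b1, b2, b3⟩ := hΨ _ (hy _ h1)
    have h2 : Ψ (-(s + 2 * Real.pi * Complex.I)) =
        Ψ (-s) + ((-1 : ℤ) : ℂ) * (2 * Real.pi * Complex.I) := by
      refine hinj b2 ?_ ?_
      · simpa using a2
      · rw [b3, BOD_per hG (-1) _ (hH s hs), a3]
        push_cast
        ring
    change Complex.exp (Ψ (-(s + 2 * Real.pi * Complex.I))) = Complex.exp (Ψ (-s))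
    rw [h2, Complex.exp_add]
    have h3 : Complex.exp (((-1 : ℤ) : ℂ) * (2 * Real.pi * Complex.I)) = 1 :=
      Complex.exp_int_mul_two_pi_mul_I (-1)
    rw [h3, mul_one]
  · intro s hs
    have h1 : ((n : ℂ) * s).re < -(L + 5 * C + 1) := by
      have h2 : ((n : ℂ) * s).re = n * s.re := by simp
      rw [h2]
      have h3 : (n : ℝ) * s.re ≤ 2 * s.re :=
        mul_le_mul_of_nonpos_right hn1 (by linarith)
      linarith
    obtain ⟨a1, a2, a3⟩ := hΨ _ (hy s hs)
    obtain ⟨b1, b2, b3⟩ := hΨ _ (hy _ h1)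
    have h4 := hF.map _ (hH s hs)
    have h5 : n * Ψ (-s) + ℓ + e (Ψ (-s)) = Ψ (-(n * s)) := by
      refine hinj ?_ b2 ?_
      · change L + 4 * C + 1 < _
        linarith
      · rw [b3, hG.lin _ (hH s hs), a3]
        ring
    change pm P (Complex.exp (Ψ (-s))) = Complex.exp (Ψ (-(n * s)))
    rw [← hF.exp _ (hH s hs), h5]
  · intro s t hs ht hst
    obtain ⟨a1, a2, a3⟩ := hΨ _ (hy s hs)
    obtain ⟨b1, b2, b3⟩ := hΨ _ (hy t ht)
    obtain ⟨k, hk⟩ := Complex.exp_eq_exp_iff_exists_int.1 hst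
    refine ⟨k, ?_⟩
    have h1 := BOD_per hG k _ (hH t ht)
    rw [← hk, a3, b3] at h1
    linear_combination h1
  · intro M
    refine ⟨Real.log (|M| + 1) + C, fun s hs hs' => ?_⟩
    obtain ⟨a1, a2, a3⟩ := hΨ _ (hy s hs')
    change M < ‖Complex.exp (Ψ (-s))‖
    rw [Complex.norm_exp]
    have h1 := (abs_le.1 ((Complex.abs_re_le_norm (Ψ (-s) - -s)).trans a1)).1
    rw [Complex.sub_re, Complex.neg_re] at h1
    have h2 : Real.log (|M| + 1) < (Ψ (-s)).re := by linarith
    have h3 : (0 : ℝ) < |M| + 1 := by positivity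
    have h4 := (Real.log_lt_iff_lt_exp h3).1 h2
    have h5 := le_abs_self M
    linarith
  · refine ⟨Real.exp (L + 6 * C + 2), fun z hz => ?_⟩
    have hz0 : z ≠ 0 := by
      rintro rfl
      rw [norm_zero] at hz
      exact absurd hz (not_le.2 (Real.exp_pos _))
    have h1 : L + 6 * C + 2 ≤ (Complex.log z).re := by
      rw [Complex.log_re]
      exact (Real.le_log_iff_exp_le (norm_pos_iff.2 hz0)).2 hz
    have h2 : L < (Complex.log z).re := by linarith
    have h3 := hG.near _ h2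
    have h4 := (abs_le.1 ((Complex.abs_re_le_norm (Φ (Complex.log z) - Complex.log z)).trans
      h3)).1
    rw [Complex.sub_re] at h4
    have h5 : L + 5 * C + 1 < (Φ (Complex.log z)).re := by linarith
    obtain ⟨a1, a2, a3⟩ := hΨ _ h5
    refine ⟨-Φ (Complex.log z), ?_, ?_⟩
    · rw [Complex.neg_re]
      linarith
    · change Complex.exp (Ψ (- -Φ (Complex.log z))) = z
      rw [neg_neg]
      have h6 : Ψ (Φ (Complex.log z)) = Complex.log z := by
        refine hinj a2 ?_ a3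
        change L + 4 * C + 1 < _
        linarith
      rw [h6, Complex.exp_log hz0]

end Pool.Agent.BSL
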