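import Pool.Agent.BSL.Targets
import Pool.Agent.MAT.P_ROOT

/-!
# BSL: proof of BRA
-/

set_option autoImplicit false

open Polynomial Metric Set Filter Topology

noncomputable section

namespace Pool.Agent.BSL

open Pool.Agent.MAT

namespace BRA_

lemma ev (P : ℂ[X]) (m : ℕ) (z : ℂ) : (P.comp^[m] X).eval z = (pm P)^[m] z := by
  rw [iterate_comp_eval, eval_X]
  rfl

lemma crit (P : ℂ[X]) (z : ℂ) (m : ℕ) (h : (derivative (P.comp^[m] X)).eval z = 0) :
    ∃ i, i < m ∧ (derivative P).eval ((pm P)^[i] z) = 0 := by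
  induction m with
  | zero => simp at h
  | succ m ih =>
    rw [Function.iterate_succ_apply', derivative_comp, eval_mul, eval_comp, ev] at h
    rcases mul_eq_zero.1 h with h | h
    · obtain ⟨i, hi, h1⟩ := ih h
      exact ⟨i, by omega, h1⟩
    · exact ⟨m, by omega, h⟩

end BRA_

open BRA_ in
theorem p_BRA : T_BRA := by
  intro n P z₀ R hctx m x p y r hdis hp hy
  set Q : ℂ[X] := P.comp^[m] X with hQ
  have hn1 : 1 ≤ n := le_trans (by norm_num) hctx.hp.hn
  have hdeg : Q.natDegree = n ^ m := by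
    rw [hQ, natDegree_iterate_comp, natDegree_X, mul_one, hctx.hp.deg]
  have hpos : 1 ≤ n ^ m := Nat.one_le_pow _ _ hn1
  have hQ0 : Q ≠ 0 := by
    intro h
    rw [h, natDegree_zero] at hdeg
    omega
  have ha : Q.leadingCoeff ≠ 0 := leadingCoeff_ne_zero.2 hQ0
  have hev : ∀ ζ z : ℂ, (C Q.leadingCoeff⁻¹ * Q).eval z =
      ζ * (C Q.leadingCoeff⁻¹ : ℂ[X]).eval z ↔ (pm P)^[m] z = ζ := by
    intro ζ z
    have h1 : Q.eval z = (pm P)^[m] z := ev P m z
    rw [eval_mul, eval_C, h1, mul_comm ζ]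
    exact mul_right_inj' (inv_ne_zero ha)
  obtain ⟨g, hg1, hg2, hg3⟩ := p_ROOT (n ^ m) (C Q.leadingCoeff⁻¹ * Q) (C Q.leadingCoeff⁻¹)
    (ball x r) (fun ζ => ζ) p y hpos
    (monic_C_mul_of_mul_leadingCoeff_eq_one (inv_mul_cancel₀ ha))
    (by rw [natDegree_C_mul (inv_ne_zero ha), hdeg]) (by rw [natDegree_C]; omega) isOpen_ball
    (convex_ball x r) hp differentiableOn_id ((hev p y).2 hy) (by
      intro ζ hζ z hz
      rw [hev] at hz
      rw [derivative_C, eval_zero, mul_zero, sub_zero, derivative_C_mul, eval_mul, eval_C]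
      refine mul_ne_zero (inv_ne_zero ha) fun h => ?_
      obtain ⟨i, hi, hc⟩ := crit P z m h
      refine Set.disjoint_left.1 hdis hζ (Or.inr ⟨(pm P)^[i] z, m - i, hc, ?_⟩)
      rw [← Function.iterate_add_apply, Nat.sub_add_cancel hi.le, hz])
  exact ⟨g, ⟨hg1, fun z hz => (hev z (g z)).1 (hg3 z hz)⟩, hg2⟩

end Pool.Agent.BSL
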