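import Pool.Agent.BSL.Targets

/-!
# BSL, target BRM: zeros of `h ∘ P ∘ ψ`
-/

set_option autoImplicit false

open Polynomial Metric Set Filter Topology

noncomputable section

namespace Pool.Agent.BSL

namespace BRM_

/-- the divided difference of `ψ` -/
theorem dpsi {U : Set ℂ} {z₀ : ℂ} {ψ h : ℂ → ℂ} (hR : RM U z₀ ψ h) {a : ℂ}
    (ha : a ∈ ball (0 : ℂ) 1) :
    DifferentiableOn ℂ (dslope ψ a) (ball 0 1) ∧ (∀ w ∈ ball (0 : ℂ) 1, dslope ψ a w ≠ 0) ∧
      ∀ w, ψ w - ψ a = (w - a) * dslope ψ a w := by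
  refine ⟨?_, ?_, ?_⟩
  · exact (Complex.differentiableOn_dslope (isOpen_ball.mem_nhds ha)).2 hR.hol
  · intro w hw
    by_cases h1 : w = a
    · rw [h1, dslope_same]
      exact hR.der a ha
    · rw [dslope_of_ne _ h1, slope_def_field]
      refine div_ne_zero (sub_ne_zero.2 fun h2 => h1 (hR.inj hw ha h2)) (sub_ne_zero.2 h1)
  · intro w
    have := sub_smul_dslope ψ a w
    rw [smul_eq_mul] at this
    exact this.symm

/-- the divided difference of `h` at `z₀` -/
theorem dh {U : Set ℂ} {z₀ : ℂ} {ψ h : ℂ → ℂ} (hU : IsOpen U) (hz : z₀ ∈ U)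
    (hR : RM U z₀ ψ h) :
    DifferentiableOn ℂ (dslope h z₀) U ∧ (∀ z ∈ U, dslope h z₀ z ≠ 0) ∧
      ∀ z, h z = (z - z₀) * dslope h z₀ z := by
  have h0 : h z₀ = 0 := by
    rw [← hR.zero]
    exact hR.hψ 0 (by simp)
  refine ⟨?_, ?_, ?_⟩
  · exact (Complex.differentiableOn_dslope (hU.mem_nhds hz)).2 hR.hhol
  · intro z hzU
    by_cases h1 : z = z₀
    · rw [h1, dslope_same]
      exact hR.hder z₀ hz
    · rw [dslope_of_ne _ h1, slope_def_field, h0, sub_zero]
      refine div_ne_zero (fun h2 => h1 ?_) (sub_ne_zero.2 h1)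
      rw [← hR.ψh z hzU, h2, hR.zero]
  · intro z
    have := sub_smul_dslope h z₀ z
    rw [smul_eq_mul, h0, sub_zero] at this
    exact this.symm

/-- a product over a multiset of points -/
theorem mset {U : Set ℂ} {z₀ : ℂ} {ψ h : ℂ → ℂ} (hR : RM U z₀ ψ h) (s : Multiset ℂ) :
    ∃ (d : ℕ) (a : Fin d → ℂ) (k : ℂ → ℂ), d ≤ Multiset.card s ∧ (∀ i, ‖a i‖ < 1) ∧
      DifferentiableOn ℂ k (ball 0 1) ∧ (∀ w ∈ ball (0 : ℂ) 1, k w ≠ 0) ∧
      (∀ w ∈ ball (0 : ℂ) 1, (s.map fun c => ψ w - c).prod = k w * ∏ i, (w - a i)) ∧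
      (d = Multiset.card s → ∀ c ∈ s, c ∈ U) := by
  induction s using Multiset.induction_on with
  | empty =>
    refine ⟨0, fun i => i.elim0, fun _ => 1, le_rfl, fun i => i.elim0, ?_, ?_, ?_, ?_⟩
    · exact differentiableOn_const 1
    · intro w _
      exact one_ne_zero
    · intro w _
      simp
    · intro _ c hc
      simp at hc
  | cons c s ih =>
    obtain ⟨d, a, k, h1, h2, h3, h4, h5, h6⟩ := ih
    by_cases hc : c ∈ U
    · have hca := hR.hmem c hc
      obtain ⟨e1, e2, e3⟩ := dpsi hR hca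
      refine ⟨d + 1, Fin.cons (h c) a, fun w => k w * dslope ψ (h c) w, ?_, ?_, h3.mul e1, ?_,
        ?_, ?_⟩
      · rw [Multiset.card_cons]
        omega
      · intro i
        refine Fin.cases ?_ (fun i => ?_) i
        · simpa using hca
        · simpa using h2 i
      · intro w hw
        exact mul_ne_zero (h4 w hw) (e2 w hw)
      · intro w hw
        rw [Multiset.map_cons, Multiset.prod_cons, h5 w hw, Fin.prod_univ_succ]
        simp only [Fin.cons_zero, Fin.cons_succ]
        have e4 := e3 w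
        rw [hR.ψh c hc] at e4
        rw [e4]
        ring
      · intro hd x hx
        rw [Multiset.card_cons] at hd
        rcases Multiset.mem_cons.1 hx with rfl | hx
        · exact hc
        · exact h6 (by omega) x hx
    · refine ⟨d, a, fun w => k w * (ψ w - c), ?_, h2, h3.mul (hR.hol.sub_const c), ?_, ?_, ?_⟩
      · rw [Multiset.card_cons]
        omega
      · intro w hw
        refine mul_ne_zero (h4 w hw) (sub_ne_zero.2 fun h7 => hc ?_)
        rw [← h7, ← hR.img]
        exact mem_image_of_mem ψ hw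
      · intro w hw
        rw [Multiset.map_cons, Multiset.prod_cons, h5 w hw]
        ring
      · intro hd
        rw [Multiset.card_cons] at hd
        omega

end BRM_

open BRM_ in
theorem p_BRM : T_BRM := by
  intro n P z₀ ψ h hP hB hR
  have hQd : (P - C z₀).natDegree = n := by
    rw [natDegree_sub_C, hP.deg]
  have hQ0 : P - C z₀ ≠ 0 := by
    intro h0
    rw [h0, natDegree_zero] at hQd
    have := hP.hn
    omega
  have hcard : Multiset.card (P - C z₀).roots = n := by
    rw [← hQd]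
    exact (IsAlgClosed.splits (P - C z₀)).natDegree_eq_card_roots.symm
  obtain ⟨d, a, k, h1, h2, h3, h4, h5, h6⟩ := mset hR (P - C z₀).roots
  rw [hcard] at h1 h6
  obtain ⟨e1, e2, e3⟩ := dh hB.opn hB.mem hR
  have hψU : ∀ w ∈ ball (0 : ℂ) 1, ψ w ∈ UU P z₀ := by
    intro w hw
    rw [← hR.img]
    exact mem_image_of_mem ψ hw
  have hPU : ∀ w ∈ ball (0 : ℂ) 1, pm P (ψ w) ∈ UU P z₀ := fun w hw =>
    hB.map _ (hψU w hw)
  have hlc : (P - C z₀).leadingCoeff ≠ 0 := leadingCoeff_ne_zero.2 hQ0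
  have hev : ∀ w, pm P (ψ w) - z₀ =
      (P - C z₀).leadingCoeff * ((P - C z₀).roots.map fun c => ψ w - c).prod := by
    intro w
    have e4 := (IsAlgClosed.splits (P - C z₀)).eq_prod_roots
    have e5 := congrArg (eval (ψ w)) e4
    rw [eval_sub, eval_C, eval_mul, eval_C, eval_multiset_prod, Multiset.map_map] at e5
    rw [show pm P (ψ w) = eval (ψ w) P from rfl, e5]
    congr 2
    refine Multiset.map_congr rfl fun c _ => ?_
    simp
  have hdiff : DifferentiableOn ℂ (fun w => pm P (ψ w)) (ball 0 1) := by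
    intro w hw
    exact (P.differentiable.differentiableAt (x := ψ w)).comp_differentiableWithinAt w
      (hR.hol w hw)
  refine ⟨d, a, fun w => dslope h z₀ (pm P (ψ w)) * (P - C z₀).leadingCoeff * k w, h1, h2, ?_,
    ?_, ?_, ?_⟩
  · exact ((e1.comp hdiff hPU).mul_const _).mul h3
  · intro w hw
    exact mul_ne_zero (mul_ne_zero (e2 _ (hPU w hw)) hlc) (h4 w hw)
  · intro w hw
    rw [e3 (pm P (ψ w)), hev w, h5 w hw]
    ring
  · intro hd z hz
    refine h6 hd z ?_
    rw [mem_roots hQ0, IsRoot.def, eval_sub, eval_C, hz, sub_self]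

end Pool.Agent.BSL
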