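import Pool.Agent.BSL.Targets

/-!
# BSL: BRU, uniqueness of inverse branches
-/

set_option autoImplicit false

open Polynomial Metric Set Filter Topology

noncomputable section

namespace Pool.Agent.BSL

theorem BRU_diff (P : ℂ[X]) (m : ℕ) : Differentiable ℂ ((pm P)^[m]) := by
  have h : Differentiable ℂ (pm P) := P.differentiable
  exact h.iterate m

theorem BRU_loc (f g g' : ℂ → ℂ) (p : ℂ) (hf : Differentiable ℂ f)
    (hg : DifferentiableAt ℂ g p) (hg' : DifferentiableAt ℂ g' p)
    (h : ∀ᶠ z in 𝓝 p, f (g z) = z) (h' : ∀ᶠ z in 𝓝 p, f (g' z) = z) (hp : g p = g' p) :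
    g =ᶠ[𝓝 p] g' := by
  have hdf : HasStrictDerivAt f (deriv f (g p)) (g p) :=
    (hf.analyticAt (g p)).hasStrictDerivAt
  have hcomp : HasDerivAt (f ∘ g) (deriv f (g p) * deriv g p) p :=
    hdf.hasDerivAt.comp p hg.hasDerivAt
  have hid : HasDerivAt (f ∘ g) 1 p := (hasDerivAt_id p).congr_of_eventuallyEq h
  have hne : deriv f (g p) ≠ 0 := by
    intro h0
    have := hcomp.unique hid
    simp [h0] at this
  have hL := hdf.eventually_left_inverse hne
  have h1 := hg.continuousAt.eventually hL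
  have h2 : ∀ᶠ z in 𝓝 p, hdf.localInverse f (deriv f (g p)) (g p) hne (f (g' z)) = g' z := by
    have hc : Tendsto g' (𝓝 p) (𝓝 (g p)) := by rw [hp]; exact hg'.continuousAt
    exact hc.eventually hL
  filter_upwards [h, h', h1, h2] with z a b c d
  rw [← c, ← d, a, b]

/-- BRU -/
theorem p_BRU : T_BRU := by
  intro P m x x' p r r' g g' hg hg' hp hgp
  have hU : IsOpen (ball x r ∩ ball x' r') := isOpen_ball.inter isOpen_ball
  have hc : IsPreconnected (ball x r ∩ ball x' r') :=
    ((convex_ball x r).inter (convex_ball x' r')).isPreconnected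
  have ga : AnalyticOnNhd ℂ g (ball x r ∩ ball x' r') :=
    (hg.1.mono inter_subset_left).analyticOnNhd hU
  have g'a : AnalyticOnNhd ℂ g' (ball x r ∩ ball x' r') :=
    (hg'.1.mono inter_subset_right).analyticOnNhd hU
  refine ga.eqOn_of_preconnected_of_eventuallyEq g'a hc hp ?_
  have n1 : ball x r ∈ 𝓝 p := isOpen_ball.mem_nhds hp.1
  have n2 : ball x' r' ∈ 𝓝 p := isOpen_ball.mem_nhds hp.2
  exact BRU_loc ((pm P)^[m]) g g' p (BRU_diff P m) (hg.1.differentiableAt n1)
    (hg'.1.differentiableAt n2) (eventually_of_mem n1 hg.2) (eventually_of_mem n2 hg'.2) hgp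

end Pool.Agent.BSL
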