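import Pool.Agent.BSL.Targets
import Pool.Agent.MAT.P_XND

set_option autoImplicit false

open Polynomial Metric Set Filter Topology

noncomputable section

namespace Pool.Agent.BSL

open Pool.Agent.MAT

namespace CNV_

theorem fun_eq {n : ℕ} (x : RatMap n) (v : ℂ) (hden : x.den = C v) :
    (fun z => x.num.eval z / x.den.eval z) = pm (C v⁻¹ * x.num) := by
  funext z
  rw [hden, pm, eval_C, eval_mul, eval_C, div_eq_inv_mul]

theorem deriv_pm (P : ℂ[X]) (z : ℂ) : deriv (pm P) z = (derivative P).eval z :=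
  P.deriv (x := z)

end CNV_

theorem p_CNV : T_CNV := by
  intro n x z₀ hn hx hfix hatt hcrit
  have hn0 : 0 < n := by omega
  have hden : x.den = C (x.1.2 ⟨0, hn0⟩) := by
    unfold RatMap.den denP
    rw [Finset.sum_eq_single (⟨0, hn0⟩ : Fin n)]
    · simp
    · intro i _ hi
      rw [hx i (fun h => hi (Fin.ext h))]
      simp
    · simp
  have hdeg : x.num.natDegree = n := XND_.natDegree_numP n _
  have hv0 : x.1.2 ⟨0, hn0⟩ ≠ 0 := by
    intro h
    have hcop : IsCoprime x.num x.den := x.2.2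
    rw [hden, h, map_zero, isCoprime_zero_right] at hcop
    have h2 := natDegree_eq_zero_of_isUnit hcop
    omega
  have hfun := CNV_.fun_eq x _ hden
  refine ⟨_, hv0, hden, ⟨hn, ?_, ?_, ?_, ?_⟩⟩
  · rw [natDegree_C_mul (inv_ne_zero hv0), hdeg]
  · have h1 := congrFun hfun z₀
    change x.num.eval z₀ / x.den.eval z₀ = (C (x.1.2 ⟨0, hn0⟩)⁻¹ * x.num).eval z₀ at h1
    rw [← h1]
    exact hfix
  · rw [hfun, CNV_.deriv_pm] at hatt
    exact hatt
  · intro c hc
    have h1 := hcrit c (by rw [hfun, CNV_.deriv_pm]; exact hc)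
    rw [hfun] at h1
    exact h1

end Pool.Agent.BSL
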