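import Pool.Agent.BSL.Targets

/-!
# BSL: CRM (critical points of the conjugate of `P`)
-/

set_option autoImplicit false

open Polynomial Metric Set Filter Topology

noncomputable section

namespace Pool.Agent.BSL

/-- products over the critical points -/
theorem CRM_prod {U : Set ℂ} {z₀ : ℂ} {ψ h : ℂ → ℂ} (hR : RM U z₀ ψ h) (R : Multiset ℂ)
    (hRU : ∀ c ∈ R, c ∈ U) : ∃ k : ℂ → ℂ, DifferentiableOn ℂ k (ball 0 1) ∧
      ∀ w ∈ ball (0 : ℂ) 1, ((R.map fun c => X - C c).prod).eval (ψ w) =
        ((R.map fun c => X - C (h c)).prod).eval w * k w := by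
  induction R using Multiset.induction with
  | empty =>
    refine ⟨fun _ => 1, differentiableOn_const _, fun w _ => ?_⟩
    simp
  | cons c R ih =>
    obtain ⟨k, hk, hk'⟩ := ih fun x hx => hRU x (Multiset.mem_cons_of_mem hx)
    have hcU : c ∈ U := hRU c (Multiset.mem_cons_self c R)
    have hd : DifferentiableOn ℂ (dslope ψ (h c)) (ball 0 1) :=
      (Complex.differentiableOn_dslope (isOpen_ball.mem_nhds (hR.hmem c hcU))).2 hR.hol
    refine ⟨fun w => dslope ψ (h c) w * k w, hd.mul hk, fun w hw => ?_⟩
    rw [Multiset.map_cons, Multiset.prod_cons, Multiset.map_cons, Multiset.prod_cons,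
      eval_mul, eval_mul, hk' w hw]
    have h1 : (w - h c) • dslope ψ (h c) w = ψ w - ψ (h c) := sub_smul_dslope ψ (h c) w
    rw [hR.ψh c hcU, smul_eq_mul] at h1
    simp only [eval_sub, eval_X, eval_C]
    rw [← h1]
    ring

theorem p_CRM : T_CRM := by
  intro n P z₀ ψ h hP hB hR
  have hn := hP.hn
  have hdeg : (derivative P).natDegree = n - 1 := by
    have h1 := Polynomial.degree_derivative_eq P (by rw [hP.deg]; omega)
    rw [natDegree_eq_of_degree_eq_some h1, hP.deg]
  have hd0 : derivative P ≠ 0 := by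
    intro h0
    rw [h0, natDegree_zero] at hdeg
    omega
  have hsp := IsAlgClosed.splits (derivative P)
  have hcard : (derivative P).roots.card = n - 1 := by
    rw [← hdeg]
    exact hsp.natDegree_eq_card_roots.symm
  have hprod : derivative P = C (derivative P).leadingCoeff *
      ((derivative P).roots.map fun c => X - C c).prod := hsp.eq_prod_roots
  have hroots : ∀ c ∈ (derivative P).roots, c ∈ UU P z₀ := fun c hc =>
    hP.crit c ((mem_roots hd0).1 hc)
  obtain ⟨k, hk, hk'⟩ := CRM_prod hR (derivative P).roots hroots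
  have hψU : ∀ w ∈ ball (0 : ℂ) 1, ψ w ∈ UU P z₀ := fun w hw => by
    rw [← hR.img]
    exact mem_image_of_mem ψ hw
  have hmap : ∀ w ∈ ball (0 : ℂ) 1, pm P (ψ w) ∈ UU P z₀ := fun w hw =>
    hB.map _ (hψU w hw)
  have hpm : Differentiable ℂ (pm P) := P.differentiable
  refine ⟨((derivative P).roots.map fun c => X - C (h c)).prod,
    fun w => deriv h (pm P (ψ w)) * (derivative P).leadingCoeff * deriv ψ w * k w, ?_, ?_, ?_, ?_,
    ?_⟩
  · have h1 := natDegree_multiset_prod_X_sub_C_eq_card ((derivative P).roots.map h)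
    rw [Multiset.map_map, Multiset.card_map] at h1
    have h2 : (Multiset.map ((fun a => X - C a) ∘ h) (derivative P).roots) =
        (derivative P).roots.map fun c => X - C (h c) := rfl
    rw [h2] at h1
    rw [h1, hcard]
    omega
  · have h1 := monic_multiset_prod_of_monic (derivative P).roots (fun c => X - C (h c))
      (fun c _ => monic_X_sub_C _)
    exact h1.ne_zero
  · intro z hz
    rw [eval_multiset_prod, Multiset.prod_eq_zero_iff, Multiset.map_map, Multiset.mem_map] at hz
    obtain ⟨c, hc, hc'⟩ := hz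
    simp only [Function.comp_apply, eval_sub, eval_X, eval_C] at hc'
    rw [sub_eq_zero.1 hc']
    exact mem_ball_zero_iff.1 (hR.hmem c (hroots c hc))
  · have h1 : DifferentiableOn ℂ (deriv h) (UU P z₀) := hR.hhol.deriv hB.opn
    have h2 : DifferentiableOn ℂ (fun w => deriv h (pm P (ψ w))) (ball 0 1) :=
      h1.comp (hpm.comp_differentiableOn hR.hol) hmap
    exact ((h2.mul_const _).mul (hR.hol.deriv isOpen_ball)).mul hk
  · intro w hw
    have h1 : HasDerivAt ψ (deriv ψ w) w :=
      (hR.hol.differentiableAt (isOpen_ball.mem_nhds hw)).hasDerivAt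
    have h2 : HasDerivAt (pm P) ((derivative P).eval (ψ w)) (ψ w) := P.hasDerivAt (ψ w)
    have h3 : HasDerivAt h (deriv h (pm P (ψ w))) (pm P (ψ w)) :=
      (hR.hhol.differentiableAt (hB.opn.mem_nhds (hmap w hw))).hasDerivAt
    have h4 : HasDerivAt (fun w => h (pm P (ψ w)))
        (deriv h (pm P (ψ w)) * ((derivative P).eval (ψ w) * deriv ψ w)) w :=
      h3.comp w (h2.comp w h1)
    rw [h4.deriv]
    have h5 : (derivative P).eval (ψ w) = (derivative P).leadingCoeff *
        (((derivative P).roots.map fun c => X - C (h c)).prod.eval w * k w) := by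
      rw [← hk' w hw]
      conv_lhs => rw [hprod]
      rw [eval_mul, eval_C]
    rw [h5]
    ring

end Pool.Agent.BSL
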