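import Pool.Agent.BSL.Targets

/-!
# BSL: a smooth cutoff function
-/

set_option autoImplicit false

open Polynomial Metric Set Filter Topology
open scoped Manifold ContDiff

noncomputable section

namespace Pool.Agent.BSL

theorem p_CUT : T_CUT := by
  intro K V hK hV hKV
  obtain ⟨L, hL, hKL, hLV⟩ := exists_compact_between hK hV hKV
  obtain ⟨f, hf1, hf0, -⟩ := exists_contMDiffMap_one_nhds_of_subset_interior
    (n := (1 : ℕ∞)) (I := 𝓘(ℝ, ℂ)) (M := ℂ) hK.isClosed hKL
  have hsupp : tsupport (fun z => ((f z : ℝ) : ℂ)) ⊆ L := by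
    refine closure_minimal (fun z hz => ?_) hL.isClosed
    by_contra hzL
    refine hz ?_
    change ((f z : ℝ) : ℂ) = 0
    rw [hf0 z hzL, Complex.ofReal_zero]
  refine ⟨fun z => ((f z : ℝ) : ℂ), ?_, ?_, hsupp.trans hLV, fun x hx => ?_⟩
  · have h1 : ContDiff ℝ 1 fun z => f z := contMDiff_iff_contDiff.1 f.contMDiff
    exact Complex.ofRealCLM.contDiff.comp h1
  · exact hL.of_isClosed_subset (isClosed_tsupport _) hsupp
  · have h2 : ∀ᶠ y in 𝓝 x, f y = 1 := hf1.filter_mono (nhds_le_nhdsSet hx)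
    filter_upwards [h2] with y hy
    rw [hy, Complex.ofReal_one]

end Pool.Agent.BSL
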