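import Pool.Agent.BSL.Targets

/-!
# BSL-DNS: both basins accumulate at every point of `X`
-/

set_option autoImplicit false

open Polynomial Metric Set Filter Topology

noncomputable section

namespace Pool.Agent.BSL

open Pool.Agent.MAT

/-- backward orbits of `a` of growing length accumulate at `y` -/
def DNS_E (P : ℂ[X]) (y a : ℂ) : Prop := ∃ (m : ℕ → ℕ) (z : ℕ → ℂ), Tendsto m atTop atTop ∧
  Tendsto z atTop (𝓝 y) ∧ ∀ i, (pm P)^[m i] (z i) = a

private lemma DNS_step (hA : T_BRA) {n : ℕ} {P : ℂ[X]} {z₀ : ℂ} {R : ℝ} (hC : Ctx n P z₀ R)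
    (hS : ∀ (x : ℂ) (r : ℝ), Disjoint (ball x r) (KK P z₀) → Shr P x r)
    {y a b x : ℂ} {r : ℝ} (hd : Disjoint (ball x r) (KK P z₀)) (ha : a ∈ ball x r)
    (hb : b ∈ ball x r) (hE : DNS_E P y a) : DNS_E P y b := by
  obtain ⟨m, z, hm, hz, hmz⟩ := hE
  choose g hg hgp using fun i => hA n P z₀ R hC (m i) x a (z i) r hd ha (hmz i)
  refine ⟨m, fun i => g i b, hm, ?_, fun i => (hg i).2 b hb⟩
  rw [Filter.tendsto_iff_ultrafilter]
  intro u hu
  obtain ⟨c, hc⟩ := hS x r hd u m g (hm.mono_left hu) (Eventually.of_forall hg)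
  have h1 : Tendsto (fun i => g i a) (u : Filter ℕ) (𝓝 c) := hc.tendsto_at ha
  have h2 : Tendsto (fun i => g i a) (u : Filter ℕ) (𝓝 y) := by
    simp only [hgp]
    exact hz.mono_left hu
  have h3 : c = y := tendsto_nhds_unique h1 h2
  rw [← h3]
  exact hc.tendsto_at hb

private lemma DNS_ball {K : Set ℂ} (hK : IsCompact K) {x : ℂ} (hx : x ∉ K) :
    ∃ r : ℝ, 0 < r ∧ Disjoint (ball x r) K := by
  have h : Kᶜ ∈ 𝓝 x := hK.isClosed.isOpen_compl.mem_nhds hx
  obtain ⟨r, hr, hb⟩ := Metric.mem_nhds_iff.1 h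
  exact ⟨r, hr, Set.disjoint_left.2 fun z hz hzK => hb hz hzK⟩

private lemma DNS_all (hA : T_BRA) {n : ℕ} {P : ℂ[X]} {z₀ : ℂ} {R : ℝ} (hC : Ctx n P z₀ R)
    (hS : ∀ (x : ℂ) (r : ℝ), Disjoint (ball x r) (KK P z₀) → Shr P x r)
    {y a b : ℂ} (ha : a ∉ KK P z₀) (hb : b ∉ KK P z₀) (hE : DNS_E P y a) : DNS_E P y b := by
  refine hC.kf.con.induction₂' (fun a b => DNS_E P y a → DNS_E P y b) ?_ ?_ ha hb hE
  · intro x hx
    obtain ⟨r, hr, hd⟩ := DNS_ball hC.kf.cpt hx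
    refine mem_nhdsWithin_of_mem_nhds ?_
    filter_upwards [Metric.ball_mem_nhds x hr] with w hw
    exact ⟨fun h => DNS_step hA hC hS hd (Metric.mem_ball_self hr) hw h,
      fun h => DNS_step hA hC hS hd hw (Metric.mem_ball_self hr) h⟩
  · intro u v w _ _ _ h1 h2 h3
    exact h2 (h1 h3)

private lemma DNS_start (hA : T_BRA) {n : ℕ} {P : ℂ[X]} {z₀ : ℂ} {R : ℝ} (hC : Ctx n P z₀ R)
    (hS : ∀ (x : ℂ) (r : ℝ), Disjoint (ball x r) (KK P z₀) → Shr P x r)
    {y : ℂ} (hy : y ∈ XX P z₀) : ∃ x : ℂ, x ∉ KK P z₀ ∧ DNS_E P y x := by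
  have hit : ∀ k : ℕ, (pm P)^[k] y ∈ XX P z₀ := by
    intro k
    induction k with
    | zero => simpa using hy
    | succ k ih =>
      rw [Function.iterate_succ_apply']
      exact (hC.xf.inv _).2 ih
  obtain ⟨x, hx, φ, hφ, hlim⟩ := hC.xf.cpt.tendsto_subseq hit
  have hxK : x ∉ KK P z₀ := fun h => hx (Or.inl (hC.kf.sub h))
  obtain ⟨r, hr, hd⟩ := DNS_ball hC.kf.cpt hxK
  have hev : ∀ᶠ i in atTop, (pm P)^[φ i] y ∈ ball x r :=
    hlim (Metric.ball_mem_nhds x hr)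
  obtain ⟨N, hN⟩ := eventually_atTop.1 hev
  have hN' : ∀ i : ℕ, (pm P)^[φ (i + N)] y ∈ ball x r := fun i => hN _ (Nat.le_add_left N i)
  choose g hg hgp using fun i : ℕ =>
    hA n P z₀ R hC (φ (i + N)) x ((pm P)^[φ (i + N)] y) y r hd (hN' i) rfl
  have hsh : Tendsto (fun i : ℕ => i + N) atTop atTop := tendsto_add_atTop_nat N
  have hm : Tendsto (fun i : ℕ => φ (i + N)) atTop atTop := hφ.tendsto_atTop.comp hsh
  refine ⟨x, hxK, fun i => φ (i + N), fun i => g i x, hm, ?_,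
    fun i => (hg i).2 x (Metric.mem_ball_self hr)⟩
  rw [Filter.tendsto_iff_ultrafilter]
  intro u hu
  obtain ⟨c, hc⟩ := hS x r hd u (fun i => φ (i + N)) g (hm.mono_left hu)
    (Eventually.of_forall hg)
  have hlim' : Tendsto (fun i : ℕ => (pm P)^[φ (i + N)] y) (u : Filter ℕ) (𝓝 x) :=
    (hlim.comp hsh).mono_left hu
  have h1 : Tendsto (fun i => g i ((pm P)^[φ (i + N)] y)) (u : Filter ℕ) (𝓝 c) := by
    refine hc.tendsto_comp (continuousWithinAt_const) (Metric.mem_ball_self hr) ?_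
    refine tendsto_nhdsWithin_iff.2 ⟨hlim', Eventually.of_forall hN'⟩
  have h2 : Tendsto (fun i => g i ((pm P)^[φ (i + N)] y)) (u : Filter ℕ) (𝓝 y) := by
    simp only [hgp]
    exact tendsto_const_nhds
  have h3 : c = y := tendsto_nhds_unique h1 h2
  rw [← h3]
  exact hc.tendsto_at (Metric.mem_ball_self hr)

private lemma DNS_back {P : ℂ[X]} {S : Set ℂ} (h : ∀ z, pm P z ∈ S → z ∈ S) (m : ℕ) (z : ℂ)
    (hz : (pm P)^[m] z ∈ S) : z ∈ S := by
  induction m generalizing z with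
  | zero => simpa using hz
  | succ m ih =>
    rw [Function.iterate_succ_apply] at hz
    exact h z (ih _ hz)

/-- both basins accumulate at every point of `X` -/
theorem p_DNS (hA : T_BRA) : T_DNS := by
  intro n P z₀ R hC hS
  constructor
  · intro y hy
    obtain ⟨x, hxK, hE⟩ := DNS_start hA hC hS hy
    obtain ⟨b, hbU, hbK⟩ := hC.kf.ex
    obtain ⟨m, z, -, hz, hmz⟩ := DNS_all hA hC hS hxK hbK hE
    refine mem_closure_of_tendsto hz (Eventually.of_forall fun i => ?_)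
    exact DNS_back hC.inv (m i) (z i) (by rw [hmz i]; exact hbU)
  · intro y hy
    obtain ⟨x, hxK, hE⟩ := DNS_start hA hC hS hy
    have hbO : (R : ℂ) ∈ Om P := by
      refine (hC.om.iff _).2 ⟨0, ?_⟩
      simp only [Function.iterate_zero, id_eq, Complex.norm_real, Real.norm_eq_abs]
      exact le_abs_self R
    have hbK : (R : ℂ) ∉ KK P z₀ := fun h =>
      Set.disjoint_left.1 hC.xf.disj (hC.kf.sub h) hbO
    obtain ⟨m, z, -, hz, hmz⟩ := DNS_all hA hC hS hxK hbK hE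
    refine mem_closure_of_tendsto hz (Eventually.of_forall fun i => ?_)
    exact DNS_back (fun w hw => (hC.om.inv w).1 hw) (m i) (z i) (by rw [hmz i]; exact hbO)

end Pool.Agent.BSL
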