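import Pool.Agent.BSL.Targets

/-!
# BSL, target DVD: divided differences of a polynomial
-/

set_option autoImplicit false

open Polynomial Metric Set Filter Topology

noncomputable section

namespace Pool.Agent.BSL

private lemma DVD_aux (k n : ℕ) (hk : k < n) (a s x : ℂ) :
    a * s ^ k - a * x ^ k = (s - x) * ∑ j ∈ Finset.range n,
      (if j < k then a * s ^ (k - 1 - j) else 0) * x ^ j := by
  have h1 : ∑ j ∈ Finset.range n, (if j < k then a * s ^ (k - 1 - j) else 0) * x ^ j =
      a * ∑ j ∈ Finset.range k, x ^ j * s ^ (k - 1 - j) := by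
    rw [Finset.mul_sum]
    symm
    rw [← Finset.sum_subset (Finset.range_subset_range.2 hk.le)]
    · refine Finset.sum_congr rfl fun j hj => ?_
      rw [if_pos (Finset.mem_range.1 hj)]
      ring
    · intro j _ hj
      rw [Finset.mem_range] at hj
      rw [if_neg hj, zero_mul]
  have h2 := (Commute.all x s).geom_sum₂_mul k
  rw [h1]
  calc a * s ^ k - a * x ^ k = -(a * (x ^ k - s ^ k)) := by ring
    _ = -(a * ((∑ i ∈ Finset.range k, x ^ i * s ^ (k - 1 - i)) * (x - s))) := by rw [h2]
    _ = _ := by ring

/-- divided differences of a polynomial -/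
theorem p_DVD : T_DVD := by
  intro F
  refine ⟨F.natDegree + 1, fun j => ∑ k ∈ Finset.range (F.natDegree + 1),
    if j < k then C (F.coeff k) * X ^ (k - 1 - j) else 0, fun s x => ?_⟩
  have h1 : ∀ j, (∑ k ∈ Finset.range (F.natDegree + 1),
      if j < k then C (F.coeff k) * X ^ (k - 1 - j) else 0 : ℂ[X]).eval s * x ^ j =
      ∑ k ∈ Finset.range (F.natDegree + 1),
        (if j < k then F.coeff k * s ^ (k - 1 - j) else 0) * x ^ j := by
    intro j
    rw [eval_finsetSum, Finset.sum_mul]
    refine Finset.sum_congr rfl fun k _ => ?_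
    split_ifs
    · simp
    · simp
  simp only [h1]
  rw [Finset.sum_comm, Finset.mul_sum, eval_eq_sum_range, eval_eq_sum_range,
    ← Finset.sum_sub_distrib]
  refine Finset.sum_congr rfl fun k hk => ?_
  exact DVD_aux k (F.natDegree + 1) (Finset.mem_range.1 hk) (F.coeff k) s x

end Pool.Agent.BSL
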