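import Pool.Agent.BSL.Targets

set_option autoImplicit false

open Polynomial Metric Set Filter Topology

noncomputable section

namespace Pool.Agent.BSL

private lemma esc_growth (P : ℂ[X]) (hP : 2 ≤ P.natDegree) :
    ∃ R : ℝ, 1 ≤ R ∧ ∀ z : ℂ, R ≤ ‖z‖ → 2 * ‖z‖ ≤ ‖pm P z‖ := by
  have hQ : 0 < (P.divX).degree := by
    rw [← Polynomial.natDegree_pos_iff_degree_pos, Polynomial.natDegree_divX_eq_natDegree_tsub_one]
    omega
  have ht : Tendsto (fun z : ℂ => ‖(P.divX).eval z‖) (Bornology.cobounded ℂ) atTop :=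
    Polynomial.tendsto_norm_atTop _ hQ tendsto_norm_cobounded_atTop
  have h1 : ∀ᶠ z : ℂ in Bornology.cobounded ℂ, 3 + ‖P.coeff 0‖ ≤ ‖(P.divX).eval z‖ :=
    ht.eventually_ge_atTop _
  rw [(hasBasis_cobounded_norm (E := ℂ)).eventually_iff] at h1
  obtain ⟨R, -, hR⟩ := h1
  refine ⟨max R 1, le_max_right _ _, fun z hz => ?_⟩
  have hz1 : 1 ≤ ‖z‖ := (le_max_right _ _).trans hz
  have hz2 := hR (show z ∈ {x : ℂ | R ≤ ‖x‖} from (le_max_left _ _).trans hz)
  have hev : pm P z = (P.divX).eval z * z + P.coeff 0 := by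
    conv_lhs => rw [pm, ← Polynomial.divX_mul_X_add P]
    simp
  have h3 : ‖(P.divX).eval z * z‖ ≤ ‖pm P z‖ + ‖P.coeff 0‖ := by
    have : (P.divX).eval z * z = pm P z - P.coeff 0 := by rw [hev]; ring
    rw [this]
    exact norm_sub_le _ _
  rw [norm_mul] at h3
  have h4 : (3 + ‖P.coeff 0‖) * ‖z‖ ≤ ‖(P.divX).eval z‖ * ‖z‖ :=
    mul_le_mul_of_nonneg_right hz2 (norm_nonneg _)
  nlinarith [norm_nonneg (P.coeff 0), norm_nonneg z]

private lemma esc_iter (P : ℂ[X]) (R : ℝ) (hR : 1 ≤ R)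
    (h : ∀ z : ℂ, R ≤ ‖z‖ → 2 * ‖z‖ ≤ ‖pm P z‖) (z : ℂ) (hz : R ≤ ‖z‖) (k : ℕ) :
    2 ^ k * ‖z‖ ≤ ‖(pm P)^[k] z‖ := by
  induction k with
  | zero => simp
  | succ k ih =>
    rw [Function.iterate_succ_apply']
    have h1 : (1 : ℝ) ≤ 2 ^ k := one_le_pow₀ (by norm_num)
    have h2 : R ≤ ‖(pm P)^[k] z‖ := by nlinarith [norm_nonneg z]
    have h3 := h _ h2
    rw [pow_succ]
    linarith

theorem p_ESC : T_ESC := by
  intro P hP
  obtain ⟨R, hR, hesc⟩ := esc_growth P hP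
  have hiff : ∀ z : ℂ, z ∈ Om P ↔ ∃ m : ℕ, R ≤ ‖(pm P)^[m] z‖ := by
    intro z
    constructor
    · intro hz
      exact ((show Tendsto (fun m : ℕ => ‖(pm P)^[m] z‖) atTop atTop from
        hz).eventually_ge_atTop R).exists
    · rintro ⟨m, hm⟩
      have h1 : Tendsto (fun k : ℕ => ‖(pm P)^[k + m] z‖) atTop atTop := by
        have h2 : Tendsto (fun k : ℕ => (2 : ℝ) ^ k) atTop atTop :=
          tendsto_pow_atTop_atTop_of_one_lt (by norm_num)
        refine tendsto_atTop_mono (fun k => ?_) h2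
        rw [Function.iterate_add_apply]
        have h3 := esc_iter P R hR hesc _ hm k
        have h4 : (0 : ℝ) ≤ 2 ^ k := by positivity
        nlinarith
      exact (tendsto_add_atTop_iff_nat m).1 h1
  have hinv : ∀ z : ℂ, pm P z ∈ Om P ↔ z ∈ Om P := by
    intro z
    show Tendsto (fun m : ℕ => ‖(pm P)^[m] (pm P z)‖) atTop atTop ↔
      Tendsto (fun m : ℕ => ‖(pm P)^[m] z‖) atTop atTop
    rw [← tendsto_add_atTop_iff_nat (f := fun m : ℕ => ‖(pm P)^[m] z‖) 1]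
    simp only [Function.iterate_succ_apply]
  have hcont : Continuous (pm P) := by
    unfold pm
    exact P.continuous
  refine ⟨R, hR, hesc, ?_, hinv, hiff⟩
  have hO : Om P = ⋃ m : ℕ, {z : ℂ | R < ‖(pm P)^[m] z‖} := by
    ext z
    rw [hiff, mem_iUnion]
    constructor
    · rintro ⟨m, hm⟩
      refine ⟨m + 1, ?_⟩
      show R < ‖(pm P)^[m + 1] z‖
      rw [Function.iterate_succ_apply']
      have := hesc _ hm
      linarith
    · rintro ⟨m, hm⟩
      exact ⟨m, le_of_lt hm⟩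
  rw [hO]
  exact isOpen_iUnion fun m => isOpen_lt continuous_const (hcont.iterate m).norm

end Pool.Agent.BSL
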