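import Pool.Agent.BSL.Targets
import Pool.Agent.MAT.P_ROOT

/-!
# BSL: extension of the local inverse Böttcher coordinate to the left half plane (EXA)
-/

set_option autoImplicit false

open Polynomial Metric Set Filter Topology

noncomputable section

namespace Pool.Agent.BSL

open Pool.Agent.MAT

namespace EXA_

/-- the half planes `re s < - L / n ^ m` -/
def V (n : ℕ) (L : ℝ) (m : ℕ) : Set ℂ := {s | s.re * (n : ℝ) ^ m < -L}

lemma isOpen_V (n : ℕ) (L : ℝ) (m : ℕ) : IsOpen (V n L m) :=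
  isOpen_lt (Complex.continuous_re.mul continuous_const) continuous_const

lemma convex_V (n : ℕ) (L : ℝ) (m : ℕ) : Convex ℝ (V n L m) := by
  intro x hx y hy a b ha hb hab
  simp only [V, mem_ofPred_eq] at hx hy ⊢
  have h1 : (a • x + b • y).re = a * x.re + b * y.re := by simp
  rw [h1]
  rcases ha.eq_or_lt with h0 | h0
  · have hb1 : b = 1 := by linarith
    rw [← h0, hb1]
    linarith
  · have h2 : a * (x.re * (n : ℝ) ^ m) < a * -L := by nlinarith
    have h3 : b * (y.re * (n : ℝ) ^ m) ≤ b * -L := by nlinarith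
    have h4 : a * -L + b * -L = -L := by rw [← add_mul, hab, one_mul]
    nlinarith

lemma V_neg {n : ℕ} {L : ℝ} (hL : 0 < L) {m : ℕ} {s : ℂ} (hs : s ∈ V n L m) : s.re < 0 := by
  simp only [V, mem_ofPred_eq] at hs
  by_contra h
  push Not at h
  have : 0 ≤ s.re * (n : ℝ) ^ m := by positivity
  linarith

lemma V_mul {n : ℕ} {L : ℝ} {m : ℕ} {s : ℂ} : (n : ℂ) * s ∈ V n L m ↔ s ∈ V n L (m + 1) := by
  simp only [V, mem_ofPred_eq]
  have h1 : ((n : ℂ) * s).re = n * s.re := by simp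
  rw [h1, pow_succ]
  constructor <;> intro h <;> nlinarith

lemma V_succ {n : ℕ} {L : ℝ} (hn : 2 ≤ n) (hL : 0 < L) {m : ℕ} {s : ℂ} (hs : s ∈ V n L m) :
    s ∈ V n L (m + 1) := by
  have h1 := V_neg hL hs
  simp only [V, mem_ofPred_eq] at hs ⊢
  have hn' : (2 : ℝ) ≤ n := by exact_mod_cast hn
  rw [pow_succ]
  have h2 : s.re * (n : ℝ) ^ m ≤ 0 := by linarith
  nlinarith

lemma V_mono {n : ℕ} {L : ℝ} (hn : 2 ≤ n) (hL : 0 < L) {m m' : ℕ} (hm : m ≤ m') :
    V n L m ⊆ V n L m' := by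
  induction hm with
  | refl => exact subset_rfl
  | step _ ih => exact fun s hs => V_succ hn hL (ih hs)

lemma V_mul' {n : ℕ} {L : ℝ} (hn : 2 ≤ n) (hL : 0 < L) {m : ℕ} {s : ℂ} (hs : s ∈ V n L m) :
    (n : ℂ) * s ∈ V n L m := V_mul.2 (V_succ hn hL hs)

lemma V_zero {n : ℕ} {L : ℝ} {s : ℂ} : s ∈ V n L 0 ↔ s.re < -L := by
  simp [V]

lemma V_pow {n : ℕ} {L : ℝ} (hn : 2 ≤ n) (hL : 0 < L) {m : ℕ} (j : ℕ) {s : ℂ}
    (hs : s ∈ V n L m) : (n : ℂ) ^ j * s ∈ V n L m := by
  induction j with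
  | zero => simpa using hs
  | succ j ih =>
    rw [pow_succ', mul_assoc]
    exact V_mul' hn hL ih

lemma exists_V {n : ℕ} {L : ℝ} (hn : 2 ≤ n) {s : ℂ} (hs : s.re < 0) : ∃ m, s ∈ V n L m := by
  have hn' : (1 : ℝ) < n := by exact_mod_cast (by omega : 1 < n)
  obtain ⟨m, hm⟩ := pow_unbounded_of_one_lt (L / (-s.re)) hn'
  refine ⟨m, ?_⟩
  simp only [V, mem_ofPred_eq]
  rw [div_lt_iff₀ (by linarith)] at hm
  nlinarith

/-- the values of the extension are in the basin of infinity -/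
lemma mem_Om {n : ℕ} {P : ℂ[X]} {L R : ℝ} {F₀ : ℂ → ℂ} (hn : 2 ≤ n) (hO : OmF P R)
    (hB : BT0 n P L F₀) {m : ℕ} {F : ℂ → ℂ} (h0 : ∀ s ∈ V n L 0, F s = F₀ s)
    (hc : ∀ s ∈ V n L m, pm P (F s) = F (n * s)) {s : ℂ} (hs : s ∈ V n L m) : F s ∈ Om P := by
  have hit : ∀ j : ℕ, (pm P)^[j] (F s) = F ((n : ℂ) ^ j * s) := by
    intro j
    induction j with
    | zero => simp
    | succ j ih =>
      rw [Function.iterate_succ_apply', ih, hc _ (V_pow hn hB.hL j hs), pow_succ', mul_assoc]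
  obtain ⟨L', hL'⟩ := hB.inf R
  have hn' : (1 : ℝ) < n := by exact_mod_cast (by omega : 1 < n)
  have hsn := V_neg hB.hL hs
  obtain ⟨j, hj⟩ := pow_unbounded_of_one_lt (max L L' / (-s.re)) hn'
  have h1 : (((n : ℂ) ^ j * s)).re = (n : ℝ) ^ j * s.re := by
    have : ((n : ℂ) ^ j) = (((n : ℝ) ^ j : ℝ) : ℂ) := by push_cast; rfl
    rw [this, Complex.re_ofReal_mul]
  rw [div_lt_iff₀ (by linarith)] at hj
  have h2 : (n : ℝ) ^ j * s.re < -max L L' := by nlinarith
  have h3 : (((n : ℂ) ^ j * s)).re < -L := by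
    rw [h1]
    have := le_max_left L L'
    linarith
  have h4 : (((n : ℂ) ^ j * s)).re < -L' := by
    rw [h1]
    have := le_max_right L L'
    linarith
  rw [hO.iff]
  refine ⟨j, ?_⟩
  rw [hit, h0 _ (V_zero.2 h3)]
  exact (hL' _ h4 h3).le

/-- the induction -/
lemma step {n : ℕ} {P : ℂ[X]} {L R : ℝ} {F₀ : ℂ → ℂ} (hn : 2 ≤ n) (hP : P.natDegree = n)
    (hO : OmF P R) (hcr : ∀ c : ℂ, (derivative P).eval c = 0 → c ∉ Om P) (hB : BT0 n P L F₀)
    (m : ℕ) : ∃ F : ℂ → ℂ, DifferentiableOn ℂ F (V n L m) ∧ (∀ s ∈ V n L 0, F s = F₀ s) ∧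
      ∀ s ∈ V n L m, pm P (F s) = F (n * s) := by
  induction m with
  | zero =>
    refine ⟨F₀, ?_, fun _ _ => rfl, fun s hs => hB.conj s (V_zero.1 hs)⟩
    refine hB.hol.mono fun s hs => V_zero.1 hs
  | succ m ih =>
    obtain ⟨F, hF, hF0, hFc⟩ := ih
    have hL := hB.hL
    set c : ℂ := ((-(L + 1) : ℝ) : ℂ) with hcdef
    have hc0 : c ∈ V n L 0 := by
      rw [V_zero, hcdef, Complex.ofReal_re]
      linarith
    have hcm : c ∈ V n L m := V_mono hn hL (Nat.zero_le _) hc0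
    have hcm1 : c ∈ V n L (m + 1) := V_succ hn hL hcm
    have hlc : P.leadingCoeff ≠ 0 := by
      rw [Polynomial.leadingCoeff_ne_zero]
      rintro rfl
      rw [Polynomial.natDegree_zero] at hP
      omega
    have hf : DifferentiableOn ℂ (fun ζ => F (n * ζ)) (V n L (m + 1)) := by
      refine hF.comp ?_ fun ζ hζ => V_mul.2 hζ
      exact (differentiable_id.const_mul _).differentiableOn
    have hev : ∀ z ζ : ℂ, (C P.leadingCoeff⁻¹ * P).eval z =
        F (n * ζ) * (C P.leadingCoeff⁻¹ : ℂ[X]).eval z → pm P z = F (n * ζ) := by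
      intro z ζ h
      rw [eval_mul, eval_C, mul_comm] at h
      exact mul_right_cancel₀ (inv_ne_zero hlc) h
    obtain ⟨h, hh, hhc, hhN⟩ := p_ROOT n (C P.leadingCoeff⁻¹ * P) (C P.leadingCoeff⁻¹)
      (V n L (m + 1)) (fun ζ => F (n * ζ)) c (F c) (by omega)
      (by
        rw [Monic, leadingCoeff_mul, leadingCoeff_C, inv_mul_cancel₀ hlc])
      (by rw [natDegree_C_mul (inv_ne_zero hlc), hP])
      (by rw [natDegree_C]; omega) (isOpen_V _ _ _) (convex_V _ _ _) hcm1 hf
      (by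
        have h1 : P.eval (F c) = F (n * c) := hFc c hcm
        rw [eval_mul, eval_C, h1]
        ring)
      (by
        intro ζ hζ z hz
        have h1 := hev z ζ hz
        have h2 : F (n * ζ) ∈ Om P := mem_Om hn hO hB hF0 hFc (V_mul.2 hζ)
        rw [← h1] at h2
        have h3 := (hO.inv z).1 h2
        have h4 : (derivative P).eval z ≠ 0 := fun h5 => hcr z h5 h3
        rw [derivative_C, eval_zero, mul_zero, sub_zero, derivative_C_mul, eval_mul, eval_C]
        exact mul_ne_zero (inv_ne_zero hlc) h4)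
    have hhP : ∀ ζ ∈ V n L (m + 1), pm P (h ζ) = F (n * ζ) := fun ζ hζ => hev _ _ (hhN ζ hζ)
    -- agreement on `V m`
    have hagree : EqOn F h (V n L m) := by
      have hFa : AnalyticOnNhd ℂ F (V n L m) := hF.analyticOnNhd (isOpen_V _ _ _)
      have hha : AnalyticOnNhd ℂ h (V n L m) :=
        (hh.mono (V_mono hn hL (Nat.le_succ m))).analyticOnNhd (isOpen_V _ _ _)
      refine hFa.eqOn_of_preconnected_of_eventuallyEq hha (convex_V _ _ _).isPreconnected hcm ?_
      have hy : F c ∈ Om P := mem_Om hn hO hB hF0 hFc hcm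
      have hd : (derivative P).eval (F c) ≠ 0 := fun h5 => hcr _ h5 hy
      have hsd : HasStrictDerivAt (pm P) ((derivative P).eval (F c)) (F c) :=
        P.hasStrictDerivAt _
      have hinv := hsd.eventually_left_inverse hd
      have hcF : ContinuousAt F c := (hFa c hcm).continuousAt
      have hch : ContinuousAt h c := (hha c hcm).continuousAt
      have e1 := hcF.eventually hinv
      have e2 : ∀ᶠ ζ in 𝓝 c, hsd.localInverse (pm P) _ (F c) hd (pm P (h ζ)) = h ζ := by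
        have ht : Tendsto h (𝓝 c) (𝓝 (F c)) := by
          rw [← hhc]
          exact hch
        exact ht.eventually hinv
      filter_upwards [e1, e2, (isOpen_V n L m).mem_nhds hcm] with ζ h1 h2 h3
      rw [← h1, ← h2, hhP ζ (V_succ hn hL h3), hFc ζ h3]
    refine ⟨h, hh, fun s hs => ?_, fun s hs => ?_⟩
    · rw [← hagree (V_mono hn hL (Nat.zero_le _) hs)]
      exact hF0 s hs
    · rw [hhP s hs]
      exact hagree (V_mul.2 hs)

end EXA_

open EXA_

theorem p_EXA : T_EXA := by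
  intro n P L R F₀ hn hP hO hcr hB
  classical
  have hL := hB.hL
  choose F hF hF0 hFc using step hn hP hO hcr hB
  have hc0 : ((-(L + 1) : ℝ) : ℂ) ∈ V n L 0 := by
    rw [V_zero, Complex.ofReal_re]
    linarith
  have hcons : ∀ m m', m ≤ m' → EqOn (F m) (F m') (V n L m) := by
    intro m m' hm
    have h1 : AnalyticOnNhd ℂ (F m) (V n L m) := (hF m).analyticOnNhd (isOpen_V _ _ _)
    have h2 : AnalyticOnNhd ℂ (F m') (V n L m) :=
      ((hF m').mono (V_mono hn hL hm)).analyticOnNhd (isOpen_V _ _ _)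
    refine h1.eqOn_of_preconnected_of_eventuallyEq h2 (convex_V _ _ _).isPreconnected
      (V_mono hn hL (Nat.zero_le _) hc0) ?_
    filter_upwards [(isOpen_V n L 0).mem_nhds hc0] with s hs
    rw [hF0 m s hs, hF0 m' s hs]
  have hcons' : ∀ m m' s, s ∈ V n L m → s ∈ V n L m' → F m s = F m' s := by
    intro m m' s hs hs'
    rcases le_total m m' with h | h
    · exact hcons m m' h hs
    · exact (hcons m' m h hs').symm
  set G : ℂ → ℂ := fun s => if h : ∃ m, s ∈ V n L m then F h.choose s else 0 with hG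
  have hGF : ∀ m s, s ∈ V n L m → G s = F m s := by
    intro m s hs
    have hex : ∃ m, s ∈ V n L m := ⟨m, hs⟩
    rw [hG]
    simp only
    rw [dif_pos hex]
    exact hcons' _ _ s hex.choose_spec hs
  refine ⟨G, ?_, fun s hs => ?_, fun s hs => ?_⟩
  · intro s hs
    obtain ⟨m, hm⟩ := exists_V (L := L) hn hs
    have h1 : DifferentiableAt ℂ (F m) s := (hF m).differentiableAt ((isOpen_V n L m).mem_nhds hm)
    refine (h1.congr_of_eventuallyEq ?_).differentiableWithinAt
    filter_upwards [(isOpen_V n L m).mem_nhds hm] with t ht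
    exact hGF m t ht
  · have h1 : s ∈ V n L 0 := V_zero.2 hs
    rw [hGF 0 s h1, hF0 0 s h1]
  · obtain ⟨m, hm⟩ := exists_V (L := L) hn hs
    rw [hGF m s hm, hGF m _ (V_mul' hn hL hm)]
    exact hFc m s hm

end Pool.Agent.BSL
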