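import Pool.Agent.BSL.Targets

/-!
# BSL: properties of the extended inverse Böttcher coordinate
-/

set_option autoImplicit false

open Polynomial Metric Set Filter Topology

noncomputable section

namespace Pool.Agent.BSL

open Pool.Agent.MAT

namespace EXB_

lemma hopen : IsOpen {s : ℂ | s.re < 0} := isOpen_lt Complex.continuous_re continuous_const

lemma hpre : IsPreconnected {s : ℂ | s.re < 0} := (convex_halfSpace_re_lt 0).isPreconnected

lemma ident {f g : ℂ → ℂ} (hf : DifferentiableOn ℂ f {s : ℂ | s.re < 0})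
    (hg : DifferentiableOn ℂ g {s : ℂ | s.re < 0}) {z₀ : ℂ} (hz₀ : z₀.re < 0)
    (h : ∀ᶠ z in 𝓝 z₀, f z = g z) (s : ℂ) (hs : s.re < 0) : f s = g s :=
  (hf.analyticOnNhd hopen).eqOn_of_preconnected_of_eventuallyEq (hg.analyticOnNhd hopen)
    hpre hz₀ h hs

lemma big (n : ℕ) (hn : 2 ≤ n) (x : ℝ) (hx : x < 0) (K : ℝ) : ∃ m : ℕ, (n : ℝ) ^ m * x < -K := by
  have h1 : (1 : ℝ) < n := by exact_mod_cast hn
  obtain ⟨m, hm⟩ := pow_unbounded_of_one_lt (K / (-x)) h1
  refine ⟨m, ?_⟩
  rw [div_lt_iff₀ (by linarith)] at hm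
  linarith

lemma re_pow (n m : ℕ) (s : ℂ) : ((n : ℂ) ^ m * s).re = (n : ℝ) ^ m * s.re := by
  have h : (n : ℂ) ^ m = (((n : ℝ) ^ m : ℝ) : ℂ) := by
    push_cast
    rfl
  rw [h, Complex.re_ofReal_mul]

lemma re_one (n : ℕ) (s : ℂ) : ((n : ℂ) * s).re = (n : ℝ) * s.re := by
  have h := re_pow n 1 s
  rwa [pow_one, pow_one] at h

lemma re_shift (k : ℤ) (s : ℂ) : (s + k * (2 * Real.pi * Complex.I)).re = s.re := by
  simp

lemma re_shift1 (s : ℂ) : (s + 2 * Real.pi * Complex.I).re = s.re := by
  simp

lemma iter (n : ℕ) (hn : 2 ≤ n) (P : ℂ[X]) (F : ℂ → ℂ)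
    (hcj : ∀ s : ℂ, s.re < 0 → pm P (F s) = F (n * s)) :
    ∀ (m : ℕ) (s : ℂ), s.re < 0 → (pm P)^[m] (F s) = F ((n : ℂ) ^ m * s) := by
  intro m
  induction m with
  | zero =>
    intro s _
    simp
  | succ m ih =>
    intro s hs
    have h1 : ((n : ℂ) * s).re < 0 := by
      rw [re_one]
      have : (0 : ℝ) < n := by
        have : 0 < n := by omega
        exact_mod_cast this
      nlinarith
    rw [Function.iterate_succ_apply, hcj s hs, ih _ h1, ← mul_assoc, ← pow_succ]

lemma der (P : ℂ[X]) (R : ℝ) (hOm : OmF P R)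
    (hcr : ∀ c : ℂ, (derivative P).eval c = 0 → c ∉ Om P) :
    ∀ (m : ℕ) (z : ℂ), z ∈ Om P → ∃ d : ℂ, d ≠ 0 ∧ HasStrictDerivAt ((pm P)^[m]) d z := by
  intro m
  induction m with
  | zero =>
    intro z _
    exact ⟨1, one_ne_zero, hasStrictDerivAt_id z⟩
  | succ m ih =>
    intro z hz
    obtain ⟨d, hd, h⟩ := ih (pm P z) ((hOm.inv z).2 hz)
    have h1 : HasStrictDerivAt (pm P) ((derivative P).eval z) z := P.hasStrictDerivAt z
    refine ⟨d * (derivative P).eval z, mul_ne_zero hd (fun h0 => hcr z h0 hz), ?_⟩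
    rw [Function.iterate_succ]
    exact h.comp z h1

lemma linj {f : ℂ → ℂ} {d z : ℂ} (hd : d ≠ 0) (hf : HasStrictDerivAt f d z) :
    ∃ g : ℂ → ℂ, ∀ᶠ x in 𝓝 z, g (f x) = x :=
  ⟨_, (hf.hasStrictFDerivAt_equiv hd).eventually_left_inverse⟩

lemma perk (F : ℂ → ℂ) (hp : ∀ s : ℂ, s.re < 0 → F (s + 2 * Real.pi * Complex.I) = F s)
    (k : ℤ) : ∀ s : ℂ, s.re < 0 → F (s + k * (2 * Real.pi * Complex.I)) = F s := by
  induction k using Int.induction_on with
  | zero =>
    intro s _
    simp
  | succ k ih =>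
    intro s hs
    have h1 : s + ((k : ℤ) + 1 : ℤ) * (2 * Real.pi * Complex.I) =
        (s + ((k : ℤ) : ℂ) * (2 * Real.pi * Complex.I)) + 2 * Real.pi * Complex.I := by
      push_cast
      ring
    rw [h1, hp _ (by rw [re_shift]; exact hs), ih s hs]
  | pred k ih =>
    intro s hs
    have h1 : s + ((-(k : ℤ) : ℤ) : ℂ) * (2 * Real.pi * Complex.I) =
        (s + ((-(k : ℤ) - 1 : ℤ) : ℂ) * (2 * Real.pi * Complex.I)) +
          2 * Real.pi * Complex.I := by
      push_cast
      ring
    have h2 := ih s hs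
    rw [h1, hp _ (by rw [re_shift]; exact hs)] at h2
    exact h2

end EXB_

open EXB_

theorem p_EXB : T_EXB := by
  intro n P L R F₀ F hn hdeg hOm hcr h0 hF hFL hcj
  have hL := h0.hL
  have hn0 : (0 : ℝ) < n := by
    have : 0 < n := by omega
    exact_mod_cast this
  have hnC : (n : ℂ) ≠ 0 := by
    have : n ≠ 0 := by omega
    exact_mod_cast this
  have hit := iter n hn P F hcj
  have hneg : ∀ (m : ℕ) (s : ℂ), s.re < 0 → ((n : ℂ) ^ m * s).re < 0 := by
    intro m s hs
    rw [re_pow]
    have : (0 : ℝ) < (n : ℝ) ^ m := by positivity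
    nlinarith
  have hmem : ∀ s : ℂ, s.re < 0 → F s ∈ Om P := by
    intro s hs
    obtain ⟨L', hL'⟩ := h0.inf R
    obtain ⟨m, hm⟩ := big n hn s.re hs (max L' L)
    rw [hOm.iff]
    refine ⟨m, ?_⟩
    rw [hit m s hs]
    have h1 : ((n : ℂ) ^ m * s).re < -L' := by
      rw [re_pow]
      linarith [le_max_left L' L]
    have h2 : ((n : ℂ) ^ m * s).re < -L := by
      rw [re_pow]
      linarith [le_max_right L' L]
    rw [hFL _ h2]
    exact (hL' _ h1 h2).le
  have hz₀ : ((-(L + 1) : ℝ) : ℂ).re < -L := by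
    rw [Complex.ofReal_re]
    linarith
  have hLopen : IsOpen {s : ℂ | s.re < -L} :=
    isOpen_lt Complex.continuous_re continuous_const
  have hper : ∀ s : ℂ, s.re < 0 → F (s + 2 * Real.pi * Complex.I) = F s := by
    refine ident (z₀ := ((-(L + 1) : ℝ) : ℂ)) ?_ hF (by linarith) ?_
    · exact hF.comp (by fun_prop) (fun s hs => by
        change (s + 2 * Real.pi * Complex.I).re < 0
        rw [re_shift1]
        exact hs)
    · filter_upwards [hLopen.mem_nhds hz₀] with s hs
      have hs' : s.re < -L := hs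
      rw [hFL s hs', hFL _ (by rw [re_shift1]; exact hs'), h0.per s hs']
  have hperk := perk F hper
  have hinj : ∀ s t : ℂ, s.re < 0 → t.re < 0 → F s = F t →
      ∃ k : ℤ, t = s + k * (2 * Real.pi * Complex.I) := by
    intro s t hs ht hst
    obtain ⟨m, hm⟩ := big n hn (max s.re t.re) (max_lt hs ht) L
    have hnm : (0 : ℝ) < (n : ℝ) ^ m := by positivity
    have hs' : ((n : ℂ) ^ m * s).re < -L := by
      rw [re_pow]
      nlinarith [le_max_left s.re t.re]
    have ht' : ((n : ℂ) ^ m * t).re < -L := by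
      rw [re_pow]
      nlinarith [le_max_right s.re t.re]
    have h1 : F₀ ((n : ℂ) ^ m * s) = F₀ ((n : ℂ) ^ m * t) := by
      rw [← hFL _ hs', ← hFL _ ht', ← hit m s hs, ← hit m t ht, hst]
    obtain ⟨k, hk⟩ := h0.inj _ _ hs' ht' h1
    have hnmC : (n : ℂ) ^ m ≠ 0 := pow_ne_zero m hnC
    have hτ : (n : ℂ) ^ m * (t - s) = k * (2 * Real.pi * Complex.I) := by
      rw [mul_sub, hk]
      ring
    have hτre : (t - s).re = 0 := by
      have h2 := re_pow n m (t - s)
      rw [hτ] at h2
      have h3 : ((k : ℂ) * (2 * Real.pi * Complex.I)).re = 0 := by simp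
      rw [h3] at h2
      rcases mul_eq_zero.1 h2.symm with h4 | h4
      · exact absurd h4 hnm.ne'
      · exact h4
    have hG : DifferentiableOn ℂ (fun s' => F (s' + (t - s))) {s : ℂ | s.re < 0} :=
      hF.comp (by fun_prop) (fun s' hs' => by
        change (s' + (t - s)).re < 0
        rw [Complex.add_re, hτre, add_zero]
        exact hs')
    have hPm : ∀ s' : ℂ, s'.re < 0 → (pm P)^[m] (F (s' + (t - s))) = (pm P)^[m] (F s') := by
      intro s' hs'
      rw [hit m s' hs', hit m _ (by rw [Complex.add_re, hτre, add_zero]; exact hs'), mul_add, hτ,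
        hperk k _ (hneg m s' hs')]
    obtain ⟨d, hd, hder⟩ := der P R hOm hcr m (F s) (hmem s hs)
    obtain ⟨g, hg⟩ := linj hd hder
    have hc1 : Tendsto F (𝓝 s) (𝓝 (F s)) :=
      (hF.differentiableAt (hopen.mem_nhds hs)).continuousAt
    have hc2 : Tendsto (fun s' => F (s' + (t - s))) (𝓝 s) (𝓝 (F s)) := by
      have := (hG.differentiableAt (hopen.mem_nhds hs)).continuousAt
      have h5 : F (s + (t - s)) = F s := by
        rw [hst]
        congr 1
        ring
      have h9 : Tendsto (fun s' => F (s' + (t - s))) (𝓝 s) (𝓝 (F (s + (t - s)))) := this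
      rwa [h5] at h9
    have hev : ∀ᶠ s' in 𝓝 s, F s' = F (s' + (t - s)) := by
      filter_upwards [hc1.eventually hg, hc2.eventually hg, hopen.mem_nhds hs]
        with s' h6 h7 h8
      rw [← h6, ← h7, hPm s' h8]
    have hall := ident hF hG hs hev
    obtain ⟨k', hk'⟩ := h0.inj ((-(L + 1) : ℝ) : ℂ) (((-(L + 1) : ℝ) : ℂ) + (t - s)) hz₀
      (by rw [Complex.add_re, hτre, add_zero]; exact hz₀) (by
        rw [← hFL _ hz₀, ← hFL _ (by rw [Complex.add_re, hτre, add_zero]; exact hz₀)]
        exact hall _ (by linarith))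
    refine ⟨k', ?_⟩
    linear_combination hk'
  refine ⟨hF, hper, hcj, hinj, ?_, ?_, ?_⟩
  · intro M
    obtain ⟨L', hL'⟩ := h0.inf M
    refine ⟨max L' L, fun s hs _ => ?_⟩
    have h1 : s.re < -L' := by linarith [le_max_left L' L]
    have h2 : s.re < -L := by linarith [le_max_right L' L]
    rw [hFL s h2]
    exact hL' s h1 h2
  · apply Subset.antisymm
    · rintro _ ⟨s, hs, rfl⟩
      exact hmem s hs
    · have hstep : ∀ z : ℂ, (∃ s : ℂ, s.re < 0 ∧ F s = pm P z) → ∃ s : ℂ, s.re < 0 ∧ F s = z := by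
        rintro z ⟨s', hs', hz⟩
        by_contra hno
        have hno' : ∀ s : ℂ, s.re < 0 → F s ≠ z := fun s hs h => hno ⟨s, hs, h⟩
        let sj : ℕ → ℂ := fun j => (s' + ((j : ℤ) : ℂ) * (2 * Real.pi * Complex.I)) / n
        have hnsj : ∀ j, (n : ℂ) * sj j = s' + ((j : ℤ) : ℂ) * (2 * Real.pi * Complex.I) :=
          fun j => mul_div_cancel₀ _ hnC
        have hsj : ∀ j, (sj j).re < 0 := by
          intro j
          have h1 := re_one n (sj j)
          rw [hnsj, re_shift] at h1
          by_contra h2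
          have h3 : 0 ≤ (n : ℝ) * (sj j).re := mul_nonneg hn0.le (not_lt.1 h2)
          linarith
        have hFj : ∀ j, pm P (F (sj j)) = pm P z := by
          intro j
          rw [hcj _ (hsj j), hnsj, hperk _ _ hs', hz]
        have hdist : ∀ i j : ℕ, i < n → j < n → F (sj i) = F (sj j) → i = j := by
          intro i j hi hj hij
          obtain ⟨k, hk⟩ := hinj _ _ (hsj i) (hsj j) hij
          have h1 : (n : ℂ) * sj j = n * sj i + n * (k * (2 * Real.pi * Complex.I)) := by
            rw [hk]
            ring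
          rw [hnsj, hnsj] at h1
          have hpi : (2 * Real.pi * Complex.I : ℂ) ≠ 0 := Complex.two_pi_I_ne_zero
          have h2 : (((j : ℤ) : ℂ) - ((i : ℤ) : ℂ) - n * k) * (2 * Real.pi * Complex.I) = 0 := by
            linear_combination h1
          have h3 := (mul_eq_zero.1 h2).resolve_right hpi
          have h4 : (j : ℤ) - (i : ℤ) - n * k = 0 := by
            exact_mod_cast h3
          have h5 : (j : ℤ) - i = n * k := by linarith
          have hk0 : k = 0 := by
            have hi' : (i : ℤ) < n := by exact_mod_cast hi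
            have hj' : (j : ℤ) < n := by exact_mod_cast hj
            have hi0 : (0 : ℤ) ≤ i := by positivity
            have hj0 : (0 : ℤ) ≤ j := by positivity
            rcases lt_trichotomy k 0 with h | h | h
            · exfalso
              have : (n : ℤ) * k ≤ n * (-1) := by
                apply mul_le_mul_of_nonneg_left (by omega) (by positivity)
              linarith
            · exact h
            · exfalso
              have : (n : ℤ) * 1 ≤ n * k := by
                apply mul_le_mul_of_nonneg_left (by omega) (by positivity)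
              linarith
          rw [hk0, mul_zero] at h5
          omega
        have hQ : P - C (pm P z) = 0 := by
          refine Polynomial.eq_zero_of_natDegree_lt_card_of_eval_eq_zero' (P - C (pm P z))
            (insert z ((Finset.range n).image fun j => F (sj j))) ?_ ?_
          · intro x hx
            rw [eval_sub, eval_C]
            rcases Finset.mem_insert.1 hx with rfl | hx
            · exact sub_self _
            · obtain ⟨j, _, rfl⟩ := Finset.mem_image.1 hx
              exact sub_eq_zero.2 (hFj j)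
          · rw [natDegree_sub_C, hdeg, Finset.card_insert_of_notMem, Finset.card_image_of_injOn,
              Finset.card_range]
            · omega
            · intro i hi j hj hij
              exact hdist i j (Finset.mem_range.1 hi) (Finset.mem_range.1 hj) hij
            · intro hx
              obtain ⟨j, _, hj⟩ := Finset.mem_image.1 hx
              exact hno' _ (hsj j) hj
        have h6 : P.natDegree = 0 := by
          rw [sub_eq_zero.1 hQ, natDegree_C]
        omega
      have hall : ∀ (m : ℕ) (z : ℂ), (∃ s : ℂ, s.re < 0 ∧ F s = (pm P)^[m] z) →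
          ∃ s : ℂ, s.re < 0 ∧ F s = z := by
        intro m
        induction m with
        | zero =>
          intro z hz
          exact hz
        | succ m ih =>
          intro z hz
          rw [Function.iterate_succ_apply] at hz
          exact hstep z (ih _ hz)
      intro z hz
      obtain ⟨M, hM⟩ := h0.sur
      have hz' : Tendsto (fun m : ℕ => ‖(pm P)^[m] z‖) atTop atTop := hz
      obtain ⟨m, hm⟩ := (hz'.eventually (eventually_ge_atTop M)).exists
      obtain ⟨s, hs, hsz⟩ := hM _ hm
      obtain ⟨s', h1, h2⟩ := hall m z ⟨s, by linarith, by rw [hFL s hs, hsz]⟩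
      exact ⟨s', h1, h2⟩
  · obtain ⟨M, hM⟩ := h0.sur
    refine ⟨L, M, hL, fun s hs1 hs2 => ?_⟩
    by_contra hcon
    obtain ⟨s', hs', hss⟩ := hM (F s) (not_le.1 hcon).le
    obtain ⟨k, hk⟩ := hinj s s' hs2 (by linarith) (by rw [hFL s' hs', hss])
    rw [hk, re_shift] at hs'
    linarith

end Pool.Agent.BSL
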