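import Pool.Agent.BSL.Targets
import Pool.Agent.PLim.KOEB

/-!
# BSL: EXO (derivative of the inverse Böttcher coordinate)
-/

set_option autoImplicit false

open Polynomial Metric Set Filter Topology

noncomputable section

namespace Pool.Agent.BSL

open Pool.Agent.MAT

namespace EXO_

lemma iter_mem {n : ℕ} (hn : 2 ≤ n) (w : ℂ) (hw : w ∈ ball (0 : ℂ) 1 \ {0}) (m : ℕ) :
    (fun z : ℂ => z ^ n)^[m] w ∈ ball (0 : ℂ) 1 \ {0} := by
  induction m with
  | zero => simpa using hw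
  | succ m ih =>
    rw [Function.iterate_succ_apply']
    obtain ⟨h1, h2⟩ := ih
    rw [mem_ball_zero_iff] at h1
    refine ⟨?_, ?_⟩
    · rw [mem_ball_zero_iff, norm_pow]
      exact pow_lt_one₀ (norm_nonneg _) h1 (by omega)
    · intro h
      exact h2 (by
        rw [mem_singleton_iff] at h ⊢
        exact pow_eq_zero_iff (by omega) |>.1 h)

lemma iter_conj {n : ℕ} {P : ℂ[X]} {φ : ℂ → ℂ} (hn : 2 ≤ n) (ho : OB n P φ) (w : ℂ)
    (hw : w ∈ ball (0 : ℂ) 1 \ {0}) (m : ℕ) :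
    (pm P)^[m] (φ w) = φ ((fun z : ℂ => z ^ n)^[m] w) := by
  induction m with
  | zero => rfl
  | succ m ih =>
    rw [Function.iterate_succ_apply', Function.iterate_succ_apply', ih]
    exact ho.conj _ (iter_mem hn w hw m)

end EXO_

open EXO_ in
theorem p_EXO (hR : T_RAT) (hN : T_NRO) : T_EXO := by
  intro n P z₀ R φ δ C lam hc ho hnb
  obtain ⟨hδ, hC, hl0, hl1, hnb⟩ := hnb
  obtain ⟨ρ₀, hρ0, hρ1, hnear⟩ := hN n P z₀ R φ hc ho δ hδ
  have hn : 2 ≤ n := hc.hp.hn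
  set ρ : ℝ := max ρ₀ (1 / 2) with hρ
  have hρh : 1 / 2 ≤ ρ := le_max_right _ _
  have hρ' : ρ₀ ≤ ρ := le_max_left _ _
  have hρlt : ρ < 1 := max_lt hρ1 (by norm_num)
  have hmem : ∀ w : ℂ, ρ ≤ ‖w‖ → ‖w‖ < 1 → w ∈ ball (0 : ℂ) 1 \ {0} := by
    intro w h1 h2
    refine ⟨by rwa [mem_ball_zero_iff], ?_⟩
    intro h
    rw [mem_singleton_iff] at h
    rw [h, norm_zero] at h1
    linarith
  obtain ⟨C', α, hC', hα, hD⟩ := hR (fun z : ℂ => z ^ n) (fun w => infDist (φ w) (XX P z₀))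
    ρ n C lam (by linarith) hρlt (by exact_mod_cast (by omega : 1 < n)) hC hl0 hl1
    (by
      intro w h1 h2
      simp only [norm_pow]
      refine ⟨pow_lt_one₀ (norm_nonneg _) h2 (by omega), ?_⟩
      have h3 := one_add_mul_le_pow (a := ‖w‖ - 1) (by linarith [norm_nonneg w]) n
      have h4 : (1 + (‖w‖ - 1)) ^ n = ‖w‖ ^ n := by congr 1; ring
      rw [h4] at h3
      linarith)
    (by
      intro w m h1 h2 h3 h4
      obtain ⟨x, hx, hxd⟩ := hnear _ (hρ'.trans h3) h4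
      have h5 := iter_conj hn ho w (hmem w h1 h2) m
      rw [← h5] at hxd
      obtain ⟨y, hy, hyd⟩ := hnb m (φ w) x hx hxd
      have h6 : infDist (φ w) (XX P z₀) ≤ dist (φ w) y := infDist_le_dist_of_mem hy
      rw [dist_eq_norm] at h6
      exact h6.trans hyd)
  refine ⟨ρ, 64 * C', α, by linarith, hρlt, hα, ?_⟩
  intro w h1 h2
  have hD1 := hD w h1.le h2
  obtain ⟨x, hx, hxd⟩ := hc.xf.cpt.exists_infDist_eq_dist hc.xf.non (φ w)
  have hsub : ball w (1 - ‖w‖) ⊆ ball (0 : ℂ) 1 \ {0} := by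
    intro z hz
    rw [mem_ball, dist_eq_norm] at hz
    refine ⟨?_, ?_⟩
    · rw [mem_ball_zero_iff]
      have h3 : ‖z‖ ≤ ‖z - w‖ + ‖w‖ := by
        have := norm_add_le (z - w) w
        simpa using this
      linarith
    · intro h
      rw [mem_singleton_iff] at h
      rw [h, zero_sub, norm_neg] at hz
      linarith
  have hk := PLim.p_KOEB w (1 - ‖w‖) (fun z => φ z - x) (by linarith)
    ((ho.hol.mono hsub).sub_const x)
    (by
      intro a ha b hb hab
      exact ho.inj (hsub ha) (hsub hb) (by simpa using hab))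
    (by
      intro z hz h0
      have h3 : φ z ∈ Om P := by
        rw [← ho.img]
        exact ⟨z, hsub hz, rfl⟩
      rw [sub_eq_zero] at h0
      rw [h0] at h3
      exact hx (Or.inr h3))
  rw [deriv_sub_const] at hk
  have h7 : ‖φ w - x‖ = infDist (φ w) (XX P z₀) := by rw [hxd, dist_eq_norm]
  rw [h7] at hk
  calc ‖deriv φ w‖ * (1 - ‖w‖) ≤ 64 * infDist (φ w) (XX P z₀) := hk
    _ ≤ 64 * (C' * (1 - ‖w‖) ^ α) := by linarith
    _ = 64 * C' * (1 - ‖w‖) ^ α := by ring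

end Pool.Agent.BSL
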