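import Pool.Agent.BSL.Targets
import Pool.Agent.MAT.P_BLA
import Pool.Agent.PLim.KOEB

/-!
# BSL: derivative of the Riemann map
-/

set_option autoImplicit false

open Polynomial Metric Set Filter Topology

noncomputable section

namespace Pool.Agent.BSL

open Pool.Agent.MAT

/-- EXS (derivative of the Riemann map) -/
theorem p_EXS (hR : T_RAT) (hL : T_LIB) (hN : T_NRS) : T_EXS := by
  intro n P z₀ R ψ h B δ C lam hC hRM hBP hNB
  obtain ⟨hδ, hC0, hlam, hlam1, hnb⟩ := hNB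
  obtain ⟨hB0, -, -, hBlt, -⟩ := p_BLA n B hC.hp.hn hBP.blas
  obtain ⟨L, hL1, hLB⟩ := hL n B hBP.blas
  obtain ⟨ρ, hρ0, hρ1, hρ⟩ := hN n P z₀ R ψ h hC hRM δ hδ
  have hBb : ∀ w : ℂ, ‖w‖ < 1 → ‖B w‖ < 1 := by
    intro w hw
    rcases eq_or_ne w 0 with rfl | h0
    · rw [hB0, norm_zero]
      exact one_pos
    · exact (hBlt w (mem_ball_zero_iff.mpr hw) h0).trans hw
  have hBit : ∀ (w : ℂ) (m : ℕ), ‖w‖ < 1 →
      ‖B^[m] w‖ < 1 ∧ ψ (B^[m] w) = (pm P)^[m] (ψ w) := by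
    intro w m hw
    induction m with
    | zero => exact ⟨hw, rfl⟩
    | succ m ih =>
      rw [Function.iterate_succ_apply', Function.iterate_succ_apply']
      exact ⟨hBb _ ih.1, by rw [hBP.conj _ (mem_ball_zero_iff.mpr ih.1), ih.2]⟩
  obtain ⟨C', α, hC', hα, hrat⟩ := hR B (fun w => infDist (ψ w) (XX P z₀)) ρ L C lam hρ0.le hρ1
    hL1 hC0 hlam hlam1
    (fun w _ hw1 => ⟨hBb w hw1, hLB w (mem_closedBall_zero_iff.mpr hw1.le)⟩)
    (by
      intro w m _ hw1 hm hm1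
      obtain ⟨x, hx, hxd⟩ := hρ _ hm hm1
      rw [(hBit w m hw1).2] at hxd
      obtain ⟨y, hy, hyd⟩ := hnb m (ψ w) x hx hxd
      refine (infDist_le_dist_of_mem hy).trans ?_
      rw [dist_eq_norm]
      exact hyd)
  refine ⟨ρ, 64 * C', α, hρ0.le, hρ1, hα, fun w hw hw1 => ?_⟩
  obtain ⟨x, hx, hxd⟩ := hC.xf.cpt.exists_infDist_eq_dist hC.xf.non (ψ w)
  have hsub : ball w (1 - ‖w‖) ⊆ ball (0 : ℂ) 1 := by
    intro v hv
    rw [mem_ball, dist_eq_norm] at hv
    rw [mem_ball_zero_iff]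
    have := norm_add_le (v - w) w
    rw [sub_add_cancel] at this
    linarith
  have hk := PLim.p_KOEB w (1 - ‖w‖) (fun v => ψ v - x) (by linarith)
    ((hRM.hol.mono hsub).sub_const x)
    (fun a ha b hb e => hRM.inj (hsub ha) (hsub hb) (sub_left_injective e))
    (by
      intro v hv e
      have h1 : ψ v ∈ UU P z₀ := by
        rw [← hRM.img]
        exact mem_image_of_mem _ (hsub hv)
      rw [sub_eq_zero.mp e] at h1
      exact hx (Or.inl h1))
  rw [deriv_sub_const] at hk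
  refine hk.trans ?_
  have h2 := hrat w hw.le hw1
  simp only [hxd, dist_eq_norm] at h2
  linarith

end Pool.Agent.BSL
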