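import Pool.Agent.BSL.Targets

/-!
# BSL: target HOE
-/

set_option autoImplicit false

open Metric Set Filter Topology

noncomputable section

namespace Pool.Agent.BSL

namespace HOE_

/-- the radial estimate -/
theorem radial (g : ℂ → ℂ) (ρ C a : ℝ) (hρ : 0 ≤ ρ) (hC : 0 ≤ C) (ha : 0 < a) (ha1 : a ≤ 1)
    (hg : DifferentiableOn ℂ g {w | ρ < ‖w‖ ∧ ‖w‖ < 1})
    (hb : ∀ w : ℂ, ρ < ‖w‖ → ‖w‖ < 1 → ‖deriv g w‖ ≤ C * (1 - ‖w‖) ^ (a - 1))
    (w : ℂ) (r r' : ℝ) (hw : ‖w‖ ≤ 1) (hr : 0 < r) (hrr : r ≤ r') (hr' : r' < 1)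
    (hrw : ρ < r * ‖w‖) : ‖g (r' * w) - g (r * w)‖ ≤ C / a * (r' - r) ^ a := by
  have hwpos : 0 < ‖w‖ := by
    by_contra h
    have : ‖w‖ = 0 := le_antisymm (not_lt.mp h) (norm_nonneg w)
    rw [this, mul_zero] at hrw
    linarith
  have hopen : IsOpen {w : ℂ | ρ < ‖w‖ ∧ ‖w‖ < 1} :=
    (isOpen_lt continuous_const continuous_norm).inter (isOpen_lt continuous_norm continuous_const)
  have hmem : ∀ t ∈ Icc r r', ρ < ‖(t : ℂ) * w‖ ∧ ‖(t : ℂ) * w‖ < 1 := by
    intro t ht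
    have ht0 : 0 < t := lt_of_lt_of_le hr ht.1
    have e : ‖(t : ℂ) * w‖ = t * ‖w‖ := by
      rw [norm_mul, Complex.norm_real, Real.norm_of_nonneg ht0.le]
    rw [e]
    constructor
    · exact lt_of_lt_of_le hrw (mul_le_mul_of_nonneg_right ht.1 hwpos.le)
    · calc t * ‖w‖ ≤ t * 1 := mul_le_mul_of_nonneg_left hw ht0.le
        _ = t := mul_one t
        _ ≤ r' := ht.2
        _ < 1 := hr'
  have hder : ∀ t ∈ Icc r r', HasDerivAt (fun t : ℝ => g (t * w) - g (r * w))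
      (w * deriv g (t * w)) t := by
    intro t ht
    have h1 : HasDerivAt g (deriv g ((t : ℂ) * w)) ((t : ℂ) * w) :=
      ((hg _ (hmem t ht)).differentiableAt (hopen.mem_nhds (hmem t ht))).hasDerivAt
    have h2 : HasDerivAt (fun t : ℝ => (t : ℂ) * w) w t := by
      have h3 : HasDerivAt (fun t : ℝ => (t : ℂ)) 1 t := Complex.ofRealCLM.hasDerivAt
      simpa using h3.mul_const w
    have h4 := HasDerivAt.scomp t h1 h2
    have h5 := h4.sub_const (g (r * w))
    exact h5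
  have hB : ∀ t ∈ Icc r r', HasDerivAt (fun t : ℝ => C / a * ((1 - r * ‖w‖) ^ a - (1 - t * ‖w‖) ^ a))
      (C * ‖w‖ * (1 - t * ‖w‖) ^ (a - 1)) t := by
    intro t ht
    have hm := hmem t ht
    have ht0 : 0 < t := lt_of_lt_of_le hr ht.1
    have e : ‖(t : ℂ) * w‖ = t * ‖w‖ := by
      rw [norm_mul, Complex.norm_real, Real.norm_of_nonneg ht0.le]
    have hpos : 0 < 1 - t * ‖w‖ := by rw [e] at hm; linarith [hm.2]
    have h1 : HasDerivAt (fun t : ℝ => 1 - t * ‖w‖) (-‖w‖) t := by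
      have := ((hasDerivAt_id t).mul_const ‖w‖).const_sub 1
      simpa using this
    have h2 := h1.rpow_const (p := a) (Or.inl hpos.ne')
    have h3 := (h2.const_sub ((1 - r * ‖w‖) ^ a)).const_mul (C / a)
    have e1 : C / a * -(-‖w‖ * a * (1 - t * ‖w‖) ^ (a - 1)) =
        C * ‖w‖ * (1 - t * ‖w‖) ^ (a - 1) := by
      field_simp
    rw [e1] at h3
    exact h3
  have hmain := image_norm_le_of_norm_deriv_right_le_deriv_boundary'
    (f := fun t : ℝ => g (t * w) - g (r * w)) (f' := fun t => w * deriv g (t * w))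
    (a := r) (b := r')
    (fun t ht => (hder t ht).continuousAt.continuousWithinAt)
    (fun t ht => (hder t ⟨ht.1, ht.2.le⟩).hasDerivWithinAt)
    (B := fun t : ℝ => C / a * ((1 - r * ‖w‖) ^ a - (1 - t * ‖w‖) ^ a))
    (B' := fun t => C * ‖w‖ * (1 - t * ‖w‖) ^ (a - 1))
    (by simp)
    (fun t ht => (hB t ht).continuousAt.continuousWithinAt)
    (fun t ht => (hB t ⟨ht.1, ht.2.le⟩).hasDerivWithinAt)
    (by
      intro t ht
      have hm := hmem t ⟨ht.1, ht.2.le⟩
      have ht0 : 0 < t := lt_of_lt_of_le hr ht.1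
      have e : ‖(t : ℂ) * w‖ = t * ‖w‖ := by
        rw [norm_mul, Complex.norm_real, Real.norm_of_nonneg ht0.le]
      have h1 := hb _ hm.1 hm.2
      rw [e] at h1
      rw [norm_mul]
      calc ‖w‖ * ‖deriv g (t * w)‖ ≤ ‖w‖ * (C * (1 - t * ‖w‖) ^ (a - 1)) :=
            mul_le_mul_of_nonneg_left h1 hwpos.le
        _ = C * ‖w‖ * (1 - t * ‖w‖) ^ (a - 1) := by ring)
    (right_mem_Icc.mpr hrr)
  refine hmain.trans ?_
  have hx : 0 ≤ 1 - r' * ‖w‖ := by
    have := (hmem r' (right_mem_Icc.mpr hrr)).2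
    have ht0 : 0 < r' := lt_of_lt_of_le hr hrr
    have e : ‖(r' : ℂ) * w‖ = r' * ‖w‖ := by
      rw [norm_mul, Complex.norm_real, Real.norm_of_nonneg ht0.le]
    rw [e] at this
    linarith
  have hy : 0 ≤ (r' - r) * ‖w‖ := mul_nonneg (by linarith) hwpos.le
  have h1 : (1 - r * ‖w‖) ^ a ≤ (1 - r' * ‖w‖) ^ a + ((r' - r) * ‖w‖) ^ a := by
    have := Real.rpow_add_le_add_rpow hx hy ha.le ha1
    have e : 1 - r' * ‖w‖ + (r' - r) * ‖w‖ = 1 - r * ‖w‖ := by ring
    rwa [e] at this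
  have h2 : ((r' - r) * ‖w‖) ^ a ≤ (r' - r) ^ a := by
    apply Real.rpow_le_rpow hy _ ha.le
    calc (r' - r) * ‖w‖ ≤ (r' - r) * 1 := mul_le_mul_of_nonneg_left hw (by linarith)
      _ = r' - r := mul_one _
  exact mul_le_mul_of_nonneg_left (by linarith) (div_nonneg hC ha.le)

end HOE_

open HOE_ in
theorem p_HOE : T_HOE := by
  intro g ρ C α hρ hρ1 hα hg hb
  -- exponents at most one
  set a := min α 1 with ha_def
  have ha : 0 < a := lt_min hα one_pos
  have ha1 : a ≤ 1 := min_le_right _ _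
  have haα : a ≤ α := min_le_left _ _
  have hC : 0 ≤ C := by
    obtain ⟨s, hs1, hs2⟩ := exists_between hρ1
    have hs0 : 0 < s := lt_of_le_of_lt hρ hs1
    have e : ‖(s : ℂ)‖ = s := by rw [Complex.norm_real, Real.norm_of_nonneg hs0.le]
    have h := hb (s : ℂ) (by rw [e]; exact hs1) (by rw [e]; exact hs2)
    rw [e] at h
    have h1 : 0 ≤ C * (1 - s) ^ α := le_trans (mul_nonneg (norm_nonneg _) (by linarith)) h
    have h2 : 0 < (1 - s) ^ α := Real.rpow_pos_of_pos (by linarith) α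
    by_contra hc
    push Not at hc
    have := mul_neg_of_neg_of_pos hc h2
    linarith
  have hb' : ∀ w : ℂ, ρ < ‖w‖ → ‖w‖ < 1 → ‖deriv g w‖ ≤ C * (1 - ‖w‖) ^ (a - 1) := by
    intro w h1 h2
    have hpos : 0 < 1 - ‖w‖ := by linarith
    have h3 := hb w h1 h2
    have h4 : (1 - ‖w‖) ^ α ≤ (1 - ‖w‖) ^ a :=
      Real.rpow_le_rpow_of_exponent_ge hpos (by linarith [norm_nonneg w]) haα
    have h5 : ‖deriv g w‖ * (1 - ‖w‖) ≤ C * (1 - ‖w‖) ^ a :=
      h3.trans (mul_le_mul_of_nonneg_left h4 hC)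
    rw [Real.rpow_sub_one hpos.ne', ← mul_div_assoc, le_div_iff₀ hpos]
    exact h5
  set r : ℕ → ℝ := fun k => 1 - 1 / ((k : ℝ) + 2) with hr_def
  have hr0 : ∀ k, 0 < r k := by
    intro k
    have h1 : (0 : ℝ) < (k : ℝ) + 2 := by positivity
    have : 1 / ((k : ℝ) + 2) < 1 := by
      rw [div_lt_one h1]; linarith [(Nat.cast_nonneg k : (0 : ℝ) ≤ k)]
    simp only [hr_def]; linarith
  have hr1 : ∀ k, r k < 1 := by
    intro k
    have h1 : (0 : ℝ) < (k : ℝ) + 2 := by positivity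
    have : 0 < 1 / ((k : ℝ) + 2) := by positivity
    simp only [hr_def]; linarith
  have hrm : ∀ k l, k ≤ l → r k ≤ r l := by
    intro k l hkl
    have h1 : (0 : ℝ) < (k : ℝ) + 2 := by positivity
    have : 1 / ((l : ℝ) + 2) ≤ 1 / ((k : ℝ) + 2) := by
      apply one_div_le_one_div_of_le h1
      have : (k : ℝ) ≤ l := by exact_mod_cast hkl
      linarith
    simp only [hr_def]; linarith
  have hrt : Tendsto r atTop (𝓝 1) := by
    have h1 : Tendsto (fun k : ℕ => 1 / ((k : ℝ) + 2)) atTop (𝓝 0) := by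
      apply Tendsto.div_atTop tendsto_const_nhds
      exact tendsto_atTop_add_const_right _ _ tendsto_natCast_atTop_atTop
    have h2 := h1.const_sub 1
    rw [sub_zero] at h2
    exact h2
  set G : ℕ → ℂ → ℂ := fun k w => g (r k * w) with hG
  -- uniformly Cauchy on closed annuli
  have hcau : ∀ ρ' : ℝ, ρ < ρ' → UniformCauchySeqOn G atTop {w : ℂ | ρ' ≤ ‖w‖ ∧ ‖w‖ ≤ 1} := by
    intro ρ' hρ'
    have hρ'0 : 0 < ρ' := lt_of_le_of_lt hρ hρ'
    rw [Metric.uniformCauchySeqOn_iff]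
    intro ε hε
    have ht : Tendsto (fun k => C / a * (1 - r k) ^ a) atTop (𝓝 0) := by
      have h1 : Tendsto (fun k => 1 - r k) atTop (𝓝 0) := by simpa using hrt.const_sub 1
      have h2 : Tendsto (fun k => (1 - r k) ^ a) atTop (𝓝 0) := by
        have := h1.rpow_const (p := a) (Or.inr ha.le)
        simpa [Real.zero_rpow ha.ne'] using this
      simpa using h2.const_mul (C / a)
    have hev1 : ∀ᶠ k in atTop, C / a * (1 - r k) ^ a < ε := ht.eventually_lt_const hε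
    have hev2 : ∀ᶠ k in atTop, ρ < r k * ρ' := by
      have : Tendsto (fun k => r k * ρ') atTop (𝓝 (1 * ρ')) := hrt.mul_const ρ'
      rw [one_mul] at this
      exact this.eventually_const_lt hρ'
    obtain ⟨N, hN⟩ := eventually_atTop.mp (hev1.and hev2)
    refine ⟨N, ?_⟩
    have main : ∀ m n, N ≤ m → m ≤ n → ∀ w ∈ {w : ℂ | ρ' ≤ ‖w‖ ∧ ‖w‖ ≤ 1},
        dist (G m w) (G n w) < ε := by
      intro m n hm hmn w hw
      have h1 := hN m hm
      have h2 : ρ < r m * ‖w‖ :=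
        lt_of_lt_of_le h1.2 (mul_le_mul_of_nonneg_left hw.1 (hr0 m).le)
      have h3 := radial g ρ C a hρ hC ha ha1 hg hb' w (r m) (r n) hw.2 (hr0 m) (hrm m n hmn)
        (hr1 n) h2
      rw [dist_comm, dist_eq_norm]
      refine lt_of_le_of_lt h3 (lt_of_le_of_lt ?_ h1.1)
      apply mul_le_mul_of_nonneg_left _ (div_nonneg hC ha.le)
      apply Real.rpow_le_rpow (by linarith [hrm m n hmn]) _ ha.le
      linarith [hr1 n]
    intro m hm n hn w hw
    rcases le_total m n with h | h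
    · exact main m n hm h w hw
    · rw [dist_comm]; exact main n m hn h w hw
  refine ⟨fun w => limUnder atTop (fun k => G k w), ?_, ?_⟩
  · intro w₀ hw₀
    obtain ⟨ρ', h1, h2⟩ := exists_between hw₀.1
    have hρ'0 : 0 < ρ' := lt_of_le_of_lt hρ h1
    have hU := (hcau ρ' h1).tendstoUniformlyOn_of_tendsto
      (f := fun w => limUnder atTop (fun k => G k w)) (by
        intro w hw
        exact ((hcau ρ' h1).cauchySeq hw).tendsto_limUnder)
    have hev2 : ∀ᶠ k in atTop, ρ < r k * ρ' := by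
      have : Tendsto (fun k => r k * ρ') atTop (𝓝 (1 * ρ')) := hrt.mul_const ρ'
      rw [one_mul] at this
      exact this.eventually_const_lt h1
    have hcont : ∀ᶠ k in atTop, ContinuousOn (G k) {w : ℂ | ρ' ≤ ‖w‖ ∧ ‖w‖ ≤ 1} := by
      filter_upwards [hev2] with k hk
      apply hg.continuousOn.comp (by fun_prop)
      intro w hw
      have e : ‖(r k : ℂ) * w‖ = r k * ‖w‖ := by
        rw [norm_mul, Complex.norm_real, Real.norm_of_nonneg (hr0 k).le]
      show ρ < ‖(r k : ℂ) * w‖ ∧ ‖(r k : ℂ) * w‖ < 1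
      rw [e]
      constructor
      · exact lt_of_lt_of_le hk (mul_le_mul_of_nonneg_left hw.1 (hr0 k).le)
      · calc r k * ‖w‖ ≤ r k * 1 := mul_le_mul_of_nonneg_left hw.2 (hr0 k).le
          _ = r k := mul_one _
          _ < 1 := hr1 k
    have h3 := hU.continuousOn hcont.frequently w₀ ⟨h2.le, hw₀.2⟩
    apply h3.mono_of_mem_nhdsWithin
    have h4 : {w : ℂ | ρ' < ‖w‖} ∈ 𝓝 w₀ :=
      (isOpen_lt continuous_const continuous_norm).mem_nhds h2
    filter_upwards [mem_nhdsWithin_of_mem_nhds h4, self_mem_nhdsWithin] with w hw1 hw2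
    exact ⟨le_of_lt hw1, hw2.2⟩
  · intro w h1 h2
    apply Tendsto.limUnder_eq
    have hopen : IsOpen {w : ℂ | ρ < ‖w‖ ∧ ‖w‖ < 1} :=
      (isOpen_lt continuous_const continuous_norm).inter
        (isOpen_lt continuous_norm continuous_const)
    have hc : ContinuousAt g w :=
      ((hg w ⟨h1, h2⟩).differentiableAt (hopen.mem_nhds ⟨h1, h2⟩)).continuousAt
    have h3 : Tendsto (fun k => (r k : ℂ) * w) atTop (𝓝 w) := by
      have h4 : Tendsto (fun k => (r k : ℂ)) atTop (𝓝 ((1 : ℝ) : ℂ)) :=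
        (Complex.continuous_ofReal.tendsto 1).comp hrt
      have := h4.mul_const w
      simpa using this
    exact hc.tendsto.comp h3

end Pool.Agent.BSL
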