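import Pool.Agent.BSL.Targets

/-!
# BSL: proof of the target KKF
-/

set_option autoImplicit false

open Polynomial Metric Set Filter Topology

noncomputable section

namespace Pool.Agent.BSL

namespace KKF_

variable {n : ℕ} {P : ℂ[X]} {z₀ : ℂ}

lemma der_ne (h : HP n P z₀) : derivative P ≠ 0 := by
  intro h0
  have h1 := Polynomial.derivative_eq_zero.1 h0
  have h2 := h.hn
  have h3 := h.deg
  omega

lemma kk_eq (h : HP n P z₀) : KK P z₀ = insert z₀
    (⋃ c ∈ ((derivative P).roots.toFinset : Set ℂ), insert z₀ (range fun k => (pm P)^[k] c)) := by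
  have h0 := der_ne h
  ext z
  unfold KK
  constructor
  · intro hz
    rcases hz with hz | ⟨c, k, hc, hz⟩
    · exact Or.inl hz
    · refine Or.inr (mem_biUnion (x := c) ?_ (Or.inr ⟨k, hz.symm⟩))
      rw [Finset.mem_coe, Multiset.mem_toFinset, Polynomial.mem_roots h0]
      exact hc
  · intro hz
    rcases hz with hz | hz
    · exact Or.inl hz
    · rw [mem_iUnion₂] at hz
      obtain ⟨c, hc, hz⟩ := hz
      rw [Finset.mem_coe, Multiset.mem_toFinset, Polynomial.mem_roots h0] at hc
      rcases hz with hz | ⟨k, hk⟩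
      · exact Or.inl hz
      · exact Or.inr ⟨c, k, hc, hk.symm⟩

lemma iter_mem (h : HP n P z₀) (b : BF P z₀) (c : ℂ) (hc : (derivative P).eval c = 0) (k : ℕ) :
    (pm P)^[k] c ∈ UU P z₀ := by
  induction k with
  | zero => exact h.crit c hc
  | succ k ih =>
    rw [Function.iterate_succ_apply']
    exact b.map _ ih

lemma cpt (h : HP n P z₀) (b : BF P z₀) : IsCompact (KK P z₀) := by
  rw [kk_eq h]
  refine IsCompact.insert ?_ z₀
  refine (Finset.finite_toSet _).isCompact_biUnion fun c hc => ?_
  rw [Finset.mem_coe, Multiset.mem_toFinset, Polynomial.mem_roots (der_ne h)] at hc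
  have h1 : Tendsto (fun k : ℕ => (pm P)^[k] c) atTop (𝓝 z₀) := b.sub (h.crit c hc)
  exact h1.isCompact_insert_range

lemma count (h : HP n P z₀) : (KK P z₀).Countable := by
  rw [kk_eq h]
  refine Set.Countable.insert z₀ ?_
  refine (Finset.finite_toSet _).countable.biUnion fun c _ => ?_
  exact (countable_range _).insert z₀

end KKF_

theorem p_KKF : T_KKF := by
  intro n P z₀ h b
  have hsub : KK P z₀ ⊆ UU P z₀ := by
    intro z hz
    rcases hz with hz | ⟨c, k, hc, hz⟩
    · rw [hz]
      exact b.mem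
    · rw [hz]
      exact KKF_.iter_mem h b c hc k
  refine ⟨KKF_.cpt h b, hsub, ?_, ?_, ?_⟩
  · intro z hz
    rcases hz with hz | ⟨c, k, hc, hz⟩
    · refine Or.inl ?_
      rw [hz]
      exact h.fix
    · refine Or.inr ⟨c, k + 1, hc, ?_⟩
      rw [Function.iterate_succ_apply', hz]
  · have h1 : 1 < Module.rank ℝ ℂ := by
      rw [Complex.rank_real_complex]
      exact Cardinal.one_lt_two
    exact ((KKF_.count h).isPathConnected_compl_of_one_lt_rank h1).isConnected.isPreconnected
  · have h1 : Dense (KK P z₀)ᶜ := (KKF_.count h).dense_compl ℂ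
    obtain ⟨z, hz, hz'⟩ := h1.inter_open_nonempty _ b.opn ⟨z₀, b.mem⟩
    exact ⟨z, hz, hz'⟩

end Pool.Agent.BSL
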