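import Pool.Agent.BSL.Targets

set_option autoImplicit false

open Polynomial Metric Set Filter Topology

noncomputable section

namespace Pool.Agent.BSL

/-- continuous logarithms on the closed disk: compose with the radial retraction of the plane onto
the disk and lift through the exponential map -/
theorem p_LGB : T_LGB := by
  intro g hg hg0
  -- the retraction onto the closed disk
  set ρ : ℂ → ℂ := fun z => ((max 1 ‖z‖ : ℝ) : ℂ)⁻¹ * z with hρ
  have hm : ∀ z : ℂ, (0 : ℝ) < max 1 ‖z‖ := fun z => lt_of_lt_of_le one_pos (le_max_left _ _)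
  have hρc : Continuous ρ := by
    refine Continuous.mul (Continuous.inv₀ ?_ fun z => ?_) continuous_id
    · exact Complex.continuous_ofReal.comp (continuous_const.max continuous_norm)
    · exact_mod_cast (hm z).ne'
  have hρm : ∀ z : ℂ, ρ z ∈ closedBall (0 : ℂ) 1 := by
    intro z
    rw [mem_closedBall_zero_iff]
    show ‖((max 1 ‖z‖ : ℝ) : ℂ)⁻¹ * z‖ ≤ 1
    rw [norm_mul, norm_inv, Complex.norm_real, Real.norm_eq_abs, abs_of_pos (hm z),
      inv_mul_le_one₀ (hm z)]
    exact le_max_right _ _
  have hρi : ∀ z ∈ closedBall (0 : ℂ) 1, ρ z = z := by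
    intro z hz
    rw [mem_closedBall_zero_iff] at hz
    show ((max 1 ‖z‖ : ℝ) : ℂ)⁻¹ * z = z
    rw [max_eq_left hz]
    simp
  have hsc : IsSimplyConnected (univ : Set ℂ) := by
    have h1 : ContractibleSpace (univ : Set ℂ) :=
      (convex_univ (𝕜 := ℝ)).contractibleSpace univ_nonempty
    exact SimplyConnectedSpace.ofContractible _
  have hcont : ContinuousOn (fun z => g (ρ z)) univ := by
    exact (hg.comp_continuous hρc hρm).continuousOn
  obtain ⟨l, hl, he⟩ := Complex.exists_continuousOn_eqOn_exp_comp hsc isOpen_univ hcont (by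
    rintro ⟨z, -, hz⟩
    exact hg0 _ (hρm z) hz)
  refine ⟨l, hl.mono (subset_univ _), fun z hz => ?_⟩
  have h2 := he (mem_univ z)
  simp only [Function.comp_apply] at h2
  rw [h2, hρi z hz]

end Pool.Agent.BSL
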