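import Pool.Agent.BSL.Targets

/-!
# BSL: LIB (Lipschitz estimate for Blaschke products at the circle)
-/

set_option autoImplicit false

open Polynomial Metric Set Filter Topology

noncomputable section

namespace Pool.Agent.BSL

open Pool.Agent.MAT

namespace LIB_

lemma ident (a w : ℂ) :
    ‖1 - (starRingEnd ℂ) a * w‖ ^ 2 - ‖w - a‖ ^ 2 = (1 - ‖a‖ ^ 2) * (1 - ‖w‖ ^ 2) := by
  simp only [Complex.sq_norm, Complex.normSq_apply, Complex.sub_re, Complex.sub_im,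
    Complex.mul_re, Complex.mul_im, Complex.one_re, Complex.one_im, Complex.conj_re,
    Complex.conj_im]
  ring

lemma dlow (a w : ℂ) (hw : ‖w‖ ≤ 1) : 1 - ‖a‖ ≤ ‖1 - (starRingEnd ℂ) a * w‖ := by
  have h1 : ‖(1 : ℂ)‖ - ‖(starRingEnd ℂ) a * w‖ ≤ ‖1 - (starRingEnd ℂ) a * w‖ :=
    norm_sub_norm_le _ _
  have h2 : ‖(starRingEnd ℂ) a * w‖ ≤ ‖a‖ := by
    rw [norm_mul, RCLike.norm_conj]
    calc ‖a‖ * ‖w‖ ≤ ‖a‖ * 1 := mul_le_mul_of_nonneg_left hw (norm_nonneg _)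
      _ = ‖a‖ := mul_one _
  rw [norm_one] at h1
  linarith

lemma key (a w : ℂ) (ha : ‖a‖ < 1) (hw : ‖w‖ ≤ 1) :
    ‖(w - a) / (1 - (starRingEnd ℂ) a * w)‖ ≤ 1 ∧
    1 - ‖(w - a) / (1 - (starRingEnd ℂ) a * w)‖ ≤ 2 / (1 - ‖a‖) ^ 2 * (1 - ‖w‖) := by
  have hd := dlow a w hw
  have hi := ident a w
  rw [norm_div]
  set d := ‖1 - (starRingEnd ℂ) a * w‖ with hdd
  set e := ‖w - a‖ with hee
  have he : 0 ≤ e := norm_nonneg _
  have ha0 : 0 ≤ ‖a‖ := norm_nonneg _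
  have hw0 : 0 ≤ ‖w‖ := norm_nonneg _
  have hd0 : 0 < d := by linarith
  have hpos : 0 ≤ (1 - ‖a‖ ^ 2) * (1 - ‖w‖ ^ 2) :=
    mul_nonneg (by nlinarith) (by nlinarith)
  have hed : e ≤ d := by
    by_contra hcon
    push Not at hcon
    nlinarith
  refine ⟨(div_le_one hd0).2 hed, ?_⟩
  have hup : (1 - ‖a‖ ^ 2) * (1 - ‖w‖ ^ 2) ≤ 2 * (1 - ‖w‖) := by
    have h1 : 1 - ‖w‖ ^ 2 ≤ 2 * (1 - ‖w‖) := by nlinarith [sq_nonneg (1 - ‖w‖)]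
    have h2 : (1 - ‖a‖ ^ 2) * (1 - ‖w‖ ^ 2) ≤ 1 * (1 - ‖w‖ ^ 2) :=
      mul_le_mul_of_nonneg_right (by nlinarith) (by nlinarith)
    linarith
  have hA : 0 < (1 - ‖a‖) ^ 2 := by
    have : 0 < 1 - ‖a‖ := by linarith
    positivity
  have hdA : (1 - ‖a‖) ^ 2 ≤ d ^ 2 := by
    apply pow_le_pow_left₀ (by linarith) hd
  have h3 : d ^ 2 - e * d ≤ 2 * (1 - ‖w‖) := by nlinarith
  have h4 : 1 - e / d ≤ 2 * (1 - ‖w‖) / d ^ 2 := by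
    rw [le_div_iff₀ (by positivity)]
    have : (1 - e / d) * d ^ 2 = d ^ 2 - e * d := by
      field_simp
    rw [this]; exact h3
  have h5 : 2 * (1 - ‖w‖) / d ^ 2 ≤ 2 * (1 - ‖w‖) / (1 - ‖a‖) ^ 2 :=
    div_le_div_of_nonneg_left (by linarith) hA hdA
  calc 1 - e / d ≤ 2 * (1 - ‖w‖) / (1 - ‖a‖) ^ 2 := h4.trans h5
    _ = 2 / (1 - ‖a‖) ^ 2 * (1 - ‖w‖) := by ring

lemma prodle {ι : Type} (s : Finset ι) (t : ι → ℝ) (h0 : ∀ i ∈ s, 0 ≤ t i)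
    (h1 : ∀ i ∈ s, t i ≤ 1) :
    (0 ≤ ∏ i ∈ s, t i ∧ ∏ i ∈ s, t i ≤ 1) ∧ 1 - ∏ i ∈ s, t i ≤ ∑ i ∈ s, (1 - t i) := by
  classical
  induction s using Finset.induction_on with
  | empty => simp
  | insert a s ha ih =>
    obtain ⟨⟨i1, i2⟩, i3⟩ := ih (fun i hi => h0 i (Finset.mem_insert_of_mem hi))
      (fun i hi => h1 i (Finset.mem_insert_of_mem hi))
    rw [Finset.prod_insert ha, Finset.sum_insert ha]
    have a0 := h0 a (Finset.mem_insert_self _ _)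
    have a1 := h1 a (Finset.mem_insert_self _ _)
    refine ⟨⟨mul_nonneg a0 i1, ?_⟩, ?_⟩
    · nlinarith
    · nlinarith

end LIB_

/-- LIB -/
theorem p_LIB : T_LIB := by
  intro n B hB
  obtain ⟨c, α, hc, hα, -, hBf⟩ := hB
  have hK : ∀ i, 0 ≤ 2 / (1 - ‖α i‖) ^ 2 := fun i => by positivity
  refine ⟨2 + ∑ i, 2 / (1 - ‖α i‖) ^ 2, ?_, ?_⟩
  · have : 0 ≤ ∑ i, 2 / (1 - ‖α i‖) ^ 2 := Finset.sum_nonneg fun i _ => hK i
    linarith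
  · intro w hw
    have hw1 : ‖w‖ ≤ 1 := by simpa using hw
    rw [hBf w hw, norm_mul, hc, one_mul, norm_prod]
    have h := LIB_.prodle Finset.univ
      (fun i => ‖(w - α i) / (1 - (starRingEnd ℂ) (α i) * w)‖)
      (fun i _ => norm_nonneg _) (fun i _ => (LIB_.key (α i) w (hα i) hw1).1)
    have h2 : ∑ i, (1 - ‖(w - α i) / (1 - (starRingEnd ℂ) (α i) * w)‖) ≤
        ∑ i, 2 / (1 - ‖α i‖) ^ 2 * (1 - ‖w‖) :=
      Finset.sum_le_sum fun i _ => (LIB_.key (α i) w (hα i) hw1).2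
    rw [← Finset.sum_mul] at h2
    have h3 : 0 ≤ 1 - ‖w‖ := by linarith
    have := h.2
    nlinarith

end Pool.Agent.BSL
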