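import Pool.Agent.BSL.Targets

/-!
# BSL: target MON
-/

set_option autoImplicit false

noncomputable section

namespace Pool.Agent.BSL

theorem p_MON : T_MON := by
  intro n b γ κ C j hn hκ hb hγ hsemi
  have hκ0 : 0 < κ := by linarith
  have hnR : (1 : ℝ) ≤ n := by exact_mod_cast hn
  -- iterates
  have hmono : ∀ x y : ℝ, x ≤ y → b x ≤ b y := by
    intro x y h
    have := hb x y h
    have h2 : 0 ≤ κ * (y - x) := mul_nonneg hκ0.le (by linarith)
    linarith
  have key : ∀ (m : ℕ) (x y : ℝ), x ≤ y →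
      κ ^ m * (y - x) ≤ b^[m] y - b^[m] x ∧
      (b^[m] y - γ (b^[m] y)) - (b^[m] x - γ (b^[m] x)) = (n : ℝ) ^ m * ((y - γ y) - (x - γ x)) := by
    intro m
    induction m with
    | zero => intro x y _; simp
    | succ m ih =>
      intro x y hxy
      have h1 := ih (b x) (b y) (hmono x y hxy)
      rw [Function.iterate_succ_apply, Function.iterate_succ_apply]
      refine ⟨?_, ?_⟩
      · have h3 : κ ^ (m + 1) * (y - x) ≤ κ ^ m * (b y - b x) := by
          rw [pow_succ, mul_assoc]
          exact mul_le_mul_of_nonneg_left (hb x y hxy) (pow_nonneg hκ0.le m)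
        linarith [h1.1]
      · rw [h1.2, hsemi x, hsemi y]
        ring
  intro x y hxy
  show x - γ x < y - γ y
  have hpos : 0 < y - x := by linarith
  obtain ⟨m, hm⟩ : ∃ m : ℕ, 2 * C < κ ^ m * (y - x) := by
    obtain ⟨m, hm⟩ := pow_unbounded_of_one_lt (2 * C / (y - x)) hκ
    exact ⟨m, by rwa [div_lt_iff₀ hpos] at hm⟩
  obtain ⟨h1, h2⟩ := key m x y hxy.le
  have h3 : 0 < (n : ℝ) ^ m * ((y - γ y) - (x - γ x)) := by
    rw [← h2]
    have e1 := abs_le.mp (hγ (b^[m] y))
    have e2 := abs_le.mp (hγ (b^[m] x))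
    linarith [e1.1, e1.2, e2.1, e2.2]
  have h4 : 0 < (n : ℝ) ^ m := by positivity
  have h5 : 0 < (y - γ y) - (x - γ x) := by
    by_contra h
    push Not at h
    have := mul_nonpos_of_nonneg_of_nonpos h4.le h
    linarith
  linarith

end Pool.Agent.BSL
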