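import Pool.Agent.BSL.Targets

/-!
# BSL: the inverse Böttcher coordinate near the circle
-/

set_option autoImplicit false

open Polynomial Metric Set Filter Topology

noncomputable section

namespace Pool.Agent.BSL

open Pool.Agent.MAT

theorem p_NRO : T_NRO := by
  intro n P z₀ R φ hC hO δ hδ
  by_contra hcon
  push Not at hcon
  obtain ⟨ρ0, M, hρ0, hρ1, hM⟩ := hO.bdd
  have hseq : ∀ k : ℕ, ∃ ζ : ℂ, max ρ0 (1 - 1 / ((k : ℝ) + 2)) ≤ ‖ζ‖ ∧ ‖ζ‖ < 1 ∧
      ∀ x ∈ XX P z₀, δ ≤ ‖φ ζ - x‖ := by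
    intro k
    have hk : (0 : ℝ) < 1 / ((k : ℝ) + 2) := by positivity
    exact hcon _ (lt_of_lt_of_le hρ0 (le_max_left _ _)) (max_lt hρ1 (by linarith))
  choose ζ h1 h2 h3 using hseq
  have hζ0 : ∀ k, ζ k ∈ ball (0 : ℂ) 1 \ {0} := by
    intro k
    refine ⟨by rw [mem_ball_zero_iff]; exact h2 k, ?_⟩
    intro h
    rw [mem_singleton_iff] at h
    have := h1 k
    rw [h, norm_zero] at this
    linarith [le_max_left ρ0 (1 - 1 / ((k : ℝ) + 2))]
  have hOm : ∀ k, φ (ζ k) ∈ Om P := fun k => by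
    rw [← hO.img]
    exact mem_image_of_mem _ (hζ0 k)
  have hbd : ∀ k, φ (ζ k) ∈ closedBall (0 : ℂ) M := fun k => by
    rw [mem_closedBall_zero_iff]
    exact hM _ ((le_max_left _ _).trans (h1 k)) (h2 k)
  obtain ⟨z, -, σ, hσ, hlim⟩ := (isCompact_closedBall (0 : ℂ) M).tendsto_subseq hbd
  have hzcl : z ∈ closure (Om P) := mem_closure_of_tendsto hlim (Eventually.of_forall fun k => hOm _)
  have hn1 : Tendsto (fun k => ‖ζ (σ k)‖) atTop (𝓝 1) := by
    have h4 : Tendsto (fun k : ℕ => ‖ζ k‖) atTop (𝓝 1) := by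
      have h5 : Tendsto (fun k : ℕ => (1 : ℝ) - 1 / ((k : ℝ) + 2)) atTop (𝓝 (1 - 0)) := by
        refine tendsto_const_nhds.sub ?_
        have h6 := (tendsto_one_div_add_atTop_nhds_zero_nat (𝕜 := ℝ)).comp (tendsto_add_atTop_nat 1)
        refine h6.congr fun k => ?_
        simp only [Function.comp_apply]
        push_cast
        congr 1
        ring
      rw [sub_zero] at h5
      exact tendsto_of_tendsto_of_tendsto_of_le_of_le h5 tendsto_const_nhds
        (fun k => (le_max_right _ _).trans (h1 k)) (fun k => (h2 k).le)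
    exact h4.comp hσ.tendsto_atTop
  rcases hC.xf.clO hzcl with hzO | hzX
  · rw [← hO.img] at hzO
    obtain ⟨ζ', hζ', hz⟩ := hzO
    have hopen : IsOpen (ball (0 : ℂ) 1 \ {0}) := isOpen_ball.sdiff isClosed_singleton
    have han : AnalyticAt ℂ φ ζ' := hO.hol.analyticAt (hopen.mem_nhds hζ')
    have hmap : 𝓝 (φ ζ') ≤ Filter.map φ (𝓝 ζ') := by
      rcases han.eventually_constant_or_nhds_le_map_nhds with hc | hc
      · exfalso
        have h7 : ∀ᶠ w in 𝓝[≠] ζ', φ w = φ ζ' ∧ w ∈ ball (0 : ℂ) 1 \ {0} :=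
          (hc.and (hopen.mem_nhds hζ')).filter_mono nhdsWithin_le_nhds
        obtain ⟨w, hw, hwne⟩ := (h7.and self_mem_nhdsWithin).exists
        exact hwne (hO.inj hw.2 hζ' hw.1)
      · exact hc
    rw [hz] at hmap
    have hζ'1 : ‖ζ'‖ < 1 := by
      have := hζ'.1
      rwa [mem_ball_zero_iff] at this
    set r := (1 + ‖ζ'‖) / 2 with hr
    have hrn : {w : ℂ | ‖w‖ < r} ∩ (ball (0 : ℂ) 1 \ {0}) ∈ 𝓝 ζ' := by
      refine Filter.inter_mem ?_ (hopen.mem_nhds hζ')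
      exact (isOpen_lt continuous_norm continuous_const).mem_nhds (by
        change ‖ζ'‖ < r
        rw [hr]
        linarith)
    have himg := hmap (Filter.image_mem_map hrn)
    have hev : ∀ᶠ k in atTop, φ (ζ (σ k)) ∈
        φ '' ({w : ℂ | ‖w‖ < r} ∩ (ball (0 : ℂ) 1 \ {0})) := hlim.eventually_mem himg
    have hev2 : ∀ᶠ k in atTop, r < ‖ζ (σ k)‖ :=
      hn1.eventually (lt_mem_nhds (by rw [hr]; linarith))
    obtain ⟨k, ⟨w, hw, hwe⟩, hk2⟩ := (hev.and hev2).exists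
    have hwk : w = ζ (σ k) := hO.inj hw.2 (hζ0 _) hwe
    rw [hwk] at hw
    exact lt_asymm hk2 hw.1
  · have hev : ∀ᶠ k in atTop, ‖φ (ζ (σ k)) - z‖ < δ := by
      have := (tendsto_iff_norm_sub_tendsto_zero.1 hlim).eventually (gt_mem_nhds hδ)
      exact this
    obtain ⟨k, hk⟩ := hev.exists
    exact absurd (h3 (σ k) z hzX) (not_le.2 hk)

end Pool.Agent.BSL
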