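import Pool.Agent.BSL.Targets

/-!
# BSL: the Riemann map of the immediate basin is close to `X` near the circle
-/

set_option autoImplicit false

open Polynomial Metric Set Filter Topology

noncomputable section

namespace Pool.Agent.BSL

open Pool.Agent.MAT

/-- Target NRS. -/
theorem p_NRS : T_NRS := by
  intro n P z₀ R ψ h hC hR δ hδ
  have hcl : closure (UU P z₀) ⊆ UU P z₀ ∪ XX P z₀ := hC.xf.clU
  set D : Set ℂ := closure (UU P z₀) ∩ {z | δ ≤ infDist z (XX P z₀)} with hD
  have hDU : D ⊆ UU P z₀ := by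
    rintro z ⟨hz1, hz2⟩
    rcases hcl hz1 with h1 | h1
    · exact h1
    · exfalso
      have h2 : infDist z (XX P z₀) = 0 := infDist_zero_of_mem h1
      have h3 : δ ≤ infDist z (XX P z₀) := hz2
      linarith
  have hUb : UU P z₀ ⊆ closedBall 0 R := by
    intro z hz
    rw [mem_closedBall_zero_iff]
    by_contra hlt
    have h1 : z ∈ Om P := (hC.om.iff z).2 ⟨0, (not_le.1 hlt).le⟩
    exact (Set.disjoint_left.1 hC.xf.disj) hz h1
  have hDc : IsCompact D := by
    refine Metric.isCompact_of_isClosed_isBounded ?_ ?_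
    · exact isClosed_closure.inter (isClosed_le continuous_const (continuous_infDist_pt _))
    · exact (isBounded_closedBall (x := (0 : ℂ)) (r := R)).subset (hDU.trans hUb)
  have hcont : ContinuousOn (fun z => ‖h z‖) D :=
    ((hR.hhol.continuousOn).mono hDU).norm
  obtain ⟨r, hr0, hr1, hr⟩ : ∃ r : ℝ, 0 ≤ r ∧ r < 1 ∧ ∀ z ∈ D, ‖h z‖ ≤ r := by
    rcases D.eq_empty_or_nonempty with he | hne
    · refine ⟨0, le_rfl, zero_lt_one, fun z hz => ?_⟩
      rw [he] at hz
      exact absurd hz (Set.notMem_empty z)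
    · obtain ⟨z₁, hz₁, hmax⟩ := hDc.exists_isMaxOn hne hcont
      have h1 := hR.hmem z₁ (hDU hz₁)
      rw [mem_ball_zero_iff] at h1
      exact ⟨‖h z₁‖, norm_nonneg _, h1, fun z hz => hmax hz⟩
  refine ⟨(1 + r) / 2, by linarith, by linarith, ?_⟩
  intro w hw1 hw2
  have hwb : w ∈ ball (0 : ℂ) 1 := mem_ball_zero_iff.2 hw2
  have hψU : ψ w ∈ UU P z₀ := by
    rw [← hR.img]
    exact mem_image_of_mem ψ hwb
  have hlt : infDist (ψ w) (XX P z₀) < δ := by
    by_contra hge
    have h1 : ψ w ∈ D := ⟨subset_closure hψU, not_lt.1 hge⟩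
    have h2 := hr _ h1
    rw [hR.hψ w hwb] at h2
    linarith
  obtain ⟨x, hx, hxd⟩ := (infDist_lt_iff hC.xf.non).1 hlt
  refine ⟨x, hx, ?_⟩
  rwa [← dist_eq_norm]

end Pool.Agent.BSL
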