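import Pool.Agent.BSL.Targets

/-!
# BSL: the inverse Boettcher coordinate on the punctured disk
-/

set_option autoImplicit false

open Polynomial Metric Set Filter Topology

noncomputable section

namespace Pool.Agent.BSL

open Pool.Agent.MAT

namespace OBX_

lemma per_nat {F : ℂ → ℂ}
    (h : ∀ s : ℂ, s.re < 0 → F (s + 2 * Real.pi * Complex.I) = F s) (k : ℕ) :
    ∀ s : ℂ, s.re < 0 → F (s + k * (2 * Real.pi * Complex.I)) = F s := by
  induction k with
  | zero =>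
    intro s _
    simp
  | succ k ih =>
    intro s hs
    have h1 : s + ((k + 1 : ℕ) : ℂ) * (2 * Real.pi * Complex.I) =
        (s + k * (2 * Real.pi * Complex.I)) + 2 * Real.pi * Complex.I := by
      push_cast
      ring
    have h2 : (s + k * (2 * Real.pi * Complex.I)).re < 0 := by
      have h3 : (s + k * (2 * Real.pi * Complex.I)).re = s.re := by simp
      rw [h3]
      exact hs
    rw [h1, h _ h2, ih s hs]

lemma per_int {F : ℂ → ℂ}
    (h : ∀ s : ℂ, s.re < 0 → F (s + 2 * Real.pi * Complex.I) = F s) (k : ℤ) (s : ℂ)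
    (hs : s.re < 0) : F (s + k * (2 * Real.pi * Complex.I)) = F s := by
  obtain ⟨m, rfl | rfl⟩ := k.eq_nat_or_neg
  · simpa using per_nat h m s hs
  · have h2 : (s + ((-(m : ℤ) : ℤ) : ℂ) * (2 * Real.pi * Complex.I)).re < 0 := by
      have h3 : (s + ((-(m : ℤ) : ℤ) : ℂ) * (2 * Real.pi * Complex.I)).re = s.re := by simp
      rw [h3]
      exact hs
    have h4 := per_nat h m _ h2
    have h5 : s + ((-(m : ℤ) : ℤ) : ℂ) * (2 * Real.pi * Complex.I) +
        m * (2 * Real.pi * Complex.I) = s := by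
      push_cast
      ring
    rw [h5] at h4
    exact h4.symm

lemma log_exp {F : ℂ → ℂ}
    (h : ∀ s : ℂ, s.re < 0 → F (s + 2 * Real.pi * Complex.I) = F s) (s : ℂ) (hs : s.re < 0) :
    F (Complex.log (Complex.exp s)) = F s := by
  have h1 : Complex.exp (Complex.log (Complex.exp s)) = Complex.exp s :=
    Complex.exp_log (Complex.exp_ne_zero s)
  obtain ⟨k, hk⟩ := Complex.exp_eq_exp_iff_exists_int.1 h1
  rw [hk]
  exact per_int h k s hs

lemma mem_iff (ζ : ℂ) : ζ ∈ ball (0 : ℂ) 1 \ {0} ↔ ‖ζ‖ < 1 ∧ ζ ≠ 0 := by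
  rw [Set.mem_sdiff, mem_ball_zero_iff, mem_singleton_iff]

lemma log_re_neg {ζ : ℂ} (h1 : ‖ζ‖ < 1) (h0 : ζ ≠ 0) : (Complex.log ζ).re < 0 := by
  rw [Complex.log_re]
  exact Real.log_neg (norm_pos_iff.2 h0) h1

lemma diff_aux {F : ℂ → ℂ} (hF : DifferentiableOn ℂ F {s | s.re < 0})
    (h : ∀ s : ℂ, s.re < 0 → F (s + 2 * Real.pi * Complex.I) = F s) (c a ζ₀ : ℂ)
    (hc : c.re = 0) (ha : Complex.exp c * a = 1) (h1 : ‖ζ₀‖ < 1) (h0 : ζ₀ ≠ 0)
    (hs : a * ζ₀ ∈ Complex.slitPlane) :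
    DifferentiableAt ℂ (fun ζ => F (Complex.log ζ)) ζ₀ := by
  have ha0 : a ≠ 0 := right_ne_zero_of_mul (ha.trans_ne one_ne_zero)
  have hna : ‖a‖ = 1 := by
    have h2 := congrArg norm ha
    rw [norm_mul, Complex.norm_exp, hc, Real.exp_zero, one_mul, norm_one] at h2
    exact h2
  have hre : ∀ ζ : ℂ, ‖ζ‖ < 1 → ζ ≠ 0 → (Complex.log (a * ζ) + c).re < 0 := by
    intro ζ h3 h4
    rw [Complex.add_re, hc, add_zero]
    refine log_re_neg ?_ (mul_ne_zero ha0 h4)
    rw [norm_mul, hna, one_mul]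
    exact h3
  have hopen : IsOpen {s : ℂ | s.re < 0} := isOpen_lt Complex.continuous_re continuous_const
  have h5 : DifferentiableAt ℂ (fun ζ => F (Complex.log (a * ζ) + c)) ζ₀ := by
    have h6 : DifferentiableAt ℂ F (Complex.log (a * ζ₀) + c) :=
      hF.differentiableAt (hopen.mem_nhds (hre ζ₀ h1 h0))
    have h7 : DifferentiableAt ℂ (fun ζ : ℂ => Complex.log (a * ζ) + c) ζ₀ :=
      (((differentiableAt_id.const_mul a).clog hs).add_const c)
    exact DifferentiableAt.comp (g := F) ζ₀ h6 h7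
  refine h5.congr_of_eventuallyEq ?_
  have h8 : {ζ : ℂ | ‖ζ‖ < 1 ∧ ζ ≠ 0} ∈ 𝓝 ζ₀ := by
    refine IsOpen.mem_nhds ?_ ⟨h1, h0⟩
    exact (isOpen_lt continuous_norm continuous_const).inter isOpen_ne
  filter_upwards [h8] with ζ hζ
  have h9 : Complex.exp (Complex.log (a * ζ) + c) = ζ := by
    rw [Complex.exp_add, Complex.exp_log (mul_ne_zero ha0 hζ.2)]
    calc a * ζ * Complex.exp c = (Complex.exp c * a) * ζ := by ring
      _ = ζ := by rw [ha, one_mul]
  have h10 := log_exp h _ (hre ζ hζ.1 hζ.2)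
  rw [h9] at h10
  exact h10

end OBX_

open OBX_ in
theorem p_OBX : T_OBX := by
  intro n P F hn hF
  refine ⟨fun ζ => F (Complex.log ζ), ?_, ?_, ?_, ?_, ?_, ?_⟩
  · intro ζ hζ
    obtain ⟨h1, h0⟩ := (mem_iff ζ).1 hζ
    refine DifferentiableAt.differentiableWithinAt ?_
    by_cases hs : ζ ∈ Complex.slitPlane
    · refine diff_aux hF.hol hF.per 0 1 ζ rfl (by simp) h1 h0 ?_
      rw [one_mul]
      exact hs
    · refine diff_aux hF.hol hF.per (Real.pi * Complex.I) (-1) ζ (by simp) (by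
        rw [Complex.exp_pi_mul_I]
        norm_num) h1 h0 ?_
      rw [Complex.mem_slitPlane_iff] at hs ⊢
      push Not at hs
      left
      have h3 : ζ.re ≠ 0 := by
        intro h4
        exact h0 (Complex.ext h4 hs.2)
      have h5 : ((-1 : ℂ) * ζ).re = -ζ.re := by simp
      rw [h5]
      have h6 := lt_of_le_of_ne hs.1 h3
      linarith
  · intro ζ hζ ξ hξ h
    obtain ⟨h1, h0⟩ := (mem_iff ζ).1 hζ
    obtain ⟨h1', h0'⟩ := (mem_iff ξ).1 hξ
    obtain ⟨k, hk⟩ := hF.inj _ _ (log_re_neg h1 h0) (log_re_neg h1' h0') h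
    have h2 : Complex.exp (Complex.log ξ) = Complex.exp (Complex.log ζ) :=
      Complex.exp_eq_exp_iff_exists_int.2 ⟨k, hk⟩
    rw [Complex.exp_log h0', Complex.exp_log h0] at h2
    exact h2.symm
  · rw [← hF.img]
    ext z
    constructor
    · rintro ⟨ζ, hζ, rfl⟩
      obtain ⟨h1, h0⟩ := (mem_iff ζ).1 hζ
      exact ⟨_, log_re_neg h1 h0, rfl⟩
    · rintro ⟨s, hs, rfl⟩
      refine ⟨Complex.exp s, (mem_iff _).2 ⟨?_, Complex.exp_ne_zero s⟩, log_exp hF.per s hs⟩
      rw [Complex.norm_exp]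
      exact Real.exp_lt_one_iff.2 hs
  · intro ζ hζ
    obtain ⟨h1, h0⟩ := (mem_iff ζ).1 hζ
    have h2 := log_re_neg h1 h0
    have h3 : ((n : ℂ) * Complex.log ζ).re < 0 := by
      have h4 : ((n : ℂ) * Complex.log ζ).re = n * (Complex.log ζ).re := by simp
      rw [h4]
      have h5 : (0 : ℝ) < n := by
        have : 0 < n := by omega
        exact_mod_cast this
      exact mul_neg_of_pos_of_neg h5 h2
    have h6 := log_exp hF.per _ h3
    rw [Complex.exp_nat_mul, Complex.exp_log h0] at h6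
    change pm P (F (Complex.log ζ)) = F (Complex.log (ζ ^ n))
    rw [h6, hF.conj _ h2]
  · rw [Filter.tendsto_atTop]
    intro M
    obtain ⟨L', hL'⟩ := hF.inf M
    have h1 : ball (0 : ℂ) (min 1 (Real.exp (-L'))) ∈ 𝓝[≠] (0 : ℂ) :=
      mem_nhdsWithin_of_mem_nhds (ball_mem_nhds _ (lt_min one_pos (Real.exp_pos _)))
    filter_upwards [h1, self_mem_nhdsWithin] with ζ hζ h0
    rw [mem_ball_zero_iff, lt_min_iff] at hζ
    have h0' : ζ ≠ 0 := h0
    refine (hL' _ ?_ (log_re_neg hζ.1 h0')).le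
    rw [Complex.log_re]
    exact (Real.log_lt_iff_lt_exp (norm_pos_iff.2 h0')).2 hζ.2
  · obtain ⟨L, M, hL, hM⟩ := hF.bdd
    refine ⟨Real.exp (-L), M, Real.exp_pos _, Real.exp_lt_one_iff.2 (by linarith), fun ζ h1 h2 => ?_⟩
    have h0 : ζ ≠ 0 := by
      rintro rfl
      rw [norm_zero] at h1
      exact absurd h1 (not_le.2 (Real.exp_pos _))
    refine hM _ ?_ (log_re_neg h2 h0)
    rw [Complex.log_re]
    exact (Real.le_log_iff_exp_le (norm_pos_iff.2 h0)).2 h1

end Pool.Agent.BSL
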