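import Pool.Agent.BSL.Targets
import Pool.Agent.MAT.P_INVH

/-!
# BSL, target PHE: the extension of the inverse Böttcher coordinate to the closed disk
-/

set_option autoImplicit false

open Polynomial Metric Set Filter Topology

noncomputable section

namespace Pool.Agent.BSL

open Pool.Agent.MAT

private lemma PHE_open : IsOpen (ball (0 : ℂ) 1 \ {0}) :=
  isOpen_ball.sdiff isClosed_singleton

private lemma PHE_pm (P : ℂ[X]) : Continuous (pm P) := P.continuous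

/-- the radial limit -/
private lemma PHE_rad (ζ : ℂ) : Tendsto (fun r : ℝ => (r : ℂ) * ζ) (𝓝[<] 1) (𝓝 ζ) := by
  have h : Continuous fun r : ℝ => (r : ℂ) * ζ := by fun_prop
  have h1 := h.tendsto 1
  simp only [Complex.ofReal_one, one_mul] at h1
  exact h1.mono_left nhdsWithin_le_nhds

private lemma PHE_ev (ζ : ℂ) (hζ : ‖ζ‖ = 1) : ∀ᶠ r : ℝ in 𝓝[<] 1, (r : ℂ) * ζ ∈
    ball (0 : ℂ) 1 \ {0} := by
  have h0 : ∀ᶠ r : ℝ in 𝓝[<] 1, (0 : ℝ) < r :=
    nhdsWithin_le_nhds (lt_mem_nhds (by norm_num : (0 : ℝ) < 1))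
  filter_upwards [self_mem_nhdsWithin, h0] with r hr hr0
  have hn : ‖(r : ℂ) * ζ‖ = r := by
    rw [norm_mul, hζ, mul_one, Complex.norm_real, Real.norm_of_nonneg hr0.le]
  refine ⟨?_, ?_⟩
  · rw [mem_ball_zero_iff, hn]
    exact hr
  · rw [mem_singleton_iff, ← norm_eq_zero, hn]
    exact hr0.ne'

/-- PHE -/
theorem p_PHE (hH : T_HOE) : T_PHE := by
  intro n P z₀ R φ ρ C α hc ho hρ hρ1 hα hd hX
  classical
  have hn : 2 ≤ n := hc.hp.hn
  have hn0 : n ≠ 0 := by omega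
  have hdf : DifferentiableOn ℂ φ {w | ρ < ‖w‖ ∧ ‖w‖ < 1} := by
    refine ho.hol.mono ?_
    rintro w ⟨h1, h2⟩
    refine ⟨mem_ball_zero_iff.2 h2, ?_⟩
    rw [mem_singleton_iff, ← norm_eq_zero]
    exact (hρ.trans_lt h1).ne'
  obtain ⟨g, hg, hgφ⟩ := hH φ ρ C α hρ hρ1 hα hdf hd
  set φ' : ℂ → ℂ := fun ζ => if ‖ζ‖ < 1 then φ ζ else g ζ with hφ'
  have hin : ∀ ζ : ℂ, ‖ζ‖ < 1 → φ' ζ = φ ζ := fun ζ h => if_pos h
  have hball : ∀ ζ ∈ ball (0 : ℂ) 1 \ {0}, φ' ζ = φ ζ :=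
    fun ζ h => hin ζ (mem_ball_zero_iff.1 h.1)
  have hann : ∀ ζ ∈ {w : ℂ | ρ < ‖w‖ ∧ ‖w‖ ≤ 1}, φ' ζ = g ζ := by
    rintro ζ ⟨h1, h2⟩
    by_cases h : ‖ζ‖ < 1
    · rw [hin ζ h, hgφ ζ h1 h]
    · exact if_neg h
  -- continuity
  have hcont : ContinuousOn φ' (closedBall 0 1 \ {0}) := by
    intro ζ hζ
    have hζ1 : ‖ζ‖ ≤ 1 := mem_closedBall_zero_iff.1 hζ.1
    rcases lt_or_eq_of_le hζ1 with h | h
    · have hζ' : ζ ∈ ball (0 : ℂ) 1 \ {0} := ⟨mem_ball_zero_iff.2 h, hζ.2⟩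
      have h1 : ContinuousAt φ ζ :=
        (ho.hol.differentiableAt (PHE_open.mem_nhds hζ')).continuousAt
      have h2 : φ =ᶠ[𝓝 ζ] φ' := by
        filter_upwards [PHE_open.mem_nhds hζ'] with w hw
        exact (hball w hw).symm
      exact (h1.congr h2).continuousWithinAt
    · have h1 : ContinuousWithinAt φ' {w : ℂ | ρ < ‖w‖ ∧ ‖w‖ ≤ 1} ζ :=
        (hg.congr hann) ζ ⟨by rw [h]; exact hρ1, hζ1⟩
      refine h1.mono_of_mem_nhdsWithin ?_
      have h2 : {w : ℂ | ρ < ‖w‖} ∈ 𝓝 ζ :=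
        (isOpen_lt continuous_const continuous_norm).mem_nhds (by
          change ρ < ‖ζ‖
          rw [h]; exact hρ1)
      filter_upwards [mem_nhdsWithin_of_mem_nhds h2, self_mem_nhdsWithin] with w hw hw'
      exact ⟨hw, mem_closedBall_zero_iff.1 hw'.1⟩
  have hrad : ∀ ζ : ℂ, ‖ζ‖ = 1 →
      Tendsto (fun r : ℝ => φ ((r : ℂ) * ζ)) (𝓝[<] 1) (𝓝 (φ' ζ)) := by
    intro ζ hζ
    have hmem : ζ ∈ closedBall (0 : ℂ) 1 \ {0} := by
      refine ⟨mem_closedBall_zero_iff.2 hζ.le, ?_⟩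
      rw [mem_singleton_iff, ← norm_eq_zero, hζ]
      exact one_ne_zero
    have h1 : Tendsto (fun r : ℝ => (r : ℂ) * ζ) (𝓝[<] 1)
        (𝓝[closedBall (0 : ℂ) 1 \ {0}] ζ) := by
      refine tendsto_nhdsWithin_iff.2 ⟨PHE_rad ζ, ?_⟩
      filter_upwards [PHE_ev ζ hζ] with r hr
      exact ⟨ball_subset_closedBall hr.1, hr.2⟩
    have h2 : Tendsto (fun r : ℝ => φ' ((r : ℂ) * ζ)) (𝓝[<] 1) (𝓝 (φ' ζ)) :=
      (hcont ζ hmem).tendsto.comp h1
    refine h2.congr' ?_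
    filter_upwards [PHE_ev ζ hζ] with r hr
    exact hball _ hr
  have hOm : ∀ ζ ∈ ball (0 : ℂ) 1 \ {0}, φ ζ ∈ Om P := by
    intro ζ hζ
    rw [← ho.img]
    exact mem_image_of_mem φ hζ
  obtain ⟨hop, h, hh, hhφ, -⟩ := p_INVH (ball (0 : ℂ) 1 \ {0}) φ PHE_open ho.hol ho.inj
  -- boundary values are not in the basin of infinity
  have hnot : ∀ ζ : ℂ, ‖ζ‖ = 1 → φ' ζ ∉ Om P := by
    intro ζ hζ hmem
    rw [← ho.img] at hmem
    obtain ⟨ζ', hζ', hE⟩ := hmem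
    have h1 : ContinuousAt h (φ' ζ) := by
      rw [← hE]
      exact (hh.differentiableAt (hop.mem_nhds (mem_image_of_mem φ hζ'))).continuousAt
    have h2 : Tendsto (fun r : ℝ => h (φ ((r : ℂ) * ζ))) (𝓝[<] 1) (𝓝 (h (φ' ζ))) :=
      h1.tendsto.comp (hrad ζ hζ)
    have h3 : Tendsto (fun r : ℝ => (r : ℂ) * ζ) (𝓝[<] 1) (𝓝 (h (φ' ζ))) := by
      refine h2.congr' ?_
      filter_upwards [PHE_ev ζ hζ] with r hr
      exact hhφ _ hr
    have h4 : ζ = h (φ' ζ) := tendsto_nhds_unique (PHE_rad ζ) h3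
    rw [← hE, hhφ ζ' hζ'] at h4
    have h5 := mem_ball_zero_iff.1 hζ'.1
    rw [← h4, hζ] at h5
    exact lt_irrefl _ h5
  refine ⟨φ', hcont, ho.hol.congr hball, ?_, ?_, ?_, ?_, ?_⟩
  · intro a ha b hb hab
    rw [hball a ha, hball b hb] at hab
    exact ho.inj ha hb hab
  · rw [← ho.img]
    exact image_congr hball
  · apply Subset.antisymm
    · rintro _ ⟨ζ, hζ, rfl⟩
      have hζ1 : ‖ζ‖ = 1 := mem_sphere_zero_iff_norm.1 hζ
      have hcl : φ' ζ ∈ closure (Om P) := by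
        refine mem_closure_of_tendsto (hrad ζ hζ1) ?_
        filter_upwards [PHE_ev ζ hζ1] with r hr
        exact hOm _ hr
      rcases hc.xf.clO hcl with h1 | h1
      · exact absurd h1 (hnot ζ hζ1)
      · exact h1
    · intro x hx
      have hxO : x ∉ Om P := fun h1 => hx (Or.inr h1)
      obtain ⟨z, hz, hzx⟩ := mem_closure_iff_seq_limit.1 (hX hx)
      have hex : ∀ k, ∃ ζ ∈ ball (0 : ℂ) 1 \ {0}, φ ζ = z k := by
        intro k
        have h1 := hz k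
        rw [← ho.img] at h1
        exact h1
      choose ζ hζ hζz using hex
      obtain ⟨w, hw, σ, hσ, hlim⟩ := (isCompact_closedBall (0 : ℂ) 1).tendsto_subseq
        (fun k => ball_subset_closedBall (hζ k).1)
      have hzσ : Tendsto (fun k => φ (ζ (σ k))) atTop (𝓝 x) := by
        refine (hzx.comp hσ.tendsto_atTop).congr fun k => ?_
        exact (hζz (σ k)).symm
      have hw0 : w ≠ 0 := by
        rintro rfl
        have h1 : Tendsto (fun k => ζ (σ k)) atTop (𝓝[≠] 0) := by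
          refine tendsto_nhdsWithin_iff.2 ⟨hlim, Eventually.of_forall fun k => ?_⟩
          exact (hζ (σ k)).2
        have h2 := ho.pole.comp h1
        have h3 : Tendsto (fun k => ‖φ (ζ (σ k))‖) atTop (𝓝 ‖x‖) := hzσ.norm
        exact not_tendsto_nhds_of_tendsto_atTop h2 _ h3
      have hwm : w ∈ closedBall (0 : ℂ) 1 \ {0} := ⟨hw, hw0⟩
      have h4 : Tendsto (fun k => φ' (ζ (σ k))) atTop (𝓝 (φ' w)) := by
        refine (hcont w hwm).tendsto.comp (tendsto_nhdsWithin_iff.2 ⟨hlim, ?_⟩)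
        exact Eventually.of_forall fun k => ⟨ball_subset_closedBall (hζ (σ k)).1, (hζ (σ k)).2⟩
      have h5 : φ' w = x := by
        refine tendsto_nhds_unique h4 (hzσ.congr fun k => ?_)
        exact (hball _ (hζ (σ k))).symm
      refine ⟨w, ?_, h5⟩
      rw [mem_sphere_zero_iff_norm]
      rcases lt_or_eq_of_le (mem_closedBall_zero_iff.1 hw) with h6 | h6
      · exfalso
        apply hxO
        rw [← h5, hin w h6]
        exact hOm w ⟨mem_ball_zero_iff.2 h6, hw0⟩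
      · exact h6
  · intro ζ hζ
    have hζ1 : ‖ζ‖ ≤ 1 := mem_closedBall_zero_iff.1 hζ.1
    rcases lt_or_eq_of_le hζ1 with h1 | h1
    · have h2 : ‖ζ ^ n‖ < 1 := by
        rw [norm_pow]
        exact pow_lt_one₀ (norm_nonneg _) h1 hn0
      rw [hin ζ h1, hin _ h2]
      exact ho.conj ζ ⟨mem_ball_zero_iff.2 h1, hζ.2⟩
    · have h2 : ‖ζ ^ n‖ = 1 := by rw [norm_pow, h1, one_pow]
      have h3 : Tendsto (fun r : ℝ => pm P (φ ((r : ℂ) * ζ))) (𝓝[<] 1) (𝓝 (pm P (φ' ζ))) :=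
        ((PHE_pm P).tendsto _).comp (hrad ζ h1)
      have h4 : Tendsto (fun r : ℝ => r ^ n) (𝓝[<] (1 : ℝ)) (𝓝[<] 1) := by
        refine tendsto_nhdsWithin_iff.2 ⟨?_, ?_⟩
        · have h5 : Tendsto (fun r : ℝ => r ^ n) (𝓝 1) (𝓝 (1 ^ n)) :=
            (continuous_pow n).tendsto 1
          rw [one_pow] at h5
          exact h5.mono_left nhdsWithin_le_nhds
        · have h0 : ∀ᶠ r : ℝ in 𝓝[<] 1, (0 : ℝ) < r :=
            nhdsWithin_le_nhds (lt_mem_nhds (by norm_num : (0 : ℝ) < 1))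
          filter_upwards [self_mem_nhdsWithin, h0] with r hr hr0
          exact pow_lt_one₀ hr0.le hr hn0
      have h5 : Tendsto (fun r : ℝ => φ (((r ^ n : ℝ) : ℂ) * ζ ^ n)) (𝓝[<] 1)
          (𝓝 (φ' (ζ ^ n))) := (hrad (ζ ^ n) h2).comp h4
      refine tendsto_nhds_unique h3 (h5.congr' ?_)
      filter_upwards [PHE_ev ζ h1] with r hr
      rw [ho.conj _ hr, mul_pow, Complex.ofReal_pow]
  · refine ho.pole.congr' ?_
    have h1 : ball (0 : ℂ) 1 ∈ 𝓝 (0 : ℂ) := ball_mem_nhds 0 one_pos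
    filter_upwards [mem_nhdsWithin_of_mem_nhds h1] with w hw
    rw [hin w (mem_ball_zero_iff.1 hw)]

end Pool.Agent.BSL
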