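import Pool.Agent.BSL.Targets

/-!
# BSL: PIN (injectivity of `φ'` on the circle)
-/

set_option autoImplicit false

open Polynomial Metric Set Filter Topology

noncomputable section

namespace Pool.Agent.BSL

open Pool.Agent.MAT

namespace PIN_

/-- a continuous function with `exp f = 1` on the closed disk is constant -/
theorem const_of_exp {f : ℂ → ℂ} (hf : ContinuousOn f (closedBall 0 1))
    (he : ∀ z ∈ closedBall (0 : ℂ) 1, Complex.exp (f z) = 1) {z w : ℂ}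
    (hz : z ∈ closedBall (0 : ℂ) 1) (hw : w ∈ closedBall (0 : ℂ) 1) : f z = f w := by
  have hpre : IsPreconnected (f '' closedBall (0 : ℂ) 1) :=
    (convex_closedBall _ _).isPreconnected.image f hf
  have hc : (Set.range fun k : ℤ => (k : ℂ) * (2 * Real.pi * Complex.I)).Countable :=
    Set.countable_range _
  have hsub : f '' closedBall (0 : ℂ) 1 ⊆
      Set.range fun k : ℤ => (k : ℂ) * (2 * Real.pi * Complex.I) := by
    rintro _ ⟨x, hx, rfl⟩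
    obtain ⟨k, hk⟩ := Complex.exp_eq_one_iff.1 (he x hx)
    exact ⟨k, hk.symm⟩
  exact hc.isTotallyDisconnected _ hsub hpre ⟨z, hz, rfl⟩ ⟨w, hw, rfl⟩

/-- a function which is locally constant (in a weak sense) on a preconnected set is constant -/
theorem eq_of_local {U : Set ℂ} (hU : IsPreconnected U) {D : ℂ → ℂ}
    (h : ∀ c₀ ∈ U, ∃ η : ℝ, 0 < η ∧ ball c₀ η ⊆ U ∧ ∀ c ∈ ball c₀ η, D c = D c₀) {a b : ℂ}
    (ha : a ∈ U) (hb : b ∈ U) : D a = D b := by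
  by_contra hne
  have hA : IsOpen {c | c ∈ U ∧ D c = D a} := by
    rw [Metric.isOpen_iff]
    rintro c ⟨hcU, hc⟩
    obtain ⟨η, hη, hsub, hD⟩ := h c hcU
    exact ⟨η, hη, fun x hx => ⟨hsub hx, (hD x hx).trans hc⟩⟩
  have hB : IsOpen {c | c ∈ U ∧ D c ≠ D a} := by
    rw [Metric.isOpen_iff]
    rintro c ⟨hcU, hc⟩
    obtain ⟨η, hη, hsub, hD⟩ := h c hcU
    exact ⟨η, hη, fun x hx => ⟨hsub hx, fun h' => hc ((hD x hx).symm.trans h')⟩⟩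
  obtain ⟨x, -, hx⟩ := hU _ _ hA hB (fun x hx => by
    by_cases hxa : D x = D a
    · exact Or.inl ⟨hx, hxa⟩
    · exact Or.inr ⟨hx, hxa⟩) ⟨a, ha, ha, rfl⟩ ⟨b, hb, hb, fun h' => hne h'.symm⟩
  exact hx.2.2 hx.1.2

/-- the function `ζ (φ' ζ - c)`, extended by `a` -/
def GG (φ' : ℂ → ℂ) (a c : ℂ) : ℂ → ℂ := Function.update (fun ζ => ζ * (φ' ζ - c)) 0 a

theorem GG_zero (φ' : ℂ → ℂ) (a c : ℂ) : GG φ' a c 0 = a := by
  simp [GG]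

theorem GG_ne (φ' : ℂ → ℂ) (a c : ℂ) {ζ : ℂ} (h : ζ ≠ 0) : GG φ' a c ζ = ζ * (φ' ζ - c) := by
  simp [GG, h]

theorem GG_cont {φ' : ℂ → ℂ} (hc : ContinuousOn φ' (closedBall 0 1 \ {0})) {a : ℂ}
    (ha : Tendsto (fun ζ => ζ * φ' ζ) (𝓝[≠] 0) (𝓝 a)) (c : ℂ) :
    ContinuousOn (GG φ' a c) (closedBall 0 1) := by
  intro ζ hζ
  by_cases h0 : ζ = 0
  · subst h0
    have h1 : Tendsto (fun ζ => ζ * (φ' ζ - c)) (𝓝[≠] 0) (𝓝 a) := by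
      have h2 : Tendsto (fun ζ : ℂ => ζ * c) (𝓝[≠] 0) (𝓝 0) := by
        have : Tendsto (fun ζ : ℂ => ζ * c) (𝓝 0) (𝓝 (0 * c)) :=
          (continuous_id.mul continuous_const).tendsto 0
        rw [zero_mul] at this
        exact this.mono_left nhdsWithin_le_nhds
      have h3 := ha.sub h2
      rw [sub_zero] at h3
      refine h3.congr fun ζ => ?_
      ring
    have : ContinuousAt (GG φ' a c) 0 := by
      unfold GG
      exact continuousAt_update_same.2 h1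
    exact this.continuousWithinAt
  · have hmem : closedBall (0 : ℂ) 1 \ {0} ∈ 𝓝[closedBall (0 : ℂ) 1] ζ := by
      rw [Set.sdiff_eq]
      exact inter_mem self_mem_nhdsWithin (mem_nhdsWithin_of_mem_nhds (isOpen_compl_singleton.mem_nhds h0))
    have h1 : ContinuousWithinAt (fun ζ => ζ * (φ' ζ - c)) (closedBall 0 1) ζ := by
      have h2 : ContinuousWithinAt φ' (closedBall 0 1 \ {0}) ζ := hc ζ ⟨hζ, h0⟩
      have h3 : ContinuousWithinAt (fun ζ => ζ * (φ' ζ - c)) (closedBall 0 1 \ {0}) ζ :=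
        continuousWithinAt_id.mul (h2.sub continuousWithinAt_const)
      exact h3.mono_of_mem_nhdsWithin hmem
    refine h1.congr_of_eventuallyEq ?_ (GG_ne φ' a c h0)
    filter_upwards [hmem] with x hx
    exact GG_ne φ' a c hx.2

/-- the differences of the logarithms do not depend on `c` -/
theorem dconst {φ' : ℂ → ℂ} {a : ℂ} {U : Set ℂ} {L : ℂ → ℂ → ℂ} (hU : IsOpen U)
    (hpre : IsPreconnected U) (hcont : ContinuousOn φ' (closedBall 0 1 \ {0}))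
    (ha : Tendsto (fun ζ => ζ * φ' ζ) (𝓝[≠] 0) (𝓝 a)) (ha0 : a ≠ 0)
    (hdis : ∀ ζ ∈ closedBall (0 : ℂ) 1 \ {0}, φ' ζ ∉ U)
    (hL : ∀ c ∈ U, ContinuousOn (L c) (closedBall 0 1) ∧
      ∀ z ∈ closedBall (0 : ℂ) 1, Complex.exp (L c z) = GG φ' a c z)
    {ζ₁ ζ₂ : ℂ} (h1 : ζ₁ ∈ closedBall (0 : ℂ) 1 \ {0}) (h2 : ζ₂ ∈ closedBall (0 : ℂ) 1 \ {0})
    (heq : φ' ζ₁ = φ' ζ₂) {c c' : ℂ} (hc : c ∈ U) (hc' : c' ∈ U) :
    L c ζ₁ - L c ζ₂ = L c' ζ₁ - L c' ζ₂ := by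
  refine eq_of_local (D := fun c => L c ζ₁ - L c ζ₂) hpre ?_ hc hc'
  intro c₀ hc₀
  obtain ⟨η, hη, hsub⟩ := Metric.isOpen_iff.1 hU c₀ hc₀
  refine ⟨η, hη, hsub, fun c hcb => ?_⟩
  have hcU : c ∈ U := hsub hcb
  have hG0 : ∀ ζ ∈ closedBall (0 : ℂ) 1, GG φ' a c₀ ζ ≠ 0 := fun ζ hζ => by
    rw [← (hL c₀ hc₀).2 ζ hζ]; exact Complex.exp_ne_zero _
  have hG1 : ∀ ζ ∈ closedBall (0 : ℂ) 1, GG φ' a c ζ ≠ 0 := fun ζ hζ => by
    rw [← (hL c hcU).2 ζ hζ]; exact Complex.exp_ne_zero _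
  have hq : ∀ ζ ∈ closedBall (0 : ℂ) 1, ‖GG φ' a c ζ / GG φ' a c₀ ζ - 1‖ < 1 := by
    intro ζ hζ
    by_cases h0 : ζ = 0
    · subst h0
      rw [GG_zero, GG_zero, div_self ha0]; simp
    · rw [GG_ne _ _ _ h0, GG_ne _ _ _ h0]
      have hnot : φ' ζ ∉ ball c₀ η := fun h => hdis ζ ⟨hζ, h0⟩ (hsub h)
      rw [mem_ball, dist_eq_norm, not_lt] at hnot
      have hne : φ' ζ - c₀ ≠ 0 := norm_pos_iff.1 (hη.trans_le hnot)
      have : ζ * (φ' ζ - c) / (ζ * (φ' ζ - c₀)) - 1 = (c₀ - c) / (φ' ζ - c₀) := by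
        field_simp
        ring
      rw [this, norm_div, div_lt_one (norm_pos_iff.2 hne)]
      rw [mem_ball, dist_eq_norm, norm_sub_rev] at hcb
      exact hcb.trans_le hnot
  have hsl : ∀ ζ ∈ closedBall (0 : ℂ) 1,
      GG φ' a c ζ / GG φ' a c₀ ζ ∈ Complex.slitPlane := by
    intro ζ hζ
    have := hq ζ hζ
    left
    have h3 := Complex.abs_re_le_norm (GG φ' a c ζ / GG φ' a c₀ ζ - 1)
    have h4 := abs_lt.1 (h3.trans_lt this)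
    rw [Complex.sub_re, Complex.one_re] at h4
    linarith [h4.1]
  have hf : ContinuousOn (fun ζ => L c ζ - L c₀ ζ -
      Complex.log (GG φ' a c ζ / GG φ' a c₀ ζ)) (closedBall 0 1) := by
    refine ((hL c hcU).1.sub (hL c₀ hc₀).1).sub ?_
    exact ((GG_cont hcont ha c).div (GG_cont hcont ha c₀) hG0).clog hsl
  have hexp : ∀ ζ ∈ closedBall (0 : ℂ) 1, Complex.exp (L c ζ - L c₀ ζ -
      Complex.log (GG φ' a c ζ / GG φ' a c₀ ζ)) = 1 := by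
    intro ζ hζ
    rw [Complex.exp_sub, Complex.exp_sub, (hL c hcU).2 ζ hζ, (hL c₀ hc₀).2 ζ hζ,
      Complex.exp_log (div_ne_zero (hG1 ζ hζ) (hG0 ζ hζ)),
      div_self (div_ne_zero (hG1 ζ hζ) (hG0 ζ hζ))]
  have hfin := const_of_exp hf hexp h1.1 h2.1
  have e1 : GG φ' a c ζ₁ / GG φ' a c₀ ζ₁ = GG φ' a c ζ₂ / GG φ' a c₀ ζ₂ := by
    have hz1 : ζ₁ ≠ 0 := h1.2
    have hz2 : ζ₂ ≠ 0 := h2.2
    rw [GG_ne _ _ _ hz1, GG_ne _ _ _ hz1, GG_ne _ _ _ hz2, GG_ne _ _ _ hz2, heq,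
      mul_div_mul_left _ _ hz1, mul_div_mul_left _ _ hz2]
  simp only [e1] at hfin
  show L c ζ₁ - L c ζ₂ = L c₀ ζ₁ - L c₀ ζ₂
  linear_combination hfin

/-- sums of the logarithms over a multiset of points of `U` -/
theorem msum {φ' : ℂ → ℂ} {a : ℂ} {U : Set ℂ} {L : ℂ → ℂ → ℂ}
    (hL : ∀ c ∈ U, ContinuousOn (L c) (closedBall 0 1) ∧
      ∀ z ∈ closedBall (0 : ℂ) 1, Complex.exp (L c z) = GG φ' a c z)
    {ζ₁ ζ₂ : ℂ} {c₀ : ℂ} (hD : ∀ c ∈ U, L c ζ₁ - L c ζ₂ = L c₀ ζ₁ - L c₀ ζ₂)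
    (s : Multiset ℂ) : (∀ r ∈ s, r ∈ U) → ∃ M : ℂ → ℂ, ContinuousOn M (closedBall 0 1) ∧
      (∀ ζ ∈ closedBall (0 : ℂ) 1 \ {0},
        Complex.exp (M ζ) = (s.map (fun r => ζ * (φ' ζ - r))).prod) ∧
      M ζ₁ - M ζ₂ = Multiset.card s * (L c₀ ζ₁ - L c₀ ζ₂) := by
  induction s using Multiset.induction with
  | empty =>
    intro _
    exact ⟨fun _ => 0, continuousOn_const, fun ζ _ => by simp, by simp⟩
  | cons r s ih =>
    intro hs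
    obtain ⟨M, hM1, hM2, hM3⟩ := ih fun r' hr' => hs r' (Multiset.mem_cons_of_mem hr')
    have hr : r ∈ U := hs r (Multiset.mem_cons_self r s)
    refine ⟨fun ζ => L r ζ + M ζ, (hL r hr).1.add hM1, fun ζ hζ => ?_, ?_⟩
    · rw [Complex.exp_add, (hL r hr).2 ζ hζ.1, hM2 ζ hζ, GG_ne _ _ _ hζ.2, Multiset.map_cons,
        Multiset.prod_cons]
    · have := hD r hr
      rw [Multiset.card_cons]
      push_cast
      linear_combination this + hM3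

/-- the functional equation of the differences -/
theorem dmul {n : ℕ} {P : ℂ[X]} {z₀ : ℂ} {R : ℝ} {φ' : ℂ → ℂ} {a : ℂ} {L : ℂ → ℂ → ℂ}
    (H : Ctx n P z₀ R) (hP : PH n P z₀ φ')
    (hL : ∀ c ∈ UU P z₀, ContinuousOn (L c) (closedBall 0 1) ∧
      ∀ z ∈ closedBall (0 : ℂ) 1, Complex.exp (L c z) = GG φ' a c z)
    {ζ₁ ζ₂ : ℂ} (h1 : ζ₁ ∈ closedBall (0 : ℂ) 1 \ {0}) (h2 : ζ₂ ∈ closedBall (0 : ℂ) 1 \ {0})
    (hD : ∀ c ∈ UU P z₀, L c ζ₁ - L c ζ₂ = L z₀ ζ₁ - L z₀ ζ₂) :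
    L z₀ (ζ₁ ^ n) - L z₀ (ζ₂ ^ n) = n * (L z₀ ζ₁ - L z₀ ζ₂) := by
  have hn : 2 ≤ n := H.hp.hn
  have hz₀ : z₀ ∈ UU P z₀ := H.bf.mem
  set Q : ℂ[X] := P - C z₀ with hQ
  have hQd : Q.natDegree = n := by rw [hQ, natDegree_sub_C, H.hp.deg]
  have hQ0 : Q ≠ 0 := by
    intro h
    rw [h, natDegree_zero] at hQd
    omega
  have hlc : Q.leadingCoeff ≠ 0 := leadingCoeff_ne_zero.2 hQ0
  have hcard : Multiset.card Q.roots = n := by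
    rw [← hQd]; exact (IsAlgClosed.splits Q).natDegree_eq_card_roots.symm
  have hroots : ∀ r ∈ Q.roots, r ∈ UU P z₀ := by
    intro r hr
    have : Q.eval r = 0 := (mem_roots hQ0).1 hr
    rw [hQ, eval_sub, eval_C, sub_eq_zero] at this
    refine H.inv r ?_
    show P.eval r ∈ _
    rw [this]
    exact hz₀
  obtain ⟨M, hM1, hM2, hM3⟩ := msum hL hD Q.roots hroots
  have hpow : ∀ ζ ∈ closedBall (0 : ℂ) 1, ζ ^ n ∈ closedBall (0 : ℂ) 1 := by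
    intro ζ hζ
    rw [mem_closedBall_zero_iff] at hζ ⊢
    rw [norm_pow]
    exact pow_le_one₀ (norm_nonneg _) hζ
  have hf : ContinuousOn (fun ζ => L z₀ (ζ ^ n) - M ζ - Complex.log Q.leadingCoeff)
      (closedBall 0 1) := by
    refine (ContinuousOn.sub ?_ hM1).sub continuousOn_const
    exact (hL z₀ hz₀).1.comp (continuous_pow n).continuousOn hpow
  have hexp1 : ∀ ζ ∈ closedBall (0 : ℂ) 1 \ {0},
      Complex.exp (L z₀ (ζ ^ n) - M ζ - Complex.log Q.leadingCoeff) = 1 := by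
    intro ζ hζ
    have h0 : ζ ≠ 0 := hζ.2
    have hMne : (Q.roots.map (fun r => ζ * (φ' ζ - r))).prod ≠ 0 := by
      rw [← hM2 ζ hζ]; exact Complex.exp_ne_zero _
    rw [Complex.exp_sub, Complex.exp_sub, (hL z₀ hz₀).2 _ (hpow ζ hζ.1), hM2 ζ hζ,
      Complex.exp_log hlc, GG_ne _ _ _ (pow_ne_zero n h0), div_div,
      div_eq_one_iff_eq (mul_ne_zero hMne hlc)]
    have hconj : φ' (ζ ^ n) = P.eval (φ' ζ) := (hP.conj ζ hζ).symm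
    have hev : P.eval (φ' ζ) - z₀ = Q.leadingCoeff * (Q.roots.map (φ' ζ - ·)).prod := by
      rw [← (IsAlgClosed.splits Q).eval_eq_prod_roots, hQ, eval_sub, eval_C]
    rw [hconj, hev, Multiset.prod_map_mul, Multiset.map_const', Multiset.prod_replicate, hcard]
    ring
  have hexp : ∀ ζ ∈ closedBall (0 : ℂ) 1,
      Complex.exp (L z₀ (ζ ^ n) - M ζ - Complex.log Q.leadingCoeff) = 1 := by
    intro ζ hζ
    by_cases h0 : ζ = 0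
    · subst h0
      have hmem : closedBall (0 : ℂ) 1 ∈ 𝓝 (0 : ℂ) := closedBall_mem_nhds _ one_pos
      have hca : ContinuousAt (fun ζ => Complex.exp (L z₀ (ζ ^ n) - M ζ -
          Complex.log Q.leadingCoeff)) 0 := (hf.continuousAt hmem).cexp
      have ht1 : Tendsto (fun ζ => Complex.exp (L z₀ (ζ ^ n) - M ζ -
          Complex.log Q.leadingCoeff)) (𝓝[≠] 0) (𝓝 (Complex.exp (L z₀ (0 ^ n) - M 0 -
          Complex.log Q.leadingCoeff))) := hca.tendsto.mono_left nhdsWithin_le_nhds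
      have ht2 : Tendsto (fun ζ => Complex.exp (L z₀ (ζ ^ n) - M ζ -
          Complex.log Q.leadingCoeff)) (𝓝[≠] 0) (𝓝 1) := by
        refine tendsto_const_nhds.congr' ?_
        filter_upwards [nhdsWithin_le_nhds hmem, self_mem_nhdsWithin] with ζ h3 h4
        exact (hexp1 ζ ⟨h3, h4⟩).symm
      exact tendsto_nhds_unique ht1 ht2
    · exact hexp1 ζ ⟨hζ, h0⟩
  have hfin := const_of_exp hf hexp h1.1 h2.1
  rw [hcard] at hM3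
  linear_combination hfin + hM3

end PIN_

open PIN_ in
/-- PIN -/
theorem p_PIN (hL : T_LGB) (hS : T_SPO) : T_PIN := by
  intro n P z₀ R φ' H hP
  have hn : 2 ≤ n := H.hp.hn
  have hz₀ : z₀ ∈ UU P z₀ := H.bf.mem
  obtain ⟨a, ha0, ha⟩ := hS φ' hP.hol hP.inj hP.pole
  have hdis : ∀ ζ ∈ closedBall (0 : ℂ) 1 \ {0}, φ' ζ ∉ UU P z₀ := by
    intro ζ hζ hU
    rcases (mem_closedBall_zero_iff.1 hζ.1).lt_or_eq with hlt | heq
    · have : φ' ζ ∈ Om P := by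
        rw [← hP.img]
        exact ⟨ζ, ⟨mem_ball_zero_iff.2 hlt, hζ.2⟩, rfl⟩
      exact Set.disjoint_left.1 H.xf.disj hU this
    · have : φ' ζ ∈ XX P z₀ := by
        rw [← hP.sph]
        exact ⟨ζ, mem_sphere_zero_iff_norm.2 heq, rfl⟩
      exact this (Or.inl hU)
  have hLc : ∀ c : ℂ, ∃ l : ℂ → ℂ, c ∈ UU P z₀ → ContinuousOn l (closedBall 0 1) ∧
      ∀ z ∈ closedBall (0 : ℂ) 1, Complex.exp (l z) = GG φ' a c z := by
    intro c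
    by_cases hc : c ∈ UU P z₀
    · obtain ⟨l, hl⟩ := hL (GG φ' a c) (GG_cont hP.cont ha c) (fun ζ hζ => by
        by_cases h0 : ζ = 0
        · subst h0
          rw [GG_zero]; exact ha0
        · rw [GG_ne _ _ _ h0]
          refine mul_ne_zero h0 (sub_ne_zero.2 fun h => hdis ζ ⟨hζ, h0⟩ (h ▸ hc)))
      exact ⟨l, fun _ => hl⟩
    · exact ⟨fun _ => 0, fun h => absurd h hc⟩
  choose L hL' using hLc
  have hD : ∀ ζ₁ ζ₂ : ℂ, ζ₁ ∈ closedBall (0 : ℂ) 1 \ {0} → ζ₂ ∈ closedBall (0 : ℂ) 1 \ {0} →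
      φ' ζ₁ = φ' ζ₂ → ∀ c ∈ UU P z₀, L c ζ₁ - L c ζ₂ = L z₀ ζ₁ - L z₀ ζ₂ := by
    intro ζ₁ ζ₂ h1 h2 h c hc
    exact dconst H.bf.opn H.bf.con hP.cont ha ha0 hdis (fun c hc => hL' c hc) h1 h2 h hc hz₀
  have hpow : ∀ ζ ∈ closedBall (0 : ℂ) 1 \ {0}, ζ ^ n ∈ closedBall (0 : ℂ) 1 \ {0} := by
    intro ζ hζ
    refine ⟨?_, pow_ne_zero n hζ.2⟩
    have h := hζ.1
    rw [mem_closedBall_zero_iff] at h ⊢
    rw [norm_pow]
    exact pow_le_one₀ (norm_nonneg _) h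
  have hiter : ∀ (m : ℕ) (ζ₁ ζ₂ : ℂ), ζ₁ ∈ closedBall (0 : ℂ) 1 \ {0} →
      ζ₂ ∈ closedBall (0 : ℂ) 1 \ {0} → φ' ζ₁ = φ' ζ₂ → ∃ ξ₁ ∈ closedBall (0 : ℂ) 1,
      ∃ ξ₂ ∈ closedBall (0 : ℂ) 1, L z₀ ξ₁ - L z₀ ξ₂ = (n : ℂ) ^ m * (L z₀ ζ₁ - L z₀ ζ₂) := by
    intro m
    induction m with
    | zero =>
      intro ζ₁ ζ₂ h1 h2 _
      exact ⟨ζ₁, h1.1, ζ₂, h2.1, by simp⟩
    | succ m ih =>
      intro ζ₁ ζ₂ h1 h2 h
      have h' : φ' (ζ₁ ^ n) = φ' (ζ₂ ^ n) := by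
        rw [← hP.conj ζ₁ h1, ← hP.conj ζ₂ h2, h]
      obtain ⟨ξ₁, hξ₁, ξ₂, hξ₂, hξ⟩ := ih (ζ₁ ^ n) (ζ₂ ^ n) (hpow ζ₁ h1) (hpow ζ₂ h2) h'
      refine ⟨ξ₁, hξ₁, ξ₂, hξ₂, ?_⟩
      rw [hξ, dmul H hP hL' h1 h2 (hD ζ₁ ζ₂ h1 h2 h)]
      ring
  obtain ⟨K, hK⟩ := (isCompact_closedBall (0 : ℂ) 1).exists_bound_of_continuousOn (hL' z₀ hz₀).1
  intro ζ₁ h1 ζ₂ h2 h
  have hm1 : ζ₁ ∈ closedBall (0 : ℂ) 1 \ {0} := by
    refine ⟨sphere_subset_closedBall h1, fun h0 => ?_⟩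
    rw [mem_singleton_iff.1 h0, mem_sphere_zero_iff_norm, norm_zero] at h1
    exact zero_ne_one h1
  have hm2 : ζ₂ ∈ closedBall (0 : ℂ) 1 \ {0} := by
    refine ⟨sphere_subset_closedBall h2, fun h0 => ?_⟩
    rw [mem_singleton_iff.1 h0, mem_sphere_zero_iff_norm, norm_zero] at h2
    exact zero_ne_one h2
  have hbd : ∀ m : ℕ, (n : ℝ) ^ m * ‖L z₀ ζ₁ - L z₀ ζ₂‖ ≤ 2 * K := by
    intro m
    obtain ⟨ξ₁, hξ₁, ξ₂, hξ₂, hξ⟩ := hiter m ζ₁ ζ₂ hm1 hm2 h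
    have e : (n : ℝ) ^ m * ‖L z₀ ζ₁ - L z₀ ζ₂‖ = ‖L z₀ ξ₁ - L z₀ ξ₂‖ := by
      rw [hξ, norm_mul, norm_pow, Complex.norm_natCast]
    rw [e]
    calc ‖L z₀ ξ₁ - L z₀ ξ₂‖ ≤ ‖L z₀ ξ₁‖ + ‖L z₀ ξ₂‖ := norm_sub_le _ _
      _ ≤ K + K := add_le_add (hK _ hξ₁) (hK _ hξ₂)
      _ = 2 * K := by ring
  have hzero : L z₀ ζ₁ - L z₀ ζ₂ = 0 := by
    by_contra hne
    have hpos : 0 < ‖L z₀ ζ₁ - L z₀ ζ₂‖ := norm_pos_iff.2 hne
    have h1n : (1 : ℝ) < n := by exact_mod_cast (by omega : 1 < n)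
    obtain ⟨m, hm⟩ := pow_unbounded_of_one_lt (2 * K / ‖L z₀ ζ₁ - L z₀ ζ₂‖) h1n
    rw [div_lt_iff₀ hpos] at hm
    exact absurd (hbd m) (not_le.2 hm)
  have hE : GG φ' a z₀ ζ₁ = GG φ' a z₀ ζ₂ := by
    rw [← (hL' z₀ hz₀).2 _ hm1.1, ← (hL' z₀ hz₀).2 _ hm2.1, sub_eq_zero.1 hzero]
  rw [GG_ne _ _ _ hm1.2, GG_ne _ _ _ hm2.2, h] at hE
  refine mul_right_cancel₀ (sub_ne_zero.2 fun hc => hdis ζ₂ hm2 ?_) hE
  rw [hc]
  exact hz₀

end Pool.Agent.BSL
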