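import Pool.Agent.BSL.Targets
import Pool.Agent.GP.CP

/-!
# BSL: target POLY (polynomial approximation by Cauchy-Pompeiu)
-/

set_option autoImplicit false

open Polynomial Metric Set Filter Topology MeasureTheory

noncomputable section

namespace Pool.Agent.BSL

open Pool.Agent.MAT Pool.Agent.GP

namespace POLY_

/-- division by a function bounded below on the support -/
lemma cont_div {D q : ℂ → ℂ} (hD : Continuous D) (hq : Continuous q) {δ : ℝ} (hδ : 0 < δ)
    (h : ∀ s, D s ≠ 0 → δ ≤ ‖q s‖) (N : ℕ) : Continuous (fun s => D s / q s ^ N) := by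
  have e : (fun s => D s / q s ^ N) = fun s => D s * (starRingEnd ℂ (q s)) ^ N *
      ((((max δ ‖q s‖) ^ (2 * N))⁻¹ : ℝ) : ℂ) := by
    funext s
    by_cases h0 : D s = 0
    · simp [h0]
    · have h1 := h s h0
      have h2 : q s ≠ 0 := by
        intro h3
        rw [h3, norm_zero] at h1
        linarith
      have h4 : (((max δ ‖q s‖) ^ (2 * N) : ℝ) : ℂ) = q s ^ N * (starRingEnd ℂ (q s)) ^ N := by
        rw [max_eq_right h1, ← mul_pow, Complex.mul_conj, Complex.normSq_eq_norm_sq, pow_mul]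
        push_cast
        rfl
      have h5 : (starRingEnd ℂ (q s)) ≠ 0 := by simpa using h2
      rw [Complex.ofReal_inv, h4]
      field_simp
  rw [e]
  have hc : Continuous (fun s => ((max δ ‖q s‖) ^ (2 * N))⁻¹) := by
    refine Continuous.inv₀ ((continuous_const.max hq.norm).pow _) fun s => ?_
    have : 0 < max δ ‖q s‖ := lt_of_lt_of_le hδ (le_max_left _ _)
    positivity
  exact (hD.mul ((Complex.continuous_conj.comp hq).pow N)).mul (Complex.continuous_ofReal.comp hc)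

end POLY_

open POLY_ in
theorem p_POLY (hD : T_DVD) (hC : T_CUT) : T_POLY := by
  intro U Q r R g hU hr hrR hK hg ε hε
  have hqc : Continuous (fun s => Q.eval s) := Q.continuous
  obtain ⟨r₁, hr1, hr2⟩ : ∃ r₁ : ℝ, r < r₁ ∧ r₁ < R := exists_between hrR
  have hr₁ : 0 < r₁ := by linarith
  have hK1 : IsCompact (U ∩ {z | ‖Q.eval z‖ ≤ r₁}) := by
    have e : U ∩ {z | ‖Q.eval z‖ ≤ r₁} = (U ∩ {z | ‖Q.eval z‖ ≤ R}) ∩ {z | ‖Q.eval z‖ ≤ r₁} := by
      ext z
      simp only [mem_inter_iff, mem_setOf_eq]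
      constructor
      · rintro ⟨h1, h2⟩
        exact ⟨⟨h1, h2.trans hr2.le⟩, h2⟩
      · rintro ⟨⟨h1, _⟩, h2⟩
        exact ⟨h1, h2⟩
    rw [e]
    exact hK.inter_right (isClosed_le hqc.norm continuous_const)
  have hKr : IsCompact (U ∩ {z | ‖Q.eval z‖ ≤ r}) := by
    have e : U ∩ {z | ‖Q.eval z‖ ≤ r} = (U ∩ {z | ‖Q.eval z‖ ≤ R}) ∩ {z | ‖Q.eval z‖ ≤ r} := by
      ext z
      simp only [mem_inter_iff, mem_setOf_eq]
      constructor
      · rintro ⟨h1, h2⟩
        exact ⟨⟨h1, h2.trans hrR.le⟩, h2⟩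
      · rintro ⟨⟨h1, _⟩, h2⟩
        exact ⟨h1, h2⟩
    rw [e]
    exact hK.inter_right (isClosed_le hqc.norm continuous_const)
  have hV : IsOpen (U ∩ {z | ‖Q.eval z‖ < R}) := hU.inter (isOpen_lt hqc.norm continuous_const)
  obtain ⟨χ, c1, c2, c3, c4⟩ := hC _ _ hK1 hV (fun z hz => ⟨hz.1, lt_of_le_of_lt hz.2 hr2⟩)
  have hsU : tsupport χ ⊆ U := c3.trans inter_subset_left
  set D : ℂ → ℂ := fun s => dbar χ s * g s with hDdef
  have hDc : Continuous D := continuous_dbar_mul c1 hU hsU hg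
  have hDs : HasCompactSupport D := (hasCompactSupport_dbar c2).mul_right
  have hD0 : ∀ s ∈ U ∩ {z | ‖Q.eval z‖ ≤ r₁}, D s = 0 := by
    intro s hs
    have : dbar χ s = 0 := by rw [dbar_congr (c4 s hs), dbar_const]
    simp only [hDdef, this, zero_mul]
  have hDt : ∀ s, D s ≠ 0 → s ∈ tsupport χ := by
    intro s hs
    by_contra h
    apply hs
    simp only [hDdef, dbar_eq_zero_of_notMem_tsupport h, zero_mul]
  have hDq : ∀ s, D s ≠ 0 → r₁ ≤ ‖Q.eval s‖ := by
    intro s hs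
    by_contra h
    push Not at h
    exact hs (hD0 s ⟨hsU (hDt s hs), h.le⟩)
  have hDi : Integrable D := hDc.integrable_of_hasCompactSupport hDs
  -- distance
  have hcl : IsClosed (tsupport χ ∩ {s | r₁ ≤ ‖Q.eval s‖}) :=
    (isClosed_tsupport χ).inter (isClosed_le continuous_const hqc.norm)
  have hdis : Disjoint (U ∩ {z | ‖Q.eval z‖ ≤ r}) (tsupport χ ∩ {s | r₁ ≤ ‖Q.eval s‖}) := by
    rw [Set.disjoint_left]
    rintro z ⟨_, h1⟩ ⟨_, h2⟩
    simp only [mem_setOf_eq] at h1 h2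
    linarith
  obtain ⟨η, hη, hηd⟩ := exists_pos_forall_lt_edist hKr hcl hdis
  have hη0 : (0 : ℝ) < η := by exact_mod_cast hη
  have hdist : ∀ x ∈ U ∩ {z | ‖Q.eval z‖ ≤ r}, ∀ s, D s ≠ 0 → (η : ℝ) ≤ ‖s - x‖ := by
    intro x hx s hs
    have h1 := hηd x hx s ⟨hDt s hs, hDq s hs⟩
    rw [edist_nndist, ENNReal.coe_lt_coe] at h1
    have h2 : (η : ℝ) < dist x s := by
      rw [← coe_nndist]
      exact_mod_cast h1
    rw [dist_comm, dist_eq_norm] at h2
    exact h2.le
  -- the exponent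
  set A : ℝ := ∫ s, ‖D s‖ with hA
  have hA0 : 0 ≤ A := integral_nonneg fun s => norm_nonneg _
  obtain ⟨N, hN⟩ : ∃ N : ℕ, (r / r₁) ^ N * (A / η) ≤ ε := by
    have h1 : Tendsto (fun N : ℕ => (r / r₁) ^ N * (A / η)) atTop (𝓝 (0 * (A / η))) :=
      (tendsto_pow_atTop_nhds_zero_of_lt_one (by positivity)
        (by rw [div_lt_one hr₁]; exact hr1)).mul_const _
    rw [zero_mul] at h1
    exact ((h1.eventually (gt_mem_nhds hε)).exists).imp fun N h => h.le
  obtain ⟨d, c, hc⟩ := hD (Q ^ N)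
  -- the coefficients
  have hint : ∀ j : ℕ, Integrable (fun s => D s / Q.eval s ^ N * (c j).eval s) := by
    intro j
    refine Continuous.integrable_of_hasCompactSupport
      ((cont_div hDc hqc hr₁ hDq N).mul (c j).continuous) ?_
    refine HasCompactSupport.mul_right ?_
    have e : (fun s => D s / Q.eval s ^ N) = fun s => D s * (Q.eval s ^ N)⁻¹ := by
      funext s
      rw [div_eq_mul_inv]
    rw [e]
    exact hDs.mul_right
  refine ⟨∑ j ∈ Finset.range d, Polynomial.C (-(2 * (Real.pi : ℂ))⁻¹ *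
    ∫ s, D s / Q.eval s ^ N * (c j).eval s) * X ^ j, fun x hxU hxr => ?_⟩
  have hx : x ∈ U ∩ {z | ‖Q.eval z‖ ≤ r} := ⟨hxU, hxr⟩
  have hx1 : x ∈ U ∩ {z | ‖Q.eval z‖ ≤ r₁} := ⟨hxU, hxr.trans hr1.le⟩
  obtain ⟨i1, i2⟩ := integral_dbar_mul_div c1 c2 hU hsU hg (c4 x hx1)
  have hpi : (2 * (Real.pi : ℂ)) ≠ 0 := by
    have : (Real.pi : ℂ) ≠ 0 := by exact_mod_cast Real.pi_ne_zero
    simp [this]
  have hpe : (∑ j ∈ Finset.range d, Polynomial.C (-(2 * (Real.pi : ℂ))⁻¹ *
      ∫ s, D s / Q.eval s ^ N * (c j).eval s) * X ^ j).eval x = -(2 * (Real.pi : ℂ))⁻¹ *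
      ∫ s, ∑ j ∈ Finset.range d, D s / Q.eval s ^ N * (c j).eval s * x ^ j := by
    rw [integral_finsetSum _ (fun j _ => (hint j).mul_const _), eval_finset_sum, Finset.mul_sum]
    refine Finset.sum_congr rfl fun j _ => ?_
    rw [integral_mul_const]
    simp only [eval_mul, eval_C, eval_pow, eval_X]
    ring
  have hgx : g x = -(2 * (Real.pi : ℂ))⁻¹ * ∫ s, dbar χ s * g s / (s - x) := by
    rw [i2]
    field_simp
  have hpt : ∀ s, dbar χ s * g s / (s - x) -
      ∑ j ∈ Finset.range d, D s / Q.eval s ^ N * (c j).eval s * x ^ j =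
      D s * (Q.eval x / Q.eval s) ^ N / (s - x) := by
    intro s
    change D s / (s - x) - _ = _
    by_cases h0 : D s = 0
    · simp [h0]
    · have h1 : s - x ≠ 0 := by
        intro h2
        have := hdist x hx s h0
        rw [h2, norm_zero] at this
        linarith
      have h3 : Q.eval s ≠ 0 := by
        intro h4
        have := hDq s h0
        rw [h4, norm_zero] at this
        linarith
      have h5 := hc s x
      rw [eval_pow, eval_pow] at h5
      have h6 : ∑ j ∈ Finset.range d, D s / Q.eval s ^ N * (c j).eval s * x ^ j =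
          D s / Q.eval s ^ N * ((Q.eval s ^ N - Q.eval x ^ N) / (s - x)) := by
        rw [h5, mul_div_cancel_left₀ _ h1, Finset.mul_sum]
        exact Finset.sum_congr rfl fun j _ => by ring
      rw [h6, div_pow]
      field_simp
      ring
  have isum : Integrable (fun s => ∑ j ∈ Finset.range d,
      D s / Q.eval s ^ N * (c j).eval s * x ^ j) :=
    integrable_finsetSum _ fun j _ => (hint j).mul_const _
  have hdiff : g x - (∑ j ∈ Finset.range d, Polynomial.C (-(2 * (Real.pi : ℂ))⁻¹ *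
      ∫ s, D s / Q.eval s ^ N * (c j).eval s) * X ^ j).eval x = -(2 * (Real.pi : ℂ))⁻¹ *
      ∫ s, D s * (Q.eval x / Q.eval s) ^ N / (s - x) := by
    rw [hpe, hgx, ← mul_sub, ← integral_sub i1 isum]
    congr 1
    exact integral_congr_ae (Eventually.of_forall hpt)
  rw [hdiff, norm_mul]
  have hbd : ‖∫ s, D s * (Q.eval x / Q.eval s) ^ N / (s - x)‖ ≤
      ∫ s, ‖D s‖ * ((r / r₁) ^ N / η) := by
    refine norm_integral_le_of_norm_le (hDi.norm.mul_const _) (Eventually.of_forall fun s => ?_)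
    by_cases h0 : D s = 0
    · simp [h0]
    · have h1 := hdist x hx s h0
      have h2 := hDq s h0
      rw [norm_div, norm_mul, norm_pow, norm_div, mul_div_assoc]
      refine mul_le_mul_of_nonneg_left ?_ (norm_nonneg _)
      have h3 : ‖Q.eval x‖ / ‖Q.eval s‖ ≤ r / r₁ := div_le_div₀ hr hxr hr₁ h2
      exact div_le_div₀ (by positivity) (pow_le_pow_left₀ (by positivity) h3 N) hη0 h1
  rw [integral_mul_const] at hbd
  have h2pi : ‖-(2 * (Real.pi : ℂ))⁻¹‖ ≤ 1 := by
    rw [norm_neg, norm_inv, norm_mul, Complex.norm_ofNat, Complex.norm_real, Real.norm_eq_abs,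
      abs_of_pos Real.pi_pos]
    apply inv_le_one_of_one_le₀
    have := Real.pi_gt_three
    linarith
  calc ‖-(2 * (Real.pi : ℂ))⁻¹‖ * ‖∫ s, D s * (Q.eval x / Q.eval s) ^ N / (s - x)‖
      ≤ 1 * (A * ((r / r₁) ^ N / η)) := by gcongr
    _ = (r / r₁) ^ N * (A / η) := by ring
    _ ≤ ε := hN

end Pool.Agent.BSL
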