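import Pool.Agent.BSL.Targets

/-!
# BSL: primitives on the immediate basin (`T_PRI`)
-/

set_option autoImplicit false

open Polynomial Metric Set Filter Topology

noncomputable section

namespace Pool.Agent.BSL

open Pool.Agent.MAT

namespace PRI_

/-- the `m`-th iterate of `P` minus `z₀`, as a polynomial -/
def Q (P : ℂ[X]) (z₀ : ℂ) (m : ℕ) : ℂ[X] := P.comp^[m] X - C z₀

lemma Q_eval (P : ℂ[X]) (z₀ : ℂ) (m : ℕ) (z : ℂ) :
    (Q P z₀ m).eval z = (pm P)^[m] z - z₀ := by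
  unfold Q
  rw [eval_sub, eval_C, Polynomial.iterate_comp_eval, eval_X]
  rfl

lemma pm_cont (P : ℂ[X]) : Continuous (pm P) := P.continuous

lemma mem_Ba_of_iter {P : ℂ[X]} {z₀ z : ℂ} (m : ℕ) (h : (pm P)^[m] z ∈ Ba P z₀) :
    z ∈ Ba P z₀ := by
  have h1 : Tendsto (fun k : ℕ => (pm P)^[k] ((pm P)^[m] z)) atTop (𝓝 z₀) := h
  have h2 : Tendsto (fun k : ℕ => (pm P)^[k + m] z) atTop (𝓝 z₀) := by
    refine h1.congr fun k => ?_
    rw [Function.iterate_add_apply]
  exact (tendsto_add_atTop_iff_nat m).1 h2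

end PRI_

open PRI_

theorem p_PRI (hP : T_POLY) (hL : T_PRL) : T_PRI := by
  intro n P z₀ R _ hb ho g hg
  obtain ⟨r, κ, hr, hκ0, hκ1, hball, hcon⟩ := hb.loc
  have hbd : UU P z₀ ⊆ ball 0 R := by
    intro z hz
    by_contra hn
    have h1 : R ≤ ‖z‖ := by
      rw [mem_ball_zero_iff, not_lt] at hn
      exact hn
    have h2 : z ∈ Om P := (ho.iff z).2 ⟨0, h1⟩
    have h3 : Tendsto (fun m : ℕ => ‖(pm P)^[m] z‖) atTop atTop := h2
    have h4 : Tendsto (fun m : ℕ => (pm P)^[m] z) atTop (𝓝 z₀) := hb.sub hz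
    exact not_tendsto_nhds_of_tendsto_atTop h3 _ h4.norm
  have hcomp : ∀ m : ℕ, IsCompact (UU P z₀ ∩ {z | ‖(Q P z₀ m).eval z‖ ≤ r}) := by
    intro m
    refine Metric.isCompact_of_isClosed_isBounded ?_ ?_
    · refine isClosed_of_closure_subset fun z hz => ?_
      have h1 : z ∈ closure (UU P z₀) := closure_mono inter_subset_left hz
      have hcl : IsClosed {z : ℂ | ‖(Q P z₀ m).eval z‖ ≤ r} :=
        isClosed_le (Polynomial.continuous _).norm continuous_const
      have h2 : z ∈ {z : ℂ | ‖(Q P z₀ m).eval z‖ ≤ r} :=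
        hcl.closure_subset_iff.2 inter_subset_right hz
      refine ⟨hb.cl z h1 ?_, h2⟩
      apply mem_Ba_of_iter m
      apply hb.sub
      apply hball
      rw [mem_closedBall, dist_eq_norm, ← Q_eval]
      exact h2
    · exact (Metric.isBounded_ball.subset hbd).subset inter_subset_left
  let W : ℕ → Set ℂ := fun m => UU P z₀ ∩ {z | ‖(pm P)^[m] z - z₀‖ < r / 2}
  refine hL (UU P z₀) W g hb.opn hb.con ?_ ?_ ?_ ?_
  · intro m
    refine hb.opn.inter ?_
    exact isOpen_lt ((((pm_cont P).iterate m).sub continuous_const).norm) continuous_const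
  · refine monotone_nat_of_le_succ fun m z hz => ⟨hz.1, ?_⟩
    have h1 : ‖(pm P)^[m] z - z₀‖ < r / 2 := hz.2
    have h2 : (pm P)^[m] z ∈ closedBall z₀ r := by
      rw [mem_closedBall, dist_eq_norm]
      linarith
    have h3 := hcon _ h2
    have h4 : κ * ‖(pm P)^[m] z - z₀‖ ≤ 1 * ‖(pm P)^[m] z - z₀‖ :=
      mul_le_mul_of_nonneg_right hκ1.le (norm_nonneg _)
    show ‖(pm P)^[m + 1] z - z₀‖ < r / 2
    rw [Function.iterate_succ_apply']
    linarith
  · ext z
    rw [mem_iUnion]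
    constructor
    · rintro ⟨m, hm⟩
      exact hm.1
    · intro hz
      have h1 : Tendsto (fun m : ℕ => (pm P)^[m] z) atTop (𝓝 z₀) := hb.sub hz
      have h2 := (h1.eventually (Metric.ball_mem_nhds z₀ (half_pos hr))).exists
      obtain ⟨m, hm⟩ := h2
      refine ⟨m, hz, ?_⟩
      rwa [dist_eq_norm] at hm
  · intro m ε hε
    obtain ⟨p, hp⟩ := hP (UU P z₀) (Q P z₀ m) (r / 2) r g hb.opn (half_pos hr).le
      (half_lt_self hr) (hcomp m) hg ε hε
    refine ⟨p, fun z hz => hp z hz.1 ?_⟩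
    rw [Q_eval]
    exact le_of_lt hz.2

end Pool.Agent.BSL
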