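import Pool.Agent.BSL.Targets

/-!
# BSL: target PRL
-/

set_option autoImplicit false

open Polynomial Metric Set Filter Topology

noncomputable section

namespace Pool.Agent.BSL

namespace PRL_

/-- polynomials have antiderivatives -/
theorem exists_antideriv (p : ℂ[X]) : ∃ q : ℂ[X], derivative q = p := by
  induction p using Polynomial.induction_on' with
  | add p q hp hq =>
    obtain ⟨P, hP⟩ := hp
    obtain ⟨Q, hQ⟩ := hq
    exact ⟨P + Q, by rw [derivative_add, hP, hQ]⟩
  | monomial n a =>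
    refine ⟨monomial (n + 1) (a / ((n : ℂ) + 1)), ?_⟩
    rw [derivative_monomial]
    have : ((n : ℂ) + 1) ≠ 0 := Nat.cast_add_one_ne_zero n
    simp only [Nat.add_sub_cancel]
    congr 1
    push_cast
    field_simp

end PRL_

open PRL_ in
theorem p_PRL : T_PRL := by
  intro U W g hU hUc hW hWm hWU happ
  rcases U.eq_empty_or_nonempty with hE | ⟨z₀, hz₀⟩
  · exact ⟨fun _ => 0, fun z hz => by rw [hE] at hz; exact absurd hz (notMem_empty z)⟩
  choose p hp using fun m : ℕ => happ m (1 / ((m : ℝ) + 1)) (by positivity)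
  choose P hP using fun m => exists_antideriv (p m)
  set q : ℕ → ℂ → ℂ := fun m z => (P m).eval z - (P m).eval z₀ with hq
  have hder : ∀ (m : ℕ) (z : ℂ), HasDerivAt (q m) ((p m).eval z) z := by
    intro m z
    have h1 := ((P m).hasDerivAt z).sub_const ((P m).eval z₀)
    rw [hP m] at h1
    exact h1
  -- uniform Cauchy on each `W M`
  have hcau : ∀ M : ℕ, TendstoUniformlyOn (fun m z => (p m).eval z) g atTop (W M) := by
    intro M
    rw [Metric.tendstoUniformlyOn_iff]
    intro ε hε
    have h1 : Tendsto (fun m : ℕ => 1 / ((m : ℝ) + 1)) atTop (𝓝 0) :=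
      tendsto_one_div_add_atTop_nhds_zero_nat
    filter_upwards [h1.eventually_lt_const hε, eventually_ge_atTop M] with m hm1 hm2 z hz
    rw [dist_eq_norm]
    exact lt_of_le_of_lt (hp m z (hWm hm2 hz)) hm1
  have hball : ∀ (z : ℂ) (r : ℝ) (M : ℕ), ball z r ⊆ W M → CauchySeq (fun m => q m z) →
      ∀ x ∈ ball z r, CauchySeq (fun m => q m x) := by
    intro z r M hzr hz x hx
    have h1 : UniformCauchySeqOn (fun m z => (p m).eval z) atTop (ball z r) :=
      ((hcau M).mono hzr).uniformCauchySeqOn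
    have h2 := uniformCauchySeqOn_ball_of_deriv (f := q) h1 (fun n y _ => hder n y) hz
    exact h2.cauchySeq hx
  have hnb : ∀ z ∈ U, ∃ r > 0, ∃ M : ℕ, ball z r ⊆ W M := by
    intro z hz
    rw [← hWU] at hz
    obtain ⟨M, hM⟩ := mem_iUnion.mp hz
    obtain ⟨r, hr, h⟩ := Metric.isOpen_iff.mp (hW M) z hM
    exact ⟨r, hr, M, h⟩
  have hWsub : ∀ M, W M ⊆ U := fun M => hWU ▸ subset_iUnion W M
  set S : Set ℂ := {z | z ∈ U ∧ CauchySeq (fun m => q m z)} with hS
  have hSopen : IsOpen S := by
    rw [Metric.isOpen_iff]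
    intro z hz
    obtain ⟨r, hr, M, hM⟩ := hnb z hz.1
    exact ⟨r, hr, fun x hx => ⟨hWsub M (hM hx), hball z r M hM hz.2 x hx⟩⟩
  have hUS : U ⊆ S := by
    apply hUc.subset_of_closure_inter_subset hSopen
    · refine ⟨z₀, hz₀, hz₀, ?_⟩
      have : (fun m => q m z₀) = fun _ => 0 := by
        funext m
        simp [hq]
      rw [this]
      exact cauchySeq_const 0
    · rintro z ⟨hz1, hz2⟩
      obtain ⟨r, hr, M, hM⟩ := hnb z hz2
      obtain ⟨y, hy1, hy2⟩ := Metric.mem_closure_iff.mp hz1 (r / 2) (by linarith)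
      refine ⟨hz2, hball y (r / 2) M (fun x hx => hM ?_) hy1.2 z hy2⟩
      rw [mem_ball] at hx ⊢
      calc dist x z ≤ dist x y + dist y z := dist_triangle x y z
        _ < r / 2 + r / 2 := add_lt_add hx (by rw [dist_comm]; exact hy2)
        _ = r := by ring
  refine ⟨fun z => limUnder atTop (fun m => q m z), fun z hz => ?_⟩
  have hloc : TendstoLocallyUniformlyOn (fun m z => (p m).eval z) g atTop U := by
    rw [Metric.tendstoLocallyUniformlyOn_iff]
    intro ε hε x hx
    obtain ⟨r, hr, M, hM⟩ := hnb x hx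
    refine ⟨ball x r, mem_nhdsWithin_of_mem_nhds (ball_mem_nhds x hr), ?_⟩
    have h1 := (Metric.tendstoUniformlyOn_iff.mp (hcau M)) ε hε
    filter_upwards [h1] with m hm y hy
    exact hm y (hM hy)
  exact hasDerivAt_of_tendstoLocallyUniformlyOn hU hloc
    (Eventually.of_forall fun m x _ => hder m x)
    (fun x hx => (hUS hx).2.tendsto_limUnder) hz

end Pool.Agent.BSL
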