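import Pool.Agent.BSL.Targets

/-!
# BSL-PRP: properness of `h ∘ P ∘ ψ`
-/

set_option autoImplicit false

open Polynomial Metric Set Filter Topology

noncomputable section

namespace Pool.Agent.BSL

open Pool.Agent.MAT

namespace PRP_

theorem bdd {P : ℂ[X]} {z₀ : ℂ} {R : ℝ} (hb : BF P z₀) (ho : OmF P R) :
    Bornology.IsBounded (UU P z₀) := by
  refine (isBounded_ball (x := (0 : ℂ)) (r := R)).subset fun z hz => ?_
  rw [mem_ball_zero_iff]
  by_contra hR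
  have h1 : z ∈ Om P := (ho.iff z).2 ⟨0, by simpa using hR⟩
  have h2 : Tendsto (fun m : ℕ => ‖(pm P)^[m] z‖) atTop atTop := h1
  have h3 : Tendsto (fun m : ℕ => (pm P)^[m] z) atTop (𝓝 z₀) := hb.sub hz
  exact not_tendsto_nhds_of_tendsto_atTop h2 _ h3.norm

theorem ba_of {P : ℂ[X]} {z₀ z : ℂ} (h : pm P z ∈ Ba P z₀) : z ∈ Ba P z₀ := by
  have h1 : Tendsto (fun m : ℕ => (pm P)^[m] (pm P z)) atTop (𝓝 z₀) := h
  have h2 : Tendsto (fun m : ℕ => (pm P)^[m + 1] z) atTop (𝓝 z₀) := by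
    simpa only [Function.iterate_succ_apply] using h1
  exact (tendsto_add_atTop_iff_nat 1).1 h2

end PRP_

theorem p_PRP : T_PRP := by
  intro n P z₀ ψ h R _ hb ho hr
  have hU : ∀ w ∈ ball (0 : ℂ) 1, ψ w ∈ UU P z₀ := by
    intro w hw
    rw [← hr.img]
    exact mem_image_of_mem ψ hw
  have hlt : ∀ w ∈ ball (0 : ℂ) 1, ‖h (pm P (ψ w))‖ < 1 := by
    intro w hw
    have := hr.hmem _ (hb.map _ (hU w hw))
    rwa [mem_ball_zero_iff] at this
  refine ⟨hlt, fun ε hε => ?_⟩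
  by_contra hcon
  push Not at hcon
  have hseq : ∀ k : ℕ, ∃ w : ℂ, 1 - 1 / ((k : ℝ) + 1) < ‖w‖ ∧ ‖w‖ < 1 ∧
      ‖h (pm P (ψ w))‖ ≤ 1 - ε := by
    intro k
    have hk : (0 : ℝ) < 1 / ((k : ℝ) + 1) := by positivity
    exact hcon (1 - 1 / ((k : ℝ) + 1)) (by linarith)
  choose w hw1 hw2 hw3 using hseq
  have hwb : ∀ k, w k ∈ ball (0 : ℂ) 1 := fun k => by
    rw [mem_ball_zero_iff]
    exact hw2 k
  obtain ⟨z, hz, φ, hφ, hlim⟩ := tendsto_subseq_of_bounded (PRP_.bdd hb ho)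
    (fun k => hU (w k) (hwb k))
  have hsub : closedBall (0 : ℂ) (1 - ε) ⊆ ball 0 1 := closedBall_subset_ball (by linarith)
  have hC : IsCompact (ψ '' closedBall (0 : ℂ) (1 - ε)) :=
    (isCompact_closedBall _ _).image_of_continuousOn (hr.hol.continuousOn.mono hsub)
  have hmem : ∀ k, pm P (ψ (w (φ k))) ∈ ψ '' closedBall (0 : ℂ) (1 - ε) := by
    intro k
    refine ⟨h (pm P (ψ (w (φ k)))), ?_, hr.ψh _ (hb.map _ (hU _ (hwb _)))⟩
    rw [mem_closedBall_zero_iff]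
    exact hw3 _
  have hPc : Continuous (pm P) := P.continuous
  have hPlim : Tendsto (fun k => pm P (ψ (w (φ k)))) atTop (𝓝 (pm P z)) :=
    (hPc.tendsto z).comp hlim
  have hPz : pm P z ∈ ψ '' closedBall (0 : ℂ) (1 - ε) :=
    hC.isClosed.mem_of_tendsto hPlim (Eventually.of_forall hmem)
  have hPzU : pm P z ∈ UU P z₀ := by
    rw [← hr.img]
    exact image_mono hsub hPz
  have hzU : z ∈ UU P z₀ := hb.cl z hz (PRP_.ba_of (hb.sub hPzU))
  have hhc : ContinuousAt h z := (hr.hhol.differentiableAt (hb.opn.mem_nhds hzU)).continuousAt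
  have h1 : Tendsto (fun k => h (ψ (w (φ k)))) atTop (𝓝 (h z)) := hhc.tendsto.comp hlim
  have h2 : Tendsto (fun k => w (φ k)) atTop (𝓝 (h z)) := by
    refine h1.congr fun k => ?_
    exact hr.hψ _ (hwb _)
  have h3 : Tendsto (fun k => ‖w (φ k)‖) atTop (𝓝 ‖h z‖) := h2.norm
  have h4 : Tendsto (fun k : ℕ => 1 - 1 / ((k : ℝ) + 1)) atTop (𝓝 (1 - 0)) :=
    tendsto_const_nhds.sub tendsto_one_div_add_atTop_nhds_zero_nat
  have h5 : Tendsto (fun k : ℕ => 1 - 1 / ((φ k : ℝ) + 1)) atTop (𝓝 (1 - 0)) :=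
    h4.comp hφ.tendsto_atTop
  have h6 : (1 : ℝ) - 0 ≤ ‖h z‖ := le_of_tendsto_of_tendsto' h5 h3 fun k => (hw1 (φ k)).le
  have h7 := hr.hmem z hzU
  rw [mem_ball_zero_iff] at h7
  linarith

end Pool.Agent.BSL
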