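import Pool.Agent.BSL.Targets
import Pool.Agent.MAT.P_BLA

/-!
# BSL: PSE (the extension of the Riemann map to the closed disk)
-/

set_option autoImplicit false

open Polynomial Metric Set Filter Topology

noncomputable section

namespace Pool.Agent.BSL

open Pool.Agent.MAT

theorem p_PSE (hH : T_HOE) : T_PSE := by
  intro n P z₀ R ψ h B ρ C α hC hR hB hρ0 hρ1 hα hder hX
  have hsub : {w : ℂ | ρ < ‖w‖ ∧ ‖w‖ < 1} ⊆ ball 0 1 := fun w hw => by simpa using hw.2
  obtain ⟨g, hgc, hg⟩ := hH ψ ρ C α hρ0 hρ1 hα (hR.hol.mono hsub) hder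
  obtain ⟨hB0, -, hBc, hBl, hBs, -⟩ := p_BLA n B hC.hp.hn hB.blas
  set f : ℂ → ℂ := fun w => if ‖w‖ < 1 then ψ w else g w with hf
  have hfb : ∀ w ∈ ball (0 : ℂ) 1, f w = ψ w := by
    intro w hw
    have : ‖w‖ < 1 := by simpa using hw
    simp [hf, this]
  have hfg : ∀ w : ℂ, ρ < ‖w‖ → ‖w‖ ≤ 1 → f w = g w := by
    intro w h1 h2
    by_cases h3 : ‖w‖ < 1
    · simp only [hf, h3, if_true]
      exact (hg w h1 h3).symm
    · simp only [hf, h3, if_false]
  have hcl : closure (ball (0 : ℂ) 1) = closedBall 0 1 := closure_ball 0 one_ne_zero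
  have hfc : ContinuousOn f (closedBall 0 1) := by
    intro w hw
    by_cases h3 : ‖w‖ < 1
    · have hw' : w ∈ ball (0 : ℂ) 1 := by simpa using h3
      have h4 : ContinuousAt ψ w :=
        (hR.hol.continuousOn.continuousAt (isOpen_ball.mem_nhds hw'))
      have h5 : f =ᶠ[𝓝 w] ψ := by
        filter_upwards [isOpen_ball.mem_nhds hw'] with v hv using hfb v hv
      exact (h4.congr h5.symm).continuousWithinAt
    · have h6 : ‖w‖ ≤ 1 := by simpa using hw
      have h7 : ρ < ‖w‖ := by linarith [not_lt.1 h3]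
      have h8 : ContinuousWithinAt g {w | ρ < ‖w‖ ∧ ‖w‖ ≤ 1} w := hgc w ⟨h7, h6⟩
      have hop : {v : ℂ | ρ < ‖v‖} ∈ 𝓝 w :=
        (isOpen_lt continuous_const continuous_norm).mem_nhds h7
      have hin : {w : ℂ | ρ < ‖w‖ ∧ ‖w‖ ≤ 1} ∈ 𝓝[closedBall 0 1] w := by
        filter_upwards [self_mem_nhdsWithin, mem_nhdsWithin_of_mem_nhds hop] with v hv hv2
        exact ⟨hv2, by simpa using hv⟩
      have h9 : ContinuousWithinAt g (closedBall 0 1) w := h8.mono_of_mem_nhdsWithin hin
      refine h9.congr_of_eventuallyEq ?_ (hfg w h7 h6)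
      filter_upwards [hin] with v hv using hfg v hv.1 hv.2
  have hBm : MapsTo B (closedBall 0 1) (closedBall 0 1) := by
    intro z hz
    have hz' : ‖z‖ ≤ 1 := by simpa using hz
    rcases lt_or_eq_of_le hz' with h1 | h1
    · by_cases h0 : z = 0
      · subst h0
        rw [hB0]
        simp
      · have h2 := hBl z (by simpa using h1) h0
        simp only [mem_closedBall, dist_zero_right]
        linarith
    · have h2 := (hBs z hz).2 h1
      simp [h2]
  have himg : f '' ball 0 1 = UU P z₀ := by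
    rw [← hR.img]
    exact image_congr hfb
  have hUf : ∀ w ∈ ball (0 : ℂ) 1, f w ∈ UU P z₀ := fun w hw => by
    rw [← himg]
    exact mem_image_of_mem f hw
  have hBb : ∀ w ∈ ball (0 : ℂ) 1, B w ∈ ball (0 : ℂ) 1 := by
    intro z hz
    have hz' : ‖z‖ < 1 := by simpa using hz
    by_cases h0 : z = 0
    · subst h0
      rw [hB0]
      simp
    · have h2 := hBl z hz h0
      simp only [mem_ball, dist_zero_right]
      linarith
  have hsw : ∀ w : ℂ, ‖w‖ = 1 → f w ∉ UU P z₀ := by
    intro w hw hU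
    have hwc : w ∈ closedBall (0 : ℂ) 1 := by simp [hw]
    have h1 : ContinuousAt h (f w) :=
      hR.hhol.continuousOn.continuousAt (hC.bf.opn.mem_nhds hU)
    have h2 : ContinuousWithinAt f (ball 0 1) w := (hfc w hwc).mono ball_subset_closedBall
    have h3 : Tendsto (fun v => h (f v)) (𝓝[ball 0 1] w) (𝓝 (h (f w))) := h1.tendsto.comp h2
    have h4 : Tendsto (fun v : ℂ => v) (𝓝[ball 0 1] w) (𝓝 w) :=
      tendsto_nhdsWithin_of_tendsto_nhds tendsto_id
    have h5 : Tendsto (fun v => h (f v)) (𝓝[ball 0 1] w) (𝓝 w) := by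
      refine h4.congr' ?_
      filter_upwards [self_mem_nhdsWithin] with v hv
      rw [hfb v hv, hR.hψ v hv]
    have hne : (𝓝[ball (0 : ℂ) 1] w).NeBot := by
      rw [← mem_closure_iff_nhdsWithin_neBot, hcl]
      exact hwc
    have h6 : h (f w) = w := tendsto_nhds_unique h3 h5
    have h7 := hR.hmem (f w) hU
    rw [h6] at h7
    simp [hw] at h7
  refine ⟨f, ⟨hfc, hR.hol.congr hfb, ?_, himg, ?_, ?_, ?_⟩⟩
  · intro a ha b hb hab
    rw [hfb a ha, hfb b hb] at hab
    exact hR.inj ha hb hab
  · rw [hfb 0 (by simp), hR.zero]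
  · apply Subset.antisymm
    · rintro _ ⟨w, hw, rfl⟩
      have hw' : ‖w‖ = 1 := by simpa using hw
      have hwc : w ∈ closedBall (0 : ℂ) 1 := by simp [hw']
      have h2 : ContinuousWithinAt f (ball 0 1) w := (hfc w hwc).mono ball_subset_closedBall
      have h3 : f w ∈ closure (UU P z₀) := by
        refine h2.mem_closure ?_ hUf
        rw [hcl]
        exact hwc
      rcases hC.xf.clU h3 with h4 | h4
      · exact absurd h4 (hsw w hw')
      · exact h4
    · intro x hx
      have hcpt : IsCompact (f '' closedBall 0 1) :=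
        (isCompact_closedBall (0 : ℂ) 1).image_of_continuousOn hfc
      have hsub2 : closure (UU P z₀) ⊆ f '' closedBall 0 1 := by
        refine closure_minimal ?_ hcpt.isClosed
        rw [← himg]
        exact image_mono ball_subset_closedBall
      obtain ⟨w, hw, hwx⟩ := hsub2 (hX hx)
      have hw1 : ‖w‖ ≤ 1 := by simpa using hw
      rcases lt_or_eq_of_le hw1 with h1 | h1
      · exfalso
        have h2 := hUf w (by simpa using h1)
        rw [hwx] at h2
        exact hx (Or.inl h2)
      · exact ⟨w, by simpa using h1, hwx⟩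
  · have h1 : ContinuousOn (fun w => pm P (f w)) (closedBall 0 1) :=
      P.continuous.comp_continuousOn hfc
    have h2 : ContinuousOn (fun w => f (B w)) (closedBall 0 1) := hfc.comp hBc hBm
    have h3 : EqOn (fun w => pm P (f w)) (fun w => f (B w)) (ball 0 1) := by
      intro w hw
      simp only
      rw [hfb w hw, hfb (B w) (hBb w hw), hB.conj w hw]
    exact h3.of_subset_closure h1 h2 ball_subset_closedBall hcl.symm.subset

end Pool.Agent.BSL
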