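import Pool.Agent.BSL.Targets

/-!
# BSL: from exponential to polynomial rates
-/

set_option autoImplicit false

open Metric Set Filter Topology

noncomputable section

namespace Pool.Agent.BSL

theorem p_RAT : T_RAT := by
  intro T D ρ L C lam hρ0 hρ1 hL hC hlam0 hlam1 hT hD
  have hL0 : 0 < L := by linarith
  have hlogL : 0 < Real.log L := Real.log_pos hL
  have hloglam : Real.log lam < 0 := Real.log_neg hlam0 hlam1
  set α : ℝ := -Real.log lam / Real.log L with hα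
  have hαpos : 0 < α := div_pos (by linarith) hlogL
  have hlamL : lam = (L ^ α)⁻¹ := by
    rw [← Real.rpow_neg hL0.le, Real.rpow_def_of_pos hL0]
    have h1 : Real.log L * -α = Real.log lam := by
      rw [hα]
      field_simp
    rw [h1, Real.exp_log hlam0]
  refine ⟨C * lam⁻¹ * ((1 - ρ) ^ α)⁻¹, α, ?_, hαpos, ?_⟩
  · have : (0 : ℝ) ≤ (1 - ρ) ^ α := Real.rpow_nonneg (by linarith) _
    positivity
  intro w hw0 hw1
  set t : ℝ := 1 - ‖w‖ with ht
  have ht0 : 0 < t := by linarith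
  have ht1 : t ≤ 1 - ρ := by linarith
  obtain ⟨k, hk⟩ : ∃ k : ℕ, 1 - ρ < L ^ k * t := by
    obtain ⟨k, hk⟩ := pow_unbounded_of_one_lt ((1 - ρ) / t) hL
    exact ⟨k, by rwa [div_lt_iff₀ ht0] at hk⟩
  classical
  have hex : ∃ k : ℕ, 1 - ρ < L ^ k * t := ⟨k, hk⟩
  have hfind := Nat.find_spec hex
  have hfmin : ∀ i, i < Nat.find hex → L ^ i * t ≤ 1 - ρ := fun i hi =>
    not_lt.mp (Nat.find_min hex hi)
  obtain ⟨m, hm⟩ : ∃ m, Nat.find hex = m + 1 := by
    refine Nat.exists_eq_succ_of_ne_zero ?_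
    intro h0
    rw [h0, pow_zero, one_mul] at hfind
    linarith
  rw [hm] at hfind hfmin
  have hiter : ∀ i, i ≤ m → ‖T^[i] w‖ < 1 ∧ 1 - ‖T^[i] w‖ ≤ L ^ i * t := by
    intro i
    induction i with
    | zero =>
      intro _
      rw [Function.iterate_zero, id, pow_zero, one_mul]
      exact ⟨hw1, le_refl _⟩
    | succ i ih =>
      intro hi
      obtain ⟨h1, h2⟩ := ih (by omega)
      have h3 := hfmin i (by omega)
      obtain ⟨h4, h5⟩ := hT (T^[i] w) (by linarith) h1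
      rw [Function.iterate_succ_apply']
      refine ⟨h4, le_trans h5 ?_⟩
      rw [pow_succ]
      nlinarith
  obtain ⟨h1, h2⟩ := hiter m (le_refl _)
  have h3 := hfmin m (by omega)
  have h4 := hD w m hw0 hw1 (by linarith) h1
  have h5 : lam ^ (m + 1) ≤ t ^ α * ((1 - ρ) ^ α)⁻¹ := by
    have h6 : (1 - ρ) / t ≤ L ^ (m + 1) := by
      rw [div_le_iff₀ ht0]
      exact hfind.le
    have h7 : ((1 - ρ) / t) ^ α ≤ (L ^ (m + 1)) ^ α :=
      Real.rpow_le_rpow (div_nonneg (by linarith) ht0.le) h6 hαpos.le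
    have h8 : (L ^ (m + 1)) ^ α = (L ^ α) ^ (m + 1) := by
      rw [← Real.rpow_natCast, ← Real.rpow_natCast, ← Real.rpow_mul hL0.le,
        ← Real.rpow_mul hL0.le, mul_comm]
    have h9 : 0 < ((1 - ρ) / t) ^ α := Real.rpow_pos_of_pos (div_pos (by linarith) ht0) _
    rw [hlamL, inv_pow, ← h8]
    refine le_trans (inv_anti₀ h9 h7) ?_
    rw [Real.div_rpow (by linarith) ht0.le, inv_div, div_eq_mul_inv]
  calc D w ≤ C * lam ^ m := h4
    _ = C * lam⁻¹ * lam ^ (m + 1) := by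
      rw [pow_succ]
      field_simp
    _ ≤ C * lam⁻¹ * (t ^ α * ((1 - ρ) ^ α)⁻¹) := by
      have : 0 ≤ C * lam⁻¹ := by positivity
      exact mul_le_mul_of_nonneg_left h5 this
    _ = C * lam⁻¹ * ((1 - ρ) ^ α)⁻¹ * t ^ α := by ring

end Pool.Agent.BSL
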