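import Pool.Agent.BSL.Targets
import Pool.Agent.MAT.P_UL
import Pool.Agent.MAT.P_HUR
import Pool.Agent.MAT.P_HINJ

/-!
# BSL: RMA, the extremal function of the Riemann mapping theorem
-/

set_option autoImplicit false

open Metric Set Filter Topology

noncomputable section

namespace Pool.Agent.BSL

namespace RMA_

/-- admissible functions -/
structure Adm (U : Set ℂ) (z₀ : ℂ) (g : ℂ → ℂ) : Prop where
  hol : DifferentiableOn ℂ g U
  inj : InjOn g U
  mem : ∀ z ∈ U, g z ∈ ball (0 : ℂ) 1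
  zero : g z₀ = 0

lemma exists_adm (U : Set ℂ) (z₀ : ℂ) (hz : z₀ ∈ U)
    (hb : Bornology.IsBounded U) : ∃ g, Adm U z₀ g ∧ 0 < ‖deriv g z₀‖ := by
  obtain ⟨M, hM⟩ := hb.subset_ball z₀
  have hM0 : 0 < M := by
    have := hM hz
    rw [mem_ball, dist_self] at this
    exact this
  have hMc : (M : ℂ) ≠ 0 := by exact_mod_cast hM0.ne'
  have hd : ∀ z : ℂ, HasDerivAt (fun z : ℂ => (z - z₀) / M) (1 / M) z := fun z =>
    ((hasDerivAt_id z).sub_const z₀).div_const (M : ℂ)
  refine ⟨fun z => (z - z₀) / M, ⟨?_, ?_, ?_, ?_⟩, ?_⟩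
  · exact fun z _ => (hd z).differentiableAt.differentiableWithinAt
  · intro a _ b _ hab
    have h1 : a - z₀ = b - z₀ := by
      have h2 : (a - z₀) / M = (b - z₀) / M := hab
      field_simp at h2
      exact h2
    exact sub_left_injective h1
  · intro z hz
    have h1 := hM hz
    rw [mem_ball, dist_eq_norm] at h1
    rw [mem_ball_zero_iff, norm_div, Complex.norm_real, Real.norm_of_nonneg hM0.le, div_lt_one hM0]
    exact h1
  · simp
  · rw [(hd z₀).deriv]
    have : (1 : ℂ) / M ≠ 0 := div_ne_zero one_ne_zero hMc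
    exact norm_pos_iff.2 this

end RMA_

open RMA_ in
/-- the extremal function -/
theorem p_RMA : T_RMA := by
  intro U z₀ hU hpre hz hb
  obtain ⟨g₀, hg₀, hg₀'⟩ := exists_adm U z₀ hz hb
  obtain ⟨r, hr, hrU⟩ := Metric.nhds_basis_closedBall.mem_iff.1 (hU.mem_nhds hz)
  set A : Set ℝ := {x | ∃ g, Adm U z₀ g ∧ x = ‖deriv g z₀‖} with hA
  have hAne : A.Nonempty := ⟨_, g₀, hg₀, rfl⟩
  have hAb : BddAbove A := by
    refine ⟨1 / r, ?_⟩
    rintro x ⟨g, hg, rfl⟩
    refine Complex.norm_deriv_le_of_forall_mem_sphere_norm_le hr ?_ ?_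
    · refine DifferentiableOn.diffContOnCl ?_
      rw [closure_ball z₀ hr.ne']
      exact hg.hol.mono hrU
    · intro z hz
      have := hg.mem z (hrU (sphere_subset_closedBall hz))
      rw [mem_ball_zero_iff] at this
      exact this.le
  have hS : 0 < sSup A := hg₀'.trans_le (le_csSup hAb ⟨g₀, hg₀, rfl⟩)
  have hex : ∀ k : ℕ, ∃ g, Adm U z₀ g ∧ sSup A - 1 / ((k : ℝ) + 1) < ‖deriv g z₀‖ := by
    intro k
    have h1 : sSup A - 1 / ((k : ℝ) + 1) < sSup A := by
      have : (0 : ℝ) < 1 / ((k : ℝ) + 1) := by positivity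
      linarith
    obtain ⟨_, ⟨g, hg, rfl⟩, h2⟩ := exists_lt_of_lt_csSup hAne h1
    exact ⟨g, hg, h2⟩
  choose f hf hfS using hex
  set u : Ultrafilter ℕ := Filter.hyperfilter ℕ with hu
  have huT : (u : Filter ℕ) ≤ atTop := by
    rw [← Nat.cofinite_eq_atTop]
    exact Filter.hyperfilter_le_cofinite
  obtain ⟨g, hg, hlim⟩ := MAT.p_UL u U f hU (by
    intro x hx
    obtain ⟨s, hs, hsU⟩ := Metric.isOpen_iff.1 hU x hx
    refine ⟨s, 1, hs, hsU, Eventually.of_forall fun k => ⟨(hf k).hol.mono hsU, fun y hy => ?_⟩⟩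
    have := (hf k).mem y (hsU hy)
    rw [mem_ball_zero_iff] at this
    exact this.le)
  have hpt : ∀ z ∈ U, Tendsto (fun k => f k z) (u : Filter ℕ) (𝓝 (g z)) :=
    fun z hz => hlim.tendsto_at hz
  have hdl : Tendsto (fun k => deriv (f k) z₀) (u : Filter ℕ) (𝓝 (deriv g z₀)) :=
    (hlim.deriv (Eventually.of_forall fun k => (hf k).hol) hU).tendsto_at hz
  have hdS : ‖deriv g z₀‖ = sSup A := by
    have h1 : Tendsto (fun k => ‖deriv (f k) z₀‖) (u : Filter ℕ) (𝓝 (sSup A)) := by
      have h2 : Tendsto (fun k : ℕ => sSup A - 1 / ((k : ℝ) + 1)) (u : Filter ℕ)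
          (𝓝 (sSup A)) := by
        have h3 : Tendsto (fun k : ℕ => sSup A - 1 / ((k : ℝ) + 1)) atTop
            (𝓝 (sSup A - 0)) :=
          tendsto_const_nhds.sub tendsto_one_div_add_atTop_nhds_zero_nat
        rw [sub_zero] at h3
        exact h3.mono_left huT
      exact tendsto_of_tendsto_of_tendsto_of_le_of_le h2 tendsto_const_nhds
        (fun k => (hfS k).le) (fun k => le_csSup hAb ⟨f k, hf k, rfl⟩)
    exact tendsto_nhds_unique hdl.norm h1
  have hg0 : g z₀ = 0 := by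
    have h1 := hpt z₀ hz
    have h2 : (fun k => f k z₀) = fun _ => (0 : ℂ) := funext fun k => (hf k).zero
    rw [h2] at h1
    exact tendsto_nhds_unique h1 tendsto_const_nhds
  have hg1 : ∀ z ∈ U, ‖g z‖ ≤ 1 := by
    intro z hz
    refine le_of_tendsto (hpt z hz).norm (Eventually.of_forall fun k => ?_)
    have := (hf k).mem z hz
    rw [mem_ball_zero_iff] at this
    exact this.le
  have hinj : InjOn g U := by
    rcases MAT.p_HINJ MAT.p_HUR (u : Filter ℕ) f g U inferInstance hU hpre hg hlim (by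
      intro a ha b hb
      obtain ⟨s, hs, hsU⟩ := Metric.isOpen_iff.1 hU b hb
      refine ⟨s, hs, Eventually.of_forall fun k => ⟨(hf k).hol.mono hsU, ?_⟩⟩
      refine (hf k).inj.mono ?_
      rintro x (rfl | hx)
      · exact ha
      · exact hsU hx) with h | h
    · exact h
    · exfalso
      have h1 : g =ᶠ[𝓝 z₀] fun _ => g z₀ := by
        filter_upwards [hU.mem_nhds hz] with z hzU
        exact h z hzU z₀ hz
      have h2 : deriv g z₀ = 0 := by
        rw [h1.deriv_eq]
        exact deriv_const _ _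
      rw [h2, norm_zero] at hdS
      exact hS.ne hdS
  refine ⟨g, hg, hinj, ?_, hg0, ?_⟩
  · intro z hzU
    rw [mem_ball_zero_iff]
    refine lt_of_le_of_ne (hg1 z hzU) fun h1 => ?_
    have hmax : IsMaxOn (norm ∘ g) U z := by
      intro w hw
      change ‖g w‖ ≤ ‖g z‖
      rw [h1]
      exact hg1 w hw
    have h2 := Complex.eqOn_of_isPreconnected_of_isMaxOn_norm hpre hU hg hzU hmax hz
    rw [hg0] at h2
    rw [Function.const_apply] at h2
    rw [← h2, norm_zero] at h1
    exact zero_ne_one h1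
  · intro g' h1 h2 h3 h4
    rw [hdS]
    exact le_csSup hAb ⟨g', ⟨h1, h2, h3, h4⟩, rfl⟩

end Pool.Agent.BSL
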