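import Pool.Agent.BSL.Targets
import Pool.Agent.MAT.P_INVH

/-!
# BSL: the extremal function of the Riemann mapping theorem is onto (RMB)
-/

set_option autoImplicit false

open Polynomial Metric Set Filter Topology ComplexConjugate

noncomputable section

namespace Pool.Agent.BSL

open Pool.Agent.MAT

namespace RMB_

/-- the automorphism of the disk that moves `c` to `0` -/
def mo (c w : ℂ) : ℂ := (w - c) / (1 - conj c * w)

theorem den {c w : ℂ} (hc : ‖c‖ < 1) (hw : ‖w‖ < 1) : 1 - conj c * w ≠ 0 := by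
  intro h
  have h1 : conj c * w = 1 := (sub_eq_zero.1 h).symm
  have h2 : ‖c‖ * ‖w‖ = 1 := by
    rw [← Complex.norm_conj c, ← norm_mul, h1, norm_one]
  nlinarith [norm_nonneg c, norm_nonneg w]

theorem mo_lt {c w : ℂ} (hc : ‖c‖ < 1) (hw : ‖w‖ < 1) : ‖mo c w‖ < 1 := by
  have h0 : 0 < ‖1 - conj c * w‖ := norm_pos_iff.2 (den hc hw)
  unfold mo
  rw [norm_div, div_lt_one h0]
  have key : Complex.normSq (1 - conj c * w) - Complex.normSq (w - c) =
      (1 - Complex.normSq c) * (1 - Complex.normSq w) := by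
    simp only [Complex.normSq_apply, Complex.sub_re, Complex.sub_im, Complex.mul_re,
      Complex.mul_im, Complex.conj_re, Complex.conj_im, Complex.one_re, Complex.one_im]
    ring
  rw [Complex.normSq_eq_norm_sq, Complex.normSq_eq_norm_sq, Complex.normSq_eq_norm_sq,
    Complex.normSq_eq_norm_sq] at key
  have h1 : 0 < (1 - ‖c‖ ^ 2) * (1 - ‖w‖ ^ 2) := by
    apply mul_pos
    · nlinarith [norm_nonneg c]
    · nlinarith [norm_nonneg w]
  exact lt_of_pow_lt_pow_left₀ 2 h0.le (by linarith)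

theorem one_sub_ne {c : ℂ} (hc : ‖c‖ < 1) : 1 - conj c * c ≠ 0 := den hc hc

theorem mo_inj {c w w' : ℂ} (hc : ‖c‖ < 1) (hw : ‖w‖ < 1) (hw' : ‖w'‖ < 1)
    (h : mo c w = mo c w') : w = w' := by
  unfold mo at h
  rw [div_eq_div_iff (den hc hw) (den hc hw')] at h
  have h1 : (w - w') * (1 - conj c * c) = 0 := by linear_combination h
  exact sub_eq_zero.1 ((mul_eq_zero.1 h1).resolve_right (one_sub_ne hc))

theorem mo_deriv {c w : ℂ} (hc : ‖c‖ < 1) (hw : ‖w‖ < 1) :
    HasDerivAt (mo c) ((1 - conj c * c) / (1 - conj c * w) ^ 2) w := by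
  have h1 : HasDerivAt (fun w : ℂ => w - c) 1 w := (hasDerivAt_id w).sub_const c
  have h2 : HasDerivAt (fun w : ℂ => 1 - conj c * w) (-(conj c * 1)) w :=
    ((hasDerivAt_id w).const_mul (conj c)).const_sub 1
  have h3 := h1.div h2 (den hc hw)
  have h4 : (1 * (1 - conj c * w) - (w - c) * -(conj c * 1)) / (1 - conj c * w) ^ 2 =
      (1 - conj c * c) / (1 - conj c * w) ^ 2 := by
    congr 1
    ring
  rw [h4] at h3
  exact h3

theorem norm_one_sub {c : ℂ} (hc : ‖c‖ < 1) : ‖1 - conj c * c‖ = 1 - ‖c‖ ^ 2 := by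
  have h1 : 1 - conj c * c = ((1 - ‖c‖ ^ 2 : ℝ) : ℂ) := by
    rw [mul_comm, Complex.mul_conj, Complex.normSq_eq_norm_sq]
    push_cast
    ring
  rw [h1, Complex.norm_real, Real.norm_eq_abs, abs_of_pos]
  nlinarith [norm_nonneg c]

end RMB_

open RMB_

theorem p_RMB (hS : T_SQR) : T_RMB := by
  intro U z₀ f hU hpc hz₀ hPri hf hinj hball hf0 hext
  refine Subset.antisymm (by rintro _ ⟨z, hz, rfl⟩; exact hball z hz) ?_
  intro a ha
  by_contra hna
  have hb1 : ∀ z ∈ U, ‖f z‖ < 1 := fun z hz => by simpa using hball z hz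
  have ha1 : ‖a‖ < 1 := by simpa using ha
  have hFd : DifferentiableOn ℂ (fun z => mo a (f z)) U := by
    intro z hz
    exact ((mo_deriv ha1 (hb1 z hz)).differentiableAt.comp z
      (hf.differentiableAt (hU.mem_nhds hz))).differentiableWithinAt
  have hF0 : ∀ z ∈ U, mo a (f z) ≠ 0 := by
    intro z hz h
    unfold mo at h
    rcases div_eq_zero_iff.1 h with h1 | h1
    · exact hna ⟨z, hz, sub_eq_zero.1 h1⟩
    · exact den ha1 (hb1 z hz) h1
  obtain ⟨s, hs, hs2⟩ := hS U hU hpc hPri _ hFd hF0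
  have hs1 : ∀ z ∈ U, ‖s z‖ < 1 := by
    intro z hz
    have h1 : ‖s z‖ ^ 2 < 1 := by
      rw [← norm_pow, hs2 z hz]
      exact mo_lt ha1 (hb1 z hz)
    nlinarith [norm_nonneg (s z)]
  have hsinj : InjOn s U := by
    intro z hz z' hz' h
    apply hinj hz hz'
    apply mo_inj ha1 (hb1 z hz) (hb1 z' hz')
    rw [← hs2 z hz, ← hs2 z' hz', h]
  have hb : ‖s z₀‖ < 1 := hs1 z₀ hz₀
  have hbb : s z₀ ^ 2 = -a := by
    rw [hs2 z₀ hz₀, hf0]
    simp [mo]
  have ha0 : a ≠ 0 := by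
    rintro rfl
    exact hna ⟨z₀, hz₀, hf0⟩
  have hb0 : s z₀ ≠ 0 := by
    intro h
    rw [h] at hbb
    apply ha0
    rw [zero_pow two_ne_zero] at hbb
    exact (neg_eq_zero.1 hbb.symm)
  have hnb : ‖s z₀‖ ^ 2 = ‖a‖ := by
    rw [← norm_pow, hbb, norm_neg]
  have hdf : HasDerivAt f (deriv f z₀) z₀ := (hf.differentiableAt (hU.mem_nhds hz₀)).hasDerivAt
  have hds : HasDerivAt s (deriv s z₀) z₀ := (hs.differentiableAt (hU.mem_nhds hz₀)).hasDerivAt
  have hdF : HasDerivAt (fun z => mo a (f z)) ((1 - conj a * a) * deriv f z₀) z₀ := by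
    have h1 : HasDerivAt (mo a) (1 - conj a * a) (f z₀) := by
      have h2 := mo_deriv ha1 (hb1 z₀ hz₀)
      rw [hf0] at h2 ⊢
      simpa using h2
    exact h1.comp z₀ hdf
  have hdF' : HasDerivAt (fun z => mo a (f z)) (2 * s z₀ * deriv s z₀) z₀ := by
    have h1 : HasDerivAt (fun z => s z ^ 2) (2 * s z₀ * deriv s z₀) z₀ := by
      have h2 := hds.mul hds
      have h3 : (fun z => s z ^ 2) = s * s := by
        funext z
        rw [Pi.mul_apply, pow_two]
      rw [h3]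
      exact h2.congr_deriv (by ring)
    refine h1.congr_of_eventuallyEq ?_
    filter_upwards [hU.mem_nhds hz₀] with z hz
    exact (hs2 z hz).symm
  have heq := hdF.unique hdF'
  have hdg : HasDerivAt (fun z => mo (s z₀) (s z)) ((1 - conj (s z₀) * s z₀)⁻¹ * deriv s z₀)
      z₀ := by
    have h1 : HasDerivAt (mo (s z₀)) ((1 - conj (s z₀) * s z₀)⁻¹) (s z₀) := by
      have h2 := mo_deriv hb hb
      have h3 : (1 - conj (s z₀) * s z₀) / (1 - conj (s z₀) * s z₀) ^ 2 =
          (1 - conj (s z₀) * s z₀)⁻¹ := by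
        have := one_sub_ne hb
        field_simp
      rwa [h3] at h2
    exact h1.comp z₀ hds
  have h5 := hext (fun z => mo (s z₀) (s z)) ?_ ?_ ?_ ?_
  · rw [hdg.deriv, norm_mul, norm_inv, norm_one_sub hb] at h5
    have h6 : (1 - ‖a‖ ^ 2) * ‖deriv f z₀‖ = 2 * ‖s z₀‖ * ‖deriv s z₀‖ := by
      have h7 := congrArg (fun z => ‖z‖) heq
      simp only [norm_mul, norm_one_sub ha1, Complex.norm_ofNat] at h7
      exact h7
    have hfd : deriv f z₀ ≠ 0 := by
      obtain ⟨-, h, -, -, h8⟩ := p_INVH U f hU hf hinj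
      exact h8 z₀ hz₀
    have hfp : 0 < ‖deriv f z₀‖ := norm_pos_iff.2 hfd
    have hbp : 0 < ‖s z₀‖ := norm_pos_iff.2 hb0
    rw [← hnb] at h6
    generalize ‖s z₀‖ = β at *
    generalize ‖deriv f z₀‖ = D at *
    generalize ‖deriv s z₀‖ = E at *
    have h9 : 0 < 1 - β ^ 2 := by nlinarith
    rw [inv_mul_le_iff₀ h9] at h5
    have h10 : (1 - (β ^ 2) ^ 2) * D ≤ 2 * β * ((1 - β ^ 2) * D) := by
      rw [h6]
      exact mul_le_mul_of_nonneg_left h5 (by linarith)
    have h11 : 0 < (1 - β ^ 2) * D := mul_pos h9 hfp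
    have h12 : (1 + β ^ 2) * ((1 - β ^ 2) * D) ≤ 2 * β * ((1 - β ^ 2) * D) := by linarith
    have h13 := le_of_mul_le_mul_right h12 h11
    nlinarith
  · intro z hz
    exact ((mo_deriv hb (hs1 z hz)).differentiableAt.comp z
      (hs.differentiableAt (hU.mem_nhds hz))).differentiableWithinAt
  · intro z hz z' hz' h
    exact hsinj hz hz' (mo_inj hb (hs1 z hz) (hs1 z' hz') h)
  · intro z hz
    simpa using mo_lt hb (hs1 z hz)
  · simp [mo]

end Pool.Agent.BSL
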