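import Pool.Agent.BSL.Targets
import Pool.Agent.MAT.P_INVH

/-!
# BSL: Riemann mapping, conclusion (RMP)
-/

set_option autoImplicit false

open Polynomial Metric Set Filter Topology

noncomputable section

namespace Pool.Agent.BSL

theorem p_RMP (hA : T_RMA) (hB : T_RMB) : T_RMP := by
  intro U z₀ hU hc hz hb hP
  obtain ⟨f, f1, f2, f3, f4, f5⟩ := hA U z₀ hU hc hz hb
  have himg := hB U z₀ f hU hc hz hP f1 f2 f3 f4 f5
  obtain ⟨-, ψ, p1, p2, p3⟩ := Pool.Agent.MAT.p_INVH U f hU f1 f2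
  rw [himg] at p1
  have hinv : ∀ w ∈ ball (0 : ℂ) 1, ψ w ∈ U ∧ f (ψ w) = w := by
    intro w hw
    rw [← himg] at hw
    obtain ⟨z, hz, rfl⟩ := hw
    rw [p2 z hz]
    exact ⟨hz, rfl⟩
  have hinj : InjOn ψ (ball 0 1) := by
    intro a ha b hb hab
    rw [← (hinv a ha).2, ← (hinv b hb).2, hab]
  obtain ⟨-, -, -, -, q3⟩ := Pool.Agent.MAT.p_INVH (ball 0 1) ψ isOpen_ball p1 hinj
  refine ⟨ψ, f, ⟨p1, hinj, ?_, ?_, f1, f3, fun w hw => (hinv w hw).2, p2, q3, p3⟩⟩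
  · apply Set.Subset.antisymm
    · rintro _ ⟨w, hw, rfl⟩
      exact (hinv w hw).1
    · intro z hz
      exact ⟨f z, f3 z hz, p2 z hz⟩
  · rw [← f4]
    exact p2 z₀ hz

end Pool.Agent.BSL
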