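import Pool.Agent.BSL.Targets
import Pool.Agent.MAT.P_UL
import Pool.Agent.MAT.P_HUR

/-!
# BSL, item SHA: inverse branches on balls in the basin of infinity shrink
-/

set_option autoImplicit false

open Polynomial Metric Set Filter Topology

noncomputable section

namespace Pool.Agent.BSL

lemma SHA_esc {P : ℂ[X]} {R : ℝ} (hO : OmF P R) (w : ℂ) (hw : R ≤ ‖w‖) (k : ℕ) :
    R ≤ ‖(pm P)^[k] w‖ ∧ ‖w‖ ≤ ‖(pm P)^[k] w‖ := by
  induction k with
  | zero => exact ⟨hw, le_rfl⟩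
  | succ k ih =>
    rw [Function.iterate_succ_apply']
    have h1 := hO.esc _ ih.1
    have h2 := norm_nonneg ((pm P)^[k] w)
    constructor
    · linarith [ih.1]
    · linarith [ih.2]

lemma SHA_inv {P : ℂ[X]} {R : ℝ} (hO : OmF P R) (z : ℂ) (k : ℕ) :
    (pm P)^[k] z ∈ Om P ↔ z ∈ Om P := by
  induction k with
  | zero => exact Iff.rfl
  | succ k ih =>
    rw [Function.iterate_succ_apply', hO.inv, ih]

/-- inverse branches are bounded -/
lemma SHA_bd {P : ℂ[X]} {R : ℝ} (hO : OmF P R) {m : ℕ} {x : ℂ} {r : ℝ} {g : ℂ → ℂ}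
    (hg : Br P m x r g) (z : ℂ) (hz : z ∈ ball x r) : ‖g z‖ ≤ max R (‖x‖ + r) := by
  by_contra hc
  push Not at hc
  obtain ⟨h1, h2⟩ := max_lt_iff.1 hc
  have h3 := (SHA_esc hO (g z) h1.le m).2
  rw [hg.2 z hz] at h3
  have h4 : ‖z‖ ≤ ‖x‖ + r := by
    have h5 : ‖z - x‖ < r := by
      have := mem_ball.1 hz
      rwa [dist_eq_norm] at this
    calc ‖z‖ = ‖x + (z - x)‖ := by rw [add_sub_cancel]
      _ ≤ ‖x‖ + ‖z - x‖ := norm_add_le _ _
      _ ≤ ‖x‖ + r := by linarith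
  linarith

theorem p_SHA : T_SHA := by
  intro n P z₀ R C x r hball u m g hm hg
  have hO := C.om
  obtain ⟨G, hG, hlim⟩ := MAT.p_UL u (ball x r) g isOpen_ball (by
    intro y hy
    obtain ⟨ρ, hρ, hb⟩ := Metric.isOpen_iff.1 isOpen_ball y hy
    refine ⟨ρ, max R (‖x‖ + r), hρ, hb, ?_⟩
    filter_upwards [hg] with i hi
    exact ⟨hi.1.mono hb, fun z hz => SHA_bd hO hi z (hb hz)⟩)
  have key : ∀ z₁ ∈ ball x r, ∀ᶠ z in 𝓝 z₁, G z - G z₁ = 0 := by
    intro z₁ hz₁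
    by_contra hnz
    obtain ⟨ρ, hρ, hb⟩ := Metric.isOpen_iff.1 isOpen_ball z₁ hz₁
    have h1 := MAT.p_HUR (u : Filter ℕ) (fun i z => g i z - G z₁) (fun z => G z - G z₁) z₁ ρ hρ
      ((hG.mono hb).sub_const _) (by
        filter_upwards [hg] with i hi
        exact (hi.1.mono hb).sub_const _) (by
        have h2 := hlim.mono hb
        rw [Metric.tendstoLocallyUniformlyOn_iff] at h2 ⊢
        intro ε hε y hy
        obtain ⟨t, ht, h3⟩ := h2 ε hε y hy
        refine ⟨t, ht, ?_⟩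
        filter_upwards [h3] with i hi w hw
        have := hi w hw
        rwa [dist_sub_right]) (sub_self _) hnz ρ hρ
    have h2 : ∀ᶠ i in (u : Filter ℕ), (pm P)^[m i] (G z₁) ∈ ball x r := by
      filter_upwards [h1, hg] with i hi hi2
      obtain ⟨z, hz, hz0⟩ := hi
      have hzG : g i z = G z₁ := sub_eq_zero.1 hz0
      rw [← hzG, hi2.2 z (hb hz)]
      exact hb hz
    have h3 : G z₁ ∈ Om P := by
      obtain ⟨i, hi⟩ := h2.exists
      exact (SHA_inv hO _ _).1 (hball hi)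
    have h4 : Tendsto (fun k : ℕ => ‖(pm P)^[k] (G z₁)‖) atTop atTop := h3
    have h5 := (h4.comp hm).eventually_gt_atTop (‖x‖ + r)
    obtain ⟨i, hi1, hi2⟩ := (h2.and h5).exists
    have h6 : ‖(pm P)^[m i] (G z₁) - x‖ < r := by
      have := mem_ball.1 hi1
      rwa [dist_eq_norm] at this
    have h7 : ‖(pm P)^[m i] (G z₁)‖ ≤ ‖x‖ + ‖(pm P)^[m i] (G z₁) - x‖ := by
      calc ‖(pm P)^[m i] (G z₁)‖ = ‖x + ((pm P)^[m i] (G z₁) - x)‖ := by rw [add_sub_cancel]
        _ ≤ _ := norm_add_le _ _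
    have h8 : ‖x‖ + r < ‖(pm P)^[m i] (G z₁)‖ := hi2
    linarith
  have hder : EqOn (deriv G) 0 (ball x r) := by
    intro z₁ hz₁
    have h1 : G =ᶠ[𝓝 z₁] fun _ => G z₁ := by
      filter_upwards [key z₁ hz₁] with z hz
      exact sub_eq_zero.1 hz
    rw [h1.deriv_eq, deriv_const]
    rfl
  refine ⟨G x, hlim.congr_right fun z hz => ?_⟩
  have hx : x ∈ ball x r := mem_ball_self (pos_of_mem_ball hz)
  exact isOpen_ball.is_const_of_deriv_eq_zero (convex_ball x r).isPreconnected hG hder hz hx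

end Pool.Agent.BSL
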