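import Pool.Agent.BSL.Targets
import Pool.Agent.MAT.P_UL

/-!
# BSL: propagation of the shrinking of inverse branches
-/

set_option autoImplicit false

open Polynomial Metric Set Filter Topology

noncomputable section

namespace Pool.Agent.BSL

lemma SHB_grow {P : ℂ[X]} {R : ℝ} (h : OmF P R) (w : ℂ) (hw : R ≤ ‖w‖) (k : ℕ) :
    ‖w‖ ≤ ‖(pm P)^[k] w‖ := by
  induction k with
  | zero => exact le_rfl
  | succ k ih =>
    rw [Function.iterate_succ_apply']
    have h1 := h.esc _ (hw.trans ih)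
    have h2 : 0 ≤ ‖(pm P)^[k] w‖ := norm_nonneg _
    linarith

lemma SHB_bound {P : ℂ[X]} {R : ℝ} (h : OmF P R) {m : ℕ} {x : ℂ} {r : ℝ} {g : ℂ → ℂ}
    (hg : Br P m x r g) (z : ℂ) (hz : z ∈ ball x r) : ‖g z‖ ≤ max R (‖x‖ + r) := by
  by_contra hn
  rw [not_le, max_lt_iff] at hn
  have h1 := SHB_grow h (g z) hn.1.le m
  rw [hg.2 z hz] at h1
  have h2 : ‖z - x‖ < r := by rw [← dist_eq_norm]; exact hz
  have h3 : ‖z‖ ≤ ‖z - x‖ + ‖x‖ := by
    have := norm_add_le (z - x) x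
    rwa [sub_add_cancel] at this
  linarith [hn.2]

theorem p_SHB (hA : T_BRA) (hU : T_BRU) : T_SHB := by
  intro n P z₀ R hC x x' r r' hd _ hne hS u m g hm hg
  obtain ⟨p, hpx, hpx'⟩ := hne
  obtain ⟨G, hG, hlim⟩ := MAT.p_UL u (ball x' r') g isOpen_ball (by
    intro y hy
    obtain ⟨ρ, hρ, hsub⟩ := Metric.isOpen_iff.1 isOpen_ball y hy
    refine ⟨ρ, max R (‖x'‖ + r'), hρ, hsub, hg.mono fun i hi => ⟨hi.1.mono hsub, fun z hz => ?_⟩⟩
    exact SHB_bound hC.om hi z (hsub hz))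
  have hex : ∀ i, ∃ f : ℂ → ℂ, Br P (m i) x' r' (g i) → Br P (m i) x r f ∧ f p = g i p := by
    intro i
    by_cases hi : Br P (m i) x' r' (g i)
    · obtain ⟨f, hf, hfp⟩ := hA n P z₀ R hC (m i) x p (g i p) r hd hpx (hi.2 p hpx')
      exact ⟨f, fun _ => ⟨hf, hfp⟩⟩
    · exact ⟨0, fun h => (hi h).elim⟩
  choose f hf using hex
  obtain ⟨c, hc⟩ := hS u m f hm (hg.mono fun i hi => (hf i hi).1)
  refine ⟨c, hlim.congr_right ?_⟩
  have hGc : ∀ z ∈ ball x r ∩ ball x' r', G z = c := by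
    intro z hz
    have h1 : Tendsto (fun i => g i z) (u : Filter ℕ) (𝓝 (G z)) := hlim.tendsto_at hz.2
    have h2 : Tendsto (fun i => f i z) (u : Filter ℕ) (𝓝 c) := hc.tendsto_at hz.1
    refine tendsto_nhds_unique_of_eventuallyEq h1 h2 (hg.mono fun i hi => ?_)
    exact (hU P (m i) x x' p r r' (f i) (g i) (hf i hi).1 hi ⟨hpx, hpx'⟩ (hf i hi).2 hz).symm
  have han : AnalyticOnNhd ℂ G (ball x' r') := hG.analyticOnNhd isOpen_ball
  refine han.eqOn_of_preconnected_of_eventuallyEq analyticOnNhd_const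
    (convex_ball x' r').isPreconnected hpx' ?_
  filter_upwards [(isOpen_ball.inter isOpen_ball).mem_nhds ⟨hpx, hpx'⟩] with z hz
  exact hGc z hz

end Pool.Agent.BSL
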