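import Pool.Agent.BSL.Targets

/-!
# BSL: target SHC (all balls off the critical orbits shrink)
-/

set_option autoImplicit false

open Polynomial Metric Set Filter Topology

noncomputable section

namespace Pool.Agent.BSL

open Pool.Agent.MAT

theorem p_SHC (hA : T_SHA) (hB : T_SHB) : T_SHC := by
  intro n P z₀ R h
  have hK : IsClosed (KK P z₀) := h.kf.cpt.isClosed
  -- the two open sets
  have key : (KK P z₀)ᶜ ⊆ {x : ℂ | ∃ r : ℝ, 0 < r ∧ Disjoint (ball x r) (KK P z₀) ∧ Shr P x r} := by
    refine IsPreconnected.subset_left_of_subset_union (v := {x : ℂ | ∃ r : ℝ, 0 < r ∧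
      Disjoint (ball x r) (KK P z₀) ∧ ¬ Shr P x r}) ?_ ?_ ?_ ?_ ?_ h.kf.con
    · rw [Metric.isOpen_iff]
      rintro x ⟨r, hr, hd, hs⟩
      refine ⟨r / 2, half_pos hr, fun y hy => ?_⟩
      have hsub : ball y (r / 2) ⊆ ball x r := by
        refine ball_subset_ball' ?_
        have := mem_ball.mp hy
        linarith
      have hd' : Disjoint (ball y (r / 2)) (KK P z₀) := hd.mono_left hsub
      refine ⟨r / 2, half_pos hr, hd', ?_⟩
      refine hB n P z₀ R h x y r (r / 2) hd hd' ⟨y, ?_, mem_ball_self (half_pos hr)⟩ hs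
      exact hsub (mem_ball_self (half_pos hr))
    · rw [Metric.isOpen_iff]
      rintro x ⟨r, hr, hd, hs⟩
      refine ⟨r / 2, half_pos hr, fun y hy => ?_⟩
      have hsub : ball y (r / 2) ⊆ ball x r := by
        refine ball_subset_ball' ?_
        have := mem_ball.mp hy
        linarith
      have hd' : Disjoint (ball y (r / 2)) (KK P z₀) := hd.mono_left hsub
      refine ⟨r / 2, half_pos hr, hd', fun hc => hs ?_⟩
      refine hB n P z₀ R h y x (r / 2) r hd' hd ⟨y, mem_ball_self (half_pos hr), ?_⟩ hc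
      exact hsub (mem_ball_self (half_pos hr))
    · rw [Set.disjoint_left]
      rintro x ⟨r, hr, hd, hs⟩ ⟨r', hr', hd', hs'⟩
      exact hs' (hB n P z₀ R h x x r r' hd hd' ⟨x, mem_ball_self hr, mem_ball_self hr'⟩ hs)
    · intro x hx
      obtain ⟨r, hr, hb⟩ := Metric.isOpen_iff.mp hK.isOpen_compl x hx
      have hd : Disjoint (ball x r) (KK P z₀) := by
        rw [Set.disjoint_left]
        intro y hy
        exact hb hy
      by_cases hs : Shr P x r
      · exact Or.inl ⟨r, hr, hd, hs⟩
      · exact Or.inr ⟨r, hr, hd, hs⟩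
    · have hR := h.om.hR
      have hz : ((R : ℝ) : ℂ) ∈ Om P := by
        rw [h.om.iff]
        refine ⟨0, ?_⟩
        rw [Function.iterate_zero, id, Complex.norm_real, Real.norm_eq_abs]
        exact le_abs_self R
      obtain ⟨r, hr, hb⟩ := Metric.isOpen_iff.mp h.om.opn _ hz
      have hOK : Disjoint (Om P) (KK P z₀) := (h.xf.disj.mono_left h.kf.sub).symm
      refine ⟨((R : ℝ) : ℂ), Set.disjoint_left.mp hOK hz, r, hr, hOK.mono_left hb, ?_⟩
      exact hA n P z₀ R h _ r hb
  intro x r hd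
  by_cases hr : 0 < r
  · have hx : x ∈ (KK P z₀)ᶜ := Set.disjoint_left.mp hd (mem_ball_self hr)
    obtain ⟨r', hr', hd', hs'⟩ := key hx
    exact hB n P z₀ R h x x r' r hd' hd ⟨x, mem_ball_self hr', mem_ball_self hr⟩ hs'
  · intro u m g _ _
    refine ⟨0, ?_⟩
    have he : ball x r = ∅ := ball_eq_empty.mpr (not_lt.mp hr)
    rw [he]
    intro s _ y hy
    exact absurd hy (Set.notMem_empty y)

end Pool.Agent.BSL
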