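import Pool.Agent.BSL.Targets

/-!
# BSL: proof of the target SHU (uniform shrinking)
-/

set_option autoImplicit false

open Polynomial Metric Set Filter Topology

noncomputable section

namespace Pool.Agent.BSL

open Pool.Agent.MAT

theorem p_SHU : T_SHU := by
  intro n P z₀ R hc hs
  have hdis : Disjoint (XX P z₀) (KK P z₀) := by
    rw [Set.disjoint_left]
    intro x hx hk
    exact hx (Or.inl (hc.kf.sub hk))
  obtain ⟨d, hd, hd2⟩ := hdis.exists_thickenings hc.xf.cpt hc.kf.cpt.isClosed
  have hδ : 0 < d / 4 := by linarith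
  have hball : ∀ x ∈ XX P z₀, Disjoint (ball x (4 * (d / 4))) (KK P z₀) := by
    intro x hx
    rw [show 4 * (d / 4) = d by ring]
    refine hd2.mono ?_ ?_
    · exact ball_subset_thickening hx d
    · exact self_subset_thickening hd _
  refine ⟨d / 4, hδ, hball, fun ε hε => ?_⟩
  generalize d / 4 = δ at *
  by_contra hcon
  push Not at hcon
  choose m hm x hx g hg z hz hgz using hcon
  have hu : ((hyperfilter ℕ : Ultrafilter ℕ) : Filter ℕ) ≤ atTop := Nat.hyperfilter_le_atTop
  have hmt : Tendsto m ((hyperfilter ℕ : Ultrafilter ℕ) : Filter ℕ) atTop :=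
    (tendsto_atTop_mono hm tendsto_id).mono_left hu
  obtain ⟨y, hy, hxy⟩ := hc.xf.cpt.ultrafilter_le_nhds
    ((hyperfilter ℕ : Ultrafilter ℕ).map x) (by
      rw [le_principal_iff, Ultrafilter.mem_coe, Ultrafilter.mem_map]
      exact Filter.univ_mem' hx)
  have hxy' : Tendsto x ((hyperfilter ℕ : Ultrafilter ℕ) : Filter ℕ) (𝓝 y) := hxy
  have hev : ∀ᶠ i in ((hyperfilter ℕ : Ultrafilter ℕ) : Filter ℕ), dist (x i) y < δ / 2 :=
    hxy'.eventually (ball_mem_nhds y (by linarith : 0 < δ / 2))
  have hbr : ∀ᶠ i in ((hyperfilter ℕ : Ultrafilter ℕ) : Filter ℕ),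
      Br P (m i) y (3 * δ) (g i) := by
    filter_upwards [hev] with i hi
    have hsub : ball y (3 * δ) ⊆ ball (x i) (4 * δ) := by
      refine ball_subset_ball' ?_
      rw [dist_comm]
      linarith
    exact ⟨(hg i).1.mono hsub, fun w hw => (hg i).2 w (hsub hw)⟩
  obtain ⟨c, hcu⟩ := hs y (3 * δ) ((hball y hy).mono_left (ball_subset_ball (by linarith)))
    (hyperfilter ℕ) m g hmt hbr
  have hcu' : TendstoUniformlyOn g (fun _ => c) ((hyperfilter ℕ : Ultrafilter ℕ) : Filter ℕ)
      (closedBall y (5 * δ / 2)) := by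
    refine (tendstoLocallyUniformlyOn_iff_forall_isCompact isOpen_ball).1 hcu _ ?_
      (isCompact_closedBall _ _)
    exact closedBall_subset_ball (by linarith)
  rw [Metric.tendstoUniformlyOn_iff] at hcu'
  have hfin := (hcu' (ε / 2) (by linarith)).and hev
  obtain ⟨i, hi1, hi2⟩ := hfin.exists
  have h1 : x i ∈ closedBall y (5 * δ / 2) := by
    rw [mem_closedBall]
    linarith
  have h2 : z i ∈ closedBall y (5 * δ / 2) := by
    have h3 := hz i
    rw [mem_closedBall] at h3 ⊢
    have h4 := dist_triangle (z i) (x i) y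
    linarith
  have h5 := hi1 (x i) h1
  have h6 := hi1 (z i) h2
  have h7 := hgz i
  have h8 := dist_triangle_left (g i (z i)) (g i (x i)) c
  rw [← dist_eq_norm] at h7
  linarith

end Pool.Agent.BSL
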