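import Pool.Agent.BSL.Targets
import Pool.Agent.PLim.PHIp

/-!
# BSL, target SIN: injectivity of the boundary extension of the Riemann map on the circle
-/

set_option autoImplicit false

open Polynomial Metric Set Filter Topology

noncomputable section

namespace Pool.Agent.BSL

open Pool.Agent.MAT

namespace SIN_

/-- the circle as the image of the line -/
def e (x : ℝ) : ℂ := Complex.exp (2 * Real.pi * x * Complex.I)

theorem e_cont : Continuous e := by
  unfold e
  fun_prop

theorem e_add (x y : ℝ) : e (x + y) = e x * e y := by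
  unfold e
  rw [← Complex.exp_add]
  congr 1
  push_cast
  ring

theorem e_int (m : ℤ) : e m = 1 := by
  unfold e
  rw [Complex.exp_eq_one_iff]
  exact ⟨m, by push_cast; ring⟩

theorem e_ne (x : ℝ) : e x ≠ 0 := Complex.exp_ne_zero _

theorem e_norm (x : ℝ) : ‖e x‖ = 1 := by
  have h : (2 * Real.pi * x * Complex.I : ℂ) = ((2 * Real.pi * x : ℝ) : ℂ) * Complex.I := by
    push_cast
    ring
  rw [e, h, Complex.norm_exp_ofReal_mul_I]

theorem e_mem (x : ℝ) : e x ∈ sphere (0 : ℂ) 1 := by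
  rw [mem_sphere_zero_iff_norm]
  exact e_norm x

theorem e_pow (x : ℝ) (n : ℕ) : e x ^ n = e (n * x) := by
  unfold e
  rw [← Complex.exp_nat_mul]
  congr 1
  push_cast
  ring

theorem e_eq {x y : ℝ} (h : e x = e y) : ∃ m : ℤ, x = y + m := by
  unfold e at h
  rw [Complex.exp_eq_exp_iff_exists_int] at h
  obtain ⟨m, hm⟩ := h
  refine ⟨m, ?_⟩
  have hpi : (2 * Real.pi * Complex.I : ℂ) ≠ 0 := Complex.two_pi_I_ne_zero
  have h2 : (2 * Real.pi * Complex.I : ℂ) * (x : ℂ) = (2 * Real.pi * Complex.I) * ((y : ℂ) + m) := by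
    linear_combination hm
  have h3 : (x : ℂ) = (y : ℂ) + m := mul_left_cancel₀ hpi h2
  exact_mod_cast h3

theorem e_surj {w : ℂ} (hw : w ∈ sphere (0 : ℂ) 1) (x₀ : ℝ) :
    ∃ x : ℝ, x₀ ≤ x ∧ x < x₀ + 1 ∧ e x = w := by
  rw [mem_sphere_zero_iff_norm] at hw
  have h1 : e (w.arg / (2 * Real.pi)) = w := by
    have hpi : (Real.pi : ℂ) ≠ 0 := by
      exact_mod_cast Real.pi_ne_zero
    have h2 : (2 * Real.pi * ((w.arg / (2 * Real.pi) : ℝ) : ℂ) * Complex.I : ℂ) =
        w.arg * Complex.I := by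
      push_cast
      field_simp
    rw [e, h2]
    have h3 := Complex.norm_mul_exp_arg_mul_I w
    rw [hw] at h3
    simpa using h3
  set x' := w.arg / (2 * Real.pi) with hx'
  refine ⟨x₀ + Int.fract (x' - x₀), ?_, ?_, ?_⟩
  · have := Int.fract_nonneg (x' - x₀)
    linarith
  · have := Int.fract_lt_one (x' - x₀)
    linarith
  · have h4 : x₀ + Int.fract (x' - x₀) = x' + ((-⌊x' - x₀⌋ : ℤ) : ℝ) := by
      have h5 : Int.fract (x' - x₀) = (x' - x₀) - ⌊x' - x₀⌋ := rfl
      rw [h5]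
      push_cast
      ring
    rw [h4, e_add, e_int, mul_one, h1]

/-- a continuous function with integer values is constant -/
theorem int_const (f : ℝ → ℝ) (hf : Continuous f) (hi : ∀ x, ∃ m : ℤ, f x = m) (x : ℝ) :
    f x = f 0 := by
  choose m hm using hi
  have hmc : Continuous m := by
    have h1 : Continuous (fun x => ((m x : ℤ) : ℝ)) := by
      have h2 : (fun x => ((m x : ℤ) : ℝ)) = f := by
        funext y
        exact (hm y).symm
      rw [h2]
      exact hf
    exact Int.isClosedEmbedding_coe_real.isEmbedding.continuous_iff.2 h1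
  have h3 : m x = m 0 := PreconnectedSpace.constant inferInstance hmc
  rw [hm, hm, h3]

end SIN_

open SIN_

/-- SIN -/
theorem p_SIN (hL : T_LGB) (hS : T_SPO) (hB : T_BCI) (hM : T_MON) : T_SIN := by
  intro n P z₀ R B ψ φ hC hBl hψ hφ hinj
  have hn : 2 ≤ n := hC.hp.hn
  -- points
  have hz0U : z₀ ∈ UU P z₀ := hC.bf.mem
  have hz0X : z₀ ∉ XX P z₀ := fun h => h (Or.inl hz0U)
  have hz0O : z₀ ∉ Om P := fun h => disjoint_left.1 hC.xf.disj hz0U h
  -- the circle map
  set S : Set ℂ := sphere (0 : ℂ) 1 with hSdef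
  have hScb : S ⊆ closedBall (0 : ℂ) 1 := sphere_subset_closedBall
  have hS0 : ∀ z ∈ S, z ≠ 0 := by
    intro z hz h0
    rw [hSdef, mem_sphere_zero_iff_norm, h0, norm_zero] at hz
    exact zero_ne_one hz
  have hScb' : S ⊆ closedBall (0 : ℂ) 1 \ {0} := fun z hz => ⟨hScb hz, hS0 z hz⟩
  have hScomp : CompactSpace S := isCompact_iff_compactSpace.1 (isCompact_sphere (0 : ℂ) 1)
  have hΦc : Continuous (S.domRestrict φ) := (hφ.cont.mono hScb').domRestrict
  have hΨc : Continuous (S.domRestrict ψ) := (hψ.cont.mono hScb).domRestrict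
  have hΦe : IsClosedEmbedding (S.domRestrict φ) := hΦc.isClosedEmbedding (injOn_iff_injective.1 hinj)
  have hex : ∀ w : S, ∃ z : S, φ z = ψ w := by
    intro w
    have h1 : ψ w ∈ φ '' S := by
      rw [hφ.sph, ← hψ.sph]
      exact mem_image_of_mem ψ w.2
    obtain ⟨z, hz, hz2⟩ := h1
    exact ⟨⟨z, hz⟩, hz2⟩
  choose θ hθ using hex
  have hθc : Continuous θ := by
    rw [hΦe.isEmbedding.continuous_iff]
    have h1 : (S.domRestrict φ) ∘ θ = S.domRestrict ψ := by
      funext w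
      exact hθ w
    rw [h1]
    exact hΨc
  -- the logarithm of (ψ w - z₀) / w
  have h01 : (0 : ℂ) ∈ ball (0 : ℂ) 1 := mem_ball_self one_pos
  have hcb0 : closedBall (0 : ℂ) 1 ∈ 𝓝 (0 : ℂ) := closedBall_mem_nhds _ one_pos
  have hb0 : ball (0 : ℂ) 1 ∈ 𝓝 (0 : ℂ) := ball_mem_nhds _ one_pos
  have hne1 : ∀ w ∈ closedBall (0 : ℂ) 1, w ≠ 0 → ψ w ≠ z₀ := by
    intro w hw hw0 he
    rw [mem_closedBall_zero_iff] at hw
    rcases lt_or_eq_of_le hw with h | h
    · exact hw0 (hψ.inj (mem_ball_zero_iff.2 h) h01 (he.trans hψ.zero.symm))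
    · apply hz0X
      rw [← hψ.sph, ← he]
      exact mem_image_of_mem ψ (mem_sphere_zero_iff_norm.2 h)
  obtain ⟨M, hMc, hMe⟩ := hL (dslope ψ 0)
    ((continuousOn_dslope hcb0).2 ⟨hψ.cont, hψ.hol.differentiableAt hb0⟩)
    (by
      intro w hw
      rcases eq_or_ne w 0 with h0 | h0
      · rw [h0, dslope_same]
        exact Pool.Agent.PLim.PHIp_.deriv_ne_zero_of_injOn
          ((hψ.hol.analyticOnNhd isOpen_ball) 0 h01) hb0 hψ.inj
      · rw [dslope_of_ne _ h0, slope_def_field, hψ.zero, sub_zero]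
        exact div_ne_zero (sub_ne_zero.2 (hne1 w hw h0)) h0)
  have hM1 : ∀ w ∈ S, ψ w - z₀ = w * Complex.exp (M w) := by
    intro w hw
    have hw0 := hS0 w hw
    rw [hMe w (hScb hw), dslope_of_ne _ hw0, slope_def_field, hψ.zero, sub_zero]
    field_simp
  -- the logarithm of ζ * (φ ζ - z₀)
  obtain ⟨a, ha, hat⟩ := hS φ hφ.hol hφ.inj hφ.pole
  have hne2 : ∀ ζ ∈ closedBall (0 : ℂ) 1, ζ ≠ 0 → φ ζ ≠ z₀ := by
    intro ζ hζ h0 he
    rw [mem_closedBall_zero_iff] at hζ
    rcases lt_or_eq_of_le hζ with h | h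
    · apply hz0O
      rw [← hφ.img, ← he]
      exact mem_image_of_mem φ ⟨mem_ball_zero_iff.2 h, h0⟩
    · apply hz0X
      rw [← hφ.sph, ← he]
      exact mem_image_of_mem φ (mem_sphere_zero_iff_norm.2 h)
  obtain ⟨L, hLc, hLe⟩ := hL (Function.update (fun ζ => ζ * (φ ζ - z₀)) 0 a)
    (by
      rw [continuousOn_update_iff]
      refine ⟨continuousOn_id.mul (hφ.cont.sub continuousOn_const), fun _ => ?_⟩
      have h1 : Tendsto (fun ζ => ζ * φ ζ - ζ * z₀) (𝓝[≠] 0) (𝓝 (a - 0 * z₀)) := by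
        refine hat.sub (Tendsto.mul_const z₀ ?_)
        exact tendsto_id.mono_left nhdsWithin_le_nhds
      have h2 : (fun ζ => ζ * (φ ζ - z₀)) = fun ζ => ζ * φ ζ - ζ * z₀ := by
        funext ζ
        ring
      rw [h2]
      rw [zero_mul, sub_zero] at h1
      exact h1.mono_left (nhdsWithin_mono _ (fun x hx => hx.2)))
    (by
      intro ζ hζ
      rcases eq_or_ne ζ 0 with h0 | h0
      · rw [h0, Function.update_self]
        exact ha
      · rw [Function.update_of_ne h0]
        exact mul_ne_zero h0 (sub_ne_zero.2 (hne2 ζ hζ h0)))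
  have hL1 : ∀ ζ ∈ S, Complex.exp (L ζ) = ζ * (φ ζ - z₀) := by
    intro ζ hζ
    rw [hLe ζ (hScb hζ), Function.update_of_ne (hS0 ζ hζ)]
  -- the function g
  set g : S → ℂ := fun w => L (θ w) - M w with hg
  have hgc : Continuous g := by
    refine Continuous.sub ?_ ?_
    · exact hLc.comp_continuous (continuous_subtype_val.comp hθc) (fun w => hScb (θ w).2)
    · exact hMc.comp_continuous continuous_subtype_val (fun w => hScb w.2)
  have hge : ∀ w : S, (θ w : ℂ) * w = Complex.exp (g w) := by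
    intro w
    have h1 := hL1 (θ w) (θ w).2
    rw [hθ w, hM1 w w.2] at h1
    rw [hg]
    simp only
    rw [Complex.exp_sub, h1]
    have h2 := Complex.exp_ne_zero (M w)
    field_simp
  have hgre : ∀ w : S, (g w).re = 0 := by
    intro w
    have h1 : ‖Complex.exp (g w)‖ = 1 := by
      rw [← hge w, norm_mul, mem_sphere_zero_iff_norm.1 (θ w).2, mem_sphere_zero_iff_norm.1 w.2,
        mul_one]
    rw [Complex.norm_exp] at h1
    exact Real.exp_eq_one_iff _ |>.1 h1
  -- the functions on the line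
  set E : ℝ → S := fun x => ⟨e x, e_mem x⟩ with hE
  have hEc : Continuous E := e_cont.subtype_mk _
  set γ : ℝ → ℝ := fun x => (g (E x)).im / (2 * Real.pi) with hγ
  have hγc : Continuous γ :=
    (Complex.continuous_im.comp (hgc.comp hEc)).div_const _
  have h2pi : (0 : ℝ) < 2 * Real.pi := by positivity
  have hτ : ∀ x : ℝ, (θ (E x) : ℂ) = e (γ x - x) := by
    intro x
    have h1 : Complex.exp (g (E x)) = e (γ x) := by
      have h2 : g (E x) = ((g (E x)).im : ℂ) * Complex.I := by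
        apply Complex.ext
        · simp [hgre (E x)]
        · simp
      rw [e, hγ]
      simp only
      rw [h2]
      congr 1
      have hpi : (Real.pi : ℂ) ≠ 0 := by
        exact_mod_cast Real.pi_ne_zero
      push_cast
      simp only [Complex.mul_im, Complex.ofReal_re, Complex.I_im, mul_one, Complex.ofReal_im,
        Complex.I_re, mul_zero, add_zero]
      field_simp
    have h3 := hge (E x)
    rw [h1] at h3
    have h4 : ((E x : S) : ℂ) = e x := rfl
    rw [h4] at h3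
    have h5 : e (γ x - x) * e x = e (γ x) := by
      rw [← e_add]
      congr 1
      ring
    exact mul_right_cancel₀ (e_ne x) (h3.trans h5.symm)
  obtain ⟨C, hCb⟩ : ∃ C : ℝ, ∀ x : ℝ, |γ x| ≤ C := by
    obtain ⟨C, hC'⟩ := isCompact_univ.exists_bound_of_continuousOn (hgc.continuousOn (s := univ))
    refine ⟨C / (2 * Real.pi), fun x => ?_⟩
    rw [hγ]
    simp only
    rw [abs_div, abs_of_pos h2pi]
    exact div_le_div_of_nonneg_right ((Complex.abs_im_le_norm _).trans (hC' (E x) (mem_univ _)))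
      h2pi.le
  have hper : ∀ x : ℝ, γ (x + 1) = γ x := by
    intro x
    have h1 : E (x + 1) = E x := by
      apply Subtype.ext
      have h2 := e_int 1
      rw [Int.cast_one] at h2
      show e (x + 1) = e x
      rw [e_add, h2, mul_one]
    rw [hγ]
    simp only
    rw [h1]
  -- the Blaschke product on the line
  obtain ⟨b, κ, hbc, hκ, hbκ, hb⟩ := hB n B hn hBl
  have hbe : ∀ x : ℝ, B (e x) = e (b x) := hb
  have hsemi : ∀ x : ℝ, (θ (E (b x)) : ℂ) = (θ (E x) : ℂ) ^ n := by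
    intro x
    have h1 : (θ (E x) : ℂ) ^ n ∈ S := by
      refine mem_sphere_zero_iff_norm.2 ?_
      rw [norm_pow, mem_sphere_zero_iff_norm.1 (θ (E x)).2, one_pow]
    apply hinj (θ (E (b x))).2 h1
    rw [hθ (E (b x)), ← hφ.conj (θ (E x)) (hScb' (θ (E x)).2), hθ (E x)]
    have h2 : ((E (b x) : S) : ℂ) = B (e x) := (hbe x).symm
    rw [h2]
    exact (hψ.conj (e x) (hScb (e_mem x))).symm
  have hint : ∀ x : ℝ, ∃ m : ℤ, (b x - γ (b x)) - n * (x - γ x) = m := by
    intro x
    have h1 := hsemi x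
    rw [hτ, hτ, e_pow] at h1
    obtain ⟨m, hm⟩ := e_eq h1
    refine ⟨-m, ?_⟩
    push_cast
    linear_combination -hm
  have hconst := int_const (fun x => (b x - γ (b x)) - n * (x - γ x))
    (by fun_prop) hint
  set j : ℝ := (b 0 - γ (b 0)) - n * (0 - γ 0) with hj
  have hmono := hM n b γ κ C j (by omega) hκ hbκ hCb (fun x => by
    have := hconst x
    linarith)
  -- conclusion
  intro w₁ hw₁ w₂ hw₂ heq
  obtain ⟨x₁, -, -, hx₁⟩ := e_surj hw₁ 0
  obtain ⟨x₂, h12, h21, hx₂⟩ := e_surj hw₂ x₁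
  have h1 : (θ (E x₁) : ℂ) = θ (E x₂) := by
    apply hinj (θ (E x₁)).2 (θ (E x₂)).2
    rw [hθ, hθ]
    have e1 : ((E x₁ : S) : ℂ) = w₁ := hx₁
    have e2 : ((E x₂ : S) : ℂ) = w₂ := hx₂
    rw [e1, e2]
    exact heq
  rw [hτ, hτ] at h1
  obtain ⟨m, hm⟩ := e_eq h1
  have h3 : x₁ - γ x₁ ≤ x₂ - γ x₂ := hmono.monotone h12
  have h4 : x₂ - γ x₂ < (x₁ + 1) - γ (x₁ + 1) := hmono h21
  rw [hper] at h4
  have h5 : (m : ℝ) < 1 := by linarith
  have h6 : (-1 : ℝ) < m := by linarith
  have h7 : m = 0 := by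
    have h8 : m < 1 := by exact_mod_cast h5
    have h9 : -1 < m := by exact_mod_cast h6
    omega
  rw [h7] at hm
  have h10 : x₁ = x₂ := by
    apply hmono.injective
    simp only
    rw [Int.cast_zero] at hm
    linarith
  rw [← hx₁, ← hx₂, h10]

end Pool.Agent.BSL
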