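import Pool.Agent.BSL.Targets
import Pool.Agent.MAT.P_INVH

/-!
# BSL: an injective pole is simple (SPO)
-/

set_option autoImplicit false

open Polynomial Metric Set Filter Topology

noncomputable section

namespace Pool.Agent.BSL

open Pool.Agent.MAT

theorem p_SPO : T_SPO := by
  intro φ hd hinj hlim
  -- a punctured ball on which `φ` is large
  have h1 : ∀ᶠ ζ in 𝓝[≠] (0 : ℂ), 1 ≤ ‖φ ζ‖ := hlim.eventually (eventually_ge_atTop 1)
  rw [eventually_nhdsWithin_iff] at h1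
  obtain ⟨r, hr, hball⟩ := Metric.eventually_nhds_iff_ball.1 h1
  set ρ : ℝ := min r 1 with hρ
  have hρ0 : 0 < ρ := lt_min hr one_pos
  have hφ : ∀ ζ ∈ ball (0 : ℂ) ρ, ζ ≠ 0 → φ ζ ≠ 0 := by
    intro ζ hζ h0 h
    have h2 := hball ζ (ball_subset_ball (min_le_left _ _) hζ) h0
    rw [h, norm_zero] at h2
    exact absurd h2 (by norm_num)
  have hsub : ball (0 : ℂ) ρ ⊆ ball 0 1 := ball_subset_ball (min_le_right _ _)
  -- the inverse
  set G : ℂ → ℂ := Function.update (fun ζ => (φ ζ)⁻¹) 0 0 with hG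
  have hG0 : G 0 = 0 := Function.update_self _ _ _
  have hG1 : ∀ ζ : ℂ, ζ ≠ 0 → G ζ = (φ ζ)⁻¹ := fun ζ h => Function.update_of_ne h _ _
  have hcont : ContinuousAt G 0 := by
    rw [hG, continuousAt_update_same]
    have h2 : Tendsto (fun ζ => ‖φ ζ‖⁻¹) (𝓝[≠] (0 : ℂ)) (𝓝 0) := tendsto_inv_atTop_zero.comp hlim
    rw [tendsto_zero_iff_norm_tendsto_zero]
    refine h2.congr fun ζ => ?_
    rw [norm_inv]
  have hdG : DifferentiableOn ℂ G (ball 0 ρ) := by
    rw [← Complex.differentiableOn_compl_singleton_and_continuousAt_iff (ball_mem_nhds 0 hρ0)]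
    refine ⟨?_, hcont⟩
    have h2 : DifferentiableOn ℂ (fun ζ => (φ ζ)⁻¹) (ball 0 ρ \ {0}) :=
      (hd.mono (sdiff_subset_sdiff_left hsub)).inv fun ζ hζ => hφ ζ hζ.1 hζ.2
    exact h2.congr fun ζ hζ => hG1 ζ hζ.2
  have hiG : InjOn G (ball 0 ρ) := by
    intro x hx y hy hxy
    by_cases hx0 : x = 0
    · by_cases hy0 : y = 0
      · rw [hx0, hy0]
      · rw [hx0, hG0, hG1 y hy0] at hxy
        exact absurd hxy.symm (inv_ne_zero (hφ y hy hy0))
    · by_cases hy0 : y = 0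
      · rw [hy0, hG0, hG1 x hx0] at hxy
        exact absurd hxy (inv_ne_zero (hφ x hx hx0))
      · rw [hG1 x hx0, hG1 y hy0] at hxy
        exact hinj ⟨hsub hx, hx0⟩ ⟨hsub hy, hy0⟩ (inv_injective hxy)
  obtain ⟨-, h, -, -, hder⟩ := MAT.p_INVH (ball 0 ρ) G isOpen_ball hdG hiG
  have hne := hder 0 (mem_ball_self hρ0)
  have hdd : HasDerivAt G (deriv G 0) 0 :=
    (hdG.differentiableAt (ball_mem_nhds 0 hρ0)).hasDerivAt
  refine ⟨(deriv G 0)⁻¹, inv_ne_zero hne, ?_⟩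
  have h3 := (hasDerivAt_iff_tendsto_slope.1 hdd).inv₀ hne
  refine h3.congr' ?_
  filter_upwards [self_mem_nhdsWithin] with ζ hζ
  rw [slope_def_field, hG0, sub_zero, sub_zero, hG1 ζ hζ, inv_div, div_inv_eq_mul]

end Pool.Agent.BSL
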