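import Pool.Agent.BSL.Targets

/-!
# BSL: square roots from primitives
-/

set_option autoImplicit false

open Polynomial Metric Set Filter Topology

noncomputable section

namespace Pool.Agent.BSL

theorem p_SQR : T_SQR := by
  intro U hU hc hP f hf hf0
  have hfat : ∀ z ∈ U, DifferentiableAt ℂ f z := fun z hz => (hf z hz).differentiableAt
    (hU.mem_nhds hz)
  have hd : DifferentiableOn ℂ (deriv f) U := hf.deriv hU
  obtain ⟨G, hG⟩ := hP (fun z => deriv f z / f z) (hd.div hf hf0)
  have hk : ∀ z ∈ U, HasDerivAt (fun z => f z * Complex.exp (-G z)) 0 z := by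
    intro z hz
    have h1 : HasDerivAt (fun z => f z * Complex.exp (-G z)) (deriv f z * Complex.exp (-G z) +
        f z * (Complex.exp (-G z) * -(deriv f z / f z))) z :=
      (hfat z hz).hasDerivAt.mul (hG z hz).neg.cexp
    have h2 : deriv f z * Complex.exp (-G z) + f z * (Complex.exp (-G z) *
        -(deriv f z / f z)) = 0 := by
      have := hf0 z hz
      field_simp
      ring
    rw [h2] at h1
    exact h1
  obtain ⟨c, hcst⟩ : ∃ c : ℂ, ∀ z ∈ U, f z * Complex.exp (-G z) = c :=
    hU.exists_is_const_of_deriv_eq_zero hc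
      (fun z hz => (hk z hz).differentiableAt.differentiableWithinAt) fun z hz => (hk z hz).deriv
  by_cases hne : U.Nonempty
  · obtain ⟨z₁, hz₁⟩ := hne
    have hc0 : c ≠ 0 := by
      rw [← hcst z₁ hz₁]
      exact mul_ne_zero (hf0 z₁ hz₁) (Complex.exp_ne_zero _)
    refine ⟨fun z => Complex.exp ((G z + Complex.log c) / 2), fun z hz => ?_, fun z hz => ?_⟩
    · exact (((hG z hz).differentiableAt.add_const _).div_const _).cexp.differentiableWithinAt
    · have h1 : f z = c * Complex.exp (G z) := by
        rw [← hcst z hz, mul_assoc, ← Complex.exp_add, neg_add_cancel, Complex.exp_zero, mul_one]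
      rw [← Complex.exp_nat_mul, h1]
      have h2 : ((2 : ℕ) : ℂ) * ((G z + Complex.log c) / 2) = Complex.log c + G z := by
        push_cast
        ring
      rw [h2, Complex.exp_add, Complex.exp_log hc0]
  · rw [Set.not_nonempty_iff_eq_empty] at hne
    subst hne
    exact ⟨fun _ => 0, differentiableOn_empty, fun z hz => hz.elim⟩

end Pool.Agent.BSL
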