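import Pool.Agent.BSL.Targets

set_option autoImplicit false

open Polynomial Metric Set Filter Topology

noncomputable section

namespace Pool.Agent.BSL

open Pool.Agent.MAT

theorem p_XXF : T_XXF := by
  intro n P z₀ R _ hb ho hinv
  have hdisj : Disjoint (UU P z₀) (Om P) := by
    rw [Set.disjoint_left]
    intro z hz hz'
    have h1 : Tendsto (fun m : ℕ => (pm P)^[m] z) atTop (𝓝 z₀) := hb.sub hz
    have h2 : Tendsto (fun m : ℕ => ‖(pm P)^[m] z‖) atTop atTop := hz'
    exact not_tendsto_nhds_of_tendsto_atTop h2 _ h1.norm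
  have hOm : ∀ z : ℂ, R ≤ ‖z‖ → z ∈ Om P := fun z hz => (ho.iff z).2 ⟨0, by simpa using hz⟩
  refine ⟨?_, ?_, ?_, hdisj, ?_, ?_⟩
  · refine Metric.isCompact_of_isClosed_isBounded (hb.opn.union ho.opn).isClosed_compl ?_
    refine (Metric.isBounded_closedBall (x := (0 : ℂ)) (r := R)).subset ?_
    intro z hz
    rw [mem_closedBall_zero_iff]
    by_contra hcon
    exact hz (Or.inr (hOm z (le_of_lt (not_le.1 hcon))))
  · by_contra hcon
    rw [Set.not_nonempty_iff_eq_empty, XX, Set.compl_empty_iff] at hcon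
    have hpre : IsPreconnected (univ : Set ℂ) := isPreconnected_univ
    have hR : ((R : ℝ) : ℂ) ∈ Om P := by
      apply hOm
      rw [Complex.norm_real, Real.norm_eq_abs]
      exact le_abs_self R
    obtain ⟨z, -, hz1, hz2⟩ := hpre (UU P z₀) (Om P) hb.opn ho.opn hcon.symm.subset
      ⟨z₀, mem_univ _, hb.mem⟩ ⟨_, mem_univ _, hR⟩
    exact Set.disjoint_left.1 hdisj hz1 hz2
  · intro z
    have h1 : pm P z ∈ UU P z₀ ↔ z ∈ UU P z₀ := ⟨hinv z, hb.map z⟩
    simp only [XX, mem_compl_iff, mem_union, h1, ho.inv z]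
  · intro z hz
    by_cases h1 : z ∈ UU P z₀
    · exact Or.inl h1
    · refine Or.inr fun h2 => ?_
      rcases h2 with h2 | h2
      · exact h1 h2
      · obtain ⟨y, hy1, hy2⟩ := mem_closure_iff.1 hz (Om P) ho.opn h2
        exact Set.disjoint_left.1 hdisj hy2 hy1
  · intro z hz
    by_cases h1 : z ∈ Om P
    · exact Or.inl h1
    · refine Or.inr fun h2 => ?_
      rcases h2 with h2 | h2
      · obtain ⟨y, hy1, hy2⟩ := mem_closure_iff.1 hz (UU P z₀) hb.opn h2
        exact Set.disjoint_left.1 hdisj hy1 hy2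
      · exact h1 h2

end Pool.Agent.BSL
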