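import Pool.Agent.BSL.P_BAS
import Pool.Agent.BSL.P_ESC
import Pool.Agent.BSL.P_DVD
import Pool.Agent.BSL.P_CUT
import Pool.Agent.BSL.P_POLY
import Pool.Agent.BSL.P_PRL
import Pool.Agent.BSL.P_PRI
import Pool.Agent.BSL.P_SQR
import Pool.Agent.BSL.P_RMA
import Pool.Agent.BSL.P_RMB
import Pool.Agent.BSL.P_RMP
import Pool.Agent.BSL.P_PRP
import Pool.Agent.BSL.P_BDF
import Pool.Agent.BSL.P_BRM
import Pool.Agent.BSL.P_CRM
import Pool.Agent.BSL.P_BCC
import Pool.Agent.BSL.P_BLK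
import Pool.Agent.BSL.P_BOA
import Pool.Agent.BSL.P_BOB
import Pool.Agent.BSL.P_BOC
import Pool.Agent.BSL.P_BOD
import Pool.Agent.BSL.P_EXA
import Pool.Agent.BSL.P_EXB
import Pool.Agent.BSL.P_OBX
import Pool.Agent.BSL.P_XXF
import Pool.Agent.BSL.P_KKF
import Pool.Agent.BSL.P_BRA
import Pool.Agent.BSL.P_BRU
import Pool.Agent.BSL.P_SHA
import Pool.Agent.BSL.P_SHB
import Pool.Agent.BSL.P_SHC
import Pool.Agent.BSL.P_DNS
import Pool.Agent.BSL.P_SHU
import Pool.Agent.BSL.P_NBX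
import Pool.Agent.BSL.P_RAT
import Pool.Agent.BSL.P_LIB
import Pool.Agent.BSL.P_NRS
import Pool.Agent.BSL.P_NRO
import Pool.Agent.BSL.P_HOE
import Pool.Agent.BSL.P_EXS
import Pool.Agent.BSL.P_EXO
import Pool.Agent.BSL.P_PSE
import Pool.Agent.BSL.P_PHE
import Pool.Agent.BSL.P_LGB
import Pool.Agent.BSL.P_SPO
import Pool.Agent.BSL.P_PIN
import Pool.Agent.BSL.P_BCI
import Pool.Agent.BSL.P_MON
import Pool.Agent.BSL.P_SIN
import Pool.Agent.BSL.P_CNV
import Pool.Agent.BSL.P_FIN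
import Pool.Agent.BSL.Main
import Pool.Agent.MAT.All

/-!
# BSL: the classes of `HypPoly n` are matings of `z ^ n`; the mating map has no continuous
extension to the closure of the set of all these matings
-/

set_option autoImplicit false

open Polynomial Metric Set Filter Topology

noncomputable section

namespace Pool.Agent.BSL

open Pool.Agent.MAT

theorem a_SHB : T_SHB := p_SHB p_BRA p_BRU
theorem a_SHC : T_SHC := p_SHC p_SHA a_SHB
theorem a_BLK : T_BLK := p_BLK p_PRP p_BDF p_BRM p_CRM p_BCC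
theorem a_PRI : T_PRI := p_PRI (p_POLY p_DVD p_CUT) p_PRL
theorem a_RMP : T_RMP := p_RMP p_RMA (p_RMB p_SQR)

/-- Every class of `HypPoly n` is the mating of `z ^ n` and a marked Blaschke product. -/
theorem hypPoly_subset (n : ℕ) (hn : 2 ≤ n) :
    HypPoly n ⊆ {q | ∃ (B : ℂ → ℂ) (b : ℂ), Marked n B b ∧
      Mates n (fun z => z ^ n) 1 B b q} :=
  main p_BAS p_ESC a_PRI a_RMP a_BLK (p_BOD p_BOA p_BOB p_BOC) p_EXA p_EXB p_OBX p_XXF p_KKF
    a_SHC (p_DNS p_BRA) p_SHU (p_NBX p_BRA) (p_EXS p_RAT p_LIB p_NRS) (p_EXO p_RAT p_NRO)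
    (p_PSE p_HOE) (p_PHE p_HOE) (p_PIN p_LGB p_SPO) (p_SIN p_LGB p_SPO p_BCI p_MON) p_CNV p_FIN
    n hn

/-- The mating map has no continuous extension to the closure of the set `𝓑(zⁿ)` of all classes
of matings of `z ^ n` (in the space of classes of polynomials). -/
theorem no_extension (n : ℕ) (A : ℂ → ℂ) (a : ℂ) (hn : 3 ≤ n) (hA : Marked n A a)
    (hrot : ¬ ∃ ω : ℂ, ‖ω‖ = 1 ∧ ∀ z ∈ ball (0 : ℂ) 1, A (ω * z) = ω * z ^ n) :
    ¬ ∃ Ψ : Moduli n → Moduli n,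
      ContinuousOn Ψ (closure {q | ∃ (B : ℂ → ℂ) (b : ℂ), Marked n B b ∧
        Mates n (fun z => z ^ n) 1 B b q} ∩ PolyClass n) ∧
      ∀ (B : ℂ → ℂ) (b : ℂ) (q : Moduli n), Marked n B b →
        Mates n (fun z => z ^ n) 1 B b q → Mates n A a B b (Ψ q) := by
  rintro ⟨Ψ, hc, hm⟩
  have hsub := hypPoly_subset n (by omega)
  refine final n A a hn hA hrot ⟨Ψ, hc.mono ?_, ?_⟩
  · exact inter_subset_inter_left _ (closure_mono hsub)
  · intro q hq
    obtain ⟨B, b, hB, hq'⟩ := hsub hq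
    exact ⟨B, b, hB, hq', hm B b q hB hq'⟩

end Pool.Agent.BSL
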