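import Pool.Agent.MAT.TA

/-!
# BSL: polynomials with an attracting basin containing all critical points are matings of `z ^ n`

Definitions used in the targets (see `Blueprint.lean.txt`).
-/

set_option autoImplicit false

open Polynomial Metric Set Filter Topology

noncomputable section

namespace Pool.Agent.BSL

open Pool.Agent.MAT

/-- a polynomial as a map -/
def pm (P : ℂ[X]) (z : ℂ) : ℂ := P.eval z

/-- the basin of infinity -/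
def Om (P : ℂ[X]) : Set ℂ := {z | Tendsto (fun m : ℕ => ‖(pm P)^[m] z‖) atTop atTop}

/-- the basin of `z₀` -/
def Ba (P : ℂ[X]) (z₀ : ℂ) : Set ℂ := {v | Tendsto (fun m : ℕ => (pm P)^[m] v) atTop (𝓝 z₀)}

/-- the immediate basin of `z₀` -/
def UU (P : ℂ[X]) (z₀ : ℂ) : Set ℂ := connectedComponentIn (Ba P z₀) z₀

/-- the rest -/
def XX (P : ℂ[X]) (z₀ : ℂ) : Set ℂ := (UU P z₀ ∪ Om P)ᶜ

/-- the critical orbits, with their limit `z₀` -/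
def KK (P : ℂ[X]) (z₀ : ℂ) : Set ℂ :=
  insert z₀ {z | ∃ (c : ℂ) (k : ℕ), (derivative P).eval c = 0 ∧ z = (pm P)^[k] c}

/-- the hypotheses -/
structure HP (n : ℕ) (P : ℂ[X]) (z₀ : ℂ) : Prop where
  hn : 2 ≤ n
  deg : P.natDegree = n
  fix : P.eval z₀ = z₀
  att : ‖(derivative P).eval z₀‖ < 1
  crit : ∀ c : ℂ, (derivative P).eval c = 0 → c ∈ UU P z₀

/-- first properties of the immediate basin -/
structure BF (P : ℂ[X]) (z₀ : ℂ) : Prop where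
  opn : IsOpen (UU P z₀)
  con : IsPreconnected (UU P z₀)
  mem : z₀ ∈ UU P z₀
  sub : UU P z₀ ⊆ Ba P z₀
  map : ∀ z ∈ UU P z₀, pm P z ∈ UU P z₀
  maxi : ∀ V : Set ℂ, IsPreconnected V → V ⊆ Ba P z₀ → (V ∩ UU P z₀).Nonempty → V ⊆ UU P z₀
  cl : ∀ z ∈ closure (UU P z₀), z ∈ Ba P z₀ → z ∈ UU P z₀
  loc : ∃ r κ : ℝ, 0 < r ∧ 0 ≤ κ ∧ κ < 1 ∧ closedBall z₀ r ⊆ UU P z₀ ∧
    ∀ z ∈ closedBall z₀ r, ‖pm P z - z₀‖ ≤ κ * ‖z - z₀‖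

/-- first properties of the basin of infinity, with an escape radius `R` -/
structure OmF (P : ℂ[X]) (R : ℝ) : Prop where
  hR : 1 ≤ R
  esc : ∀ z : ℂ, R ≤ ‖z‖ → 2 * ‖z‖ ≤ ‖pm P z‖
  opn : IsOpen (Om P)
  inv : ∀ z : ℂ, pm P z ∈ Om P ↔ z ∈ Om P
  iff : ∀ z : ℂ, z ∈ Om P ↔ ∃ m : ℕ, R ≤ ‖(pm P)^[m] z‖

/-- the Riemann map `ψ` of `U` and its inverse `h` -/
structure RM (U : Set ℂ) (z₀ : ℂ) (ψ h : ℂ → ℂ) : Prop where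
  hol : DifferentiableOn ℂ ψ (ball 0 1)
  inj : InjOn ψ (ball 0 1)
  img : ψ '' ball 0 1 = U
  zero : ψ 0 = z₀
  hhol : DifferentiableOn ℂ h U
  hmem : ∀ z ∈ U, h z ∈ ball (0 : ℂ) 1
  hψ : ∀ w ∈ ball (0 : ℂ) 1, h (ψ w) = w
  ψh : ∀ z ∈ U, ψ (h z) = z
  der : ∀ w ∈ ball (0 : ℂ) 1, deriv ψ w ≠ 0
  hder : ∀ z ∈ U, deriv h z ≠ 0

/-- every holomorphic function on `U` has a primitive -/
def Pri (U : Set ℂ) : Prop := ∀ g : ℂ → ℂ, DifferentiableOn ℂ g U →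
  ∃ G : ℂ → ℂ, ∀ z ∈ U, HasDerivAt G (g z) z

/-- the Blaschke product `B` conjugate to `P` on the immediate basin, which is completely
invariant -/
structure BP (n : ℕ) (P : ℂ[X]) (z₀ : ℂ) (ψ B : ℂ → ℂ) : Prop where
  blas : IsBlaschke n B
  conj : ∀ w ∈ ball (0 : ℂ) 1, ψ (B w) = pm P (ψ w)
  inv : ∀ z : ℂ, pm P z ∈ UU P z₀ → z ∈ UU P z₀

/-- `P` in the logarithmic coordinate `z = exp u` near infinity is `u ↦ n u + ℓ + e u` -/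
structure LogF (n : ℕ) (P : ℂ[X]) (L : ℝ) (ℓ : ℂ) (e : ℂ → ℂ) : Prop where
  hL : 0 < L
  hol : DifferentiableOn ℂ e {u | L < u.re}
  bdd : ∀ u : ℂ, L < u.re → ‖e u‖ ≤ 1
  per : ∀ u : ℂ, L < u.re → e (u + 2 * Real.pi * Complex.I) = e u
  exp : ∀ u : ℂ, L < u.re → Complex.exp (n * u + ℓ + e u) = pm P (Complex.exp u)
  map : ∀ u : ℂ, L < u.re → u.re + 1 ≤ (n * u + ℓ + e u).re

/-- the linearising coordinate of `u ↦ n u + ℓ + e u` -/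
structure LogG (n : ℕ) (L : ℝ) (ℓ : ℂ) (e : ℂ → ℂ) (C : ℝ) (Φ : ℂ → ℂ) : Prop where
  hC : 0 ≤ C
  hol : DifferentiableOn ℂ Φ {u | L < u.re}
  near : ∀ u : ℂ, L < u.re → ‖Φ u - u‖ ≤ C
  per : ∀ u : ℂ, L < u.re →
    Φ (u + 2 * Real.pi * Complex.I) = Φ u + 2 * Real.pi * Complex.I
  lin : ∀ u : ℂ, L < u.re → Φ (n * u + ℓ + e u) = n * Φ u

/-- the local inverse Böttcher coordinate `F` (`φ = F ∘ log`) on the half plane `re s < - L` -/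
structure BT0 (n : ℕ) (P : ℂ[X]) (L : ℝ) (F : ℂ → ℂ) : Prop where
  hL : 0 < L
  hol : DifferentiableOn ℂ F {s | s.re < -L}
  per : ∀ s : ℂ, s.re < -L → F (s + 2 * Real.pi * Complex.I) = F s
  conj : ∀ s : ℂ, s.re < -L → pm P (F s) = F (n * s)
  inj : ∀ s t : ℂ, s.re < -L → t.re < -L → F s = F t →
    ∃ k : ℤ, t = s + k * (2 * Real.pi * Complex.I)
  inf : ∀ M : ℝ, ∃ L' : ℝ, ∀ s : ℂ, s.re < -L' → s.re < -L → M < ‖F s‖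
  sur : ∃ M : ℝ, ∀ z : ℂ, M ≤ ‖z‖ → ∃ s : ℂ, s.re < -L ∧ F s = z

/-- the inverse Böttcher coordinate on the half plane `re s < 0` -/
structure BT (n : ℕ) (P : ℂ[X]) (F : ℂ → ℂ) : Prop where
  hol : DifferentiableOn ℂ F {s | s.re < 0}
  per : ∀ s : ℂ, s.re < 0 → F (s + 2 * Real.pi * Complex.I) = F s
  conj : ∀ s : ℂ, s.re < 0 → pm P (F s) = F (n * s)
  inj : ∀ s t : ℂ, s.re < 0 → t.re < 0 → F s = F t →
    ∃ k : ℤ, t = s + k * (2 * Real.pi * Complex.I)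
  inf : ∀ M : ℝ, ∃ L' : ℝ, ∀ s : ℂ, s.re < -L' → s.re < 0 → M < ‖F s‖
  img : F '' {s | s.re < 0} = Om P
  bdd : ∃ L M : ℝ, 0 < L ∧ ∀ s : ℂ, -L ≤ s.re → s.re < 0 → ‖F s‖ ≤ M

/-- the inverse Böttcher coordinate on the punctured disk -/
structure OB (n : ℕ) (P : ℂ[X]) (φ : ℂ → ℂ) : Prop where
  hol : DifferentiableOn ℂ φ (ball 0 1 \ {0})
  inj : InjOn φ (ball 0 1 \ {0})
  img : φ '' (ball 0 1 \ {0}) = Om P
  conj : ∀ ζ ∈ ball (0 : ℂ) 1 \ {0}, pm P (φ ζ) = φ (ζ ^ n)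
  pole : Tendsto (fun ζ => ‖φ ζ‖) (𝓝[≠] 0) atTop
  bdd : ∃ ρ M : ℝ, 0 < ρ ∧ ρ < 1 ∧ ∀ ζ : ℂ, ρ ≤ ‖ζ‖ → ‖ζ‖ < 1 → ‖φ ζ‖ ≤ M

/-- properties of the closed set `X` -/
structure XF (P : ℂ[X]) (z₀ : ℂ) : Prop where
  cpt : IsCompact (XX P z₀)
  non : (XX P z₀).Nonempty
  inv : ∀ z : ℂ, pm P z ∈ XX P z₀ ↔ z ∈ XX P z₀
  disj : Disjoint (UU P z₀) (Om P)
  clU : closure (UU P z₀) ⊆ UU P z₀ ∪ XX P z₀
  clO : closure (Om P) ⊆ Om P ∪ XX P z₀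

/-- properties of the critical orbits -/
structure KF (P : ℂ[X]) (z₀ : ℂ) : Prop where
  cpt : IsCompact (KK P z₀)
  sub : KK P z₀ ⊆ UU P z₀
  map : ∀ z ∈ KK P z₀, pm P z ∈ KK P z₀
  con : IsPreconnected (KK P z₀)ᶜ
  ex : ∃ z ∈ UU P z₀, z ∉ KK P z₀

/-- all the facts about a hyperbolic polynomial used in the second half -/
structure Ctx (n : ℕ) (P : ℂ[X]) (z₀ : ℂ) (R : ℝ) : Prop where
  hp : HP n P z₀
  bf : BF P z₀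
  om : OmF P R
  inv : ∀ z : ℂ, pm P z ∈ UU P z₀ → z ∈ UU P z₀
  xf : XF P z₀
  kf : KF P z₀

/-- `g` is a branch of the inverse of the `m`-th iterate on the ball of radius `r` about `x` -/
def Br (P : ℂ[X]) (m : ℕ) (x : ℂ) (r : ℝ) (g : ℂ → ℂ) : Prop :=
  DifferentiableOn ℂ g (ball x r) ∧ ∀ z ∈ ball x r, (pm P)^[m] (g z) = z

/-- all sequences of inverse branches on the ball converge to constants -/
def Shr (P : ℂ[X]) (x : ℂ) (r : ℝ) : Prop :=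
  ∀ (u : Ultrafilter ℕ) (m : ℕ → ℕ) (g : ℕ → ℂ → ℂ), Tendsto m (u : Filter ℕ) atTop →
    (∀ᶠ i in (u : Filter ℕ), Br P (m i) x r (g i)) →
    ∃ c : ℂ, TendstoLocallyUniformlyOn g (fun _ => c) (u : Filter ℕ) (ball x r)

/-- inverse branches shrink uniformly near `X`, on balls without points of critical orbits -/
def SU (P : ℂ[X]) (z₀ : ℂ) : Prop :=
  ∃ δ : ℝ, 0 < δ ∧ (∀ x ∈ XX P z₀, Disjoint (ball x (4 * δ)) (KK P z₀)) ∧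
    ∀ ε : ℝ, 0 < ε → ∃ M : ℕ, ∀ m : ℕ, M ≤ m → ∀ x ∈ XX P z₀, ∀ g : ℂ → ℂ,
      Br P m x (4 * δ) g → ∀ z ∈ closedBall x (2 * δ), ‖g z - g x‖ ≤ ε

/-- points whose orbit comes close to `X` are exponentially close to `X` -/
def NB (P : ℂ[X]) (z₀ : ℂ) (δ C lam : ℝ) : Prop :=
  0 < δ ∧ 0 ≤ C ∧ 0 < lam ∧ lam < 1 ∧ ∀ (m : ℕ) (z x : ℂ), x ∈ XX P z₀ →
    ‖(pm P)^[m] z - x‖ < δ → ∃ y ∈ XX P z₀, ‖z - y‖ ≤ C * lam ^ m

/-- the boundary extension of the Riemann map -/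
structure PS (P : ℂ[X]) (z₀ : ℂ) (B ψ' : ℂ → ℂ) : Prop where
  cont : ContinuousOn ψ' (closedBall 0 1)
  hol : DifferentiableOn ℂ ψ' (ball 0 1)
  inj : InjOn ψ' (ball 0 1)
  img : ψ' '' ball 0 1 = UU P z₀
  zero : ψ' 0 = z₀
  sph : ψ' '' sphere 0 1 = XX P z₀
  conj : ∀ w ∈ closedBall (0 : ℂ) 1, pm P (ψ' w) = ψ' (B w)

/-- the boundary extension of the inverse Böttcher coordinate -/
structure PH (n : ℕ) (P : ℂ[X]) (z₀ : ℂ) (φ' : ℂ → ℂ) : Prop where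
  cont : ContinuousOn φ' (closedBall 0 1 \ {0})
  hol : DifferentiableOn ℂ φ' (ball 0 1 \ {0})
  inj : InjOn φ' (ball 0 1 \ {0})
  img : φ' '' (ball 0 1 \ {0}) = Om P
  sph : φ' '' sphere 0 1 = XX P z₀
  conj : ∀ ζ ∈ closedBall (0 : ℂ) 1 \ {0}, pm P (φ' ζ) = φ' (ζ ^ n)
  pole : Tendsto (fun ζ => ‖φ' ζ‖) (𝓝[≠] 0) atTop

end Pool.Agent.BSL
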