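import Pool.Agent.BSL.Targets

/-!
# BSL, item BAS: first properties of the immediate basin
-/

set_option autoImplicit false

open Polynomial Metric Set Filter Topology

noncomputable section

namespace Pool.Agent.BSL

lemma BAS_iff (P : ℂ[X]) (z₀ z : ℂ) (m : ℕ) : (pm P)^[m] z ∈ Ba P z₀ ↔ z ∈ Ba P z₀ := by
  show Tendsto (fun k : ℕ => (pm P)^[k] ((pm P)^[m] z)) atTop (𝓝 z₀) ↔
    Tendsto (fun k : ℕ => (pm P)^[k] z) atTop (𝓝 z₀)
  rw [← tendsto_add_atTop_iff_nat (f := fun k : ℕ => (pm P)^[k] z) m]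
  simp only [Function.iterate_add_apply]

lemma BAS_contr (P : ℂ[X]) (z₀ : ℂ) (h0 : P.eval z₀ = z₀)
    (h1 : ‖(derivative P).eval z₀‖ < 1) : ∃ r κ : ℝ, 0 < r ∧ 0 ≤ κ ∧ κ < 1 ∧
    ∀ z ∈ closedBall z₀ r, ‖pm P z - z₀‖ ≤ κ * ‖z - z₀‖ := by
  obtain ⟨κ, hκ1, hκ2⟩ := exists_between h1
  have hd := (P.hasDerivAt z₀).isLittleO
  have hc : 0 < κ - ‖(derivative P).eval z₀‖ := sub_pos.2 hκ1
  have he := hd.def hc
  obtain ⟨ε, hε, hb⟩ := Metric.eventually_nhds_iff.1 he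
  refine ⟨ε / 2, κ, half_pos hε, (norm_nonneg _).trans hκ1.le, hκ2, fun z hz => ?_⟩
  have hz' : dist z z₀ < ε := lt_of_le_of_lt (mem_closedBall.1 hz) (half_lt_self hε)
  have h2 := hb hz'
  rw [h0] at h2
  calc ‖pm P z - z₀‖ = ‖(P.eval z - z₀ - (z - z₀) • (derivative P).eval z₀) +
        (z - z₀) • (derivative P).eval z₀‖ := by rw [sub_add_cancel]; rfl
    _ ≤ ‖P.eval z - z₀ - (z - z₀) • (derivative P).eval z₀‖ +
        ‖(z - z₀) • (derivative P).eval z₀‖ := norm_add_le _ _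
    _ ≤ (κ - ‖(derivative P).eval z₀‖) * ‖z - z₀‖ + ‖z - z₀‖ * ‖(derivative P).eval z₀‖ := by
      refine add_le_add h2 ?_
      rw [norm_smul]
    _ = κ * ‖z - z₀‖ := by ring

lemma BAS_iter (P : ℂ[X]) (z₀ : ℂ) {r κ : ℝ} (hκ : 0 ≤ κ) (hκ1 : κ < 1)
    (h : ∀ z ∈ closedBall z₀ r, ‖pm P z - z₀‖ ≤ κ * ‖z - z₀‖) (z : ℂ)
    (hz : z ∈ closedBall z₀ r) (m : ℕ) : ‖(pm P)^[m] z - z₀‖ ≤ κ ^ m * ‖z - z₀‖ := by
  induction m with
  | zero => simp
  | succ m ih =>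
    rw [Function.iterate_succ_apply']
    have h2 : ‖z - z₀‖ ≤ r := by
      have := mem_closedBall.1 hz
      rwa [dist_eq_norm] at this
    have h1 : (pm P)^[m] z ∈ closedBall z₀ r := by
      rw [mem_closedBall, dist_eq_norm]
      calc ‖(pm P)^[m] z - z₀‖ ≤ κ ^ m * ‖z - z₀‖ := ih
        _ ≤ 1 * ‖z - z₀‖ :=
          mul_le_mul_of_nonneg_right (pow_le_one₀ hκ hκ1.le) (norm_nonneg _)
        _ ≤ r := by rw [one_mul]; exact h2
    calc ‖pm P ((pm P)^[m] z) - z₀‖ ≤ κ * ‖(pm P)^[m] z - z₀‖ := h _ h1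
      _ ≤ κ * (κ ^ m * ‖z - z₀‖) := mul_le_mul_of_nonneg_left ih hκ
      _ = κ ^ (m + 1) * ‖z - z₀‖ := by ring

lemma BAS_ball (P : ℂ[X]) (z₀ : ℂ) {r κ : ℝ} (hκ : 0 ≤ κ) (hκ1 : κ < 1)
    (h : ∀ z ∈ closedBall z₀ r, ‖pm P z - z₀‖ ≤ κ * ‖z - z₀‖) :
    closedBall z₀ r ⊆ Ba P z₀ := by
  intro z hz
  show Tendsto (fun k : ℕ => (pm P)^[k] z) atTop (𝓝 z₀)
  rw [tendsto_iff_norm_sub_tendsto_zero]
  have h1 : Tendsto (fun k : ℕ => κ ^ k * ‖z - z₀‖) atTop (𝓝 0) := by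
    have := (tendsto_pow_atTop_nhds_zero_of_lt_one hκ hκ1).mul_const ‖z - z₀‖
    rwa [zero_mul] at this
  exact squeeze_zero (fun k => norm_nonneg _) (BAS_iter P z₀ hκ hκ1 h z hz) h1

lemma BAS_cont (P : ℂ[X]) (m : ℕ) : Continuous (pm P)^[m] := by
  have h : Continuous (pm P) := P.continuous
  exact h.iterate m

lemma BAS_open (P : ℂ[X]) (z₀ : ℂ) {r : ℝ} (hr : 0 < r) (hb : closedBall z₀ r ⊆ Ba P z₀) :
    IsOpen (Ba P z₀) := by
  rw [isOpen_iff_mem_nhds]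
  intro z hz
  have hz' : Tendsto (fun k : ℕ => (pm P)^[k] z) atTop (𝓝 z₀) := hz
  obtain ⟨m, hm⟩ := (hz'.eventually (ball_mem_nhds z₀ hr)).exists
  have ho : IsOpen ((pm P)^[m] ⁻¹' ball z₀ r) := isOpen_ball.preimage (BAS_cont P m)
  refine Filter.mem_of_superset (ho.mem_nhds hm) fun w hw => ?_
  exact (BAS_iff P z₀ w m).1 (hb (ball_subset_closedBall hw))

theorem p_BAS : T_BAS := by
  intro n P z₀ hP
  obtain ⟨r, κ, hr, hκ, hκ1, h⟩ := BAS_contr P z₀ hP.fix hP.att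
  have hb := BAS_ball P z₀ hκ hκ1 h
  have hz0 : z₀ ∈ Ba P z₀ := hb (mem_closedBall_self hr.le)
  have ho := BAS_open P z₀ hr hb
  have hmem : z₀ ∈ UU P z₀ := mem_connectedComponentIn hz0
  have hsub : UU P z₀ ⊆ Ba P z₀ := connectedComponentIn_subset _ _
  have hcon : IsPreconnected (UU P z₀) := isPreconnected_connectedComponentIn
  have hmax : ∀ V : Set ℂ, IsPreconnected V → V ⊆ Ba P z₀ → (V ∩ UU P z₀).Nonempty →
      V ⊆ UU P z₀ := by
    rintro V hV hVB ⟨y, hyV, hyU⟩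
    have h1 : V ⊆ connectedComponentIn (Ba P z₀) y := hV.subset_connectedComponentIn hyV hVB
    have h2 : connectedComponentIn (Ba P z₀) z₀ = connectedComponentIn (Ba P z₀) y :=
      connectedComponentIn_eq hyU
    unfold UU
    rw [h2]
    exact h1
  have hopen : IsOpen (UU P z₀) := ho.connectedComponentIn
  refine ⟨hopen, hcon, hmem, hsub, ?_, hmax, ?_, r, κ, hr, hκ, hκ1, ?_, h⟩
  · intro z hz
    have h1 : IsPreconnected (pm P '' UU P z₀) := hcon.image _ P.continuous.continuousOn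
    refine hmax _ h1 ?_ ?_ (mem_image_of_mem _ hz)
    · rintro _ ⟨w, hw, rfl⟩
      exact (BAS_iff P z₀ w 1).2 (hsub hw)
    · exact ⟨z₀, ⟨z₀, hmem, hP.fix⟩, hmem⟩
  · intro z hz hzB
    obtain ⟨ε, hε, hball⟩ := Metric.isOpen_iff.1 ho z hzB
    refine hmax (ball z ε) (convex_ball z ε).isPreconnected hball ?_ (mem_ball_self hε)
    exact mem_closure_iff.1 hz _ isOpen_ball (mem_ball_self hε)
  · exact (convex_closedBall z₀ r).isPreconnected.subset_connectedComponentIn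
      (mem_closedBall_self hr.le) hb

end Pool.Agent.BSL
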