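import Pool.Agent.BSL.Targets
import Pool.Agent.MAT.P_COMP

/-!
# BSL: target BLK (the Blaschke product)
-/

set_option autoImplicit false

open Polynomial Metric Set Filter Topology

noncomputable section

namespace Pool.Agent.BSL

open Pool.Agent.MAT

/-- the basin is backward invariant -/
lemma BLK_.ba_of_map {P : ℂ[X]} {z₀ z : ℂ} (h : pm P z ∈ Ba P z₀) : z ∈ Ba P z₀ := by
  have h1 : Tendsto (fun m : ℕ => (pm P)^[m + 1] z) atTop (𝓝 z₀) := h
  exact (tendsto_add_atTop_iff_nat 1).1 h1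

theorem p_BLK (hP : T_PRP) (hD : T_BDF) (hR : T_BRM) (hC : T_CRM) (hB : T_BCC) : T_BLK := by
  intro n P z₀ ψ h R hp bf om rm
  obtain ⟨d, a, k, hdn, ha, hk, hk0, heq, hall⟩ := hR n P z₀ ψ h hp bf rm
  obtain ⟨hlt, hprop⟩ := hP n P z₀ ψ h R hp bf om rm
  obtain ⟨Q, k', hQn, hQ0, hQr, hk', hQe⟩ := hC n P z₀ ψ h hp bf rm
  have h0 : (fun w => h (pm P (ψ w))) 0 = 0 := by
    have h1 : pm P z₀ = z₀ := hp.fix
    change h (pm P (ψ 0)) = 0
    rw [rm.zero, h1, ← rm.zero]
    exact rm.hψ 0 (mem_ball_self one_pos)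
  obtain ⟨B, hBl, hBe⟩ := hD d (fun w => h (pm P (ψ w))) k a hk hk0 ha heq h0 hlt hprop
  have hder : ∀ w ∈ ball (0 : ℂ) 1, deriv B w = Q.eval w * k' w := by
    intro w hw
    rw [← hQe w hw]
    refine Filter.EventuallyEq.deriv_eq ?_
    filter_upwards [isOpen_ball.mem_nhds hw] with z hz using hBe z hz
  have hle := hB d B Q k' hBl hQ0 hQr hk' hder
  have hdn' : d = n := by omega
  subst hdn'
  refine ⟨B, hBl, ?_, ?_⟩
  · intro w hw
    rw [hBe w hw]
    have h1 : ψ w ∈ UU P z₀ := by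
      rw [← rm.img]
      exact ⟨w, hw, rfl⟩
    exact rm.ψh _ (bf.map _ h1)
  · intro x hx
    have hdeg : 1 ≤ P.natDegree := by
      have h1 := hp.hn
      have h2 := hp.deg
      omega
    have him := p_COMP P hdeg (UU P z₀) bf.opn bf.con x hx
    have hz : z₀ ∈ (fun z => P.eval z) '' connectedComponentIn {z | P.eval z ∈ UU P z₀} x := by
      rw [him]
      exact bf.mem
    obtain ⟨v, hv, hvz⟩ := hz
    have hvU : v ∈ UU P z₀ := hall rfl v hvz
    have hsub : connectedComponentIn {z | P.eval z ∈ UU P z₀} x ⊆ UU P z₀ := by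
      refine bf.maxi _ isPreconnected_connectedComponentIn ?_ ⟨v, hv, hvU⟩
      intro z hz
      have h1 : z ∈ {z | P.eval z ∈ UU P z₀} := connectedComponentIn_subset _ _ hz
      exact BLK_.ba_of_map (bf.sub h1)
    exact hsub (mem_connectedComponentIn (F := {z | P.eval z ∈ UU P z₀}) hx)

end Pool.Agent.BSL
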