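import Pool.Agent.BSL.Targets
import Pool.Agent.MAT.P_BLA

/-!
# BSL, FIN: the mating
-/

set_option autoImplicit false

open Polynomial Metric Set Filter Topology

noncomputable section

namespace Pool.Agent.BSL

open Pool.Agent.MAT

theorem p_FIN : T_FIN := by
  intro n x v z₀ R B ψ' φ' hv hden hC hz0 hBl hPS hiψ hPH hiφ
  set P : ℂ[X] := C v⁻¹ * x.num with hPdef
  have hn : 2 ≤ n := hC.hp.hn
  have hn0 : n ≠ 0 := by omega
  have hPn : ∀ z : ℂ, x.num.eval z = pm P z * v := by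
    intro z
    simp only [pm, hPdef, eval_mul, eval_C]
    field_simp
  have hDn : ∀ z : ℂ, x.den.eval z = v := by
    intro z
    rw [hden, eval_C]
  have hP0 : pm P 0 = 0 := by
    have h := x.2.1
    have h2 := hPn 0
    have h3 : x.num.eval 0 = 0 := h
    rw [h3] at h2
    rcases mul_eq_zero.1 h2.symm with h4 | h4
    · exact h4
    · exact absurd h4 hv
  have hit : ∀ m : ℕ, (pm P)^[m] 0 = 0 := by
    intro m
    induction m with
    | zero => rfl
    | succ k ih => rw [Function.iterate_succ_apply', ih, hP0]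
  have h0X : (0 : ℂ) ∈ XX P z₀ := by
    intro h
    rcases h with h | h
    · have h1 : Tendsto (fun m : ℕ => (pm P)^[m] 0) atTop (𝓝 z₀) := hC.bf.sub h
      simp only [hit] at h1
      exact hz0 (tendsto_nhds_unique h1 tendsto_const_nhds)
    · have h1 : Tendsto (fun m : ℕ => ‖(pm P)^[m] 0‖) atTop atTop := h
      simp only [hit] at h1
      exact not_tendsto_nhds_of_tendsto_atTop h1 _ tendsto_const_nhds
  have hUX : ∀ z ∈ UU P z₀, z ∉ XX P z₀ := fun z hz hz' => hz' (Or.inl hz)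
  have hOX : ∀ z ∈ Om P, z ∉ XX P z₀ := fun z hz hz' => hz' (Or.inr hz)
  have hUO : ∀ z ∈ UU P z₀, z ∉ Om P := fun z hz hz' => (disjoint_left.1 hC.xf.disj) hz hz'
  obtain ⟨hB0, hBd, hBc, -, hB1, -⟩ := p_BLA n B hn hBl
  obtain ⟨ζp, hζp, hζ0⟩ : ∃ ζp ∈ sphere (0 : ℂ) 1, φ' ζp = 0 := by
    rw [← hPH.sph] at h0X
    exact h0X
  obtain ⟨b, hb, hb0⟩ : ∃ b ∈ sphere (0 : ℂ) 1, ψ' b = 0 := by
    rw [← hPS.sph] at h0X
    exact h0X
  have hζ1 : ‖ζp‖ = 1 := by simpa using hζp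
  have hb1 : ‖b‖ = 1 := by simpa using hb
  have hζne : ζp ≠ 0 := by
    intro h; rw [h, norm_zero] at hζ1; exact zero_ne_one hζ1
  -- the fixed point
  have hζn : ζp ^ n = ζp := by
    apply hiφ
    · simp [hζ1]
    · exact hζp
    · have h1 := hPH.conj ζp ⟨by simp [hζ1], by simpa using hζne⟩
      rw [hζ0, hP0] at h1
      rw [← h1, hζ0]
  have hBb : B b = b := by
    apply hiψ
    · have h1 := (hB1 b (by simp [hb1])).2 hb1
      simp [h1]
    · exact hb
    · have h1 := hPS.conj b (by simp [hb1])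
      rw [hb0, hP0] at h1
      rw [← h1, hb0]
  -- values
  have φO : ∀ ζ : ℂ, ‖ζ‖ < 1 → ζ ≠ 0 → φ' ζ ∈ Om P := by
    intro ζ h1 h2
    rw [← hPH.img]
    exact ⟨ζ, ⟨by simpa using h1, by simpa using h2⟩, rfl⟩
  have φX : ∀ ζ : ℂ, ‖ζ‖ = 1 → φ' ζ ∈ XX P z₀ := by
    intro ζ h1
    rw [← hPH.sph]
    exact ⟨ζ, by simpa using h1, rfl⟩
  have ψU : ∀ w : ℂ, ‖w‖ < 1 → ψ' w ∈ UU P z₀ := by
    intro w h1
    rw [← hPS.img]
    exact ⟨w, by simpa using h1, rfl⟩
  have ψX : ∀ w : ℂ, ‖w‖ = 1 → ψ' w ∈ XX P z₀ := by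
    intro w h1
    rw [← hPS.sph]
    exact ⟨w, by simpa using h1, rfl⟩
  have hmul : ∀ ζ : ℂ, ‖ζp * ζ‖ = ‖ζ‖ := fun ζ => by rw [norm_mul, hζ1, one_mul]
  have hmapc : ∀ ζ ∈ closedBall (0 : ℂ) 1 \ {0}, ζp * ζ ∈ closedBall (0 : ℂ) 1 \ {0} := by
    rintro ζ ⟨h1, h2⟩
    refine ⟨?_, ?_⟩
    · rw [mem_closedBall_zero_iff, hmul]; simpa using h1
    · simp only [mem_singleton_iff, mul_eq_zero, not_or]
      exact ⟨hζne, by simpa using h2⟩
  have hmapo : ∀ ζ ∈ ball (0 : ℂ) 1 \ {0}, ζp * ζ ∈ ball (0 : ℂ) 1 \ {0} := by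
    rintro ζ ⟨h1, h2⟩
    refine ⟨?_, ?_⟩
    · rw [mem_ball_zero_iff, hmul]; simpa using h1
    · simp only [mem_singleton_iff, mul_eq_zero, not_or]
      exact ⟨hζne, by simpa using h2⟩
  have hMat : IsMating (fun z => z ^ n) 1 B b x.num x.den (fun ζ => φ' (ζp * ζ)) ψ' := by
    refine ⟨?_, ?_, ?_, ?_, hPS.cont, hPS.hol, ?_, ?_, ?_, ?_, ?_, ?_, ?_, ?_⟩
    · exact hPH.cont.comp (by fun_prop) hmapc
    · exact hPH.hol.comp (by fun_prop) hmapo
    · intro ζ₁ h1 ζ₂ h2 h12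
      have h12' : φ' (ζp * ζ₁) = φ' (ζp * ζ₂) := h12
      have g1 := hmapc ζ₁ h1
      have g2 := hmapc ζ₂ h2
      have key : ζp * ζ₁ = ζp * ζ₂ := by
        have e1 : ζp * ζ₁ ≠ 0 := by simpa using g1.2
        have e2 : ζp * ζ₂ ≠ 0 := by simpa using g2.2
        have n1 : ‖ζp * ζ₁‖ ≤ 1 := by simpa using g1.1
        have n2 : ‖ζp * ζ₂‖ ≤ 1 := by simpa using g2.1
        rcases n1.lt_or_eq with n1 | n1 <;> rcases n2.lt_or_eq with n2 | n2
        · exact hPH.inj ⟨by simpa using n1, by simpa using e1⟩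
            ⟨by simpa using n2, by simpa using e2⟩ h12'
        · exact absurd (h12' ▸ φX _ n2) (hOX _ (φO _ n1 e1))
        · exact absurd (h12' ▸ φX _ n1) (hOX _ (φO _ n2 e2))
        · exact hiφ (by simpa using n1) (by simpa using n2) h12'
      exact mul_left_cancel₀ hζne key
    · have h1 : Tendsto (fun ζ : ℂ => ζp * ζ) (𝓝[≠] 0) (𝓝[≠] 0) := by
        refine tendsto_nhdsWithin_iff.2 ⟨?_, ?_⟩
        · have h2 : Tendsto (fun ζ : ℂ => ζp * ζ) (𝓝 0) (𝓝 (ζp * 0)) :=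
            (continuous_const.mul continuous_id).tendsto 0
          rw [mul_zero] at h2
          exact h2.mono_left nhdsWithin_le_nhds
        · filter_upwards [self_mem_nhdsWithin] with ζ hζ
          exact mul_ne_zero hζne hζ
      exact hPH.pole.comp h1
    · intro w₁ h1 w₂ h2 h12
      have n1 : ‖w₁‖ ≤ 1 := by simpa using h1
      have n2 : ‖w₂‖ ≤ 1 := by simpa using h2
      rcases n1.lt_or_eq with n1 | n1 <;> rcases n2.lt_or_eq with n2 | n2
      · exact hPS.inj (by simpa using n1) (by simpa using n2) h12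
      · exact absurd (h12 ▸ ψX _ n2) (hUX _ (ψU _ n1))
      · exact absurd (h12 ▸ ψX _ n1) (hUX _ (ψU _ n2))
      · exact hiψ (by simpa using n1) (by simpa using n2) h12
    · intro z
      by_cases hzU : z ∈ UU P z₀
      · right
        rw [← hPS.img] at hzU
        obtain ⟨w, hw, rfl⟩ := hzU
        exact ⟨w, ball_subset_closedBall hw, rfl⟩
      · left
        have hsol : ∃ ζ ∈ closedBall (0 : ℂ) 1 \ {0}, φ' ζ = z := by
          by_cases hzO : z ∈ Om P
          · rw [← hPH.img] at hzO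
            obtain ⟨ζ, hζ, rfl⟩ := hzO
            exact ⟨ζ, ⟨ball_subset_closedBall hζ.1, hζ.2⟩, rfl⟩
          · have hzX : z ∈ XX P z₀ := fun h => h.elim hzU hzO
            rw [← hPH.sph] at hzX
            obtain ⟨ζ, hζ, rfl⟩ := hzX
            refine ⟨ζ, ⟨sphere_subset_closedBall hζ, ?_⟩, rfl⟩
            intro h
            rw [mem_singleton_iff] at h
            rw [h] at hζ
            simp at hζ
        obtain ⟨ζ, hζ, hζz⟩ := hsol
        refine ⟨ζp⁻¹ * ζ, ⟨?_, ?_⟩, ?_⟩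
        · rw [mem_closedBall_zero_iff, norm_mul, norm_inv, hζ1, inv_one, one_mul]
          simpa using hζ.1
        · simp only [mem_singleton_iff, mul_eq_zero, inv_eq_zero, not_or]
          exact ⟨hζne, by simpa using hζ.2⟩
        · simp only [mul_inv_cancel_left₀ hζne]
          exact hζz
    · intro z hz w hw h
      have h' : φ' (ζp * z) = ψ' w := h
      have g := hmapc z hz
      have e1 : ζp * z ≠ 0 := by simpa using g.2
      have n1 : ‖ζp * z‖ ≤ 1 := by simpa using g.1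
      have n2 : ‖w‖ ≤ 1 := by simpa using hw
      rcases n1.lt_or_eq with n1 | n1 <;> rcases n2.lt_or_eq with n2 | n2
      · exact absurd (h' ▸ φO _ n1 e1) (hUO _ (ψU _ n2))
      · exact absurd (h' ▸ ψX _ n2) (hOX _ (φO _ n1 e1))
      · exact absurd (h' ▸ φX _ n1) (hUX _ (ψU _ n2))
      · rw [hmul] at n1
        exact ⟨n1, n2⟩
    · rw [hPS.sph, ← hPH.sph]
      ext z
      constructor
      · rintro ⟨ζ, hζ, rfl⟩
        refine ⟨ζp * ζ, ?_, rfl⟩
        rw [mem_sphere_zero_iff_norm, hmul]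
        simpa using hζ
      · rintro ⟨ζ, hζ, rfl⟩
        refine ⟨ζp⁻¹ * ζ, ?_, ?_⟩
        · rw [mem_sphere_zero_iff_norm, norm_mul, norm_inv, hζ1, inv_one, one_mul]
          simpa using hζ
        · simp only [mul_inv_cancel_left₀ hζne]
    · intro z hz _
      have g := hmapc z hz
      have h1 := hPH.conj _ g
      rw [mul_pow, hζn] at h1
      show x.num.eval (φ' (ζp * z)) = φ' (ζp * z ^ n) * x.den.eval (φ' (ζp * z))
      rw [hPn, hDn, h1]
    · intro z hz h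
      exact absurd (pow_eq_zero_iff hn0 |>.1 h) (by simpa using hz.2)
    · intro w hw
      rw [hPn, hDn, hPS.conj w hw]
    · refine ⟨?_, hb0⟩
      simpa using hζ0
  exact ⟨b, ⟨hBl, hb1, hBb⟩, x, rfl, _, ψ', hMat⟩

end Pool.Agent.BSL
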