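import Pool.Agent.BSL.Targets

/-!
# BSL: NBX (exponential shrinking; from BRA)
-/

set_option autoImplicit false

open Polynomial Metric Set Filter Topology

noncomputable section

namespace Pool.Agent.BSL

open Pool.Agent.MAT

namespace NBX_

/-- `X` is completely invariant under the iterates -/
lemma iter_mem {P : ℂ[X]} {z₀ : ℂ} (h : XF P z₀) (m : ℕ) (z : ℂ) :
    (pm P)^[m] z ∈ XX P z₀ ↔ z ∈ XX P z₀ := by
  induction m generalizing z with
  | zero => simp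
  | succ m ih => rw [Function.iterate_succ_apply, ih, h.inv]

/-- iterates of points outside the escape radius grow -/
lemma iter_esc {P : ℂ[X]} {R : ℝ} (h : OmF P R) (m : ℕ) (z : ℂ) (hz : R ≤ ‖z‖) :
    ‖z‖ ≤ ‖(pm P)^[m] z‖ := by
  induction m generalizing z with
  | zero => simp
  | succ m ih =>
    rw [Function.iterate_succ_apply]
    have h1 := h.esc z hz
    have h0 : 0 ≤ ‖z‖ := norm_nonneg z
    exact le_trans (by linarith) (ih (pm P z) (by linarith))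

lemma X_lt {P : ℂ[X]} {z₀ : ℂ} {R : ℝ} (h : OmF P R) {x : ℂ} (hx : x ∈ XX P z₀) : ‖x‖ < R := by
  by_contra hc
  push Not at hc
  apply hx
  right
  rw [h.iff]
  exact ⟨0, by simpa using hc⟩

/-- one step -/
lemma step (hA : T_BRA) {n : ℕ} {P : ℂ[X]} {z₀ : ℂ} {R : ℝ} (hc : Ctx n P z₀ R) {δ : ℝ}
    (hδ : 0 < δ) (hd : ∀ x ∈ XX P z₀, Disjoint (ball x (4 * δ)) (KK P z₀)) {M : ℕ}
    (hM : ∀ x ∈ XX P z₀, ∀ g : ℂ → ℂ,
      Br P M x (4 * δ) g → ∀ z ∈ closedBall x (2 * δ), ‖g z - g x‖ ≤ δ / 2)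
    {z x : ℂ} (hx : x ∈ XX P z₀) (hz : ‖(pm P)^[M] z - x‖ < δ) :
    ∃ y ∈ XX P z₀, ‖z - y‖ ≤ ‖(pm P)^[M] z - x‖ / 2 := by
  have hp : (pm P)^[M] z ∈ ball x (4 * δ) := by
    rw [mem_ball, dist_eq_norm]; linarith
  obtain ⟨g, hg, hgz⟩ := hA n P z₀ R hc M x ((pm P)^[M] z) z (4 * δ) (hd x hx) hp rfl
  have hx4 : x ∈ ball x (4 * δ) := mem_ball_self (by linarith)
  refine ⟨g x, ?_, ?_⟩
  · rw [← iter_mem hc.xf M (g x), hg.2 x hx4]
    exact hx
  · have hdiff : DifferentiableOn ℂ g (ball x (2 * δ)) :=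
      hg.1.mono (ball_subset_ball (by linarith))
    have hmaps : MapsTo g (ball x (2 * δ)) (closedBall (g x) δ) := by
      intro w hw
      rw [mem_closedBall, dist_eq_norm]
      have := hM x hx g hg w (ball_subset_closedBall hw)
      linarith
    have hp2 : (pm P)^[M] z ∈ ball x (2 * δ) := by
      rw [mem_ball, dist_eq_norm]; linarith
    have key := Complex.dist_le_div_mul_dist_of_mapsTo_ball hdiff hmaps hp2
    rw [hgz, dist_eq_norm, dist_eq_norm] at key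
    have h2 : δ / (2 * δ) = 1 / 2 := by
      field_simp
    rw [h2] at key
    linarith

/-- induction -/
lemma iter_step (hA : T_BRA) {n : ℕ} {P : ℂ[X]} {z₀ : ℂ} {R : ℝ} (hc : Ctx n P z₀ R) {δ : ℝ}
    (hδ : 0 < δ) (hd : ∀ x ∈ XX P z₀, Disjoint (ball x (4 * δ)) (KK P z₀)) {M : ℕ}
    (hM : ∀ x ∈ XX P z₀, ∀ g : ℂ → ℂ,
      Br P M x (4 * δ) g → ∀ z ∈ closedBall x (2 * δ), ‖g z - g x‖ ≤ δ / 2) (k : ℕ) :
    ∀ z x : ℂ, x ∈ XX P z₀ → ‖(pm P)^[M * k] z - x‖ < δ →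
      ∃ y ∈ XX P z₀, ‖z - y‖ < (1 / 2) ^ k * δ := by
  induction k with
  | zero =>
    intro z x hx h
    exact ⟨x, hx, by simpa using h⟩
  | succ k ih =>
    intro z x hx h
    rw [Nat.mul_succ, Function.iterate_add_apply] at h
    obtain ⟨y, hy, hzy⟩ := ih _ x hx h
    have hp1 : (1 / 2 : ℝ) ^ k ≤ 1 := pow_le_one₀ (by norm_num) (by norm_num)
    have hlt : ‖(pm P)^[M] z - y‖ < δ := by
      refine lt_of_lt_of_le hzy ?_
      nlinarith
    obtain ⟨w, hw, hzw⟩ := step hA hc hδ hd hM hy hlt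
    refine ⟨w, hw, ?_⟩
    rw [pow_succ]
    linarith

/-- the bound for the remaining iterates -/
lemma last (hA : T_BRA) {n : ℕ} {P : ℂ[X]} {z₀ : ℂ} {R : ℝ} (hc : Ctx n P z₀ R) {δ : ℝ}
    (hδ : 0 < δ) (hd : ∀ x ∈ XX P z₀, Disjoint (ball x (4 * δ)) (KK P z₀)) (j : ℕ)
    {z x : ℂ} (hx : x ∈ XX P z₀) (hz : ‖(pm P)^[j] z - x‖ < 4 * δ) :
    ∃ y ∈ XX P z₀, ‖z - y‖ ≤ (2 * (R + 4 * δ) + 1) / (4 * δ) * ‖(pm P)^[j] z - x‖ := by
  have hp : (pm P)^[j] z ∈ ball x (4 * δ) := by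
    rw [mem_ball, dist_eq_norm]; exact hz
  obtain ⟨g, hg, hgz⟩ := hA n P z₀ R hc j x ((pm P)^[j] z) z (4 * δ) (hd x hx) hp rfl
  have hx4 : x ∈ ball x (4 * δ) := mem_ball_self (by linarith)
  have hxR : ‖x‖ < R := X_lt hc.om hx
  have hbd : ∀ w ∈ ball x (4 * δ), ‖g w‖ ≤ R + 4 * δ := by
    intro w hw
    by_cases hgw : R ≤ ‖g w‖
    · have h1 := iter_esc hc.om j (g w) hgw
      rw [hg.2 w hw] at h1
      rw [mem_ball, dist_eq_norm] at hw
      have h2 : ‖w‖ ≤ ‖w - x‖ + ‖x‖ := by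
        calc ‖w‖ = ‖(w - x) + x‖ := by ring_nf
          _ ≤ _ := norm_add_le _ _
      linarith
    · push Not at hgw
      linarith
  refine ⟨g x, ?_, ?_⟩
  · rw [← iter_mem hc.xf j (g x), hg.2 x hx4]
    exact hx
  · have hmaps : MapsTo g (ball x (4 * δ)) (closedBall (g x) (2 * (R + 4 * δ) + 1)) := by
      intro w hw
      rw [mem_closedBall, dist_eq_norm]
      have h1 := hbd w hw
      have h2 := hbd x hx4
      have h3 := norm_sub_le (g w) (g x)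
      linarith
    have key := Complex.dist_le_div_mul_dist_of_mapsTo_ball hg.1 hmaps hp
    rw [hgz, dist_eq_norm, dist_eq_norm] at key
    exact key

end NBX_

open NBX_

/-- NBX -/
theorem p_NBX (hA : T_BRA) : T_NBX := by
  intro n P z₀ R hc hsu
  obtain ⟨δ, hδ, hd, hsh⟩ := hsu
  obtain ⟨M₀, hM₀⟩ := hsh (δ / 2) (by linarith)
  obtain ⟨M, hM1, hM⟩ : ∃ M : ℕ, M ≠ 0 ∧ ∀ x ∈ XX P z₀, ∀ g : ℂ → ℂ,
      Br P M x (4 * δ) g → ∀ z ∈ closedBall x (2 * δ), ‖g z - g x‖ ≤ δ / 2 :=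
    ⟨M₀ + 1, by omega, hM₀ (M₀ + 1) (by omega)⟩
  have hR : 1 ≤ R := hc.om.hR
  set lam : ℝ := (1 / 2 : ℝ) ^ ((M : ℝ)⁻¹) with hlam
  have hMpos : (0 : ℝ) < (M : ℝ)⁻¹ := by
    have : 0 < M := Nat.pos_of_ne_zero hM1
    positivity
  have hlam0 : 0 < lam := Real.rpow_pos_of_pos (by norm_num) _
  have hlam1 : lam < 1 := Real.rpow_lt_one (by norm_num) (by norm_num) hMpos
  have hlamM : lam ^ M = 1 / 2 := Real.rpow_inv_natCast_pow (by norm_num) hM1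
  set A : ℝ := (2 * (R + 4 * δ) + 1) / (4 * δ) with hAdef
  have hA0 : 0 < A := by
    rw [hAdef]
    positivity
  refine ⟨δ, A * (2 * δ), lam, hδ, by positivity, hlam0, hlam1, ?_⟩
  intro m z x hx hz
  have hm : m = M * (m / M) + m % M := (Nat.div_add_mod m M).symm
  set k := m / M with hk
  set j := m % M with hj
  have hjM : j < M := Nat.mod_lt _ (Nat.pos_of_ne_zero hM1)
  rw [hm, Function.iterate_add_apply] at hz
  obtain ⟨x', hx', hzx'⟩ := iter_step hA hc hδ hd hM k _ x hx hz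
  have hp1 : (1 / 2 : ℝ) ^ k ≤ 1 := pow_le_one₀ (by norm_num) (by norm_num)
  have hlt : ‖(pm P)^[j] z - x'‖ < 4 * δ := by
    refine lt_of_lt_of_le hzx' ?_
    nlinarith
  obtain ⟨y, hy, hzy⟩ := last hA hc hδ hd j hx' hlt
  refine ⟨y, hy, le_trans hzy ?_⟩
  have hl : (1 / 2 : ℝ) ^ k ≤ 2 * lam ^ m := by
    have h1 : lam ^ m = (1 / 2) ^ k * lam ^ j := by
      rw [hm, pow_add, pow_mul, hlamM]
    have h2 : 1 / 2 ≤ lam ^ j := by
      rw [← hlamM]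
      exact pow_le_pow_of_le_one hlam0.le hlam1.le hjM.le
    have h3 : (0 : ℝ) < (1 / 2) ^ k := by positivity
    rw [h1]
    nlinarith
  calc A * ‖(pm P)^[j] z - x'‖ ≤ A * ((1 / 2) ^ k * δ) :=
        mul_le_mul_of_nonneg_left hzx'.le hA0.le
    _ ≤ A * ((2 * lam ^ m) * δ) := by
        apply mul_le_mul_of_nonneg_left _ hA0.le
        exact mul_le_mul_of_nonneg_right hl hδ.le
    _ = A * (2 * δ) * lam ^ m := by ring

end Pool.Agent.BSL
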