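import Pool.Agent.BSL.Core

/-!
# BSL: targets

For each target `T_XXX` the file `P_XXX.lean` proves `p_XXX : T_XXX`, with the targets named in
its docstring as hypotheses.  Proofs: `Blueprint.lean.txt`.
-/

set_option autoImplicit false

open Polynomial Metric Set Filter Topology

noncomputable section

namespace Pool.Agent.BSL

open Pool.Agent.MAT

/-! ### A: the two basins -/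

/-- BAS -/
def T_BAS : Prop := ∀ (n : ℕ) (P : ℂ[X]) (z₀ : ℂ), HP n P z₀ → BF P z₀

/-- ESC -/
def T_ESC : Prop := ∀ P : ℂ[X], 2 ≤ P.natDegree → ∃ R : ℝ, OmF P R

/-! ### B: the Riemann map of the immediate basin -/

/-- DVD (divided differences of a polynomial) -/
def T_DVD : Prop := ∀ F : ℂ[X], ∃ (d : ℕ) (c : ℕ → ℂ[X]), ∀ s x : ℂ,
  F.eval s - F.eval x = (s - x) * ∑ j ∈ Finset.range d, (c j).eval s * x ^ j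

/-- CUT (a cutoff function) -/
def T_CUT : Prop := ∀ (K V : Set ℂ), IsCompact K → IsOpen V → K ⊆ V →
  ∃ χ : ℂ → ℂ, ContDiff ℝ 1 χ ∧ HasCompactSupport χ ∧ tsupport χ ⊆ V ∧
    ∀ x ∈ K, χ =ᶠ[𝓝 x] fun _ => 1

/-- POLY (polynomial approximation on `{z ∈ U : |Q| ≤ r}`; from DVD, CUT) -/
def T_POLY : Prop := ∀ (U : Set ℂ) (Q : ℂ[X]) (r R : ℝ) (g : ℂ → ℂ), IsOpen U → 0 ≤ r → r < R →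
  IsCompact (U ∩ {z | ‖Q.eval z‖ ≤ R}) → DifferentiableOn ℂ g U → ∀ ε : ℝ, 0 < ε →
  ∃ p : ℂ[X], ∀ z ∈ U, ‖Q.eval z‖ ≤ r → ‖g z - p.eval z‖ ≤ ε

/-- PRL (primitives from polynomial approximation on an exhaustion) -/
def T_PRL : Prop := ∀ (U : Set ℂ) (W : ℕ → Set ℂ) (g : ℂ → ℂ), IsOpen U → IsPreconnected U →
  (∀ m, IsOpen (W m)) → Monotone W → (⋃ m, W m) = U →
  (∀ (m : ℕ) (ε : ℝ), 0 < ε → ∃ p : ℂ[X], ∀ z ∈ W m, ‖g z - p.eval z‖ ≤ ε) →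
  ∃ G : ℂ → ℂ, ∀ z ∈ U, HasDerivAt G (g z) z

/-- PRI (primitives on the immediate basin; from POLY, PRL) -/
def T_PRI : Prop := ∀ (n : ℕ) (P : ℂ[X]) (z₀ : ℂ) (R : ℝ), HP n P z₀ → BF P z₀ → OmF P R →
  Pri (UU P z₀)

/-- SQR (square roots) -/
def T_SQR : Prop := ∀ U : Set ℂ, IsOpen U → IsPreconnected U → Pri U → ∀ f : ℂ → ℂ,
  DifferentiableOn ℂ f U → (∀ z ∈ U, f z ≠ 0) →
  ∃ s : ℂ → ℂ, DifferentiableOn ℂ s U ∧ ∀ z ∈ U, s z ^ 2 = f z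

/-- RMA (the extremal function; from MAT.UL, MAT.HINJ) -/
def T_RMA : Prop := ∀ (U : Set ℂ) (z₀ : ℂ), IsOpen U → IsPreconnected U → z₀ ∈ U →
  Bornology.IsBounded U → ∃ f : ℂ → ℂ, DifferentiableOn ℂ f U ∧ InjOn f U ∧
    (∀ z ∈ U, f z ∈ ball (0 : ℂ) 1) ∧ f z₀ = 0 ∧
    ∀ g : ℂ → ℂ, DifferentiableOn ℂ g U → InjOn g U → (∀ z ∈ U, g z ∈ ball (0 : ℂ) 1) →
      g z₀ = 0 → ‖deriv g z₀‖ ≤ ‖deriv f z₀‖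

/-- RMB (the extremal function is onto; from SQR, MAT.INVH) -/
def T_RMB : Prop := ∀ (U : Set ℂ) (z₀ : ℂ) (f : ℂ → ℂ), IsOpen U → IsPreconnected U → z₀ ∈ U →
  Pri U → DifferentiableOn ℂ f U → InjOn f U → (∀ z ∈ U, f z ∈ ball (0 : ℂ) 1) → f z₀ = 0 →
  (∀ g : ℂ → ℂ, DifferentiableOn ℂ g U → InjOn g U → (∀ z ∈ U, g z ∈ ball (0 : ℂ) 1) →
      g z₀ = 0 → ‖deriv g z₀‖ ≤ ‖deriv f z₀‖) →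
  f '' U = ball 0 1

/-- RMP (the Riemann map; from RMA, RMB, MAT.INVH) -/
def T_RMP : Prop := ∀ (U : Set ℂ) (z₀ : ℂ), IsOpen U → IsPreconnected U → z₀ ∈ U →
  Bornology.IsBounded U → Pri U → ∃ ψ h : ℂ → ℂ, RM U z₀ ψ h

/-! ### C: the Blaschke product -/

/-- PRP (properness) -/
def T_PRP : Prop := ∀ (n : ℕ) (P : ℂ[X]) (z₀ : ℂ) (ψ h : ℂ → ℂ) (R : ℝ), HP n P z₀ → BF P z₀ →
  OmF P R → RM (UU P z₀) z₀ ψ h →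
  (∀ w ∈ ball (0 : ℂ) 1, ‖h (pm P (ψ w))‖ < 1) ∧
  ∀ ε : ℝ, 0 < ε → ∃ ρ : ℝ, ρ < 1 ∧ ∀ w : ℂ, ρ < ‖w‖ → ‖w‖ < 1 → 1 - ε < ‖h (pm P (ψ w))‖

/-- BDF (a proper map with `d` zeros is a Blaschke product of degree `d`) -/
def T_BDF : Prop := ∀ (d : ℕ) (B k : ℂ → ℂ) (a : Fin d → ℂ), DifferentiableOn ℂ k (ball 0 1) →
  (∀ w ∈ ball (0 : ℂ) 1, k w ≠ 0) → (∀ i, ‖a i‖ < 1) →
  (∀ w ∈ ball (0 : ℂ) 1, B w = k w * ∏ i, (w - a i)) → B 0 = 0 →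
  (∀ w ∈ ball (0 : ℂ) 1, ‖B w‖ < 1) →
  (∀ ε : ℝ, 0 < ε → ∃ ρ : ℝ, ρ < 1 ∧ ∀ w : ℂ, ρ < ‖w‖ → ‖w‖ < 1 → 1 - ε < ‖B w‖) →
  ∃ B' : ℂ → ℂ, IsBlaschke d B' ∧ ∀ w ∈ ball (0 : ℂ) 1, B' w = B w

/-- BRM (zeros of `h ∘ P ∘ ψ`) -/
def T_BRM : Prop := ∀ (n : ℕ) (P : ℂ[X]) (z₀ : ℂ) (ψ h : ℂ → ℂ), HP n P z₀ → BF P z₀ →
  RM (UU P z₀) z₀ ψ h →
  ∃ (d : ℕ) (a : Fin d → ℂ) (k : ℂ → ℂ), d ≤ n ∧ (∀ i, ‖a i‖ < 1) ∧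
    DifferentiableOn ℂ k (ball 0 1) ∧ (∀ w ∈ ball (0 : ℂ) 1, k w ≠ 0) ∧
    (∀ w ∈ ball (0 : ℂ) 1, h (pm P (ψ w)) = k w * ∏ i, (w - a i)) ∧
    (d = n → ∀ z : ℂ, P.eval z = z₀ → z ∈ UU P z₀)

/-- CRM (critical points of `h ∘ P ∘ ψ`) -/
def T_CRM : Prop := ∀ (n : ℕ) (P : ℂ[X]) (z₀ : ℂ) (ψ h : ℂ → ℂ), HP n P z₀ → BF P z₀ →
  RM (UU P z₀) z₀ ψ h →
  ∃ (Q : ℂ[X]) (k : ℂ → ℂ), Q.natDegree + 1 = n ∧ Q ≠ 0 ∧ (∀ z : ℂ, Q.eval z = 0 → ‖z‖ < 1) ∧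
    DifferentiableOn ℂ k (ball 0 1) ∧
    ∀ w ∈ ball (0 : ℂ) 1, deriv (fun w => h (pm P (ψ w))) w = Q.eval w * k w

/-- BCC (a Blaschke product of degree `d` has at most `d - 1` critical points in the disk) -/
def T_BCC : Prop := ∀ (d : ℕ) (B : ℂ → ℂ) (Q : ℂ[X]) (k : ℂ → ℂ), IsBlaschke d B → Q ≠ 0 →
  (∀ z : ℂ, Q.eval z = 0 → ‖z‖ < 1) → DifferentiableOn ℂ k (ball 0 1) →
  (∀ w ∈ ball (0 : ℂ) 1, deriv B w = Q.eval w * k w) → Q.natDegree + 1 ≤ d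

/-- BLK (the Blaschke product; from PRP, BDF, BRM, CRM, BCC, MAT.COMP) -/
def T_BLK : Prop := ∀ (n : ℕ) (P : ℂ[X]) (z₀ : ℂ) (ψ h : ℂ → ℂ) (R : ℝ), HP n P z₀ → BF P z₀ →
  OmF P R → RM (UU P z₀) z₀ ψ h → ∃ B : ℂ → ℂ, BP n P z₀ ψ B

/-! ### D: the Böttcher coordinate -/

/-- BOA (the logarithmic coordinate) -/
def T_BOA : Prop := ∀ (n : ℕ) (P : ℂ[X]), 2 ≤ n → P.natDegree = n →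
  ∃ (L : ℝ) (ℓ : ℂ) (e : ℂ → ℂ), LogF n P L ℓ e

/-- BOB (linearisation) -/
def T_BOB : Prop := ∀ (n : ℕ) (P : ℂ[X]) (L : ℝ) (ℓ : ℂ) (e : ℂ → ℂ), 2 ≤ n → LogF n P L ℓ e →
  ∃ (C : ℝ) (Φ : ℂ → ℂ), LogG n L ℓ e C Φ

/-- BOC (inverse of a function close to the identity on a half plane) -/
def T_BOC : Prop := ∀ (L C : ℝ) (Φ : ℂ → ℂ), 0 ≤ C → DifferentiableOn ℂ Φ {u | L < u.re} →
  (∀ u : ℂ, L < u.re → ‖Φ u - u‖ ≤ C) → InjOn Φ {u | L + 4 * C + 1 < u.re} ∧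
  ∃ Ψ : ℂ → ℂ, DifferentiableOn ℂ Ψ {v | L + 5 * C + 1 < v.re} ∧
    ∀ v : ℂ, L + 5 * C + 1 < v.re → ‖Ψ v - v‖ ≤ C ∧ L + 4 * C + 1 < (Ψ v).re ∧ Φ (Ψ v) = v

/-- BOD (the local inverse Böttcher coordinate; from BOA, BOB, BOC) -/
def T_BOD : Prop := ∀ (n : ℕ) (P : ℂ[X]), 2 ≤ n → P.natDegree = n →
  ∃ (L : ℝ) (F : ℂ → ℂ), BT0 n P L F

/-- EXA (extension to the left half plane; from MAT.ROOT) -/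
def T_EXA : Prop := ∀ (n : ℕ) (P : ℂ[X]) (L R : ℝ) (F₀ : ℂ → ℂ), 2 ≤ n → P.natDegree = n →
  OmF P R → (∀ c : ℂ, (derivative P).eval c = 0 → c ∉ Om P) → BT0 n P L F₀ →
  ∃ F : ℂ → ℂ, DifferentiableOn ℂ F {s | s.re < 0} ∧ (∀ s : ℂ, s.re < -L → F s = F₀ s) ∧
    ∀ s : ℂ, s.re < 0 → pm P (F s) = F (n * s)

/-- EXB (its properties) -/
def T_EXB : Prop := ∀ (n : ℕ) (P : ℂ[X]) (L R : ℝ) (F₀ F : ℂ → ℂ), 2 ≤ n → P.natDegree = n →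
  OmF P R → (∀ c : ℂ, (derivative P).eval c = 0 → c ∉ Om P) → BT0 n P L F₀ →
  DifferentiableOn ℂ F {s | s.re < 0} → (∀ s : ℂ, s.re < -L → F s = F₀ s) →
  (∀ s : ℂ, s.re < 0 → pm P (F s) = F (n * s)) → BT n P F

/-- OBX (the inverse Böttcher coordinate on the punctured disk) -/
def T_OBX : Prop := ∀ (n : ℕ) (P : ℂ[X]) (F : ℂ → ℂ), 2 ≤ n → BT n P F → ∃ φ : ℂ → ℂ, OB n P φ

/-! ### E: expansion -/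

/-- XXF -/
def T_XXF : Prop := ∀ (n : ℕ) (P : ℂ[X]) (z₀ : ℂ) (R : ℝ), HP n P z₀ → BF P z₀ → OmF P R →
  (∀ z : ℂ, pm P z ∈ UU P z₀ → z ∈ UU P z₀) → XF P z₀

/-- KKF -/
def T_KKF : Prop := ∀ (n : ℕ) (P : ℂ[X]) (z₀ : ℂ), HP n P z₀ → BF P z₀ → KF P z₀

/-- BRA (existence of inverse branches; from MAT.ROOT) -/
def T_BRA : Prop := ∀ (n : ℕ) (P : ℂ[X]) (z₀ : ℂ) (R : ℝ), Ctx n P z₀ R →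
  ∀ (m : ℕ) (x p y : ℂ) (r : ℝ), Disjoint (ball x r) (KK P z₀) → p ∈ ball x r →
    (pm P)^[m] y = p → ∃ g : ℂ → ℂ, Br P m x r g ∧ g p = y

/-- BRU (uniqueness of inverse branches) -/
def T_BRU : Prop := ∀ (P : ℂ[X]) (m : ℕ) (x x' p : ℂ) (r r' : ℝ) (g g' : ℂ → ℂ),
  Br P m x r g → Br P m x' r' g' → p ∈ ball x r ∩ ball x' r' → g p = g' p →
  EqOn g g' (ball x r ∩ ball x' r')

/-- SHA (balls in the basin of infinity shrink; from MAT.UL, MAT.HUR) -/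
def T_SHA : Prop := ∀ (n : ℕ) (P : ℂ[X]) (z₀ : ℂ) (R : ℝ), Ctx n P z₀ R →
  ∀ (x : ℂ) (r : ℝ), ball x r ⊆ Om P → Shr P x r

/-- SHB (propagation; from MAT.UL, BRA, BRU) -/
def T_SHB : Prop := ∀ (n : ℕ) (P : ℂ[X]) (z₀ : ℂ) (R : ℝ), Ctx n P z₀ R →
  ∀ (x x' : ℂ) (r r' : ℝ), Disjoint (ball x r) (KK P z₀) → Disjoint (ball x' r') (KK P z₀) →
    (ball x r ∩ ball x' r').Nonempty → Shr P x r → Shr P x' r'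

/-- SHC (all balls shrink; from SHA, SHB) -/
def T_SHC : Prop := ∀ (n : ℕ) (P : ℂ[X]) (z₀ : ℂ) (R : ℝ), Ctx n P z₀ R →
  ∀ (x : ℂ) (r : ℝ), Disjoint (ball x r) (KK P z₀) → Shr P x r

/-- DNS (both basins accumulate at every point of `X`; from BRA) -/
def T_DNS : Prop := ∀ (n : ℕ) (P : ℂ[X]) (z₀ : ℂ) (R : ℝ), Ctx n P z₀ R →
  (∀ (x : ℂ) (r : ℝ), Disjoint (ball x r) (KK P z₀) → Shr P x r) →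
  XX P z₀ ⊆ closure (UU P z₀) ∧ XX P z₀ ⊆ closure (Om P)

/-- SHU (uniform shrinking) -/
def T_SHU : Prop := ∀ (n : ℕ) (P : ℂ[X]) (z₀ : ℂ) (R : ℝ), Ctx n P z₀ R →
  (∀ (x : ℂ) (r : ℝ), Disjoint (ball x r) (KK P z₀) → Shr P x r) → SU P z₀

/-- NBX (exponential shrinking; from BRA) -/
def T_NBX : Prop := ∀ (n : ℕ) (P : ℂ[X]) (z₀ : ℂ) (R : ℝ), Ctx n P z₀ R → SU P z₀ →
  ∃ δ C lam : ℝ, NB P z₀ δ C lam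

/-! ### F: boundary extensions -/

/-- RAT (from exponential to polynomial rates) -/
def T_RAT : Prop := ∀ (T : ℂ → ℂ) (D : ℂ → ℝ) (ρ L C lam : ℝ), 0 ≤ ρ → ρ < 1 → 1 < L → 0 ≤ C →
  0 < lam → lam < 1 →
  (∀ w : ℂ, ρ ≤ ‖w‖ → ‖w‖ < 1 → ‖T w‖ < 1 ∧ 1 - ‖T w‖ ≤ L * (1 - ‖w‖)) →
  (∀ (w : ℂ) (m : ℕ), ρ ≤ ‖w‖ → ‖w‖ < 1 → ρ ≤ ‖T^[m] w‖ → ‖T^[m] w‖ < 1 →
    D w ≤ C * lam ^ m) →
  ∃ C' α : ℝ, 0 ≤ C' ∧ 0 < α ∧ ∀ w : ℂ, ρ ≤ ‖w‖ → ‖w‖ < 1 → D w ≤ C' * (1 - ‖w‖) ^ α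

/-- LIB -/
def T_LIB : Prop := ∀ (n : ℕ) (B : ℂ → ℂ), IsBlaschke n B → ∃ L : ℝ, 1 < L ∧
  ∀ w ∈ closedBall (0 : ℂ) 1, 1 - ‖B w‖ ≤ L * (1 - ‖w‖)

/-- NRS -/
def T_NRS : Prop := ∀ (n : ℕ) (P : ℂ[X]) (z₀ : ℂ) (R : ℝ) (ψ h : ℂ → ℂ), Ctx n P z₀ R →
  RM (UU P z₀) z₀ ψ h → ∀ δ : ℝ, 0 < δ → ∃ ρ : ℝ, 0 < ρ ∧ ρ < 1 ∧ ∀ w : ℂ, ρ ≤ ‖w‖ → ‖w‖ < 1 →
    ∃ x ∈ XX P z₀, ‖ψ w - x‖ < δ

/-- NRO -/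
def T_NRO : Prop := ∀ (n : ℕ) (P : ℂ[X]) (z₀ : ℂ) (R : ℝ) (φ : ℂ → ℂ), Ctx n P z₀ R →
  OB n P φ → ∀ δ : ℝ, 0 < δ → ∃ ρ : ℝ, 0 < ρ ∧ ρ < 1 ∧ ∀ ζ : ℂ, ρ ≤ ‖ζ‖ → ‖ζ‖ < 1 →
    ∃ x ∈ XX P z₀, ‖φ ζ - x‖ < δ

/-- HOE (Hölder continuous extension to the circle) -/
def T_HOE : Prop := ∀ (g : ℂ → ℂ) (ρ C α : ℝ), 0 ≤ ρ → ρ < 1 → 0 < α →
  DifferentiableOn ℂ g {w | ρ < ‖w‖ ∧ ‖w‖ < 1} →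
  (∀ w : ℂ, ρ < ‖w‖ → ‖w‖ < 1 → ‖deriv g w‖ * (1 - ‖w‖) ≤ C * (1 - ‖w‖) ^ α) →
  ∃ g' : ℂ → ℂ, ContinuousOn g' {w | ρ < ‖w‖ ∧ ‖w‖ ≤ 1} ∧
    ∀ w : ℂ, ρ < ‖w‖ → ‖w‖ < 1 → g' w = g w

/-- EXS (derivative of the Riemann map; from RAT, LIB, NRS, `PLim.p_KOEB`) -/
def T_EXS : Prop := ∀ (n : ℕ) (P : ℂ[X]) (z₀ : ℂ) (R : ℝ) (ψ h B : ℂ → ℂ) (δ C lam : ℝ),
  Ctx n P z₀ R → RM (UU P z₀) z₀ ψ h → BP n P z₀ ψ B → NB P z₀ δ C lam →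
  ∃ ρ C' α : ℝ, 0 ≤ ρ ∧ ρ < 1 ∧ 0 < α ∧ ∀ w : ℂ, ρ < ‖w‖ → ‖w‖ < 1 →
    ‖deriv ψ w‖ * (1 - ‖w‖) ≤ C' * (1 - ‖w‖) ^ α

/-- EXO (derivative of the inverse Böttcher coordinate; from RAT, NRO, `PLim.p_KOEB`) -/
def T_EXO : Prop := ∀ (n : ℕ) (P : ℂ[X]) (z₀ : ℂ) (R : ℝ) (φ : ℂ → ℂ) (δ C lam : ℝ),
  Ctx n P z₀ R → OB n P φ → NB P z₀ δ C lam →
  ∃ ρ C' α : ℝ, 0 ≤ ρ ∧ ρ < 1 ∧ 0 < α ∧ ∀ w : ℂ, ρ < ‖w‖ → ‖w‖ < 1 →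
    ‖deriv φ w‖ * (1 - ‖w‖) ≤ C' * (1 - ‖w‖) ^ α

/-- PSE (the extension of the Riemann map; from HOE) -/
def T_PSE : Prop := ∀ (n : ℕ) (P : ℂ[X]) (z₀ : ℂ) (R : ℝ) (ψ h B : ℂ → ℂ) (ρ C α : ℝ),
  Ctx n P z₀ R → RM (UU P z₀) z₀ ψ h → BP n P z₀ ψ B → 0 ≤ ρ → ρ < 1 → 0 < α →
  (∀ w : ℂ, ρ < ‖w‖ → ‖w‖ < 1 → ‖deriv ψ w‖ * (1 - ‖w‖) ≤ C * (1 - ‖w‖) ^ α) →
  XX P z₀ ⊆ closure (UU P z₀) → ∃ ψ' : ℂ → ℂ, PS P z₀ B ψ'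

/-- PHE (the extension of the inverse Böttcher coordinate; from HOE) -/
def T_PHE : Prop := ∀ (n : ℕ) (P : ℂ[X]) (z₀ : ℂ) (R : ℝ) (φ : ℂ → ℂ) (ρ C α : ℝ),
  Ctx n P z₀ R → OB n P φ → 0 ≤ ρ → ρ < 1 → 0 < α →
  (∀ w : ℂ, ρ < ‖w‖ → ‖w‖ < 1 → ‖deriv φ w‖ * (1 - ‖w‖) ≤ C * (1 - ‖w‖) ^ α) →
  XX P z₀ ⊆ closure (Om P) → ∃ φ' : ℂ → ℂ, PH n P z₀ φ'

/-! ### G: injectivity on the circle -/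

/-- LGB (continuous logarithms on the closed disk) -/
def T_LGB : Prop := ∀ g : ℂ → ℂ, ContinuousOn g (closedBall 0 1) →
  (∀ z ∈ closedBall (0 : ℂ) 1, g z ≠ 0) →
  ∃ l : ℂ → ℂ, ContinuousOn l (closedBall 0 1) ∧
    ∀ z ∈ closedBall (0 : ℂ) 1, Complex.exp (l z) = g z

/-- SPO (an injective pole is simple; from MAT.INVH) -/
def T_SPO : Prop := ∀ φ : ℂ → ℂ, DifferentiableOn ℂ φ (ball 0 1 \ {0}) →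
  InjOn φ (ball 0 1 \ {0}) → Tendsto (fun ζ => ‖φ ζ‖) (𝓝[≠] 0) atTop →
  ∃ a : ℂ, a ≠ 0 ∧ Tendsto (fun ζ => ζ * φ ζ) (𝓝[≠] 0) (𝓝 a)

/-- PIN (injectivity of `φ'` on the circle; from LGB, SPO) -/
def T_PIN : Prop := ∀ (n : ℕ) (P : ℂ[X]) (z₀ : ℂ) (R : ℝ) (φ' : ℂ → ℂ), Ctx n P z₀ R →
  PH n P z₀ φ' → InjOn φ' (sphere 0 1)

/-- BCI (lift of a Blaschke product to the line) -/
def T_BCI : Prop := ∀ (n : ℕ) (B : ℂ → ℂ), 2 ≤ n → IsBlaschke n B →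
  ∃ (b : ℝ → ℝ) (κ : ℝ), Continuous b ∧ 1 < κ ∧ (∀ x y : ℝ, x ≤ y → κ * (y - x) ≤ b y - b x) ∧
    ∀ x : ℝ, B (Complex.exp (2 * Real.pi * x * Complex.I)) =
      Complex.exp (2 * Real.pi * (b x) * Complex.I)

/-- MON (a semiconjugacy at bounded distance from the identity is increasing) -/
def T_MON : Prop := ∀ (n : ℕ) (b γ : ℝ → ℝ) (κ C j : ℝ), 1 ≤ n → 1 < κ →
  (∀ x y : ℝ, x ≤ y → κ * (y - x) ≤ b y - b x) → (∀ x : ℝ, |γ x| ≤ C) →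
  (∀ x : ℝ, b x - γ (b x) = n * (x - γ x) + j) → StrictMono (fun x => x - γ x)

/-- SIN (injectivity of `ψ'` on the circle; from LGB, SPO, BCI, MON) -/
def T_SIN : Prop := ∀ (n : ℕ) (P : ℂ[X]) (z₀ : ℂ) (R : ℝ) (B ψ' φ' : ℂ → ℂ), Ctx n P z₀ R →
  IsBlaschke n B → PS P z₀ B ψ' → PH n P z₀ φ' → InjOn φ' (sphere 0 1) →
  InjOn ψ' (sphere 0 1)

/-! ### H: conclusion -/

/-- CNV (from rational maps to polynomials) -/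
def T_CNV : Prop := ∀ (n : ℕ) (x : RatMap n) (z₀ : ℂ), 2 ≤ n →
  (∀ i : Fin n, (i : ℕ) ≠ 0 → x.1.2 i = 0) → x.num.eval z₀ / x.den.eval z₀ = z₀ →
  ‖deriv (fun z => x.num.eval z / x.den.eval z) z₀‖ < 1 →
  (∀ c : ℂ, deriv (fun z => x.num.eval z / x.den.eval z) c = 0 →
    c ∈ connectedComponentIn {v : ℂ | Tendsto (fun m : ℕ =>
      (fun z => x.num.eval z / x.den.eval z)^[m] v) atTop (𝓝 z₀)} z₀) →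
  ∃ v : ℂ, v ≠ 0 ∧ x.den = C v ∧ HP n (C v⁻¹ * x.num) z₀

/-- FIN (the mating) -/
def T_FIN : Prop := ∀ (n : ℕ) (x : RatMap n) (v z₀ : ℂ) (R : ℝ) (B ψ' φ' : ℂ → ℂ), v ≠ 0 →
  x.den = C v → Ctx n (C v⁻¹ * x.num) z₀ R → z₀ ≠ 0 → IsBlaschke n B →
  PS (C v⁻¹ * x.num) z₀ B ψ' → InjOn ψ' (sphere 0 1) → PH n (C v⁻¹ * x.num) z₀ φ' →
  InjOn φ' (sphere 0 1) → ∃ b : ℂ, Marked n B b ∧ Mates n (fun z => z ^ n) 1 B b (cls x)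

end Pool.Agent.BSL
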